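import Pool.Agent.Lib.TWS.MonA
import Pool.Agent.Lib.TWC.HSx
import Pool.Agent.Lib.TWC.Tow

/-!
# TANK W, row R6: adjunction of monomials, part B

* `TL.pm`: `z` of radius `s` over `A` has the radius `s` over `PM v A G M`;
* `TL.scale`: the radius becomes `0` over `PM v A G M`, if `s` is the value of a monomial;
* `Tow.pm`: towers;
* `PM.perf`, `PM.pcl`: perfect fields, perfect closures.
-/

set_option autoImplicit false

open Polynomial

namespace Pool.Agent.TWS

open Pool.Agent.H15JM (RVal)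
open Pool.Agent.LU1 (VPos adj)
open Pool.Agent.LUC (Cl clF)
open Pool.Agent.D2 (Ctx0)
open Pool.Agent.D2P (hen clI mem_clI)
open Pool.Agent.TWM
open Pool.Agent.TWC (Tow clI_mono' clI_le' pcl mem_pcl)

universe u

variable {k Ω : Type u} [Field k] [Field Ω] [Algebra k Ω] {v : RVal Ω}
  {A₀ A B : IntermediateField k Ω} {G : AddSubgroup ℝ} {M : ℝ → Ω}

/-! ### Strict polynomials -/

theorem Str.far {s : ℝ} {H : Polynomial Ω} (h : Str v s H) {t : Ω} (ht : H.eval t = 0) :
    t ≠ 0 ∧ v t < s := by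
  have h0 : t ≠ 0 := by
    rintro rfl
    exact h.ne (by rwa [← coeff_zero_eq_eval_zero] at ht)
  refine ⟨h0, ?_⟩
  by_contra h1
  rw [not_lt] at h1
  have h2 : Gt v (v (H.coeff 0)) (H.eval t - H.coeff 0) := by
    have h3 : H.eval t - H.coeff 0 = ∑ l ∈ Finset.Icc 1 H.natDegree, H.coeff l * t ^ l := by
      rw [eval_eq_sum_range, Finset.sum_range_eq_add_Ico _ (Nat.succ_pos _), pow_zero, mul_one,
        add_sub_cancel_left]
      rfl
    rw [h3]
    refine Gt.sum _ _ fun l hl => ?_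
    have h4 := (h.gt l (Finset.mem_Icc.1 hl).1).mul_ge (ge_pow (RVal.ge_self (v := v) t) l)
    refine h4.mono ?_
    have h5 : (l : ℝ) * s ≤ l * v t := mul_le_mul_of_nonneg_left h1 (Nat.cast_nonneg _)
    linarith
  rw [ht, zero_sub] at h2
  have h3 := h2.neg
  rw [neg_neg] at h3
  exact not_gt_self h.ne h3

/-- Polynomials near to a strict one. -/
theorem Str.congr {s : ℝ} {H H' : Polynomial Ω} (h : Str v s H) {b : ℝ} {d : ℕ}
    (hd' : H'.natDegree ≤ d)
    (hc : ∀ j, v.Ge b (H.coeff j - H'.coeff j)) (hb : v (H.coeff 0) + d * |s| < b) :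
    Str v s H' := by
  have hb0 : v (H.coeff 0) < b := by
    have : (0 : ℝ) ≤ d * |s| := by positivity
    linarith
  obtain ⟨h1, h2⟩ := Gt.val_eq h.ne (Gt.of_ge (hc 0) hb0)
  refine ⟨h1, fun l hl => ?_⟩
  by_cases hld : l ≤ d
  · have e : H'.coeff l = H.coeff l - (H.coeff l - H'.coeff l) := by ring
    rw [e, h2]
    refine (h.gt l hl).sub (Gt.of_ge (hc l) ?_)
    have h3 : (l : ℝ) * |s| ≤ d * |s| :=
      mul_le_mul_of_nonneg_right (by exact_mod_cast hld) (abs_nonneg s)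
    have h4 : -((l : ℝ) * |s|) ≤ l * s := by
      rw [← mul_neg]
      exact mul_le_mul_of_nonneg_left (neg_abs_le s) (Nat.cast_nonneg _)
    linarith
  · have h3 : H'.coeff l = 0 := coeff_eq_zero_of_natDegree_lt (by omega)
    rw [h3]
    exact Gt.zero

/-! ### Polynomials over the field with the monomials -/

/-- The polynomial `∑ F_g M g`. -/
noncomputable def evP (M : ℝ → Ω) (L : ℝ →₀ Polynomial Ω) : Polynomial Ω :=
  L.sum fun g F => F * C (M g)

/-- The Taylor coefficients. -/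
noncomputable def tl (z : Ω) (j : ℕ) (L : ℝ →₀ Polynomial Ω) : ℝ →₀ Ω :=
  L.mapRange (fun F : Polynomial Ω => (taylor z F).coeff j) (by rw [map_zero, coeff_zero])

theorem tl_apply (z : Ω) (j : ℕ) (L : ℝ →₀ Polynomial Ω) (g : ℝ) :
    tl z j L g = (taylor z (L g)).coeff j := Finsupp.mapRange_apply ..

theorem tl_zero (z : Ω) (L : ℝ →₀ Polynomial Ω) (g : ℝ) : tl z 0 L g = (L g).eval z := by
  rw [tl_apply, taylor_coeff_zero]

theorem evP_coeff_taylor (L : ℝ →₀ Polynomial Ω) (z : Ω) (j : ℕ) :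
    (taylor z (evP M L)).coeff j = evM M (tl z j L) := by
  rw [evP, Finsupp.sum, map_sum, finsetSum_coeff, evM, tl, Finsupp.sum_mapRange_index
    (fun _ => zero_mul _), Finsupp.sum]
  refine Finset.sum_congr rfl fun g _ => ?_
  rw [taylor_mul, taylor_C, coeff_mul_C]

variable [IsAlgClosed Ω]

omit [IsAlgClosed Ω] in
theorem PI_le (h : A ≤ B) {f : Polynomial Ω} (hf : f ∈ PI A) : f ∈ PI B := fun i => h (hf i)

/-- Strictness for the sums. -/
theorem str_evP (hM : MonG v A₀ G M) (hi : Imm v A₀ A) {z : Ω} {s : ℝ} (hz : TL v A z s)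
    {L : ℝ →₀ Polynomial Ω} (h0 : L ≠ 0) (hL : ∀ g, L g ∈ PI A)
    (hr : ∀ g, L g ≠ 0 → g ∈ G ∧ rep v A₀ G g = g) :
    Str v s (taylor z (evP M L)) ∧
      ∀ g, L g ≠ 0 → v ((evP M L).eval z) ≤ v ((L g).eval z * M g) := by
  classical
  have hB : Imm v A₀ (TWM.cadj v A z) := hi.trans hz.imm
  have hzB := self_mem_cadj v A z
  have hNF : ∀ j, NF v A₀ (TWM.cadj v A z) G (tl z j L) := by
    intro j
    refine ⟨fun g => ?_, fun g hg => hr g fun h1 => hg ?_⟩
    · rw [tl_apply]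
      exact taylor_mem_PI (PI_le (le_cadj v A z) (hL g)) hzB j
    · rw [tl_apply, h1, map_zero, coeff_zero]
  have hev : ∀ g, L g ≠ 0 → (L g).eval z ≠ 0 := fun g hg =>
    hz.eval_ne (PI_le (le_algc A) (hL g)) hg
  have hL0 : tl z 0 L ≠ 0 := by
    obtain ⟨g, hg⟩ := Finsupp.ne_iff.1 h0
    refine Finsupp.ne_iff.2 ⟨g, ?_⟩
    rw [tl_zero]
    exact hev g hg
  obtain ⟨r, hr0, h1, -, h3, h4⟩ := lead hM hB (hNF 0) hL0
  rw [← h4] at h1
  rw [tl_zero] at hr0
  have hmin : ∀ g, L g ≠ 0 → v (evM M (tl z 0 L)) ≤ v ((L g).eval z * M g) := by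
    intro g hg0
    have hMg := hM.ms.ne g (hr g hg0).1
    by_cases hgr : g = r
    · rw [hgr, h4, tl_zero]
    · have h7 := h1 g hgr
      rw [tl_zero] at h7
      exact (h7 (mul_ne_zero (hev g hg0) hMg)).le
  refine ⟨⟨by rw [evP_coeff_taylor]; exact h3, fun l hl => ?_⟩, fun g hg => ?_⟩
  · rw [evP_coeff_taylor, evP_coeff_taylor]
    have h8 : evM M (tl z l L) = ∑ g ∈ (tl z l L).support, tl z l L g * M g := rfl
    rw [h8]
    refine Gt.sum _ _ fun g hg => ?_
    rw [tl_apply]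
    have hg0 : L g ≠ 0 := by
      intro h5
      rw [Finsupp.mem_support_iff, tl_apply, h5, map_zero, coeff_zero] at hg
      exact hg rfl
    have hMg := hM.ms.ne g (hr g hg0).1
    have h5 := (hz.strict (PI_le (le_algc A) (hL g)) hg0 hl).mul_ge (RVal.ge_self (v := v) (M g))
    refine h5.mono ?_
    have h6 := hmin g hg0
    rw [v.map_mul (hev g hg0) hMg] at h6
    linarith
  · have h9 := evP_coeff_taylor (M := M) L z 0
    rw [taylor_coeff_zero] at h9
    rw [h9]
    exact hmin g hg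

omit [IsAlgClosed Ω] in
/-- Polynomials over the sums. -/
theorem exists_evP (hM : MonG v A₀ G M) (hA : A₀ ≤ A) {F : Polynomial Ω}
    (hF : ∀ i, F.coeff i ∈ AM A hM.ms) : ∃ L : ℝ →₀ Polynomial Ω, (∀ g, L g ∈ PI A) ∧
      (∀ g, L g ≠ 0 → g ∈ G ∧ rep v A₀ G g = g) ∧ F = evP M L ∧
      ∀ g, (L g).natDegree ≤ F.natDegree := by
  classical
  choose N hN hNe using fun i => exists_nf hM hA (hF i)
  set d := F.natDegree with hd
  set L : ℝ →₀ Polynomial Ω := ∑ i ∈ Finset.range (d + 1),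
    (N i).mapRange (fun a : Ω => C a * X ^ i) (by simp) with hL
  have hLg : ∀ g, L g = ∑ i ∈ Finset.range (d + 1), C (N i g) * X ^ i := by
    intro g
    rw [hL, Finsupp.finsetSum_apply]
    exact Finset.sum_congr rfl fun i _ => by rw [Finsupp.mapRange_apply]
  refine ⟨L, fun g => ?_, fun g hg => ?_, ?_, fun g => ?_⟩
  · rw [hLg]
    exact sum_mem fun i _ => mul_mem (C_mem_PI ((hN i).mem g)) (pow_mem X_mem_PI _)
  · rw [hLg] at hg
    obtain ⟨i, -, hi⟩ := Finset.exists_ne_zero_of_sum_ne_zero hg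
    refine (hN i).rep g fun h1 => hi ?_
    rw [h1, C_0, zero_mul]
  · have h1 : evP M L = ∑ i ∈ Finset.range (d + 1), C (evM M (N i)) * X ^ i := by
      have h2 : ∀ L₁ L₂ : ℝ →₀ Polynomial Ω, evP M (L₁ + L₂) = evP M L₁ + evP M L₂ :=
        fun L₁ L₂ => Finsupp.sum_add_index' (fun _ => zero_mul _) fun _ _ _ => add_mul _ _ _
      have h3 : evP M (0 : ℝ →₀ Polynomial Ω) = 0 := Finsupp.sum_zero_index
      have h4 : ∀ T : Finset ℕ, evP M (∑ i ∈ T,
          (N i).mapRange (fun a : Ω => C a * X ^ i) (by simp)) =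
            ∑ i ∈ T, C (evM M (N i)) * X ^ i := by
        intro T
        induction T using Finset.induction_on with
        | empty => rw [Finset.sum_empty, Finset.sum_empty, h3]
        | insert i T hi ih =>
          rw [Finset.sum_insert hi, Finset.sum_insert hi, h2, ih]
          congr 1
          rw [evP, Finsupp.sum_mapRange_index (fun _ => zero_mul _), evM, Finsupp.sum,
            Finsupp.sum, map_sum, Finset.sum_mul]
          refine Finset.sum_congr rfl fun g _ => ?_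
          rw [C_mul]
          ring
      exact h4 _
    rw [h1]
    conv_lhs => rw [F.as_sum_range_C_mul_X_pow]
    exact Finset.sum_congr rfl fun i _ => by rw [← hNe]
  · rw [hLg]
    refine natDegree_sum_le_of_forall_le _ _ fun i hi => ?_
    refine (natDegree_C_mul_X_pow_le _ _).trans ?_
    exact Nat.le_of_lt_succ (Finset.mem_range.1 hi)

/-- Strictness over `PM v A G M`, monic polynomials. -/
theorem str_monic (hM : MonG v A₀ G M) (hi : Imm v A₀ A) {z : Ω} {s : ℝ} (hz : TL v A z s)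
    {F : Polynomial Ω} (hF : F ∈ PI (PM v A G M)) (hmo : F.Monic) : Str v s (taylor z F) := by
  classical
  set d := F.natDegree with hd
  -- the bound
  obtain ⟨c, hc⟩ : ∃ c : ℝ, ∀ H : Polynomial Ω, H.natDegree ≤ d → ∀ b : ℝ,
      (∀ i, v.Ge (b + c) (H.coeff i)) → ∀ j, v.Ge b ((taylor z H).coeff j) := by
    refine ⟨d * |v z|, fun H hH b hb j => ?_⟩
    rw [taylor_coeff, hasseDeriv_apply, Polynomial.sum, eval_finsetSum]
    refine RVal.Ge.sum _ _ fun n hn => ?_
    rw [eval_monomial, mul_assoc]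
    have hnd : n ≤ d := (le_natDegree_of_mem_supp n hn).trans hH
    have h1 := (ge_natCast v (n.choose j)).mul ((hb n).mul (ge_pow (RVal.ge_self (v := v) z)
      (n - j)))
    refine h1.mono ?_
    have h2 : -(((n - j : ℕ) : ℝ) * |v z|) ≤ ((n - j : ℕ) : ℝ) * v z := by
      rw [← mul_neg]
      exact mul_le_mul_of_nonneg_left (neg_abs_le _) (Nat.cast_nonneg _)
    have h3 : ((n - j : ℕ) : ℝ) * |v z| ≤ d * |v z| :=
      mul_le_mul_of_nonneg_right (by exact_mod_cast (Nat.sub_le n j).trans hnd) (abs_nonneg _)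
    linarith
  set b : ℝ := d * s + d * |s| + 1 with hb
  -- approximation
  choose y hy hyF using fun i => dense_AM hM hi (hF i) (b + c)
  set F' : Polynomial Ω := X ^ d + ∑ i ∈ Finset.range d, C (y i) * X ^ i with hF'
  have hlt : (∑ i ∈ Finset.range d, C (y i) * X ^ i).degree < (d : WithBot ℕ) := by
    have h1 : ∑ i ∈ Finset.range d, C (y i) * X ^ i = ∑ i : Fin d, C (y i) * X ^ (i : ℕ) :=
      (Fin.sum_univ_eq_sum_range (fun i => C (y i) * X ^ i) d).symm
    rw [h1]
    exact degree_sum_fin_lt _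
  have hmo' : F'.Monic := monic_X_pow_add hlt
  have hdeg' : F'.natDegree = d := by
    rw [hF', natDegree_eq_of_degree_eq (degree_add_eq_left_of_degree_lt (by rwa [degree_X_pow])),
      natDegree_X_pow]
  have hcoe : ∀ i, F'.coeff i = if i < d then y i else if i = d then 1 else 0 := by
    intro i
    rw [hF', coeff_add, coeff_X_pow, finsetSum_coeff]
    simp only [coeff_C_mul_X_pow]
    rw [Finset.sum_ite_eq (Finset.range d) i]
    by_cases h1 : i < d
    · rw [if_pos h1, if_pos (Finset.mem_range.2 h1), if_neg (by omega), zero_add]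
    · rw [if_neg h1, if_neg (fun h => h1 (Finset.mem_range.1 h)), add_zero]
  have hAM : ∀ i, F'.coeff i ∈ AM A hM.ms := by
    intro i
    rw [hcoe]
    split_ifs
    · exact hy i
    · exact one_mem _
    · exact zero_mem _
  have hnear : ∀ i, v.Ge (b + c) ((F' - F).coeff i) := by
    intro i
    rw [coeff_sub, hcoe]
    split_ifs with h1 h2
    · exact ge_sub_comm (hyF i)
    · rw [h2, show F.coeff d = 1 from hmo, sub_self]
      exact RVal.Ge.zero
    · rw [coeff_eq_zero_of_natDegree_lt (by omega : F.natDegree < i), sub_self]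
      exact RVal.Ge.zero
  obtain ⟨L, hLA, hLr, hLe, hLd⟩ := exists_evP hM hi.le hAM
  have hL0 : L ≠ 0 := by
    rintro rfl
    rw [show evP M (0 : ℝ →₀ Polynomial Ω) = 0 from Finsupp.sum_zero_index] at hLe
    exact hmo'.ne_zero hLe
  obtain ⟨h1, h2⟩ := str_evP hM hi hz hL0 hLA hLr
  rw [← hLe] at h1 h2
  -- the value at `z`
  have hr : rep v A₀ G 0 ∈ G ⊓ VG v A₀ := by
    have := rep_sub (v := v) (A₀ := A₀) (G := G) 0
    rwa [sub_zero] at this
  set r := rep v A₀ G 0 with hr'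
  have hrM := hM.mem r hr.1 hr.2
  have hMr := hM.ms.ne r hr.1
  have hlead : (L r).coeff d * M r = 1 := by
    have h3 : F'.coeff d = evM M (L.mapRange (fun H : Polynomial Ω => H.coeff d) (coeff_zero d)) := by
      rw [hLe, evP, Finsupp.sum, finsetSum_coeff, evM, Finsupp.sum_mapRange_index
        (fun _ => zero_mul _), Finsupp.sum]
      exact Finset.sum_congr rfl fun g _ => coeff_mul_C _ _ _
    rw [hcoe, if_neg (lt_irrefl d), if_pos rfl] at h3
    have hNF : NF v A₀ A G (Finsupp.single r (M r)⁻¹ +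
        (-1 : Ω) • L.mapRange (fun H : Polynomial Ω => H.coeff d) (coeff_zero d)) := by
      refine NF.add ⟨fun g => ?_, fun g hg => ?_⟩ (NF.smul ⟨fun g => ?_, fun g hg => hLr g
        fun h4 => hg ?_⟩ (neg_mem (one_mem _)))
      · rw [Finsupp.single_apply]
        split_ifs
        · exact inv_mem (hi.le hrM)
        · exact zero_mem _
      · rw [Finsupp.single_apply] at hg
        split_ifs at hg with h4
        · rw [← h4]
          exact ⟨hr.1, rep_rep 0⟩
        · exact absurd rfl hg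
      · rw [Finsupp.mapRange_apply]
        exact hLA g d
      · rw [Finsupp.mapRange_apply, h4, coeff_zero]
    have h4 : evM M (Finsupp.single r (M r)⁻¹ +
        (-1 : Ω) • L.mapRange (fun H : Polynomial Ω => H.coeff d) (coeff_zero d)) = 0 := by
      rw [evM_add, evM_single, evM_smul, ← h3, inv_mul_cancel₀ hMr]
      ring
    have h5 : ∀ b : ℝ, v.Ge b ((Finsupp.single r (M r)⁻¹ +
        (-1 : Ω) • L.mapRange (fun H : Polynomial Ω => H.coeff d) (coeff_zero d)) r * M r) :=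
      fun b => orth hM hi hNF (by rw [h4]; exact RVal.Ge.zero) r
    rw [Finsupp.add_apply, Finsupp.single_eq_same, Finsupp.smul_apply, smul_eq_mul,
      Finsupp.mapRange_apply] at h5
    have h6 := TWC.eq_zero_of_ge (v := v) h5
    have h7 : ((M r)⁻¹ + -1 * (L r).coeff d) * M r = 1 - (L r).coeff d * M r := by
      rw [add_mul, inv_mul_cancel₀ hMr]
      ring
    rw [h7, sub_eq_zero] at h6
    exact h6.symm
  have hLr0 : L r ≠ 0 := by
    intro h3
    rw [h3, coeff_zero, zero_mul] at hlead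
    exact zero_ne_one hlead
  have hval : v (F'.eval z) ≤ d * s := by
    refine (h2 r hLr0).trans ?_
    have hev := hz.eval_ne (PI_le (le_algc A) (hLA r)) hLr0
    rw [v.map_mul hev hMr]
    have hcd : (L r).coeff d ≠ 0 := left_ne_zero_of_mul_eq_one hlead
    have hcv : v ((L r).coeff d) + v (M r) = 0 := by
      rw [← v.map_mul hcd hMr, hlead, v.map_one]
    have h3 : (taylor z (L r)).coeff d = (L r).coeff d := by
      have hdd : (L r).natDegree = d := le_antisymm ((hLd r).trans hdeg'.le)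
        (le_natDegree_of_ne_zero hcd)
      have h5 : (taylor z (L r)).coeff (L r).natDegree = (L r).coeff (L r).natDegree :=
        coeff_taylor_natDegree z (L r)
      rwa [hdd] at h5
    have h4 := hz.weak (PI_le (le_algc A) (hLA r)) hLr0 d
    rw [h3] at h4
    have h5 := h4 hcd
    linarith
  have hcf : ∀ j, v.Ge b ((taylor z F').coeff j - (taylor z F).coeff j) := by
    intro j
    rw [← coeff_sub, ← map_sub]
    refine hc _ ?_ b hnear j
    exact (natDegree_sub_le _ _).trans (by rw [hdeg', max_self])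
  refine Str.congr h1 (d := d) (by rw [natDegree_taylor]) hcf ?_
  rw [taylor_coeff_zero]
  linarith

/-- **The radius over the field with the monomials.** -/
theorem TL.pm (hM : MonG v A₀ G M) (hi : Imm v A₀ A) {z : Ω} {s : ℝ} (hz : TL v A z s) :
    TL v (PM v A G M) z s where
  lim := Lim.mono hz.lim PM.le
  far := by
    intro θ hθ
    have hint := hθ.isIntegral
    set F : Polynomial Ω := (minpoly (PM v A G M) θ).map (algebraMap _ Ω) with hF
    have hFP : F ∈ PI (PM v A G M) := fun i => by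
      rw [hF, coeff_map]
      exact SetLike.coe_mem _
    have hmo : F.Monic := (minpoly.monic hint).map _
    have hθ0 : F.eval θ = 0 := by
      rw [hF, eval_map_algebraMap]
      exact minpoly.aeval _ _
    have h1 := str_monic hM hi hz hFP hmo
    have h2 : (taylor z F).eval (θ - z) = 0 := by
      rw [taylor_eval, sub_add_cancel, hθ0]
    obtain ⟨h3, h4⟩ := Str.far h1 h2
    have h5 : z - θ ≠ 0 := by
      intro h6
      rw [sub_eq_zero] at h6
      exact h3 (by rw [h6, sub_self])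
    refine ⟨fun h6 => h5 (sub_eq_zero.2 h6), ?_⟩
    rw [← neg_sub, v.map_neg _ h3]
    exact h4

omit [IsAlgClosed Ω] in
/-- Scaling. -/
theorem TL.scale {z : Ω} {s : ℝ} (hz : TL v A z s) {c : Ω} (hc : c ∈ A) (hc0 : c ≠ 0)
    (hs : v c = s) : TL v A (z / c) 0 ∧ TWM.cadj v A (z / c) = TWM.cadj v A z := by
  have e : z / c = c⁻¹ * z + 0 := by
    rw [add_zero, div_eq_inv_mul]
  rw [e]
  refine ⟨?_, cadj_affine (inv_mem hc) (inv_ne_zero hc0) (zero_mem _)⟩
  have h1 := TL.affine hz (inv_mem hc) (inv_ne_zero hc0) (zero_mem A)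
  rwa [v.map_inv hc0, hs, neg_add_cancel] at h1

/-- **Every radius which is the value of a monomial becomes `0`.** -/
theorem TL.pm_scale (hM : MonG v A₀ G M) (hi : Imm v A₀ A) {z : Ω} {s : ℝ} (hz : TL v A z s)
    {c : Ω} (hc : c ∈ PM v A G M) (hc0 : c ≠ 0) (hs : v c = s) :
    TL v (PM v A G M) (z / c) 0 ∧
      TWM.cadj v (PM v A G M) (z / c) = PM v (TWM.cadj v A z) G M := by
  obtain ⟨h1, h2⟩ := TL.scale (TL.pm hM hi hz) hc hc0 hs
  exact ⟨h1, by rw [h2, PM.cadj]⟩

/-- Towers. -/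
theorem Tow.pm (hM : MonG v A₀ G M) {n : ℕ} : ∀ {A B : IntermediateField k Ω}, Imm v A₀ A →
    Tow v n A B → Tow v n (PM v A G M) (PM v B G M) := by
  induction n with
  | zero =>
    intro A B _ h
    obtain ⟨_, rfl⟩ := TWC.tow_zero.1 h
    exact Tow.zero PM.cld
  | succ n ih =>
    intro A B hi h
    obtain ⟨z, hz, h'⟩ := TWC.tow_succ.1 h
    have h1 := ih (hi.trans hz.imm) h'
    rw [PM.cadj] at h1
    exact Tow.succ (TL.pm hM hi hz) h1

omit [IsAlgClosed Ω] in
/-- The limits of `A` up to `s`. -/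
theorem lim_pm (hM : MonG v A₀ G M) (hi : Imm v A₀ A) (hB : Imm v A₀ B) (hAB : A ≤ B) {z : Ω}
    (hz : z ∈ B) {s : ℝ} : Lim v (PM v A G M) s z ↔ Lim v A s z := by
  constructor
  · intro h ε hε
    obtain ⟨x, hx, h1⟩ := h ε hε
    exact dist_PM hM hi hB hAB hz hx h1
  · exact fun h => Lim.mono h PM.le

omit [IsAlgClosed Ω] in
theorem nr_pm (hM : MonG v A₀ G M) (hi : Imm v A₀ A) (hB : Imm v A₀ B) (hAB : A ≤ B) {z : Ω}
    (hz : z ∈ B) {s : ℝ} : Nr v (PM v A G M) s z ↔ Nr v A s z := by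
  constructor
  · rintro ⟨x, hx, h1⟩
    exact dist_PM hM hi hB hAB hz hx h1
  · rintro ⟨a, ha, h1⟩
    exact ⟨a, PM.le ha, h1⟩

omit [IsAlgClosed Ω] in
theorem nr'_pm (hM : MonG v A₀ G M) (hi : Imm v A₀ A) (hB : Imm v A₀ B) (hAB : A ≤ B) {z : Ω}
    (hz : z ∈ B) {s : ℝ} : Nr' v (PM v A G M) s z ↔ Nr' v A s z := by
  constructor
  · rintro ⟨x, hx, h1⟩
    by_cases h0 : z - x = 0
    · obtain ⟨a, ha, h2⟩ := dist_PM hM hi hB hAB hz hx (b := s + 1) (by
        rw [h0]
        exact RVal.Ge.zero)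
      exact ⟨a, ha, Gt.of_ge h2 (by linarith)⟩
    · obtain ⟨a, ha, h2⟩ := dist_PM hM hi hB hAB hz hx (RVal.ge_self (z - x))
      exact ⟨a, ha, Gt.of_ge h2 (h1 h0)⟩
  · rintro ⟨a, ha, h1⟩
    exact ⟨a, PM.le ha, h1⟩

/-! ### Perfect fields and perfect closures -/

section Perf

variable (p : ℕ) [hp : Fact p.Prime] [CharP Ω p]

theorem PM.perf (hM : MS v G M) (hG : ∀ g ∈ G, g / p ∈ G) (hA : ∀ a ∈ A, ∃ b ∈ A, b ^ p = a) :
    ∀ a ∈ PM v A G M, ∃ b ∈ PM v A G M, b ^ p = a := by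
  refine TWC.perf_clI p (TWC.perf_sup p hA ?_)
  rintro _ ⟨g, hg, rfl⟩
  refine ⟨M (g / p), (le_sup_right : _ ≤ A ⊔ IntermediateField.adjoin k (M '' (G : Set ℝ)))
    (IntermediateField.subset_adjoin _ _ ⟨g / p, hG g hg, rfl⟩), ?_⟩
  have hp0 : (p : ℝ) ≠ 0 := by exact_mod_cast hp.out.ne_zero
  rw [← hM.pow (hG g hg) p, mul_div_cancel₀ _ hp0]

omit [IsAlgClosed Ω] [CharP Ω p] hp in
/-- The elements whose multiples by powers of `p` are in `G`. -/
def rG (p : ℕ) (G : AddSubgroup ℝ) : AddSubgroup ℝ where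
  carrier := {g | ∃ j : ℕ, (p : ℝ) ^ j * g ∈ G}
  add_mem' := by
    rintro a b ⟨i, hi⟩ ⟨j, hj⟩
    refine ⟨i + j, ?_⟩
    have h1 : (p : ℝ) ^ (i + j) * (a + b) =
        (p ^ j : ℕ) • ((p : ℝ) ^ i * a) + (p ^ i : ℕ) • ((p : ℝ) ^ j * b) := by
      rw [nsmul_eq_mul, nsmul_eq_mul]
      push_cast
      ring
    rw [h1]
    exact G.add_mem (G.nsmul_mem hi _) (G.nsmul_mem hj _)
  zero_mem' := ⟨0, by rw [mul_zero]; exact G.zero_mem⟩
  neg_mem' := by
    rintro a ⟨i, hi⟩
    exact ⟨i, by rw [mul_neg]; exact G.neg_mem hi⟩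

omit [IsAlgClosed Ω] [CharP Ω p] hp in
theorem le_rG : G ≤ rG p G := fun g hg => ⟨0, by rw [pow_zero, one_mul]; exact hg⟩

omit [IsAlgClosed Ω] [CharP Ω p] in
theorem rG_div : ∀ g ∈ rG p G, g / p ∈ rG p G := by
  rintro g ⟨j, hj⟩
  refine ⟨j + 1, ?_⟩
  have hp0 : (p : ℝ) ≠ 0 := by exact_mod_cast hp.out.ne_zero
  have h1 : (p : ℝ) ^ (j + 1) * (g / p) = (p : ℝ) ^ j * g := by
    rw [pow_succ]
    field_simp
  rwa [h1]

theorem pcl_perf (K : IntermediateField k Ω) : ∀ a ∈ pcl p K, ∃ b ∈ pcl p K, b ^ p = a := by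
  rintro a ⟨m, hm⟩
  obtain ⟨b, hb⟩ := IsAlgClosed.exists_pow_nat_eq a hp.out.pos
  refine ⟨b, ⟨m + 1, ?_⟩, hb⟩
  rwa [pow_succ', pow_mul, hb]

omit [IsAlgClosed Ω] in
theorem pcl_mono {K L : IntermediateField k Ω} (h : K ≤ L) : pcl p K ≤ pcl p L := by
  rintro a ⟨m, hm⟩
  exact ⟨m, h hm⟩

omit [IsAlgClosed Ω] in
theorem perf_pow_mem {R : IntermediateField k Ω} (hR : ∀ a ∈ R, ∃ b ∈ R, b ^ p = a) (m : ℕ)
    {x : Ω} (hx : x ^ p ^ m ∈ R) : x ∈ R := by
  induction m with
  | zero => rwa [pow_zero, pow_one] at hx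
  | succ m ih =>
    refine ih ?_
    rw [pow_succ, pow_mul] at hx
    obtain ⟨b, hb, h1⟩ := hR _ hx
    have h2 : b = x ^ p ^ m := frobenius_inj Ω p h1
    rwa [← h2]

/-- **The perfect closure and the monomials.** -/
theorem clI_pcl_pm (K : IntermediateField k Ω) (hM : MS v (rG p G) M) :
    clI v (pcl p (PM v K G M)) = PM v (clI v (pcl p K)) (rG p G) M := by
  refine le_antisymm ?_ ?_
  · refine clI_le' ?_ PM.cld
    rintro x ⟨m, hm⟩
    have h1 : PM v K G M ≤ PM v (clI v (pcl p K)) (rG p G) M := by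
      refine PM.le_of PM.cld ?_ fun g hg => PM.mon (le_rG p hg)
      intro a ha
      exact PM.le (TWC.self_le_clI v _ ⟨0, by rwa [pow_zero, pow_one]⟩)
    exact perf_pow_mem p (PM.perf p hM (rG_div p) (TWC.perf_clI p (pcl_perf p K))) m (h1 hm)
  · refine PM.le_of (cld_clI v _) (clI_mono' (pcl_mono p PM.le)) ?_
    rintro g ⟨j, hj⟩
    refine TWC.self_le_clI v _ ⟨j, ?_⟩
    have h1 : M g ^ p ^ j = M ((p : ℝ) ^ j * g) := by
      rw [← hM.pow ⟨j, hj⟩ (p ^ j)]
      push_cast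
      rfl
    rw [h1]
    exact PM.mon hj

omit [IsAlgClosed Ω] in
/-- The values of the closure. -/
theorem VG.clI (A : IntermediateField k Ω) : VG v (clI v A) = VG v A := by
  refine le_antisymm ?_ (VG.mono (TWC.self_le_clI v A))
  rintro _ ⟨a, ha, h0, rfl⟩
  obtain ⟨b, hb, h1⟩ := mem_clI.1 ha (v a + 1)
  obtain ⟨h2, h3⟩ := Gt.val_eq h0 (Gt.of_ge h1 (by linarith))
  exact ⟨b, hb, h2, h3⟩

omit [IsAlgClosed Ω] in
/-- The values of the perfect closure. -/
theorem VG.pcl (K : IntermediateField k Ω) : VG v (TWC.pcl p K) ≤ rG p (VG v K) := by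
  rintro _ ⟨a, ⟨m, hm⟩, h0, rfl⟩
  refine ⟨m, ?_⟩
  have h1 := VG.self (v := v) hm (pow_ne_zero _ h0)
  rw [v.map_pow h0] at h1
  push_cast at h1
  exact h1

omit [IsAlgClosed Ω] in
/-- The perfect closure has the monomials of the larger group. -/
theorem MonG.pcl {K : IntermediateField k Ω} (h : MonG v K G M) (hM : MS v (rG p G) M) :
    MonG v (clI v (TWC.pcl p K)) (rG p G) M := by
  refine ⟨hM, fun g hg hgV => ?_⟩
  rw [VG.clI] at hgV
  obtain ⟨m, hm⟩ := VG.pcl p K hgV
  obtain ⟨j, hj⟩ := hg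
  have hpm : ∀ (i : ℕ) (H : AddSubgroup ℝ) (x : ℝ), x ∈ H → (p : ℝ) ^ i * x ∈ H := by
    intro i H x hx
    have := H.nsmul_mem hx (p ^ i)
    rwa [nsmul_eq_mul, Nat.cast_pow] at this
  have h1 : (p : ℝ) ^ (j + m) * g ∈ G := by
    rw [add_comm, pow_add, mul_assoc]
    exact hpm m G _ hj
  have h2 : (p : ℝ) ^ (j + m) * g ∈ VG v K := by
    rw [pow_add, mul_assoc]
    exact hpm j _ _ hm
  refine TWC.self_le_clI v _ ⟨j + m, ?_⟩
  have h3 : M g ^ p ^ (j + m) = M ((p : ℝ) ^ (j + m) * g) := by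
    rw [← hM.pow ⟨j, hj⟩ (p ^ (j + m))]
    push_cast
    rfl
  rw [h3]
  exact h.mem _ h1 h2

end Perf

omit [IsAlgClosed Ω] in
/-- A field with the same values is immediate. -/
theorem imm_of_VG (h0 : Ctx0 k v) (hAB : A ≤ B) (hV : VG v B ≤ VG v A) : Imm v A B where
  le := hAB
  imm := by
    intro b hb hb0
    obtain ⟨a, ha, ha0, hab⟩ := hV (VG.self hb hb0)
    have h1 : v (b / a) = 0 := by
      rw [v.map_div hb0 ha0, hab, sub_self]
    obtain ⟨c, -, h2⟩ := h0.res (b / a) (div_ne_zero hb0 ha0) h1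
    refine ⟨a * algebraMap k Ω c, mul_mem ha (A.algebraMap_mem c), ?_⟩
    have h3 : Gt v 0 (b / a - algebraMap k Ω c) := h2
    have e : b - a * algebraMap k Ω c = (b / a - algebraMap k Ω c) * a := by
      field_simp
    rw [e]
    have h4 := h3.mul_ge (RVal.ge_self (v := v) a)
    rwa [zero_add, hab] at h4

omit [IsAlgClosed Ω] in
/-- If the values of `K` are divisible by `p`, then the closure of the perfect closure is
immediate over `K`. -/
theorem imm_pcl (p : ℕ) [hp : Fact p.Prime] [CharP Ω p] (h0 : Ctx0 k v)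
    {K : IntermediateField k Ω} (hV : ∀ g ∈ VG v K, g / p ∈ VG v K) :
    Imm v K (clI v (pcl p K)) := by
  refine imm_of_VG h0 ?_ ?_
  · intro a ha
    exact TWC.self_le_clI v _ ⟨0, by rwa [pow_zero, pow_one]⟩
  · rw [VG.clI]
    refine (VG.pcl p K).trans ?_
    rintro g ⟨j, hj⟩
    have hp0 : (p : ℝ) ≠ 0 := by exact_mod_cast hp.out.ne_zero
    induction j with
    | zero => rwa [pow_zero, one_mul] at hj
    | succ j ih =>
      refine ih ?_
      have h1 := hV _ hj
      have h2 : (p : ℝ) ^ (j + 1) * g / p = (p : ℝ) ^ j * g := by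
        rw [pow_succ]
        field_simp
      rwa [h2] at h1

end Pool.Agent.TWS
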