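import Pool.Agent.Lib.LUM.T01

/-!
# TANK W, row SC (d): the algebraic step

`A ≤ Ω`, `φ : A →ₐ[k] H` isometric, `x ∈ Ω` algebraic over `A`: there is an isometric extension of
`φ` to a field which contains `x`.
-/

set_option autoImplicit false

open Polynomial

namespace Pool.Agent.TWS

open Pool.Agent.H15JM (RVal)

universe u

section

variable {k Ω H : Type u} [Field k] [Field Ω] [Algebra k Ω] [Field H] [Algebra k H]

/-- The valuation induced by a homomorphism of fields. -/
noncomputable def pb {M N : Type*} [Field M] [Field N] (w : RVal N) (f : M →+* N) : RVal M where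
  toFun x := w (f x)
  map_mul' x y hx hy := by
    rw [_root_.map_mul]
    exact w.map_mul (by rwa [Ne, map_eq_zero]) (by rwa [Ne, map_eq_zero])
  map_add' x y hx hy hxy := by
    rw [_root_.map_add]
    refine w.map_add (by rwa [Ne, map_eq_zero]) (by rwa [Ne, map_eq_zero]) ?_
    rw [← _root_.map_add]
    rwa [Ne, map_eq_zero]

/-- `φ` is isometric. -/
def Isom (v : RVal Ω) (w : RVal H) {A : IntermediateField k Ω} (φ : A →ₐ[k] H) : Prop :=
  ∀ a : A, a ≠ 0 → w (φ a) = v (a : Ω)

/-- `ψ` extends `φ`. -/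
def Extn {A A' : IntermediateField k Ω} (φ : A →ₐ[k] H) (ψ : A' →ₐ[k] H) : Prop :=
  ∀ (a : Ω) (h : a ∈ A) (h' : a ∈ A'), ψ ⟨a, h'⟩ = φ ⟨a, h⟩

variable {v : RVal Ω} {w : RVal H} {A : IntermediateField k Ω}

/-- The separable step. -/
theorem sep_step [IsAlgClosed Ω] [IsAlgClosed H] {φ : A →ₐ[k] H} (hφ : Isom v w φ) {x : Ω}
    (hx : IsSeparable A x) :
    ∃ (A' : IntermediateField k Ω) (ψ : A' →ₐ[k] H), A ≤ A' ∧ x ∈ A' ∧ Extn φ ψ ∧
      Isom v w ψ := by
  classical
  letI : Algebra A H := φ.toRingHom.toAlgebra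
  haveI : IsScalarTower k A H := IsScalarTower.of_algebraMap_eq fun c => (φ.commutes c).symm
  have hint : IsIntegral A x := hx.isIntegral
  set M : IntermediateField A Ω := IntermediateField.adjoin A ((minpoly A x).rootSet Ω) with hM
  have hsp : ((minpoly A x).map (algebraMap A Ω)).Splits := IsAlgClosed.splits _
  haveI : (minpoly A x).IsSplittingField A M := IntermediateField.adjoin_rootSet_isSplittingField hsp
  haveI : FiniteDimensional A M := Polynomial.IsSplittingField.finiteDimensional M (minpoly A x)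
  haveI : IsGalois A M := IsGalois.of_separable_splitting_field (p := minpoly A x) hx
  have hxM : x ∈ M := by
    refine IntermediateField.subset_adjoin _ _ ?_
    rw [Polynomial.mem_rootSet]
    exact ⟨minpoly.ne_zero hint, minpoly.aeval A x⟩
  let ψ₀ : M →ₐ[A] H := IsAlgClosed.lift
  obtain ⟨t, ht⟩ := LUM.conj_finite (F := A) (M := M) (pb w ψ₀.toRingHom)
    (pb v (algebraMap M Ω)) (by
      intro a ha
      change w (ψ₀ (algebraMap A M a)) = v (algebraMap M Ω (algebraMap A M a))
      rw [ψ₀.commutes]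
      exact hφ a ha)
  refine ⟨M.restrictScalars k, (ψ₀.comp (t : M →ₐ[A] M)).restrictScalars k, ?_, hxM, ?_, ?_⟩
  · intro a ha
    exact M.algebraMap_mem ⟨a, ha⟩
  · intro a h h'
    exact (ψ₀.comp (t : M →ₐ[A] M)).commutes ⟨a, h⟩
  · intro a ha
    exact (ht a ha).symm

/-- The purely inseparable step. -/
theorem insep_step [IsAlgClosed H] {φ : A →ₐ[k] H} (hφ : Isom v w φ) {x : Ω}
    {q : ℕ} [ExpChar A q] {n : ℕ} (hx : x ^ q ^ n ∈ A) :
    ∃ (A' : IntermediateField k Ω) (ψ : A' →ₐ[k] H), A ≤ A' ∧ x ∈ A' ∧ Extn φ ψ ∧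
      Isom v w ψ := by
  classical
  letI : Algebra A H := φ.toRingHom.toAlgebra
  haveI : IsScalarTower k A H := IsScalarTower.of_algebraMap_eq fun c => (φ.commutes c).symm
  set M : IntermediateField A Ω := IntermediateField.adjoin A {x} with hM
  have hxM : x ∈ M := IntermediateField.subset_adjoin _ _ rfl
  haveI : IsPurelyInseparable A M := by
    rw [hM, IntermediateField.isPurelyInseparable_adjoin_simple_iff_pow_mem A Ω q]
    exact ⟨n, ⟨x ^ q ^ n, hx⟩, rfl⟩
  haveI : Algebra.IsAlgebraic A M := inferInstance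
  let ψ₀ : M →ₐ[A] H := IsAlgClosed.lift
  refine ⟨M.restrictScalars k, ψ₀.restrictScalars k, ?_, hxM, ?_, ?_⟩
  · intro a ha
    exact M.algebraMap_mem ⟨a, ha⟩
  · intro a h h'
    exact ψ₀.commutes ⟨a, h⟩
  · suffices h : ∀ a : M, a ≠ 0 → w (ψ₀ a) = v (a : Ω) from fun a ha => h ⟨a, a.2⟩ fun h0 =>
      ha (Subtype.ext (congrArg Subtype.val h0))
    intro a ha'
    obtain ⟨m, y, hy⟩ := IsPurelyInseparable.pow_mem A q a
    have hq : (0 : ℝ) < (q ^ m : ℕ) := by
      exact_mod_cast Nat.pow_pos (expChar_pos A q)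
    have hy0 : y ≠ 0 := by
      rintro rfl
      rw [map_zero] at hy
      exact pow_ne_zero _ ha' hy.symm
    have h1 : w (ψ₀ a) * (q ^ m : ℕ) = v (y : Ω) := by
      have h2 : ψ₀ a ^ q ^ m = φ y := by
        rw [← map_pow, ← hy, ψ₀.commutes]
        rfl
      have h3 : ψ₀ a ≠ 0 := by rwa [Ne, map_eq_zero]
      rw [mul_comm, ← w.map_pow h3, h2]
      exact hφ y hy0
    have h4 : v (a : Ω) * (q ^ m : ℕ) = v (y : Ω) := by
      have h5 : (a : Ω) ^ q ^ m = (y : Ω) := by
        have := congrArg (algebraMap M Ω) hy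
        rw [map_pow] at this
        exact this.symm
      have h3 : (a : Ω) ≠ 0 := fun h => ha' (Subtype.ext h)
      rw [mul_comm, ← v.map_pow h3, h5]
    exact mul_right_cancel₀ hq.ne' (h1.trans h4.symm)

/-- **THE ALGEBRAIC STEP.** -/
theorem alg_step [IsAlgClosed Ω] [IsAlgClosed H] {φ : A →ₐ[k] H} (hφ : Isom v w φ) {x : Ω}
    (hx : IsAlgebraic A x) :
    ∃ (A' : IntermediateField k Ω) (ψ : A' →ₐ[k] H), A ≤ A' ∧ x ∈ A' ∧ Extn φ ψ ∧
      Isom v w ψ := by
  classical
  obtain ⟨q, hq⟩ := ExpChar.exists A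
  obtain ⟨n, hn⟩ : ∃ n : ℕ, IsSeparable A (x ^ q ^ n) := by
    set L : IntermediateField A Ω := IntermediateField.adjoin A {x} with hL
    have hxL : x ∈ L := IntermediateField.subset_adjoin _ _ rfl
    haveI : Algebra.IsAlgebraic A L := IntermediateField.isAlgebraic_adjoin_simple hx.isIntegral
    haveI : ExpChar (separableClosure A L) q :=
      expChar_of_injective_algebraMap (algebraMap A (separableClosure A L)).injective q
    obtain ⟨n, s, hs⟩ := IsPurelyInseparable.pow_mem (separableClosure A L) q (⟨x, hxL⟩ : L)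
    refine ⟨n, ?_⟩
    have h1 : IsSeparable A ((s : separableClosure A L) : L) := mem_separableClosure_iff.1 s.2
    have h2 : IsSeparable A (L.val ((s : separableClosure A L) : L)) := h1.map L.val L.val.injective
    have h3 : L.val ((s : separableClosure A L) : L) = x ^ q ^ n := by
      have : ((s : separableClosure A L) : L) = (⟨x, hxL⟩ : L) ^ q ^ n := hs
      rw [this, map_pow]
      rfl
    rwa [h3] at h2
  obtain ⟨B, ψ, h1, h2, h3, h4⟩ := sep_step hφ hn
  haveI : ExpChar B q := by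
    letI : Algebra A B := (IntermediateField.inclusion h1).toRingHom.toAlgebra
    exact expChar_of_injective_algebraMap (algebraMap A B).injective q
  obtain ⟨B', ψ', h1', h2', h3', h4'⟩ := insep_step h4 (x := x) (q := q) (n := n) h2
  exact ⟨B', ψ', h1.trans h1', h2', fun a h h' => (h3' a (h1 h) h').trans (h3 a h (h1 h)), h4'⟩

end

end Pool.Agent.TWS
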