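import Pool.Agent.Lib.TWS.Trans
import Pool.Agent.Lib.TWS.AlgStep

/-!
# TANK W: embeddings in a spherically complete field

`exists_emb`: `Ω` algebraically closed with residue field `k`, `H` spherically complete,
algebraically closed, with all values: there is an isometric embedding `Ω → H`.
-/

set_option autoImplicit false

open Polynomial IntermediateField

namespace Pool.Agent.TWS

open Pool.Agent.H15JM (RVal)
open Pool.Agent.LU1 (VPos)
open Pool.Agent.D2 (Ctx0)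
open Pool.Agent.TWM

universe u

variable {k Ω H : Type u} [Field k] [Field Ω] [Algebra k Ω] [Field H] [Algebra k H]
  {v : RVal Ω} {w : RVal H}

theorem IsoL.bot (hk : Ctx0 k v) (hkw : Ctx0 k w) : IsoL v w (⊥ : Lifts k Ω H) := by
  intro a ha
  obtain ⟨c, hc⟩ := IntermediateField.mem_bot.1 a.2
  have h1 : a = algebraMap k (⊥ : Lifts k Ω H).carrier c := Subtype.ext hc.symm
  have hc0 : c ≠ 0 := by
    rintro rfl
    exact ha (by rw [h1, map_zero])
  rw [h1, AlgHom.commutes, hkw.triv c hc0]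
  exact (hk.triv c hc0).symm

theorem IsoL.union {c : Set (Lifts k Ω H)} (hc : IsChain (· ≤ ·) c) (hne : c.Nonempty)
    (h : ∀ σ ∈ c, IsoL v w σ) : IsoL v w (Lifts.union c hc) := by
  intro a ha
  have hdir : Directed (· ≤ ·) fun i : c => i.1.carrier := by
    intro i j
    rcases hc.total i.2 j.2 with h1 | h1
    · exact ⟨j, h1.1, le_rfl⟩
    · exact ⟨i, le_rfl, h1.1⟩
  have _ : Nonempty c := hne.to_subtype
  have h1 : (a : Ω) ∈ ((⨆ i : c, i.1.carrier : IntermediateField k Ω) : Set Ω) := by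
    rw [← Lifts.carrier_union c hc]
    exact a.2
  rw [IntermediateField.coe_iSup_of_directed hdir, Set.mem_iUnion] at h1
  obtain ⟨i, hi⟩ := h1
  obtain ⟨h2, h3⟩ := Lifts.le_union c hc i.2
  have h4 := h3 ⟨a, hi⟩
  have h5 : inclusion h2 (⟨a, hi⟩ : i.1.carrier) = a := Subtype.ext rfl
  rw [h5] at h4
  rw [h4]
  refine h i.1 i.2 ⟨a, hi⟩ fun h0 => ha (Subtype.ext ?_)
  have h6 : (a : Ω) = 0 := congrArg (fun y : i.1.carrier => (y : Ω)) h0
  exact h6

/-- **The embedding.** -/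
theorem exists_emb_sph [IsAlgClosed Ω] [IsAlgClosed H] (hk : Ctx0 k v) (hkw : Ctx0 k w)
    (hw : SphC w) (hval : ∀ ρ : ℝ, ∃ x : H, x ≠ 0 ∧ w x = ρ) :
    ∃ φ : Ω →ₐ[k] H, ∀ a : Ω, a ≠ 0 → w (φ a) = v a := by
  obtain ⟨m, -, hm⟩ := zorn_le_nonempty₀ {σ : Lifts k Ω H | IsoL v w σ}
    (fun c hcs hc y hy => ⟨Lifts.union c hc, IsoL.union hc ⟨y, hy⟩ fun σ hσ => hcs hσ,
      fun σ hσ => Lifts.le_union c hc hσ⟩) ⊥ (IsoL.bot hk hkw)
  have hmI : IsoL v w m := hm.prop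
  have hA : ∀ θ : Ω, IsAlgebraic m.carrier θ → θ ∈ m.carrier := by
    intro θ hθ
    obtain ⟨A', ψ, h1, h2, h3, h4⟩ := alg_step (φ := m.emb) hmI hθ
    have h5 : m ≤ (⟨A', ψ⟩ : Lifts k Ω H) := ⟨h1, fun x => h3 x x.2 (h1 x.2)⟩
    exact (hm.le_of_ge (y := (⟨A', ψ⟩ : Lifts k Ω H)) h4 h5).1 h2
  have htop : ∀ z : Ω, z ∈ m.carrier := by
    intro z
    by_contra hz
    obtain ⟨τ, h1, h2, h3⟩ := hmI.trans_step hk hw hval hA hz
    exact hz ((hm.le_of_ge h2 h1).1 h3)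
  have htop' : m.carrier = ⊤ := top_unique fun z _ => htop z
  refine ⟨m.emb.comp ((IntermediateField.inclusion htop'.ge).comp
    (IntermediateField.topEquiv (F := k) (E := Ω)).symm.toAlgHom), fun a ha => ?_⟩
  exact hmI ⟨a, htop a⟩ fun h0 => ha (congrArg (fun y : m.carrier => (y : Ω)) h0)

/-- **The embedding in the Hahn field.** -/
theorem exists_emb [IsAlgClosed k] [IsAlgClosed Ω] (hk : Ctx0 k v) :
    ∃ φ : Ω →ₐ[k] HF k, ∀ a : Ω, a ≠ 0 → hv k (φ a) = v a :=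
  exists_emb_sph hk (ctx0_hv k) (sphC_hv k) (exists_val k)

end Pool.Agent.TWS
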