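import Pool.Agent.Lib.TWM.Bridge
import Pool.Agent.Lib.TWC.TowDefs

/-!
# TANK W, row SC: transfer along an isometric embedding

`ι : Ω →ₐ[k] Ω'` is isometric (not necessarily dense), `Ω` is algebraically closed and complete.
Closures, `Cld`, `cadj`, `Lim`, `TL`, `Nr`, `Nr'`, `Imm`, `Fib`, `Tow`, `EW`, `algc`, `BD` of `A`
and of `A.map ι`.
-/

set_option autoImplicit false

open Polynomial

namespace Pool.Agent.TWS

open Pool.Agent.H15JM (RVal)
open Pool.Agent.LU1 (VPos adj)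
open Pool.Agent.LUC (Cl clF)
open Pool.Agent.D2 (Ctx0)
open Pool.Agent.D2P (hen clI mem_clI)
open Pool.Agent.TW (Ctx Full PBasis Orth BD HRone pcomb mon)
open Pool.Agent.TWM
open Pool.Agent.TWM.Dense (inj eq_zero mem_map apply_mem_map map_inj
  isAlgebraic_iff isSeparable_iff exists_of_isAlgebraic adj_map map_mon map_pcomb pbasis_iff)
open Pool.Agent.TWC (Tow EW)

universe u

variable {k Ω Ω' : Type u} [Field k] [Field Ω] [Algebra k Ω] [Field Ω'] [Algebra k Ω']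

/-- `ι` is isometric. -/
structure IsoE (v : RVal Ω) (w : RVal Ω') (ι : Ω →ₐ[k] Ω') : Prop where
  val : ∀ a : Ω, a ≠ 0 → w (ι a) = v a

namespace IsoE

variable {v : RVal Ω} {w : RVal Ω'} {ι : Ω →ₐ[k] Ω'} {A B : IntermediateField k Ω}

theorem ne_zero {a : Ω} (ha : a ≠ 0) : ι a ≠ 0 := fun h => ha (eq_zero.1 h)

theorem ge_iff (h : IsoE v w ι) {c : ℝ} {a : Ω} : w.Ge c (ι a) ↔ v.Ge c a := by
  constructor
  · intro h1 ha
    rw [← h.val a ha]
    exact h1 (ne_zero ha)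
  · intro h1 ha
    have ha' : a ≠ 0 := fun h0 => ha (by rw [h0, map_zero])
    rw [h.val a ha']
    exact h1 ha'

theorem gt_iff (h : IsoE v w ι) {c : ℝ} {a : Ω} : Gt w c (ι a) ↔ Gt v c a := by
  constructor
  · intro h1 ha
    rw [← h.val a ha]
    exact h1 (ne_zero ha)
  · intro h1 ha
    have ha' : a ≠ 0 := fun h0 => ha (by rw [h0, map_zero])
    rw [h.val a ha']
    exact h1 ha'

theorem vpos_iff (h : IsoE v w ι) {a : Ω} : VPos w (ι a) ↔ VPos v a := h.gt_iff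

theorem ctx0 (h : IsoE v w ι) (h0 : Ctx0 k w) : Ctx0 k v where
  triv c hc := by
    have hc' : algebraMap k Ω c ≠ 0 := by rwa [Ne, _root_.map_eq_zero]
    rw [← h.val _ hc', ι.commutes]
    exact h0.triv c hc
  res g hg hg0 := by
    obtain ⟨c, hc, h1⟩ := h0.res (ι g) (ne_zero hg) (by rw [h.val g hg, hg0])
    refine ⟨c, hc, ?_⟩
    rw [← h.vpos_iff, map_sub, ι.commutes]
    exact h1

theorem cl_iff (h : IsoE v w ι) {a : Ω} :
    ι a ∈ Cl w (A.map ι).toSubfield ↔ a ∈ Cl v A.toSubfield := by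
  constructor
  · intro ha c
    obtain ⟨_, ⟨b, hb, rfl⟩, h1⟩ := ha c
    refine ⟨b, hb, ?_⟩
    rw [← h.ge_iff, map_sub]
    exact h1
  · intro ha c
    obtain ⟨b, hb, h1⟩ := ha c
    refine ⟨ι b, ⟨b, hb, rfl⟩, ?_⟩
    rw [← map_sub, h.ge_iff]
    exact h1

/-- The elements near to `ι(A)` are in `ι(Ω)`. -/
theorem exists_of_cl (h : IsoE v w ι) (hc : CompleteV v) {x : Ω'}
    (hx : x ∈ Cl w (A.map ι).toSubfield) : ∃ a : Ω, ι a = x := by
  have h1 : ∀ n : ℕ, ∃ b ∈ A, w.Ge n (x - ι b) := by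
    intro n
    obtain ⟨_, ⟨b, hb, rfl⟩, h1⟩ := hx n
    exact ⟨b, hb, h1⟩
  choose f hf hfx using h1
  obtain ⟨a, ha⟩ := hc f (by
    intro c
    obtain ⟨N, hN⟩ := exists_nat_ge c
    refine ⟨N, fun m n hm hn => ?_⟩
    rw [← h.ge_iff, map_sub]
    have h2 := ((hfx n).mono (hN.trans (by exact_mod_cast hn))).sub
      ((hfx m).mono (hN.trans (by exact_mod_cast hm)))
    rwa [sub_sub_sub_cancel_left] at h2)
  refine ⟨a, ?_⟩
  by_contra hne
  have h0 : x - ι a ≠ 0 := fun h1 => hne (sub_eq_zero.1 h1).symm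
  obtain ⟨N, hN⟩ := ha (w (x - ι a) + 1)
  obtain ⟨M, hM⟩ := exists_nat_ge (w (x - ι a) + 1)
  have h2 := hN (max N M) (le_max_left _ _)
  rw [← h.ge_iff, map_sub] at h2
  have h3 := (hfx (max N M)).mono (hM.trans (by exact_mod_cast le_max_right N M))
  have h4 := h3.sub h2
  rw [sub_sub_sub_cancel_right] at h4
  have := h4 h0
  linarith

theorem clI_map (h : IsoE v w ι) (hc : CompleteV v) (A : IntermediateField k Ω) :
    clI w (A.map ι) = (clI v A).map ι := by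
  refine le_antisymm ?_ ?_
  · intro x hx
    obtain ⟨a, rfl⟩ := h.exists_of_cl hc hx
    exact ⟨a, h.cl_iff.1 hx, rfl⟩
  · rintro _ ⟨a, ha, rfl⟩
    exact h.cl_iff.2 ha

theorem cld_iff (h : IsoE v w ι) (hc : CompleteV v) : Cld w (A.map ι) ↔ Cld v A := by
  unfold Cld
  rw [h.clI_map hc, Dense.map_le_map_iff]

theorem cadj_map (h : IsoE v w ι) (hc : CompleteV v) (A : IntermediateField k Ω) (z : Ω) :
    cadj w (A.map ι) (ι z) = (cadj v A z).map ι := by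
  unfold cadj
  rw [← adj_map, h.clI_map hc]

theorem hen_map [IsAlgClosed Ω] (h : IsoE v w ι) (E : IntermediateField k Ω) :
    hen w (E.map ι) = (hen v E).map ι := by
  refine le_antisymm ?_ ?_
  · intro x hx
    obtain ⟨h1, h2⟩ := D2P.mem_hen.1 hx
    obtain ⟨a, rfl⟩ := exists_of_isAlgebraic h2.isIntegral.isAlgebraic
    exact ⟨a, D2P.mem_hen.2 ⟨h.cl_iff.1 h1, isSeparable_iff.1 h2⟩, rfl⟩
  · rintro _ ⟨a, ha, rfl⟩
    obtain ⟨h1, h2⟩ := D2P.mem_hen.1 ha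
    exact D2P.mem_hen.2 ⟨h.cl_iff.2 h1, isSeparable_iff.2 h2⟩

theorem algc_map [IsAlgClosed Ω] (A : IntermediateField k Ω) :
    algc (A.map ι) = (algc A).map ι := by
  refine le_antisymm ?_ ?_
  · intro x hx
    obtain ⟨a, rfl⟩ := exists_of_isAlgebraic (mem_algc.1 hx)
    exact ⟨a, mem_algc.2 (isAlgebraic_iff.1 (mem_algc.1 hx)), rfl⟩
  · rintro _ ⟨a, ha, rfl⟩
    exact mem_algc.2 (isAlgebraic_iff.2 (mem_algc.1 ha))

theorem lim_iff (h : IsoE v w ι) {s : ℝ} {z : Ω} : Lim w (A.map ι) s (ι z) ↔ Lim v A s z := by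
  constructor
  · intro h1 ε hε
    obtain ⟨_, ⟨b, hb, rfl⟩, h2⟩ := h1 ε hε
    exact ⟨b, hb, by rw [← h.ge_iff, map_sub]; exact h2⟩
  · intro h1 ε hε
    obtain ⟨b, hb, h2⟩ := h1 ε hε
    exact ⟨ι b, ⟨b, hb, rfl⟩, by rw [← map_sub, h.ge_iff]; exact h2⟩

theorem nr_iff (h : IsoE v w ι) {s : ℝ} {z : Ω} : Nr w (A.map ι) s (ι z) ↔ Nr v A s z := by
  constructor
  · rintro ⟨_, ⟨b, hb, rfl⟩, h2⟩
    exact ⟨b, hb, by rw [← h.ge_iff, map_sub]; exact h2⟩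
  · rintro ⟨b, hb, h2⟩
    exact ⟨ι b, ⟨b, hb, rfl⟩, by rw [← map_sub, h.ge_iff]; exact h2⟩

theorem nr'_iff (h : IsoE v w ι) {s : ℝ} {z : Ω} : Nr' w (A.map ι) s (ι z) ↔ Nr' v A s z := by
  constructor
  · rintro ⟨_, ⟨b, hb, rfl⟩, h2⟩
    exact ⟨b, hb, by rw [← h.gt_iff, map_sub]; exact h2⟩
  · rintro ⟨b, hb, h2⟩
    exact ⟨ι b, ⟨b, hb, rfl⟩, by rw [← map_sub, h.gt_iff]; exact h2⟩

theorem imm_iff (h : IsoE v w ι) : Imm w (A.map ι) (B.map ι) ↔ Imm v A B := by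
  constructor
  · intro h1
    refine ⟨Dense.map_le_map_iff.1 h1.le, fun b hb hb0 => ?_⟩
    obtain ⟨_, ⟨a, ha, rfl⟩, h2⟩ := h1.imm (ι b) ⟨b, hb, rfl⟩ (ne_zero hb0)
    refine ⟨a, ha, ?_⟩
    rw [← h.gt_iff, map_sub, ← h.val b hb0]
    exact h2
  · intro h1
    refine ⟨Dense.map_le_map_iff.2 h1.le, ?_⟩
    rintro _ ⟨b, hb, rfl⟩ hb0
    have hb0' : b ≠ 0 := fun h0 => hb0 (by rw [h0]; exact map_zero ι)
    obtain ⟨a, ha, h2⟩ := h1.imm b hb hb0'
    refine ⟨ι a, ⟨a, ha, rfl⟩, ?_⟩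
    have h3 : Gt w (w (ι b)) (ι b - ι a) := by
      rw [h.val b hb0', ← map_sub, h.gt_iff]
      exact h2
    exact h3

theorem tl_iff [IsAlgClosed Ω] (h : IsoE v w ι) {s : ℝ} {z : Ω} :
    TL w (A.map ι) (ι z) s ↔ TL v A z s := by
  constructor
  · intro h1
    refine ⟨h.lim_iff.1 h1.lim, fun θ hθ => ?_⟩
    obtain ⟨h2, h3⟩ := h1.far (ι θ) (isAlgebraic_iff.2 hθ)
    have h4 : z ≠ θ := fun h0 => h2 (by rw [h0])
    refine ⟨h4, ?_⟩
    rw [← h.val _ (sub_ne_zero.2 h4), map_sub]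
    exact h3
  · intro h1
    refine ⟨h.lim_iff.2 h1.lim, fun θ hθ => ?_⟩
    obtain ⟨a, rfl⟩ := exists_of_isAlgebraic hθ
    obtain ⟨h2, h3⟩ := h1.far a (isAlgebraic_iff.1 hθ)
    refine ⟨fun h0 => h2 (inj ι h0), ?_⟩
    rw [← map_sub, h.val _ (sub_ne_zero.2 h2)]
    exact h3

theorem fib_iff [IsAlgClosed Ω] (h : IsoE v w ι) (hc : CompleteV v) {ρ s : ℝ} {y z : Ω} :
    Fib w (A.map ι) (B.map ι) (ι y) (ι z) ρ s ↔ Fib v A B y z ρ s := by
  constructor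
  · intro h1
    refine ⟨h.tl_iff.1 h1.ty, ?_, ?_⟩
    · have h2 := h1.tz
      rw [h.cadj_map hc] at h2
      exact h.tl_iff.1 h2
    · have h2 := h1.eq
      rw [h.cadj_map hc, h.cadj_map hc] at h2
      exact map_inj h2
  · intro h1
    refine ⟨h.tl_iff.2 h1.ty, ?_, ?_⟩
    · rw [h.cadj_map hc]
      exact h.tl_iff.2 h1.tz
    · rw [h.cadj_map hc, h.cadj_map hc, ← h1.eq]

theorem perf_iff (p : ℕ) :
    (∀ a ∈ A.map ι, ∃ b ∈ A.map ι, b ^ p = a) ↔ ∀ a ∈ A, ∃ b ∈ A, b ^ p = a := by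
  constructor
  · intro h1 a ha
    obtain ⟨_, ⟨b, hb, rfl⟩, h2⟩ := h1 (ι a) ⟨a, ha, rfl⟩
    refine ⟨b, hb, inj ι ?_⟩
    rw [map_pow]
    exact h2
  · rintro h1 _ ⟨a, ha, rfl⟩
    obtain ⟨b, hb, rfl⟩ := h1 a ha
    exact ⟨ι b, ⟨b, hb, rfl⟩, (map_pow ι b p).symm⟩

theorem tow_map [IsAlgClosed Ω] (h : IsoE v w ι) (hc : CompleteV v) {n : ℕ} (hT : Tow v n A B) :
    Tow w n (A.map ι) (B.map ι) := by
  induction hT with
  | zero h1 => exact Tow.zero ((h.cld_iff hc).2 h1)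
  | succ h1 _ ih =>
    rw [← h.cadj_map hc] at ih
    exact Tow.succ (h.tl_iff.2 h1) ih

theorem tow_le {n : ℕ} {A B : IntermediateField k Ω} (hT : Tow v n A B) : A ≤ B := by
  induction hT with
  | zero _ => exact le_rfl
  | succ _ _ ih => exact fun x hx => ih (LUC.Cl.subset ((D2P.mem_adj_self _ _).2 hx))

theorem tow_iff [IsAlgClosed Ω] (h : IsoE v w ι) (hc : CompleteV v) {n : ℕ} :
    Tow w n (A.map ι) (B.map ι) ↔ Tow v n A B := by
  refine ⟨fun hT => ?_, h.tow_map hc⟩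
  obtain ⟨A', hA'⟩ : ∃ A' : IntermediateField k Ω', A' = A.map ι := ⟨_, rfl⟩
  obtain ⟨B', hB'⟩ : ∃ B' : IntermediateField k Ω', B' = B.map ι := ⟨_, rfl⟩
  rw [← hA', ← hB'] at hT
  induction hT generalizing A with
  | zero h1 =>
    subst hA'
    have h2 := map_inj hB'
    subst h2
    exact Tow.zero ((h.cld_iff hc).1 h1)
  | @succ n A₁ B₁ z hz hT ih =>
    have h2 : z ∈ B.map ι := by
      rw [← hB']
      exact tow_le hT (self_mem_cadj w A₁ z)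
    obtain ⟨z₀, -, rfl⟩ := h2
    subst hA'
    exact Tow.succ (h.tl_iff.1 hz) (ih (h.cadj_map hc A z₀) hB')

theorem ew_map (h : IsoE v w ι) (hc : CompleteV v) (P : IntermediateField k Ω) (u : ℕ → Ω) :
    EW w (P.map ι) (fun n => ι (u n)) = (EW v P u).map ι := by
  unfold EW
  have h1 : P.map ι ⊔ IntermediateField.adjoin k (Set.range fun n => ι (u n)) =
      (P ⊔ IntermediateField.adjoin k (Set.range u)).map ι := by
    rw [IntermediateField.map_sup, IntermediateField.adjoin_map]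
    congr 2
    ext x
    constructor
    · rintro ⟨n, rfl⟩
      exact ⟨u n, ⟨n, rfl⟩, rfl⟩
    · rintro ⟨_, ⟨n, rfl⟩, rfl⟩
      exact ⟨n, rfl⟩
  rw [h1, h.clI_map hc]

/-! ### `p`-bases -/

variable {p n : ℕ}

theorem orth_iff (h : IsoE v w ι) {t : Fin n → Ω} {C : ℝ} :
    Orth p w (A.map ι) (fun i => ι (t i)) C ↔ Orth p v A t C := by
  constructor
  · intro ho c hc h0 α
    have h1 := ho (fun α => ι (c α)) (fun α => apply_mem_map.2 (hc α))
      (by rw [map_pcomb]; exact ne_zero h0) α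
    rw [map_pcomb, h.val _ h0, map_mon, ← map_pow, ← map_mul, h.ge_iff] at h1
    exact h1
  · intro ho c hc h0 α
    choose d hd hdc using hc
    have h2 : (fun α => ι (d α)) = c := funext hdc
    have h0' : pcomb t d ≠ 0 := by
      intro h3
      rw [← h2, map_pcomb, h3, map_zero] at h0
      exact h0 rfl
    have h1 := ho d hd h0' α
    rw [← h2, map_pcomb, h.val _ h0', map_mon, ← map_pow, ← map_mul, h.ge_iff]
    exact h1

theorem bd_iff (h : IsoE v w ι) : BD p w (A.map ι) ↔ BD p v A := by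
  constructor
  · rintro ⟨n, t, ht, C, hC⟩
    choose s hs hst using ht.mem
    have h2 : (fun i => ι (s i)) = t := funext hst
    subst h2
    exact ⟨n, s, pbasis_iff.1 ht, C, h.orth_iff.1 hC⟩
  · rintro ⟨n, t, ht, C, hC⟩
    exact ⟨n, fun i => ι (t i), pbasis_iff.2 ht, C, h.orth_iff.2 hC⟩

end IsoE

end Pool.Agent.TWS
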