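import Pool.Agent.Lib.TWM.A1
import Mathlib.RingTheory.HahnSeries.Summable

/-!
# TANK W: the Hahn field

`HF k = HahnSeries ℝ k`, its valuation `hv k`.
* `hge_iff`: `x` is in `O(c)` iff its coefficients below `c` vanish;
* `ctx0_hv`: `k` is the residue field;
* `exists_plim`: pseudo limits; `exists_lim_upto`, `completeV_hv`: the sequences which are Cauchy
  up to `ρ` have limits;
* `exists_val`: every real number is a value.
-/

set_option autoImplicit false

namespace Pool.Agent.TWS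

open Pool.Agent.H15JM (RVal)
open Pool.Agent.LU1 (VPos)
open Pool.Agent.D2 (Ctx0)
open Pool.Agent.TWM

universe u

/-- The Hahn field. -/
def HF (k : Type u) [Field k] : Type u := HahnSeries ℝ k

noncomputable instance (k : Type u) [Field k] : Field (HF k) :=
  inferInstanceAs (Field (HahnSeries ℝ k))

/-- the constants -/
noncomputable def hC (k : Type u) [Field k] : k →+* HF k := (HahnSeries.C : k →+* HahnSeries ℝ k)

noncomputable instance (k : Type u) [Field k] : Algebra k (HF k) := (hC k).toAlgebra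

variable {k : Type u} [Field k]

/-- The coefficient. -/
def cof (x : HF k) (γ : ℝ) : k := HahnSeries.coeff (show HahnSeries ℝ k from x) γ

theorem cof_zero (γ : ℝ) : cof (0 : HF k) γ = 0 := HahnSeries.coeff_zero

theorem cof_sub (x y : HF k) (γ : ℝ) : cof (x - y) γ = cof x γ - cof y γ :=
  HahnSeries.coeff_sub

theorem cof_add (x y : HF k) (γ : ℝ) : cof (x + y) γ = cof x γ + cof y γ :=
  HahnSeries.coeff_add

theorem cof_const (c : k) (γ : ℝ) (h : γ ≠ 0) : cof (algebraMap k (HF k) c) γ = 0 :=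
  HahnSeries.coeff_single_of_ne h

theorem cof_const_zero (c : k) : cof (algebraMap k (HF k) c) 0 = c :=
  HahnSeries.coeff_single_same 0 c

/-- The valuation of the Hahn field. -/
noncomputable def hv (k : Type u) [Field k] : RVal (HF k) where
  toFun x := HahnSeries.order (show HahnSeries ℝ k from x)
  map_mul' _ _ hx hy := HahnSeries.order_mul hx hy
  map_add' _ _ _ _ hxy := HahnSeries.min_order_le_order_add hxy

theorem cof_hv {x : HF k} (hx : x ≠ 0) : cof x (hv k x) ≠ 0 :=
  HahnSeries.coeff_order_eq_zero.not.2 hx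

theorem hv_le {x : HF k} {γ : ℝ} (h : cof x γ ≠ 0) : hv k x ≤ γ :=
  HahnSeries.order_le_of_coeff_ne_zero h

theorem hge_iff {c : ℝ} {x : HF k} : (hv k).Ge c x ↔ ∀ γ < c, cof x γ = 0 := by
  constructor
  · intro h γ hγ
    by_contra h0
    have hx : x ≠ 0 := by
      rintro rfl
      exact h0 (cof_zero γ)
    have h1 := hv_le h0
    have h2 := h hx
    linarith
  · intro h hx
    by_contra h1
    rw [not_le] at h1
    exact cof_hv hx (h _ h1)

/-- The monomial. -/
noncomputable def mon (k : Type u) [Field k] (ρ : ℝ) : HF k :=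
  (HahnSeries.single ρ (1 : k) : HahnSeries ℝ k)

theorem mon_ne (k : Type u) [Field k] (ρ : ℝ) : mon k ρ ≠ 0 :=
  HahnSeries.single_ne_zero one_ne_zero

theorem hv_mon (k : Type u) [Field k] (ρ : ℝ) : hv k (mon k ρ) = ρ :=
  HahnSeries.order_single one_ne_zero

theorem exists_val (k : Type u) [Field k] (ρ : ℝ) : ∃ x : HF k, x ≠ 0 ∧ hv k x = ρ :=
  ⟨mon k ρ, mon_ne k ρ, hv_mon k ρ⟩

theorem ctx0_hv (k : Type u) [Field k] : Ctx0 k (hv k) where
  triv c hc := HahnSeries.order_single hc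
  res g hg h0 := by
    have h1 : cof g 0 ≠ 0 := by
      rw [← h0]
      exact cof_hv hg
    refine ⟨cof g 0, h1, fun h2 => ?_⟩
    have h3 : (hv k).Ge 0 (g - algebraMap k (HF k) (cof g 0)) := by
      rw [hge_iff]
      intro γ hγ
      rw [cof_sub, cof_const _ _ hγ.ne, sub_zero]
      by_contra h5
      have := hv_le h5
      rw [h0] at this
      linarith
    refine lt_of_le_of_ne (h3 h2) fun h6 => ?_
    have h7 := cof_hv h2
    rw [← h6, cof_sub, cof_const_zero, sub_self] at h7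
    exact h7 rfl

/-- The element with given coefficients. -/
noncomputable def mkH (f : ℝ → k) (h : (Function.support f).IsPWO) : HF k :=
  (⟨f, h⟩ : HahnSeries ℝ k)

theorem cof_mkH (f : ℝ → k) (h : (Function.support f).IsPWO) (γ : ℝ) : cof (mkH f h) γ = f γ := rfl

/-- **Pseudo limits.** -/
theorem exists_plim (x : ℕ → HF k) (c : ℕ → ℝ)
    (h : ∀ n m, n ≤ m → (hv k).Ge (c n) (x m - x n)) :
    ∃ y : HF k, ∀ n, (hv k).Ge (c n) (y - x n) := by
  classical
  -- the coefficients
  have hco : ∀ n m γ, γ < c n → γ < c m → cof (x n) γ = cof (x m) γ := by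
    have key : ∀ n m γ, n ≤ m → γ < c n → cof (x m) γ = cof (x n) γ := by
      intro n m γ hnm hγ
      have h1 := hge_iff.1 (h n m hnm) γ hγ
      rw [cof_sub, sub_eq_zero] at h1
      exact h1
    intro n m γ hn hm
    rcases le_total n m with h1 | h1
    · exact (key n m γ h1 hn).symm
    · exact key m n γ h1 hm
  let f : ℝ → k := fun γ => if h : ∃ n, γ < c n then cof (x h.choose) γ else 0
  have hf : ∀ n γ, γ < c n → f γ = cof (x n) γ := by
    intro n γ hγ
    have h1 : ∃ n, γ < c n := ⟨n, hγ⟩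
    change (if h : ∃ n, γ < c n then cof (x h.choose) γ else 0) = _
    rw [dif_pos h1]
    exact hco _ _ _ h1.choose_spec hγ
  have hf0 : ∀ γ, f γ ≠ 0 → ∃ n, γ < c n := by
    intro γ hγ
    by_contra h1
    exact hγ (dif_neg h1)
  have hwf : (Function.support f).IsPWO := by
    rw [Set.isPWO_iff_isWF, Set.isWF_iff_no_descending_seq]
    intro g hg hmem
    obtain ⟨n, hn⟩ := hf0 _ (hmem 0)
    refine (Set.isWF_iff_no_descending_seq.1
      (HahnSeries.isWF_support (show HahnSeries ℝ k from x n))) g hg fun j => ?_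
    have h1 : g j ≤ g 0 := hg.antitone (Nat.zero_le j)
    have h2 := hmem j
    rw [Function.mem_support] at h2
    rw [hf n _ (h1.trans_lt hn)] at h2
    exact h2
  refine ⟨mkH f hwf, fun n => hge_iff.2 fun γ hγ => ?_⟩
  rw [cof_sub, sub_eq_zero, cof_mkH]
  exact hf n γ hγ

/-- Limits of Cauchy sequences. -/
theorem exists_lim_seq (x : ℕ → HF k) (c : ℕ → ℝ)
    (h : ∀ j, ∃ N, ∀ m n, N ≤ m → N ≤ n → (hv k).Ge (c j) (x m - x n)) :
    ∃ y : HF k, ∀ j, ∃ N, ∀ n, N ≤ n → (hv k).Ge (c j) (y - x n) := by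
  choose N hN using h
  let M : ℕ → ℕ := fun j => (Finset.range (j + 1)).sup N
  have hM : ∀ i j, i ≤ j → N i ≤ M j := fun i j hij =>
    Finset.le_sup (f := N) (Finset.mem_range.2 (Nat.lt_succ_of_le hij))
  have hMm : ∀ i j, i ≤ j → M i ≤ M j := fun i j hij =>
    Finset.sup_mono (Finset.range_mono (Nat.succ_le_succ hij))
  obtain ⟨y, hy⟩ := exists_plim (fun j => x (M j)) c fun i j hij =>
    hN i _ _ ((hM i i le_rfl).trans (hMm i j hij)) (hM i i le_rfl)
  refine ⟨y, fun j => ⟨M j, fun n hn => ?_⟩⟩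
  have e : y - x n = (y - x (M j)) + (x (M j) - x n) := by ring
  rw [e]
  exact (hy j).add (hN j _ _ (hM j j le_rfl) ((hM j j le_rfl).trans hn))

theorem completeV_hv (k : Type u) [Field k] : CompleteV (hv k) := by
  intro f hf
  obtain ⟨y, hy⟩ := exists_lim_seq f (fun j => (j : ℝ)) fun j => hf j
  refine ⟨y, fun c => ?_⟩
  obtain ⟨j, hj⟩ := exists_nat_ge c
  obtain ⟨N, hN⟩ := hy j
  exact ⟨N, fun n hn => (hN n hn).mono hj⟩

/-- The sequences which are Cauchy up to `ρ` have limits up to `ρ`. -/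
theorem exists_lim_upto {ρ : ℝ} {x : ℕ → HF k}
    (h : ∀ ε : ℝ, 0 < ε → ∃ N, ∀ m n, N ≤ m → N ≤ n → (hv k).Ge (ρ - ε) (x m - x n)) :
    ∃ y : HF k, ∀ ε : ℝ, 0 < ε → ∃ N, ∀ n, N ≤ n → (hv k).Ge (ρ - ε) (y - x n) := by
  obtain ⟨y, hy⟩ := exists_lim_seq x (fun j => ρ - 1 / ((j : ℝ) + 1)) fun j =>
    h _ (by positivity)
  refine ⟨y, fun ε hε => ?_⟩
  obtain ⟨j, hj⟩ := exists_nat_one_div_lt hε
  obtain ⟨N, hN⟩ := hy j
  exact ⟨N, fun n hn => (hN n hn).mono (by linarith)⟩

end Pool.Agent.TWS
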