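import Pool.Agent.Lib.TWS.MonB
import Pool.Agent.Lib.TWS.Hf
import Pool.Agent.Lib.TWM.C1

/-!
# TANK W, row R6: adjunction of monomials, part C: the monomials

* `exists_MS`: monomials `M g` for all the real numbers `g`, `M (v x) = x`;
* `root_mem`: the roots of order prime to `p` with values in `A` are in `A`;
* `GK p γ Λ`: the `g` with `n g ∈ ℤ γ + Λ`, `n` prime to `p`;
* `monG_GK`, `monG_top`: `MonG` for the closed fields with values in `ℚ γ`;
* `exists_scale`: every real number is the value of a monomial times an element of the field.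
-/

set_option autoImplicit false

open Polynomial

namespace Pool.Agent.TWS

open Pool.Agent.H15JM (RVal)
open Pool.Agent.LU1 (VPos adj)
open Pool.Agent.LUC (Cl clF)
open Pool.Agent.D2 (Ctx0)
open Pool.Agent.D2P (hen clI mem_clI)
open Pool.Agent.TWM
open Pool.Agent.TWC (Tow clI_mono' clI_le' pcl mem_pcl)

universe u

variable {k Ω : Type u} [Field k] [Field Ω] [Algebra k Ω] {v : RVal Ω}
  {A₀ A B : IntermediateField k Ω} {G : AddSubgroup ℝ} {M : ℝ → Ω}

/-! ### Existence of the monomials -/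

section Ex

omit [Field k] [Algebra k Ω] in
/-- The units of value `0`. -/
def U0 (v : RVal Ω) : Subgroup Ωˣ where
  carrier := {u | v (u : Ω) = 0}
  mul_mem' := by
    intro a b ha hb
    change v ((a : Ω) * b) = 0
    rw [v.map_mul a.ne_zero b.ne_zero, show v (a : Ω) = 0 from ha, show v (b : Ω) = 0 from hb,
      add_zero]
  one_mem' := v.map_one
  inv_mem' := by
    intro a ha
    change v ((a⁻¹ : Ωˣ) : Ω) = 0
    rw [Units.val_inv_eq_inv_val, v.map_inv a.ne_zero, show v (a : Ω) = 0 from ha, neg_zero]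

theorem U0.surj [IsAlgClosed Ω] (v : RVal Ω) {n : ℤ} (hn : n ≠ 0) :
    Function.Surjective fun a : Additive (U0 v) => n • a := by
  have key : ∀ (m : ℕ), 0 < m → ∀ u : U0 v, ∃ w : U0 v, w ^ m = u := by
    intro m hm u
    obtain ⟨z, hz⟩ := IsAlgClosed.exists_pow_nat_eq ((u : Ωˣ) : Ω) hm
    have hz0 : z ≠ 0 := by
      rintro rfl
      rw [zero_pow hm.ne'] at hz
      exact (u : Ωˣ).ne_zero hz.symm
    have hzv : v z = 0 := by
      have h1 : v (z ^ m) = 0 := by
        rw [hz]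
        exact u.2
      rw [v.map_pow hz0] at h1
      rcases mul_eq_zero.1 h1 with h2 | h2
      · exact absurd (by exact_mod_cast h2) hm.ne'
      · exact h2
    refine ⟨⟨Units.mk0 z hz0, hzv⟩, ?_⟩
    refine Subtype.ext (Units.ext ?_)
    exact hz
  intro a
  obtain ⟨u, rfl⟩ : ∃ u : U0 v, Additive.ofMul u = a := ⟨a.toMul, rfl⟩
  obtain ⟨w, hw⟩ := key n.natAbs (Int.natAbs_pos.2 hn) u
  rcases Int.natAbs_eq n with h | h
  · refine ⟨Additive.ofMul w, ?_⟩
    change n • Additive.ofMul w = _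
    rw [h, ← ofMul_zpow, zpow_natCast, hw]
  · refine ⟨Additive.ofMul w⁻¹, ?_⟩
    change n • Additive.ofMul w⁻¹ = _
    rw [h, ← ofMul_zpow, zpow_neg, zpow_natCast, inv_pow, inv_inv, hw]

/-- **Monomials of all the real values, with `M (v x) = x`.** -/
theorem exists_MS [IsAlgClosed Ω] {mon : ℝ → Ω} (hmon : MS v ⊤ mon) {x : Ω} (hx : x ≠ 0)
    (hv : v x ≠ 0) : ∃ M : ℝ → Ω, MS v ⊤ M ∧ M (v x) = x := by
  classical
  let _ : DivisibleBy (Additive (U0 v)) ℤ :=
    divisibleByOfSMulRightSurj _ _ fun {n} hn => U0.surj v hn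
  have hB : Module.Baer ℤ (Additive (U0 v)) := Module.Baer.of_divisible _
  have hm0 : mon (v x) ≠ 0 := hmon.ne _ trivial
  have hu0 : x / mon (v x) ≠ 0 := div_ne_zero hx hm0
  set u : U0 v := ⟨Units.mk0 (x / mon (v x)) hu0, by
    change v (x / mon (v x)) = 0
    rw [v.map_div hx hm0, hmon.val _ trivial, sub_self]⟩ with hu
  let f : ℤ →+ ℝ := zmultiplesHom ℝ (v x)
  have hf : Function.Injective f := by
    rw [injective_iff_map_eq_zero]
    intro n hn
    rw [zmultiplesHom_apply, zsmul_eq_mul] at hn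
    rcases mul_eq_zero.1 hn with h | h
    · exact_mod_cast h
    · exact absurd h hv
  let g : ℤ →+ Additive (U0 v) := zmultiplesHom _ (Additive.ofMul u)
  obtain ⟨h, hh⟩ := Module.Baer.extension_property_addMonoidHom hB f hf g
  have hhx : h (v x) = Additive.ofMul u := by
    have h1 := DFunLike.congr_fun hh 1
    change h (f 1) = g 1 at h1
    rwa [zmultiplesHom_apply, zmultiplesHom_apply, one_zsmul, one_zsmul] at h1
  refine ⟨fun γ => mon γ * (((h γ).toMul : U0 v) : Ωˣ), ⟨fun γ _ => ?_, fun γ _ => ?_,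
    fun γ _ δ _ => ?_⟩, ?_⟩
  · exact mul_ne_zero (hmon.ne γ trivial) (Units.ne_zero _)
  · rw [v.map_mul (hmon.ne γ trivial) (Units.ne_zero _), hmon.val γ trivial,
      show v ((((h γ).toMul : U0 v) : Ωˣ) : Ω) = 0 from ((h γ).toMul : U0 v).2, add_zero]
  · rw [hmon.mul γ trivial δ trivial, map_add, toMul_add, Subgroup.coe_mul, Units.val_mul]
    ring
  · simp only [hhx, toMul_ofMul, hu, Units.val_mk0]
    rw [mul_div_cancel₀ _ hm0]

/-- The monomials of the Hahn field. -/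
theorem ms_hv (k : Type u) [Field k] : MS (hv k) ⊤ (mon k) where
  ne g _ := mon_ne k g
  val g _ := hv_mon k g
  mul g _ h _ := by
    change (HahnSeries.single (g + h) (1 : k) : HahnSeries ℝ k) =
      HahnSeries.single g (1 : k) * HahnSeries.single h (1 : k)
    rw [HahnSeries.single_mul_single, mul_one]

end Ex

theorem MS.mono {G' : AddSubgroup ℝ} (hM : MS v G' M) (h : G ≤ G') : MS v G M where
  ne g hg := hM.ne g (h hg)
  val g hg := hM.val g (h hg)
  mul g hg g' hg' := hM.mul g (h hg) g' (h hg')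

theorem MS.zpow (hM : MS v G M) {g : ℝ} (hg : g ∈ G) (n : ℤ) : M (n * g) = M g ^ n := by
  have hn : ∀ m : ℕ, (m : ℝ) * g ∈ G := fun m => by
    rw [← nsmul_eq_mul]
    exact G.nsmul_mem hg m
  obtain ⟨m, h | h⟩ := n.eq_nat_or_neg
  · rw [h]
    simpa using hM.pow hg m
  · rw [h, zpow_neg, zpow_natCast, ← hM.pow hg m, ← hM.neg (hn m)]
    congr 1
    push_cast
    ring

/-! ### Roots of order prime to `p` -/

section Root

variable (p : ℕ) [hp : Fact p.Prime] [CharP Ω p] [IsAlgClosed Ω]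

omit [IsAlgClosed Ω] in
/-- A root of unity near to `1`. -/
theorem eq_one_of_near {ζ : Ω} {n : ℕ} (hn : ¬ p ∣ n) (hζ : ζ ^ n = 1) (h1 : Gt v 0 (ζ - 1)) :
    ζ = 1 := by
  by_contra hne
  have hne' : ζ - 1 ≠ 0 := sub_ne_zero.2 hne
  have h2 : (∑ i ∈ Finset.range n, ζ ^ i) * (ζ - 1) = 0 := by
    rw [geom_sum_mul, hζ, sub_self]
  have h3 : ∑ i ∈ Finset.range n, ζ ^ i = 0 := (mul_eq_zero.1 h2).resolve_right hne'
  have hpow : ∀ i : ℕ, Gt v 0 (ζ ^ i - 1) := by
    intro i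
    have hz : v.Ge 0 ζ := by
      have e : ζ = (ζ - 1) + 1 := by ring
      rw [e]
      exact h1.ge.add fun _ => by rw [v.map_one]
    induction i with
    | zero =>
      rw [pow_zero, sub_self]
      exact Gt.zero
    | succ i ih =>
      have e : ζ ^ (i + 1) - 1 = (ζ ^ i - 1) * ζ + (ζ - 1) := by ring
      rw [e]
      have := ih.mul_ge hz
      rw [add_zero] at this
      exact this.add h1
  have h4 : Gt v 0 ((∑ i ∈ Finset.range n, ζ ^ i) - (n : Ω)) := by
    have e : (∑ i ∈ Finset.range n, ζ ^ i) - (n : Ω) = ∑ i ∈ Finset.range n, (ζ ^ i - 1) := by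
      rw [Finset.sum_sub_distrib, Finset.sum_const, Finset.card_range, nsmul_eq_mul, mul_one]
    rw [e]
    exact Gt.sum _ _ fun i _ => hpow i
  obtain ⟨h5, h6⟩ := val_natCast (v := v) p hn
  rw [h3, zero_sub] at h4
  have h7 := h4.neg
  rw [neg_neg] at h7
  have := h7 h5
  linarith

/-- **Roots of order prime to `p`.** -/
theorem root_mem (h0 : Ctx0 k v) {F : IntermediateField k Ω} (hF : Cld v F) {u : Ω} {n : ℕ}
    (hn : ¬ p ∣ n) (hu0 : u ≠ 0) (hu : u ^ n ∈ F) (hv : v u ∈ VG v F) : u ∈ F := by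
  obtain ⟨a, ha, ha0, hav⟩ := hv
  have hn0 : n ≠ 0 := fun h => hn (h ▸ dvd_zero p)
  have h1 : v (u / a) = 0 := by
    rw [v.map_div hu0 ha0, hav, sub_self]
  obtain ⟨c, hc, h2⟩ := h0.res (u / a) (div_ne_zero hu0 ha0) h1
  have hc' : algebraMap k Ω c ≠ 0 := by rwa [Ne, _root_.map_eq_zero]
  set t := u / a / algebraMap k Ω c with ht
  have hcF : algebraMap k Ω c ∈ F := F.algebraMap_mem c
  have htn : t ^ n ∈ F := by
    rw [ht, div_pow, div_pow]
    exact div_mem (div_mem hu (pow_mem ha n)) (pow_mem hcF n)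
  have ht1 : Gt v 0 (t - 1) := by
    have e : t - 1 = (u / a - algebraMap k Ω c) * (algebraMap k Ω c)⁻¹ := by
      rw [ht]
      field_simp
    rw [e]
    have h3 : Gt v 0 (u / a - algebraMap k Ω c) := h2
    have := h3.mul_ge (RVal.ge_self (v := v) (algebraMap k Ω c)⁻¹)
    rwa [v.map_inv hc', h0.triv c hc, neg_zero, add_zero] at this
  have ht0 : t ≠ 0 := div_ne_zero (div_ne_zero hu0 ha0) hc'
  have htF : t ∈ F := by
    by_cases htt : t = 1
    · rw [htt]
      exact one_mem F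
    refine D2P.mem_of_alone h0 (TWM.C.hen_eq hF) (X ^ n - C (⟨t ^ n, htn⟩ : F)) (one_mem F) ?_ ?_ ?_
    · simp only [map_sub, map_pow, aeval_X, aeval_C]
      exact sub_self _
    · rw [derivative_sub, derivative_X_pow, derivative_C, sub_zero, map_mul, map_pow, aeval_X,
        aeval_C]
      refine mul_ne_zero ?_ (pow_ne_zero _ ht0)
      have := (val_natCast (v := v) p hn).1
      rwa [map_natCast]
    · intro b hb hb1 hbv
      simp only [map_sub, map_pow, aeval_X, aeval_C] at hb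
      have hb' : b ^ n = t ^ n := sub_eq_zero.1 hb
      have hb0 : b ≠ 0 := by
        rintro rfl
        rw [zero_pow hn0] at hb'
        exact pow_ne_zero n ht0 hb'.symm
      have hb2 : b - 1 ≠ 0 := sub_ne_zero.2 hb1
      have h3 : Gt v 0 (b - 1) := fun _ => by
        rw [hbv]
        exact ht1 (sub_ne_zero.2 htt)
      have h4 : Gt v 0 (b / t - 1) := by
        have e : b / t - 1 = ((b - 1) - (t - 1)) * t⁻¹ := by
          field_simp
          ring
        rw [e]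
        have htv : v t = 0 := by
          have h5 : v (1 : Ω) = 0 := v.map_one
          obtain ⟨-, h6⟩ := Gt.val_eq (v := v) (x := (1 : Ω)) (y := t) one_ne_zero (by
            rw [h5]
            exact ht1.sub_comm')
          rw [h6, h5]
        have := (h3.sub ht1).mul_ge (RVal.ge_self (v := v) t⁻¹)
        rwa [v.map_inv ht0, htv, neg_zero, add_zero] at this
      have h5 : (b / t) ^ n = 1 := by
        rw [div_pow, hb', div_self (pow_ne_zero n ht0)]
      have h6 := eq_one_of_near (v := v) p hn h5 h4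
      rwa [div_eq_one_iff_eq ht0] at h6
  have e : u = t * (a * algebraMap k Ω c) := by
    rw [ht]
    field_simp
  rw [e]
  exact mul_mem htF (mul_mem ha hcF)

/-! ### The groups of exponents -/

omit hp [CharP Ω p] [IsAlgClosed Ω] in
/-- The `g` with `n g ∈ ℤ γ + Λ`, `n` prime to `p`. -/
def GK (p : ℕ) [Fact p.Prime] (γ : ℝ) (Λ : Submodule ℚ ℝ) : AddSubgroup ℝ where
  carrier := {g | ∃ n : ℕ, ¬ p ∣ n ∧ ∃ m : ℤ, ∃ l ∈ Λ, (n : ℝ) * g = m * γ + l}
  add_mem' := by
    rintro a b ⟨n, hn, m, l, hl, h⟩ ⟨n', hn', m', l', hl', h'⟩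
    refine ⟨n * n', fun hd => ?_, n' * m + n * m', n' • l + n • l', Λ.add_mem
      (Λ.smul_of_tower_mem n' hl) (Λ.smul_of_tower_mem n hl'), ?_⟩
    · rcases (Fact.out : p.Prime).dvd_mul.1 hd with h1 | h1
      · exact hn h1
      · exact hn' h1
    · rw [nsmul_eq_mul, nsmul_eq_mul]
      push_cast
      linear_combination (n' : ℝ) * h + (n : ℝ) * h'
  zero_mem' := ⟨1, fun h => (Fact.out : p.Prime).one_lt.ne' (Nat.dvd_one.1 h), 0, 0, Λ.zero_mem, by
    push_cast
    ring⟩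
  neg_mem' := by
    rintro a ⟨n, hn, m, l, hl, h⟩
    refine ⟨n, hn, -m, -l, Λ.neg_mem hl, ?_⟩
    push_cast
    linear_combination -h

omit hp [CharP Ω p] [IsAlgClosed Ω] in
/-- The values of `A` are in `ℚ γ`. -/
def RatV (v : RVal Ω) (A : IntermediateField k Ω) (γ : ℝ) : Prop :=
  ∀ g ∈ VG v A, ∃ n : ℕ, n ≠ 0 ∧ ∃ m : ℤ, (n : ℝ) * g = m * γ

variable {x : Ω} {Λ : Submodule ℚ ℝ}

omit hp [CharP Ω p] [IsAlgClosed Ω] in
theorem RatV.mono (h : RatV v B (v x)) (hAB : A ≤ B) : RatV v A (v x) :=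
  fun g hg => h g (VG.mono hAB hg)

omit hp [CharP Ω p] [IsAlgClosed Ω] in
theorem RatV.imm {γ : ℝ} (h : RatV v A γ) (hi : Imm v A B) : RatV v B γ := fun g hg =>
  h g (by rwa [VG.imm hi] at hg)

omit [CharP Ω p] [IsAlgClosed Ω] in
theorem self_mem_GK (γ : ℝ) (Λ : Submodule ℚ ℝ) : γ ∈ GK p γ Λ :=
  ⟨1, fun h => hp.out.one_lt.ne' (Nat.dvd_one.1 h), 1, 0, Λ.zero_mem, by
    push_cast
    ring⟩

/-- **`MonG` for the closed fields.** -/
theorem monG_GK (h0 : Ctx0 k v) (hM : MS v ⊤ M) (hx : M (v x) = x)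
    (hΛ : Disjoint (Submodule.span ℚ {v x}) Λ) {F : IntermediateField k Ω} (hF : Cld v F)
    (hxF : x ∈ F) (hV : RatV v F (v x)) : MonG v F (GK p (v x) Λ) M := by
  refine ⟨MS.mono hM le_top, fun g ⟨n, hn, m, l, hl, h1⟩ hgV => ?_⟩
  obtain ⟨n', hn', m', h2⟩ := hV g hgV
  have hl0 : l = 0 := by
    have h3 : l ∈ Submodule.span ℚ {v x} := by
      rw [Submodule.mem_span_singleton]
      refine ⟨((n * m' - n' * m : ℤ) : ℚ) / n', ?_⟩
      have hn0 : (n' : ℝ) ≠ 0 := by exact_mod_cast hn'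
      rw [Rat.smul_def]
      push_cast
      field_simp
      linear_combination (n : ℝ) * h2 * (-1) + (n' : ℝ) * h1
    exact (Submodule.disjoint_def.1 hΛ) l h3 hl
  rw [hl0, add_zero] at h1
  have h4 : M g ^ n ∈ F := by
    rw [← hM.pow trivial n, h1, MS.zpow hM trivial m, hx]
    exact zpow_mem hxF m
  refine root_mem p h0 hF hn (hM.ne g trivial) h4 ?_
  rw [hM.val g trivial]
  exact hgV

/-- **`MonG` for the closed perfect fields.** -/
theorem monG_top (h0 : Ctx0 k v) (hM : MS v ⊤ M) (hx : M (v x) = x)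
    {E : IntermediateField k Ω} (hE : Cld v E) (hE' : ∀ a ∈ E, ∃ b ∈ E, b ^ p = a)
    (hxE : x ∈ E) (hV : RatV v E (v x)) : MonG v E ⊤ M := by
  refine ⟨hM, fun g _ hgV => ?_⟩
  obtain ⟨n, hn, m, h2⟩ := hV g hgV
  obtain ⟨j, n', hn', rfl⟩ := Nat.exists_eq_pow_mul_and_not_dvd hn p hp.out.ne_one
  have h3 : (M g ^ p ^ j) ^ n' ∈ E := by
    rw [← pow_mul, ← hM.pow trivial (p ^ j * n'), h2, MS.zpow hM trivial m, hx]
    exact zpow_mem hxE m
  have h4 : M g ^ p ^ j ∈ E := by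
    refine root_mem p h0 hE hn' (pow_ne_zero _ (hM.ne g trivial)) h3 ?_
    rw [v.map_pow (hM.ne g trivial), hM.val g trivial, ← nsmul_eq_mul]
    exact (VG v E).nsmul_mem hgV _
  exact perf_pow_mem p hE' j h4

omit [CharP Ω p] [IsAlgClosed Ω] in
/-- Every real number is in `p ^ (-j) GK`. -/
theorem rG_GK {γ : ℝ} (hΛ : IsCompl (Submodule.span ℚ {γ}) Λ) : rG p (GK p γ Λ) = ⊤ := by
  rw [eq_top_iff]
  rintro g -
  have h1 : g ∈ Submodule.span ℚ {γ} ⊔ Λ := by
    rw [hΛ.sup_eq_top]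
    trivial
  obtain ⟨a, ha, l, hl, rfl⟩ := Submodule.mem_sup.1 h1
  obtain ⟨q, rfl⟩ := Submodule.mem_span_singleton.1 ha
  obtain ⟨j, n', hn', hq⟩ := Nat.exists_eq_pow_mul_and_not_dvd q.den_nz p hp.out.ne_one
  have hpj : (p : ℝ) ^ j ≠ 0 := pow_ne_zero _ (by exact_mod_cast hp.out.ne_zero)
  have hd0 : (q.den : ℝ) ≠ 0 := by exact_mod_cast q.den_nz
  have hqd : (q : ℝ) * q.den = q.num := by
    exact_mod_cast Rat.mul_den_eq_num q
  refine ⟨j, n', hn', q.num, (p ^ j * n' : ℕ) • l, Λ.smul_of_tower_mem _ hl, ?_⟩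
  rw [nsmul_eq_mul, Rat.smul_def]
  rw [hq] at hqd
  push_cast at hqd ⊢
  linear_combination γ * hqd

omit [IsAlgClosed Ω] [CharP Ω p] in
/-- **Every real number is the value of an element of `PM v F (GK ..) M`**, if the values of `F` are
divisible by `p`. -/
theorem exists_scale (hM : MS v ⊤ M) (hΛ : IsCompl (Submodule.span ℚ {v x}) Λ)
    {F : IntermediateField k Ω} (hxF : x ∈ F) (hx0 : x ≠ 0) (hV : ∀ g ∈ VG v F, g / p ∈ VG v F)
    (s : ℝ) : ∃ c ∈ PM v F (GK p (v x) Λ) M, c ≠ 0 ∧ v c = s := by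
  have hp0 : (p : ℝ) ≠ 0 := by exact_mod_cast hp.out.ne_zero
  have hVj : ∀ (j : ℕ) (g : ℝ), g ∈ VG v F → g / (p : ℝ) ^ j ∈ VG v F := by
    intro j
    induction j with
    | zero =>
      intro g hg
      rwa [pow_zero, div_one]
    | succ j ih =>
      intro g hg
      have := hV _ (ih g hg)
      rwa [div_div, ← pow_succ] at this
  have h1 : s ∈ rG p (GK p (v x) Λ) := by
    rw [rG_GK p hΛ]
    trivial
  obtain ⟨j, n, hn, m, l, hl, h2⟩ := h1
  -- Bezout
  have hco : IsCoprime (((p ^ j : ℕ) : ℤ)) (n : ℤ) :=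
    Nat.isCoprime_iff_coprime.2 (Nat.Coprime.pow_left j ((Nat.Prime.coprime_iff_not_dvd hp.out).2 hn))
  obtain ⟨a, b, hab⟩ := hco
  have hpj : (p : ℝ) ^ j ≠ 0 := pow_ne_zero _ hp0
  have hn0 : (n : ℝ) ≠ 0 := by
    have : n ≠ 0 := fun h => hn (h ▸ dvd_zero p)
    exact_mod_cast this
  have hab' : (a : ℝ) * (p : ℝ) ^ j + b * n = 1 := by exact_mod_cast hab
  set t : ℝ := ((m * b : ℤ) : ℝ) * (v x / (p : ℝ) ^ j) with ht
  have htV : t ∈ VG v F := by
    have h3 := (VG v F).zsmul_mem (hVj j _ (VG.self hxF hx0)) (m * b)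
    rwa [zsmul_eq_mul] at h3
  have hsG : s - t ∈ GK p (v x) Λ := by
    refine ⟨n, hn, m * a, (1 / (p : ℚ) ^ j) • l, Λ.smul_mem _ hl, ?_⟩
    have h4 : (n : ℝ) * s = (m * v x + l) / (p : ℝ) ^ j := by
      rw [eq_div_iff hpj]
      linear_combination h2
    rw [mul_sub, h4, ht, Rat.smul_def]
    push_cast
    field_simp
    linear_combination (-(m : ℝ) * v x) * hab'
  obtain ⟨c, hc, hc0, hcv⟩ := htV
  refine ⟨c * M (s - t), mul_mem (PM.le hc) (PM.mon hsG), mul_ne_zero hc0 (hM.ne _ trivial), ?_⟩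
  rw [v.map_mul hc0 (hM.ne _ trivial), hM.val _ trivial, hcv]
  ring

end Root

end Pool.Agent.TWS
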