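import Pool.Agent.Lib.TWS.MonE
import Pool.Agent.Lib.TWS.MonC
import Pool.Agent.Lib.TWC.Theta

/-!
# TANK W, row R6, part F: `SND`, towers and limits over the field with the monomials

* `Pi0.sub'`: the projection maps `PM v A G' M` into `A`;
* `GK_inter`: the values of the perfect closure which are in `GK` are values of the field;
* `SND.pm`: `SND p v B x ρ → SND p v (PM v B G M) x ρ`;
* `PM.sup`, `PM.EW`: closures of sums;
* `TowR`: towers with any radii; `TowR.pm`: they become towers with the radii `0`;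
* `lim_homog`: decomposition of limits into homogeneous limits.
-/

set_option autoImplicit false

open Polynomial

namespace Pool.Agent.TWS

open Pool.Agent.H15JM (RVal)
open Pool.Agent.LU1 (VPos adj)
open Pool.Agent.LUC (Cl clF)
open Pool.Agent.D2 (Ctx0)
open Pool.Agent.D2P (hen clI mem_clI)
open Pool.Agent.TWM
open Pool.Agent.TWC (Tow clI_mono' clI_le' pcl mem_pcl SND EW)

universe u

variable {k Ω : Type u} [Field k] [Field Ω] [Algebra k Ω] {v : RVal Ω}
  {A₀ A B C : IntermediateField k Ω} {G : AddSubgroup ℝ} {M : ℝ → Ω}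

theorem NF.mem_G {L : ℝ →₀ Ω} (h : NF v A₀ A G L) {g : ℝ} (hg : g ∈ L.support) : g ∈ G :=
  (h.rep g (Finsupp.mem_support_iff.1 hg)).1

/-- The projection maps `PM v A G' M` into `A`. -/
theorem Pi0.sub' {G' : AddSubgroup ℝ} (hG : G' ≤ G) (hA : MonG v A G' M) (hAC : A ≤ C)
    (hcl : Cld v A) (hV : ∀ g ∈ G', g ∈ VG v A₀ → g ∈ VG v A) {π : PM v C G M →ₗ[k] Ω}
    (hπ : Pi0 v A₀ C G M π) (x : PM v C G M) (hx : (x : Ω) ∈ PM v A G' M) : π x ∈ A := by
  classical
  refine hcl (mem_clI.2 fun b => ?_)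
  obtain ⟨L, hL, hb⟩ := dense_PM hA (Imm.refl _) hx b
  have hy : evM M L ∈ PM v C G M := sum_mem fun g hg =>
    mul_mem (PM.le (hAC (hL.mem g))) (PM.mon (hG (hL.mem_G hg)))
  refine ⟨π ⟨evM M L, hy⟩, ?_, ?_⟩
  · have e : (⟨evM M L, hy⟩ : PM v C G M) = ∑ g ∈ L.support.attach,
        (⟨L g, PM.le (hAC (hL.mem g))⟩ * ⟨M g, PM.mon (hG (hL.mem_G g.2))⟩ : PM v C G M) := by
      refine Subtype.ext ?_
      change evM M L = (PM v C G M).val (∑ g ∈ L.support.attach, _)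
      rw [map_sum]
      change evM M L = ∑ g ∈ L.support.attach, L g * M g
      rw [Finset.sum_attach L.support fun g => L g * M g]
      rfl
    rw [e, map_sum]
    refine sum_mem fun g _ => ?_
    rw [hπ.lin _ (hAC (hL.mem g))]
    refine mul_mem (hL.mem g) ?_
    have hgG' := hL.mem_G g.2
    by_cases hgV : (g : ℝ) ∈ VG v A₀
    · have hMg : M g ∈ A := hA.mem _ hgG' (hV _ hgG' hgV)
      rw [hπ.self (M g) (hAC hMg)]
      exact hMg
    · rw [hπ.mon _ (hG hgG') hgV]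
      exact zero_mem _
  · rw [← map_sub]
    exact hπ.norm _ b hb

/-- Coming down, general form: `x` in a field with monomials, of kind `sub'`. -/
theorem down_sum' (hΩ : CompleteV v) (hM : MonG v A₀ G M) (hi : Imm v A₀ C) (hC : Cld v C)
    {G' : AddSubgroup ℝ} (hG : G' ≤ G) (hA : MonG v A G' M) (hAC : A ≤ C) (hAc : Cld v A)
    (hV : ∀ g ∈ G', g ∈ VG v A₀ → g ∈ VG v A) (hB : Imm v A₀ B) (hBC : B ≤ C)
    (hBc : Cld v B) {z x y : Ω} {b g : ℝ} (hg : g ∈ G') (hz : z ∈ C) (hx : x ∈ PM v A G' M)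
    (hy : y ∈ PM v B G M) (h : v.Ge b (z * M g - x - y)) :
    ∃ a ∈ A, ∃ b' ∈ B, v.Ge (b - g) (z - a - b') := by
  obtain ⟨π, hπ⟩ := exists_pi0 hΩ hM hi hC
  have hgG := hG hg
  have hg' := G.neg_mem hgG
  have h0 := hM.ms.ne g hgG
  have hx' : x * M (-g) ∈ PM v A G' M := mul_mem hx (PM.mon (G'.neg_mem hg))
  have hy' : y * M (-g) ∈ PM v B G M := mul_mem hy (PM.mon hg')
  have hxC : x * M (-g) ∈ PM v C G M := by
    refine PM.le_of PM.cld (hAC.trans PM.le) (fun g hg => PM.mon (hG hg)) hx'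
  have hyC : y * M (-g) ∈ PM v C G M := PM.mono hBC hy'
  refine ⟨π ⟨_, hxC⟩, hπ.sub' hG hA hAC hAc hV _ hx', π ⟨_, hyC⟩,
    hπ.sub B hB hBC hBc _ hy', ?_⟩
  have e : z - x * M (-g) - y * M (-g) = (z * M g - x - y) * M (-g) := by
    rw [hM.ms.neg hgG]
    field_simp
  have h1 := h.mul (RVal.ge_self (v := v) (M (-g)))
  rw [hM.ms.val _ hg', ← sub_eq_add_neg, ← e] at h1
  have h2 := hπ.norm (⟨z, PM.le hz⟩ - ⟨_, hxC⟩ - ⟨_, hyC⟩) (b - g) h1
  rwa [map_sub, map_sub, hπ.self z hz] at h2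

/-- The same for `v.Gt`. -/
theorem down_gt (hΩ : CompleteV v) (hM : MonG v A₀ G M) (hi : Imm v A₀ C) (hC : Cld v C)
    {G' : AddSubgroup ℝ} (hG : G' ≤ G) (hA : MonG v A G' M) (hAC : A ≤ C) (hAc : Cld v A)
    (hV : ∀ g ∈ G', g ∈ VG v A₀ → g ∈ VG v A) (hB : Imm v A₀ B) (hBC : B ≤ C)
    (hBc : Cld v B) {z x y : Ω} {b g : ℝ} (hg : g ∈ G') (hz : z ∈ C) (hx : x ∈ PM v A G' M)
    (hy : y ∈ PM v B G M) (h : Gt v b (z * M g - x - y)) :
    ∃ a ∈ A, ∃ b' ∈ B, Gt v (b - g) (z - a - b') := by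
  by_cases h0 : z * M g - x - y = 0
  · obtain ⟨a, ha, b', hb', h1⟩ := down_sum' hΩ hM hi hC hG hA hAC hAc hV hB hBC hBc hg hz hx hy
      (b := b + 1) (by rw [h0]; exact RVal.Ge.zero)
    exact ⟨a, ha, b', hb', Gt.of_ge h1 (by linarith)⟩
  · obtain ⟨a, ha, b', hb', h1⟩ := down_sum' hΩ hM hi hC hG hA hAC hAc hV hB hBC hBc hg hz hx hy
      (RVal.ge_self (z * M g - x - y))
    have := h h0
    exact ⟨a, ha, b', hb', Gt.of_ge h1 (by linarith)⟩

/-! ### The group of exponents -/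

section GKs

variable (p : ℕ) [hp : Fact p.Prime] {x : Ω} {Λ : Submodule ℚ ℝ}

theorem GK_inter (hΛ : Disjoint (Submodule.span ℚ {v x}) Λ) (hxB : x ∈ B) (hx0 : x ≠ 0)
    (hV : RatV v B (v x)) {g : ℝ} (hg : g ∈ GK p (v x) Λ) {j : ℕ}
    (hj : (p : ℝ) ^ j * g ∈ VG v B) : g ∈ VG v B := by
  obtain ⟨n, hn, m, l, hl, h1⟩ := hg
  obtain ⟨n', hn', m', h2⟩ := hV _ hj
  have hpj : (p : ℝ) ^ j ≠ 0 := pow_ne_zero _ (by exact_mod_cast hp.out.ne_zero)
  have hn0' : (n' : ℝ) ≠ 0 := by exact_mod_cast hn'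
  have hl0 : l = 0 := by
    have h3 : l ∈ Submodule.span ℚ {v x} := by
      rw [Submodule.mem_span_singleton]
      refine ⟨(n * m' : ℤ) / ((n' : ℚ) * (p : ℚ) ^ j) - m, ?_⟩
      rw [Rat.smul_def]
      push_cast
      field_simp
      linear_combination (n : ℝ) * h2 * (-1) + (n' : ℝ) * (p : ℝ) ^ j * h1
    exact (Submodule.disjoint_def.1 hΛ) l h3 hl
  rw [hl0, add_zero] at h1
  have h4 : (n : ℝ) * g ∈ VG v B := by
    rw [h1, ← zsmul_eq_mul]
    exact (VG v B).zsmul_mem (VG.self hxB hx0) m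
  have hco : IsCoprime (((p ^ j : ℕ) : ℤ)) (n : ℤ) :=
    Nat.isCoprime_iff_coprime.2 (Nat.Coprime.pow_left j ((Nat.Prime.coprime_iff_not_dvd hp.out).2 hn))
  obtain ⟨a, b, hab⟩ := hco
  have hab' : (a : ℝ) * (p : ℝ) ^ j + b * n = 1 := by exact_mod_cast hab
  have e : g = a • ((p : ℝ) ^ j * g) + b • ((n : ℝ) * g) := by
    rw [zsmul_eq_mul, zsmul_eq_mul]
    linear_combination (-g) * hab'
  rw [e]
  exact (VG v B).add_mem ((VG v B).zsmul_mem hj a) ((VG v B).zsmul_mem h4 b)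

/-- The values in `GK` of the closure of the perfect closure. -/
theorem GK_pcl [CharP Ω p] (hΛ : Disjoint (Submodule.span ℚ {v x}) Λ) (hxB : x ∈ B) (hx0 : x ≠ 0)
    (hV : RatV v B (v x)) : ∀ g ∈ GK p (v x) Λ, g ∈ VG v (clI v (pcl p B)) → g ∈ VG v B := by
  intro g hg h1
  rw [VG.clI] at h1
  obtain ⟨j, hj⟩ := VG.pcl p B h1
  exact GK_inter p hΛ hxB hx0 hV hg hj

end GKs

/-! ### Tight elements -/

section Snd

variable {p : ℕ} [hp : Fact p.Prime] [CharP Ω p] {x : ℕ → Ω} {ρ : ℕ → ℝ}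

omit hp [CharP Ω p] in
theorem exists_poly_adj {z y : Ω} (hz : IsAlgebraic A z) (hy : y ∈ adj A z) :
    ∃ f ∈ PI A, y = f.eval z := by
  rw [D2P.mem_adj_iff] at hy
  have h1 : y ∈ (IntermediateField.adjoin A {z}).toSubalgebra := hy
  rw [IntermediateField.adjoin_simple_toSubalgebra_of_isAlgebraic hz,
    Algebra.adjoin_singleton_eq_range_aeval] at h1
  obtain ⟨f, hf⟩ := h1
  refine ⟨f.map (algebraMap A Ω), fun i => ?_, ?_⟩
  · rw [coeff_map]
    exact SetLike.coe_mem _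
  · rw [eval_map_algebraMap]
    exact hf.symm

/-- **`SND` over the field with the monomials.** -/
theorem SND.pm (hΩ : CompleteV v) (hMC : MonG v (clI v (pcl p B)) G M) (hMB : MonG v B G M)
    (hV : ∀ g ∈ G, g ∈ VG v (clI v (pcl p B)) → g ∈ VG v B) (h : SND p v B x ρ) :
    SND p v (PM v B G M) x ρ where
  cld := PM.cld
  mem := PM.le h.mem
  root := h.root
  near n ε hε := by
    obtain ⟨g, hg, h1⟩ := h.near n ε hε
    exact ⟨g, PM.le hg, h1⟩
  far n := by
    rintro ⟨y, hy, hgt⟩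
    have hBC : B ≤ clI v (pcl p B) := fun a ha =>
      TWC.self_le_clI v _ ⟨0, by rwa [pow_zero, pow_one]⟩
    have hxn : ∀ m, x m ∈ clI v (pcl p B) := fun m => TWC.self_le_clI v _ ⟨m, by
      have h1 := h.root_pow 0 m
      rw [zero_add] at h1
      rw [h1]
      exact h.mem⟩
    have hxa : IsAlgebraic (PM v B G M) (x n) := by
      have h1 : x n ^ p ^ n = x 0 := by
        have := h.root_pow 0 n
        rwa [zero_add] at this
      refine IsAlgebraic.of_pow (pow_pos hp.out.pos n) ?_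
      rw [h1]
      exact isAlgebraic_algebraMap (R := PM v B G M) (⟨_, PM.le h.mem⟩ : PM v B G M)
    obtain ⟨f, hf, rfl⟩ := exists_poly_adj hxa hy
    obtain ⟨π, hπ⟩ := exists_pi0 hΩ hMC (Imm.refl _) (cld_clI v _)
    have hPC : PM v B G M ≤ PM v (clI v (pcl p B)) G M := PM.mono hBC
    -- the projection of the polynomial
    have hfe : ∀ z ∈ clI v (pcl p B), ∀ hz : f.eval z ∈ PM v (clI v (pcl p B)) G M,
        π ⟨f.eval z, hz⟩ = ∑ i ∈ Finset.range (f.natDegree + 1),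
          z ^ i * π ⟨f.coeff i, hPC (hf i)⟩ := by
      intro z hz hzP
      have e : (⟨f.eval z, hzP⟩ : PM v (clI v (pcl p B)) G M) =
          ∑ i ∈ Finset.range (f.natDegree + 1),
            (⟨z ^ i, PM.le (pow_mem hz i)⟩ * ⟨f.coeff i, hPC (hf i)⟩ :
              PM v (clI v (pcl p B)) G M) := by
        refine Subtype.ext ?_
        change f.eval z = (PM v (clI v (pcl p B)) G M).val (∑ i ∈ Finset.range _, _)
        rw [map_sum]
        change f.eval z = ∑ i ∈ Finset.range (f.natDegree + 1), z ^ i * f.coeff i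
        rw [eval_eq_sum_range]
        exact Finset.sum_congr rfl fun i _ => mul_comm _ _
      rw [e, map_sum]
      refine Finset.sum_congr rfl fun i _ => ?_
      exact hπ.lin _ (pow_mem hz i) _
    have hev : f.eval (x n) ∈ PM v (clI v (pcl p B)) G M :=
      eval_mem (PI_le hPC hf) (PM.le (hxn n))
    refine h.far n ⟨π ⟨f.eval (x n), hev⟩, ?_, ?_⟩
    · rw [hfe _ (hxn n)]
      refine sum_mem fun i _ => mul_mem (pow_mem (D2P.mem_adj_self B (x n)).1 i) ?_
      exact (D2P.mem_adj_self B (x n)).2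
        (hπ.sub' le_rfl hMB hBC h.cld hV _ (hf i))
    · have h1 : ∀ b : ℝ, v.Ge b (x (n + 1) - f.eval (x n)) →
          v.Ge b (x (n + 1) - π ⟨f.eval (x n), hev⟩) := by
        intro b hb
        have h2 := hπ.norm (⟨x (n + 1), PM.le (hxn (n + 1))⟩ - ⟨f.eval (x n), hev⟩) b hb
        rwa [map_sub, hπ.self _ (hxn (n + 1))] at h2
      by_cases h0 : x (n + 1) - f.eval (x n) = 0
      · exact Gt.of_ge (h1 (ρ (n + 1) + 1) (by rw [h0]; exact RVal.Ge.zero)) (by linarith)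
      · exact Gt.of_ge (h1 _ (RVal.ge_self _)) (hgt h0)

end Snd

/-! ### Closures of sums -/

theorem PM.sup : PM v (clI v (A ⊔ B)) G M = clI v (PM v A G M ⊔ PM v B G M) := by
  refine le_antisymm ?_ ?_
  · refine PM.le_of (cld_clI v _) (clI_mono' (sup_le_sup PM.le PM.le)) fun g hg => ?_
    exact TWC.self_le_clI v _ ((le_sup_left : PM v A G M ≤ _) (PM.mon hg))
  · refine clI_le' (sup_le (PM.mono ?_) (PM.mono ?_)) PM.cld
    · exact le_sup_left.trans (TWC.self_le_clI v _)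
    · exact le_sup_right.trans (TWC.self_le_clI v _)

theorem PM.EW (x : ℕ → Ω) : PM v (TWC.EW v A x) G M = TWC.EW v (PM v A G M) x := by
  refine le_antisymm ?_ ?_
  · refine PM.le_of TWC.EW.cld ?_ fun g hg => TWC.EW.le (PM.mon hg)
    exact clI_mono' (sup_le_sup_right PM.le _)
  · refine clI_le' (sup_le (PM.mono TWC.EW.le) ?_) PM.cld
    rw [IntermediateField.adjoin_le_iff]
    rintro _ ⟨n, rfl⟩
    exact PM.le (TWC.EW.mem n)

/-! ### Towers with any radii -/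

/-- A tower of length `n`, with any radii. -/
inductive TowR (v : RVal Ω) : ℕ → IntermediateField k Ω → IntermediateField k Ω → Prop
  | zero {A : IntermediateField k Ω} : Cld v A → TowR v 0 A A
  | succ {n : ℕ} {A B : IntermediateField k Ω} {z : Ω} {s : ℝ} :
      TL v A z s → TowR v n (TWM.cadj v A z) B → TowR v (n + 1) A B

/-- The radii become `0`. -/
theorem TowR.pm [IsAlgClosed Ω] (hM : MonG v A₀ G M)
    (hs : ∀ s : ℝ, ∃ c ∈ PM v A₀ G M, c ≠ 0 ∧ v c = s) {n : ℕ} {A B : IntermediateField k Ω}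
    (hi : Imm v A₀ A) (h : TowR v n A B) : Tow v n (PM v A G M) (PM v B G M) := by
  induction h with
  | zero _ => exact Tow.zero PM.cld
  | @succ n A B z s hz _ ih =>
    obtain ⟨c, hc, hc0, hcs⟩ := hs s
    obtain ⟨h1, h2⟩ := TL.pm_scale hM hi hz (PM.mono hi.le hc) hc0 hcs
    refine Tow.succ h1 ?_
    rw [h2]
    exact ih (hi.trans hz.imm)

/-! ### Limits -/

/-- **Decomposition of a limit.** -/
theorem lim_homog (hM : MonG v A₀ G M) (hA : Imm v A₀ A) (hB : Imm v A₀ B) (hAB : A ≤ B)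
    {x : Ω} (hx : x ∈ PM v B G M) {s : ℝ} (hl : Lim v (PM v A G M) s x) :
    ∃ L : ℝ →₀ Ω, NF v A₀ B G L ∧ v.Ge s (x - evM M L) ∧ ∀ g, L g ≠ 0 → Lim v A (s - g) (L g) := by
  obtain ⟨L, hL, h1⟩ := dense_PM hM hB hx s
  refine ⟨L, hL, h1, fun g hg ε hε => ?_⟩
  obtain ⟨y, hy, h2⟩ := hl ε hε
  obtain ⟨L', hL', h3⟩ := dense_PM hM hA hy s
  have hgG := (hL.rep g hg).1
  have hN : NF v A₀ B G (L + (-1 : Ω) • L') :=
    hL.add ((hL'.mono hAB).smul (neg_mem (one_mem _)))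
  have h4 := orth hM hB hN (b := s - ε) (by
    have e : evM M (L + (-1 : Ω) • L') = (x - y) - (x - evM M L) + (y - evM M L') := by
      rw [evM_add, evM_smul]
      ring
    rw [e]
    exact (h2.sub (h1.mono (by linarith))).add (h3.mono (by linarith))) g
  refine ⟨L' g, hL'.mem g, ?_⟩
  rw [Finsupp.add_apply, Finsupp.smul_apply, smul_eq_mul] at h4
  have h5 := h4.mul (RVal.ge_self (v := v) (M g)⁻¹)
  rw [mul_assoc, mul_inv_cancel₀ (hM.ms.ne g hgG), mul_one, v.map_inv (hM.ms.ne g hgG),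
    hM.ms.val g hgG] at h5
  have e : L g - L' g = L g + -1 * L' g := by ring
  rw [e]
  refine h5.mono ?_
  linarith

/-- The same, `x M g` for a homogeneous `x`. -/
theorem lim_mon (hM : MonG v A₀ G M) (hA : Imm v A₀ A) (hB : Imm v A₀ B) (hAB : A ≤ B)
    {z : Ω} (hz : z ∈ B) {g s : ℝ} (hg : g ∈ G) :
    Lim v (PM v A G M) s (z * M g) ↔ Lim v A (s - g) z := by
  have hg0 := hM.ms.ne g hg
  have h1 : Lim v (PM v A G M) s (z * M g) ↔ Lim v (PM v A G M) (s - g) z := by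
    constructor
    · intro h ε hε
      obtain ⟨a, ha, h1⟩ := h ε hε
      refine ⟨a * (M g)⁻¹, mul_mem ha (inv_mem (PM.mon hg)), ?_⟩
      have h2 := h1.mul (RVal.ge_self (v := v) (M g)⁻¹)
      rw [sub_mul, mul_assoc, mul_inv_cancel₀ hg0, mul_one, v.map_inv hg0, hM.ms.val g hg] at h2
      refine h2.mono ?_
      linarith
    · intro h ε hε
      obtain ⟨a, ha, h1⟩ := h ε hε
      refine ⟨a * M g, mul_mem ha (PM.mon hg), ?_⟩
      have h2 := h1.mul (RVal.ge_self (v := v) (M g))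
      rw [sub_mul, hM.ms.val g hg] at h2
      refine h2.mono ?_
      linarith
  rw [h1]
  exact lim_pm hM hA hB hAB hz

end Pool.Agent.TWS
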