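import Pool.Agent.Lib.TWS.Hf
import Pool.Agent.Lib.LU1_h15.ExtVal_H1

/-!
# TANK W: the Hahn field is algebraically closed

* `ctx0_alg`: the residue field of an algebraic extension, `k` algebraically closed;
* `exists_cofinal`: cofinal sequences;
* `isAlgClosed_HF`.
-/

set_option autoImplicit false

open Polynomial

namespace Pool.Agent.TWS

open Pool.Agent.H15JM (RVal)
open Pool.Agent.LU1 (VPos)
open Pool.Agent.D2 (Ctx0)
open Pool.Agent.TWM

universe u

/-! ## Residues -/

section Res

variable {k L Ω : Type u} [Field k] [Field L] [Field Ω] [Algebra k L] [Algebra L Ω] [Algebra k Ω]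

theorem val_prod_le {w : RVal Ω} {g : Ω} (s : Multiset k)
    (hs : ∀ α ∈ s, ¬ VPos w (g - algebraMap k Ω α)) :
    (s.map fun α => g - algebraMap k Ω α).prod ≠ 0 ∧
      w (s.map fun α => g - algebraMap k Ω α).prod ≤ 0 := by
  induction s using Multiset.induction_on with
  | empty => simp [w.map_one]
  | cons a s ih =>
    obtain ⟨h1, h2⟩ := ih fun α hα => hs α (Multiset.mem_cons_of_mem hα)
    have h3 := hs a (Multiset.mem_cons_self a s)
    have h4 : g - algebraMap k Ω a ≠ 0 ∧ w (g - algebraMap k Ω a) ≤ 0 := by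
      by_contra h5
      apply h3
      intro h6
      by_contra h7
      exact h5 ⟨h6, not_lt.1 h7⟩
    rw [Multiset.map_cons, Multiset.prod_cons]
    refine ⟨mul_ne_zero h4.1 h1, ?_⟩
    rw [w.map_mul h4.1 h1]
    linarith [h4.2]

/-- The residue field does not change in an algebraic extension. -/
theorem ctx0_alg [IsScalarTower k L Ω] [IsAlgClosed k] {u : RVal L} {w : RVal Ω}
    (hu : Ctx0 k u) (hw : ∀ g : L, g ≠ 0 → w (algebraMap L Ω g) = u g)
    (halg : ∀ g : Ω, IsAlgebraic L g) : Ctx0 k w := by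
  classical
  have hge : ∀ {c : ℝ} {g : L}, u.Ge c g → w.Ge c (algebraMap L Ω g) := by
    intro c g h h0
    have h1 : g ≠ 0 := by rintro rfl; simp at h0
    rw [hw g h1]
    exact h h1
  have hpos : ∀ {g : L}, VPos u g → VPos w (algebraMap L Ω g) := by
    intro g h h0
    have h1 : g ≠ 0 := by rintro rfl; simp at h0
    rw [hw g h1]
    exact h h1
  refine ⟨fun c hc => ?_, fun g hg h0 => ?_⟩
  · rw [IsScalarTower.algebraMap_apply k L Ω, hw _ (by simpa using hc)]
    exact hu.triv c hc
  obtain ⟨P, hP, hPg⟩ := halg g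
  obtain ⟨i₀, hi₀, hmin⟩ := P.support.exists_min_image (fun i => u (P.coeff i))
    (Polynomial.support_nonempty.2 hP)
  have ha : P.coeff i₀ ≠ 0 := mem_support_iff.1 hi₀
  have h1 : ∀ i, u.Ge 0 (P.coeff i / P.coeff i₀) := by
    intro i h2
    have h3 : P.coeff i ≠ 0 := by
      intro h4
      rw [h4, zero_div] at h2
      exact h2 rfl
    rw [u.map_div h3 ha]
    have := hmin i (mem_support_iff.2 h3)
    linarith
  choose κ hκ using fun i => hu.residue (h1 i)
  set Q : k[X] := ∑ i ∈ P.support, monomial i (κ i) with hQ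
  have hκ0 : κ i₀ ≠ 0 := by
    intro h2
    have h3 := hκ i₀
    rw [h2, div_self ha, map_zero, sub_zero] at h3
    have := h3 one_ne_zero
    rw [u.map_one] at this
    exact lt_irrefl _ this
  have hQ0 : Q ≠ 0 := by
    intro h2
    have h3 : Q.coeff i₀ = κ i₀ := by
      rw [hQ, finsetSum_coeff]
      simp only [coeff_monomial]
      rw [Finset.sum_ite_eq' P.support i₀, if_pos hi₀]
    rw [h2, coeff_zero] at h3
    exact hκ0 h3.symm
  have hgp : ∀ i : ℕ, w.Ge 0 (g ^ i) := by
    intro i _
    rw [w.map_pow hg, h0, mul_zero]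
  -- the value of `Q` at `g`
  have h2 : aeval g Q = - ∑ i ∈ P.support,
      algebraMap L Ω (P.coeff i / P.coeff i₀ - algebraMap k L (κ i)) * g ^ i := by
    have h3 : ∑ i ∈ P.support, algebraMap L Ω (P.coeff i / P.coeff i₀) * g ^ i = 0 := by
      rw [aeval_eq_sum_range, ] at hPg
      have h4 : ∑ i ∈ P.support, algebraMap L Ω (P.coeff i) * g ^ i = 0 := by
        rw [← hPg, ← aeval_eq_sum_range, aeval_def, eval₂_eq_sum, Polynomial.sum]
      have h5 : ∑ i ∈ P.support, algebraMap L Ω (P.coeff i / P.coeff i₀) * g ^ i =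
          (algebraMap L Ω (P.coeff i₀))⁻¹ * ∑ i ∈ P.support, algebraMap L Ω (P.coeff i) * g ^ i := by
        rw [Finset.mul_sum]
        refine Finset.sum_congr rfl fun i _ => ?_
        rw [map_div₀]
        ring
      rw [h5, h4, mul_zero]
    simp only [map_sub, sub_mul, Finset.sum_sub_distrib]
    rw [h3, zero_sub, neg_neg, hQ, map_sum]
    refine Finset.sum_congr rfl fun i _ => ?_
    rw [aeval_monomial, IsScalarTower.algebraMap_apply k L Ω]
  have h3 : VPos w (aeval g Q) := by
    rw [h2]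
    have key : ∀ s : Finset ℕ, VPos w (∑ i ∈ s,
        algebraMap L Ω (P.coeff i / P.coeff i₀ - algebraMap k L (κ i)) * g ^ i) := by
      intro s
      induction s using Finset.induction_on with
      | empty => rw [Finset.sum_empty]; exact LU1.VPos.zero
      | insert a s ha' ih =>
        rw [Finset.sum_insert ha']
        have h4 : Gt w (0 + 0) (algebraMap L Ω (P.coeff a / P.coeff i₀ - algebraMap k L (κ a)) *
            g ^ a) := Gt.mul_ge (hpos (hκ a)) (hgp a)
        rw [add_zero] at h4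
        exact Gt.add h4 ih
    exact Gt.neg (key _)
  -- the roots
  have h4 : ∃ α ∈ Q.roots, VPos w (g - algebraMap k Ω α) := by
    by_contra hno
    push Not at hno
    obtain ⟨h5, h6⟩ := val_prod_le Q.roots hno
    have h7 : aeval g Q = algebraMap k Ω Q.leadingCoeff *
        (Q.roots.map fun α => g - algebraMap k Ω α).prod := by
      conv_lhs => rw [(IsAlgClosed.splits Q).eq_prod_roots]
      rw [map_mul, aeval_C, map_multiset_prod, Multiset.map_map]
      simp
    have h8 : algebraMap k Ω Q.leadingCoeff ≠ 0 := by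
      simpa using hQ0
    have h9 := h3 (by rw [h7]; exact mul_ne_zero h8 h5)
    rw [h7, w.map_mul h8 h5, IsScalarTower.algebraMap_apply k L Ω, hw _ (by simpa using hQ0),
      hu.triv _ (by simpa using hQ0)] at h9
    linarith
  obtain ⟨α, -, h5⟩ := h4
  refine ⟨α, ?_, h5⟩
  rintro rfl
  rw [map_zero, sub_zero] at h5
  have := h5 hg
  rw [h0] at this
  exact lt_irrefl _ this

end Res

/-! ## Cofinal sequences -/

theorem exists_cofinal {α : Type*} [Nonempty α] (f : α → ℝ) (h : ∀ a, ∃ b, f a < f b) :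
    ∃ b : ℕ → α, StrictMono (fun n => f (b n)) ∧ ∀ a, ∃ n, f a < f (b n) := by
  classical
  choose g hg using h
  obtain ⟨e, he⟩ := exists_surjective_nat ℚ
  let s : ℚ → α := fun q => if h : ∃ a, (q : ℝ) < f a then h.choose else Classical.arbitrary α
  have hs : ∀ q : ℚ, (∃ a, (q : ℝ) < f a) → (q : ℝ) < f (s q) := by
    intro q hq
    change (q : ℝ) < f (if h : ∃ a, (q : ℝ) < f a then h.choose else Classical.arbitrary α)
    rw [dif_pos hq]
    exact hq.choose_spec
  let b : ℕ → α := fun n => Nat.rec (Classical.arbitrary α)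
    (fun n a => if f a ≤ f (s (e n)) then g (s (e n)) else g a) n
  have hb : ∀ n, b (n + 1) = if f (b n) ≤ f (s (e n)) then g (s (e n)) else g (b n) :=
    fun n => rfl
  refine ⟨b, strictMono_nat_of_lt_succ fun n => ?_, fun a => ?_⟩
  · rw [hb]
    split_ifs with h1
    · exact h1.trans_lt (hg _)
    · exact hg _
  · obtain ⟨q, hq1, hq2⟩ := exists_rat_btwn (hg a)
    obtain ⟨n, hn⟩ := he q
    have h1 := hs q ⟨_, hq2⟩
    refine ⟨n + 1, ?_⟩
    rw [hb, hn]
    split_ifs with h2
    · exact (hq1.trans h1).trans (hg _)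
    · exact ((hq1.trans h1).trans (not_le.1 h2)).trans (hg _)

/-! ## Best approximation -/

/-- Spherical completeness: Cauchy sequences have limits. -/
def SphC {Ω : Type u} [Field Ω] (v : RVal Ω) : Prop :=
  ∀ (x : ℕ → Ω) (c : ℕ → ℝ), (∀ n m, n ≤ m → v.Ge (c n) (x m - x n)) →
    ∃ y : Ω, ∀ n, v.Ge (c n) (y - x n)

theorem sphC_hv (k : Type u) [Field k] : SphC (hv k) := exists_plim

/-- A best approximation exists. -/
theorem SphC.exists_best {L Ω : Type u} [Field L] [Field Ω] [Algebra L Ω] {u : RVal L}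
    {w : RVal Ω} (hu : SphC u) (hw : ∀ g : L, g ≠ 0 → w (algebraMap L Ω g) = u g) (θ : Ω) :
    ∃ a : L, ∀ b : L, θ - algebraMap L Ω a ≠ 0 → θ - algebraMap L Ω b ≠ 0 ∧
      w (θ - algebraMap L Ω b) ≤ w (θ - algebraMap L Ω a) := by
  by_contra hno
  push Not at hno
  have h1 : ∀ a b : L, θ - algebraMap L Ω b ≠ 0 := by
    intro a b h2
    obtain ⟨b', h3, -⟩ := hno b
    exact h3 h2
  have h2 : ∀ a : L, ∃ b : L, w (θ - algebraMap L Ω a) < w (θ - algebraMap L Ω b) := fun a => by
    obtain ⟨b, -, h3⟩ := hno a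
    exact ⟨b, h3 (h1 a b)⟩
  obtain ⟨b, hb, hcof⟩ := exists_cofinal (fun a : L => w (θ - algebraMap L Ω a)) h2
  have hge : ∀ {c : ℝ} {g : L}, w.Ge c (algebraMap L Ω g) → u.Ge c g := by
    intro c g h h0
    rw [← hw g h0]
    exact h (by simpa using h0)
  have hge' : ∀ {c : ℝ} {g : L}, u.Ge c g → w.Ge c (algebraMap L Ω g) := by
    intro c g h h0
    have h1 : g ≠ 0 := by rintro rfl; simp at h0
    rw [hw g h1]
    exact h h1
  obtain ⟨y, hy⟩ := hu b (fun n => w (θ - algebraMap L Ω (b n))) fun n m hnm => by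
    refine hge ?_
    have e : algebraMap L Ω (b m - b n) = (θ - algebraMap L Ω (b n)) - (θ - algebraMap L Ω (b m)) := by
      rw [map_sub]; ring
    rw [e]
    refine RVal.Ge.sub (RVal.ge_self _) ((RVal.ge_self _).mono ?_)
    exact hb.monotone hnm
  obtain ⟨n, hn⟩ := hcof y
  have h3 : w.Ge (w (θ - algebraMap L Ω (b n))) (θ - algebraMap L Ω y) := by
    have e : θ - algebraMap L Ω y = (θ - algebraMap L Ω (b n)) - algebraMap L Ω (y - b n) := by
      rw [map_sub]; ring
    rw [e]
    exact (RVal.ge_self _).sub (hge' (hy n))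
  have h4 := h3 (h1 y y)
  linarith

/-- A spherically complete field with all values and algebraically closed residue field is
algebraically closed. -/
theorem SphC.isAlgClosed {k L : Type u} [Field k] [Field L] [Algebra k L] [IsAlgClosed k]
    {u : RVal L} (hk : Ctx0 k u) (hu : SphC u) (hval : ∀ ρ : ℝ, ∃ x : L, x ≠ 0 ∧ u x = ρ) :
    IsAlgClosed L := by
  obtain ⟨w, hw⟩ := LU1.exists_extVal L (AlgebraicClosure L) u
  have hkw : Ctx0 k w := ctx0_alg hk hw fun g => Algebra.IsAlgebraic.isAlgebraic g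
  have hsurj : ∀ θ : AlgebraicClosure L, ∃ a : L, algebraMap L (AlgebraicClosure L) a = θ := by
    intro θ
    obtain ⟨a, ha⟩ := hu.exists_best hw θ
    by_contra hno
    push Not at hno
    have h1 : θ - algebraMap L (AlgebraicClosure L) a ≠ 0 := fun h => hno a (sub_eq_zero.1 h).symm
    obtain ⟨c, hc, hcv⟩ := hval (w (θ - algebraMap L (AlgebraicClosure L) a))
    have hc' : algebraMap L (AlgebraicClosure L) c ≠ 0 := by simpa using hc
    set g := (θ - algebraMap L (AlgebraicClosure L) a) / algebraMap L (AlgebraicClosure L) c with hg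
    have hg0 : g ≠ 0 := div_ne_zero h1 hc'
    have hgv : w g = 0 := by
      rw [hg, w.map_div h1 hc', hw c hc, hcv, sub_self]
    obtain ⟨κ, -, hκ⟩ := hkw.res g hg0 hgv
    have h2 := (ha (a + c * algebraMap k L κ) h1).1
    have h3 := (ha (a + c * algebraMap k L κ) h1).2
    have e : θ - algebraMap L (AlgebraicClosure L) (a + c * algebraMap k L κ) =
        algebraMap L (AlgebraicClosure L) c * (g - algebraMap k (AlgebraicClosure L) κ) := by
      rw [map_add, map_mul, ← IsScalarTower.algebraMap_apply k L (AlgebraicClosure L), hg]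
      field_simp
      ring
    have h4 : g - algebraMap k (AlgebraicClosure L) κ ≠ 0 := by
      intro h5
      rw [e, h5, mul_zero] at h2
      exact h2 rfl
    rw [e, w.map_mul hc' h4, hw c hc, hcv] at h3
    have := hκ h4
    linarith
  refine IsAlgClosed.of_exists_root L fun P _ hirr => ?_
  have hdeg : P.degree ≠ 0 := (Polynomial.degree_pos_of_irreducible hirr).ne'
  obtain ⟨θ, hθ⟩ := IsAlgClosed.exists_aeval_eq_zero (AlgebraicClosure L) P hdeg
  obtain ⟨a, rfl⟩ := hsurj θ
  refine ⟨a, ?_⟩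
  rw [aeval_algebraMap_apply] at hθ
  have := (algebraMap L (AlgebraicClosure L)).injective (hθ.trans (map_zero _).symm)
  rwa [coe_aeval_eq_eval] at this

instance isAlgClosed_HF (k : Type u) [Field k] [IsAlgClosed k] : IsAlgClosed (HF k) :=
  SphC.isAlgClosed (ctx0_hv k) (sphC_hv k) (exists_val k)

end Pool.Agent.TWS
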