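import Pool.Agent.Lib.TWM.Lau
import Pool.Agent.Lib.TWC.EW

/-!
# TANK W, row R6: adjunction of monomials, part A

`G` is a group of real numbers, `M g` a monomial of value `g` (`MS v G M`).
* `VG v A`: the values of `A`; `MonG v A₀ G M`: the monomials with values in `A₀` are in `A₀`;
* `PM v A G M`: the closure of `A(M g : g ∈ G)`;
* `NF`: the sums `∑ f_g M g`, `g` in a system of representatives modulo the values of `A₀`;
  `orth`: they are orthogonal, if the coefficients are in a field which is immediate over `A₀`;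
* `dense_PM`: these sums are dense in `PM v A G M`;
* `dist_PM`: the distances to `A` and to `PM v A G M` are the same;
* `TL.pm`: the radius over `PM v A G M` is the radius over `A`.
-/

set_option autoImplicit false

open Polynomial

namespace Pool.Agent.TWS

open Pool.Agent.H15JM (RVal)
open Pool.Agent.LU1 (VPos adj)
open Pool.Agent.LUC (Cl clF)
open Pool.Agent.D2 (Ctx0)
open Pool.Agent.D2P (hen clI mem_clI)
open Pool.Agent.TWM
open Pool.Agent.TWC (Tow clI_mono' clI_le')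

universe u

variable {k Ω : Type u} [Field k] [Field Ω] [Algebra k Ω] {v : RVal Ω}
  {A₀ A B : IntermediateField k Ω} {G : AddSubgroup ℝ} {M : ℝ → Ω}

/-! ### Fields of limits of a ring -/

/-- `x` is a limit of `S`. -/
def LimS (v : RVal Ω) (S : Set Ω) (x : Ω) : Prop := ∀ b : ℝ, ∃ y ∈ S, v.Ge b (x - y)

theorem LimS.of_mem {S : Set Ω} {x : Ω} (h : x ∈ S) : LimS v S x := fun _ =>
  ⟨x, h, by rw [sub_self]; exact RVal.Ge.zero⟩

/-- The field of the limits of a subring whose elements have approximate inverses. -/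
noncomputable def limF (v : RVal Ω) (S : Subalgebra k Ω)
    (hS : ∀ y ∈ S, y ≠ 0 → LimS v (S : Set Ω) y⁻¹) : IntermediateField k Ω where
  carrier := {x | LimS v (S : Set Ω) x}
  mul_mem' := by
    intro x y hx hy b
    obtain ⟨x', hx', h1⟩ := hx (b - v y)
    obtain ⟨y', hy', h2⟩ := hy (b - v x')
    refine ⟨x' * y', S.mul_mem hx' hy', ?_⟩
    rw [show x * y - x' * y' = (x - x') * y + x' * (y - y') by ring]
    refine RVal.Ge.add ?_ ?_
    · have := h1.mul (RVal.ge_self (v := v) y)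
      rwa [sub_add_cancel] at this
    · have := (RVal.ge_self (v := v) x').mul h2
      rwa [add_sub_cancel] at this
  add_mem' := by
    intro x y hx hy b
    obtain ⟨x', hx', h1⟩ := hx b
    obtain ⟨y', hy', h2⟩ := hy b
    exact ⟨x' + y', S.add_mem hx' hy', by rw [add_sub_add_comm]; exact h1.add h2⟩
  algebraMap_mem' a := LimS.of_mem (S.algebraMap_mem a)
  inv_mem' := by
    intro x hx b
    by_cases h0 : x = 0
    · exact ⟨0, S.zero_mem, by rw [h0, inv_zero, sub_self]; exact RVal.Ge.zero⟩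
    obtain ⟨y, hy, h1⟩ := hx (max (v x + 1) (b + 2 * v x))
    obtain ⟨hy0, hyv⟩ := Gt.val_eq h0 (Gt.of_ge (h1.mono (le_max_left _ _)) (by linarith))
    obtain ⟨z, hz, h2⟩ := hS y hy hy0 b
    refine ⟨z, hz, ?_⟩
    rw [show x⁻¹ - z = (x⁻¹ - y⁻¹) + (y⁻¹ - z) by ring]
    refine RVal.Ge.add ?_ h2
    have e : x⁻¹ - y⁻¹ = (y - x) * (x⁻¹ * y⁻¹) := by
      field_simp
    rw [e]
    have h3 : v.Ge (-(2 * v x)) (x⁻¹ * y⁻¹) := by
      intro _
      rw [v.map_mul (inv_ne_zero h0) (inv_ne_zero hy0), v.map_inv h0, v.map_inv hy0, hyv]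
      linarith
    have h4 := (ge_sub_comm (h1.mono (le_max_right _ _))).mul h3
    refine h4.mono ?_
    linarith

theorem mem_limF {S : Subalgebra k Ω} {hS : ∀ y ∈ S, y ≠ 0 → LimS v (S : Set Ω) y⁻¹} {x : Ω} :
    x ∈ limF v S hS ↔ LimS v (S : Set Ω) x := Iff.rfl

theorem limF_cld {S : Subalgebra k Ω} (hS : ∀ y ∈ S, y ≠ 0 → LimS v (S : Set Ω) y⁻¹) :
    Cld v (limF v S hS) := by
  intro x hx b
  obtain ⟨y, hy, h1⟩ := mem_clI.1 hx b
  obtain ⟨z, hz, h2⟩ := mem_limF.1 (show y ∈ limF v S hS from hy) b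
  refine ⟨z, hz, ?_⟩
  rw [show x - z = (x - y) + (y - z) by ring]
  exact h1.add h2

/-! ### Values -/

/-- The values of the nonzero elements of `A`. -/
def VG (v : RVal Ω) (A : IntermediateField k Ω) : AddSubgroup ℝ where
  carrier := {g | ∃ a ∈ A, a ≠ 0 ∧ v a = g}
  add_mem' := by
    rintro _ _ ⟨a, ha, h0, rfl⟩ ⟨b, hb, h1, rfl⟩
    exact ⟨a * b, mul_mem ha hb, mul_ne_zero h0 h1, v.map_mul h0 h1⟩
  zero_mem' := ⟨1, one_mem _, one_ne_zero, v.map_one⟩
  neg_mem' := by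
    rintro _ ⟨a, ha, h0, rfl⟩
    exact ⟨a⁻¹, inv_mem ha, inv_ne_zero h0, v.map_inv h0⟩

theorem VG.mono (h : A ≤ B) : VG v A ≤ VG v B := by
  rintro _ ⟨a, ha, h0, rfl⟩
  exact ⟨a, h ha, h0, rfl⟩

theorem VG.self {a : Ω} (ha : a ∈ A) (h0 : a ≠ 0) : v a ∈ VG v A := ⟨a, ha, h0, rfl⟩

theorem VG.imm (h : Imm v A B) : VG v B = VG v A := by
  refine le_antisymm ?_ (VG.mono h.le)
  rintro _ ⟨b, hb, h0, rfl⟩
  obtain ⟨a, ha, h1⟩ := h.imm b hb h0
  obtain ⟨h2, h3⟩ := Gt.val_eq h0 h1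
  exact ⟨a, ha, h2, h3⟩

/-- The monomials with values in `A₀` are in `A₀`. -/
structure MonG (v : RVal Ω) (A₀ : IntermediateField k Ω) (G : AddSubgroup ℝ) (M : ℝ → Ω) :
    Prop where
  ms : MS v G M
  mem : ∀ g ∈ G, g ∈ VG v A₀ → M g ∈ A₀

theorem MonG.imm (h : MonG v A₀ G M) (hi : Imm v A₀ A) : MonG v A G M :=
  ⟨h.ms, fun g hg hgA => hi.le (h.mem g hg (by rwa [VG.imm hi] at hgA))⟩

/-- The closure of `A(M g : g ∈ G)`. -/
noncomputable def PM (v : RVal Ω) (A : IntermediateField k Ω) (G : AddSubgroup ℝ) (M : ℝ → Ω) :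
    IntermediateField k Ω :=
  clI v (A ⊔ IntermediateField.adjoin k (M '' (G : Set ℝ)))

theorem PM.cld : Cld v (PM v A G M) := cld_clI v _

theorem PM.le : A ≤ PM v A G M := fun _ ha => Cl.subset
  ((le_sup_left : A ≤ A ⊔ IntermediateField.adjoin k (M '' (G : Set ℝ))) ha)

theorem PM.mon {g : ℝ} (hg : g ∈ G) : M g ∈ PM v A G M := Cl.subset
  ((le_sup_right : _ ≤ A ⊔ IntermediateField.adjoin k (M '' (G : Set ℝ)))
    (IntermediateField.subset_adjoin _ _ ⟨g, hg, rfl⟩))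

theorem PM.le_of {D : IntermediateField k Ω} (hD : Cld v D) (hA : A ≤ D)
    (hM : ∀ g ∈ G, M g ∈ D) : PM v A G M ≤ D := by
  refine clI_le' (sup_le hA ?_) hD
  rw [IntermediateField.adjoin_le_iff]
  rintro _ ⟨g, hg, rfl⟩
  exact hM g hg

theorem PM.mono (h : A ≤ B) : PM v A G M ≤ PM v B G M :=
  PM.le_of PM.cld (h.trans PM.le) fun _ hg => PM.mon hg

theorem PM.cadj (z : Ω) : PM v (cadj v A z) G M = cadj v (PM v A G M) z := by
  refine le_antisymm ?_ ?_
  · refine PM.le_of (cld_cadj v _ _) ?_ fun g hg => le_cadj v _ _ (PM.mon hg)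
    exact cadj_le (cld_cadj v _ _) (PM.le.trans (le_cadj v _ _)) (self_mem_cadj v _ _)
  · exact cadj_le PM.cld (PM.mono (le_cadj v A z)) (PM.le (self_mem_cadj v A z))

/-! ### The normal form -/

/-- A representative of the class of `g` modulo the values of `A₀` in `G`. -/
noncomputable def rep (v : RVal Ω) (A₀ : IntermediateField k Ω) (G : AddSubgroup ℝ) (g : ℝ) : ℝ :=
  (QuotientAddGroup.mk g : ℝ ⧸ (G ⊓ VG v A₀)).out

theorem rep_sub (g : ℝ) : rep v A₀ G g - g ∈ G ⊓ VG v A₀ := by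
  have h1 : (QuotientAddGroup.mk (rep v A₀ G g) : ℝ ⧸ (G ⊓ VG v A₀)) = QuotientAddGroup.mk g :=
    Quotient.out_eq' _
  have h2 := QuotientAddGroup.eq.1 h1.symm
  rwa [neg_add_eq_sub] at h2

theorem rep_congr {g h : ℝ} (hgh : g - h ∈ G ⊓ VG v A₀) : rep v A₀ G g = rep v A₀ G h := by
  unfold rep
  congr 1
  rw [QuotientAddGroup.eq]
  have := (G ⊓ VG v A₀).neg_mem hgh
  rwa [neg_sub, sub_eq_neg_add] at this

theorem rep_rep (g : ℝ) : rep v A₀ G (rep v A₀ G g) = rep v A₀ G g := rep_congr (rep_sub g)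

theorem rep_mem {g : ℝ} (hg : g ∈ G) : rep v A₀ G g ∈ G := by
  have h1 := (rep_sub (v := v) (A₀ := A₀) (G := G) g).1
  have := G.add_mem h1 hg
  rwa [sub_add_cancel] at this

/-- The sum `∑ f_g M g`. -/
noncomputable def evM (M : ℝ → Ω) (L : ℝ →₀ Ω) : Ω := L.sum fun g a => a * M g

theorem evM_add (L L' : ℝ →₀ Ω) : evM M (L + L') = evM M L + evM M L' :=
  Finsupp.sum_add_index' (fun _ => zero_mul _) fun _ _ _ => add_mul _ _ _

theorem evM_single (g : ℝ) (a : Ω) : evM M (Finsupp.single g a) = a * M g :=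
  Finsupp.sum_single_index (zero_mul _)

theorem evM_zero : evM M (0 : ℝ →₀ Ω) = 0 := Finsupp.sum_zero_index

/-- Coefficients in `A`, exponents in a system of representatives. -/
structure NF (v : RVal Ω) (A₀ A : IntermediateField k Ω) (G : AddSubgroup ℝ) (L : ℝ →₀ Ω) :
    Prop where
  mem : ∀ g, L g ∈ A
  rep : ∀ g, L g ≠ 0 → g ∈ G ∧ rep v A₀ G g = g

theorem NF.zero : NF v A₀ A G 0 := ⟨fun _ => zero_mem _, fun _ h => absurd rfl h⟩

theorem NF.add {L L' : ℝ →₀ Ω} (h : NF v A₀ A G L) (h' : NF v A₀ A G L') :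
    NF v A₀ A G (L + L') := by
  refine ⟨fun g => add_mem (h.mem g) (h'.mem g), fun g hg => ?_⟩
  by_cases h0 : L g = 0
  · refine h'.rep g fun h1 => hg ?_
    rw [Finsupp.add_apply, h0, h1, add_zero]
  · exact h.rep g h0

theorem NF.smul {L : ℝ →₀ Ω} (h : NF v A₀ A G L) {a : Ω} (ha : a ∈ A) :
    NF v A₀ A G (a • L) := by
  refine ⟨fun g => mul_mem ha (h.mem g), fun g hg => h.rep g fun h0 => hg ?_⟩
  rw [Finsupp.smul_apply, h0, smul_zero]

theorem evM_smul (a : Ω) (L : ℝ →₀ Ω) : evM M (a • L) = a * evM M L := by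
  rw [evM, Finsupp.sum_smul_index' (fun _ => zero_mul _), evM, Finsupp.mul_sum]
  exact Finsupp.sum_congr fun g _ => by rw [smul_eq_mul, mul_assoc]

theorem NF.mono {L : ℝ →₀ Ω} (h : NF v A₀ A G L) (hAB : A ≤ B) : NF v A₀ B G L :=
  ⟨fun g => hAB (h.mem g), h.rep⟩

/-- The monomials as a submonoid. -/
def monoM (hM : MS v G M) : Submonoid Ω where
  carrier := M '' (G : Set ℝ)
  mul_mem' := by
    rintro _ _ ⟨g, hg, rfl⟩ ⟨h, hh, rfl⟩
    exact ⟨g + h, G.add_mem hg hh, hM.mul g hg h hh⟩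
  one_mem' := ⟨0, G.zero_mem, hM.zero⟩

/-- The algebra of the sums `∑ f_g M g`. -/
noncomputable def AM (A : IntermediateField k Ω) (hM : MS v G M) : Subalgebra k Ω :=
  (Algebra.adjoin A (monoM hM : Set Ω)).restrictScalars k

theorem mem_AM (hM : MS v G M) {x : Ω} :
    x ∈ AM A hM ↔ x ∈ Submodule.span A (monoM hM : Set Ω) := by
  have h1 : Subalgebra.toSubmodule (Algebra.adjoin A (monoM hM : Set Ω)) =
      Submodule.span A (monoM hM : Set Ω) := by
    rw [Algebra.adjoin_eq_span, Submonoid.closure_eq]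
  rw [← h1]
  rfl

theorem AM.le (hM : MS v G M) {a : Ω} (ha : a ∈ A) : a ∈ AM A hM :=
  (Algebra.adjoin A (monoM hM : Set Ω)).algebraMap_mem (⟨a, ha⟩ : A)

theorem AM.mon (hM : MS v G M) {g : ℝ} (hg : g ∈ G) : M g ∈ AM A hM := by
  rw [mem_AM]
  exact Submodule.subset_span ⟨g, hg, rfl⟩

theorem NF.evM_mem {L : ℝ →₀ Ω} (h : NF v A₀ A G L) (hM : MS v G M) : evM M L ∈ AM A hM := by
  refine (AM A hM).sum_mem fun g hg => ?_
  exact (AM A hM).mul_mem (AM.le hM (h.mem g)) (AM.mon hM (h.rep g (Finsupp.mem_support_iff.1 hg)).1)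

theorem exists_nf (hM : MonG v A₀ G M) (hA : A₀ ≤ A) {x : Ω} (hx : x ∈ AM A hM.ms) :
    ∃ L : ℝ →₀ Ω, NF v A₀ A G L ∧ x = evM M L := by
  rw [mem_AM] at hx
  induction hx using Submodule.span_induction with
  | mem x hx =>
    obtain ⟨g, hg, rfl⟩ := hx
    have h1 := rep_sub (v := v) (A₀ := A₀) (G := G) g
    have h2 : g - rep v A₀ G g ∈ G ⊓ VG v A₀ := by
      have := (G ⊓ VG v A₀).neg_mem h1
      rwa [neg_sub] at this
    have hr := rep_mem (v := v) (A₀ := A₀) hg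
    refine ⟨Finsupp.single (rep v A₀ G g) (M (g - rep v A₀ G g)), ⟨fun i => ?_, fun i hi => ?_⟩, ?_⟩
    · rw [Finsupp.single_apply]
      split_ifs
      · exact hA (hM.mem _ h2.1 h2.2)
      · exact zero_mem _
    · rw [Finsupp.single_apply] at hi
      split_ifs at hi with h3
      · rw [← h3]
        exact ⟨hr, rep_rep g⟩
      · exact absurd rfl hi
    · rw [evM_single, ← hM.ms.mul _ h2.1 _ hr, sub_add_cancel]
  | zero => exact ⟨0, NF.zero, evM_zero.symm⟩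
  | add x y _ _ hx hy =>
    obtain ⟨L, hL, rfl⟩ := hx
    obtain ⟨L', hL', rfl⟩ := hy
    exact ⟨L + L', hL.add hL', (evM_add L L').symm⟩
  | smul a x _ hx =>
    obtain ⟨L, hL, rfl⟩ := hx
    exact ⟨(a : Ω) • L, hL.smul a.2, (evM_smul (a : Ω) L).symm⟩

/-- The leading term. -/
theorem lead (hM : MonG v A₀ G M) (hB : Imm v A₀ B) {L : ℝ →₀ Ω} (hL : NF v A₀ B G L)
    (h0 : L ≠ 0) : ∃ r, L r ≠ 0 ∧ (∀ g, g ≠ r → Gt v (v (L r * M r)) (L g * M g)) ∧
      Gt v (v (L r * M r)) (evM M L - L r * M r) ∧ evM M L ≠ 0 ∧ v (evM M L) = v (L r * M r) := by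
  classical
  have hne : L.support.Nonempty := Finsupp.support_nonempty_iff.2 h0
  obtain ⟨r, hr, hmin⟩ := Finset.exists_min_image L.support (fun g => v (L g * M g)) hne
  have hr0 := Finsupp.mem_support_iff.1 hr
  have hval : ∀ g, L g ≠ 0 → v (L g * M g) = v (L g) + g := fun g hg => by
    rw [v.map_mul hg (hM.ms.ne g (hL.rep g hg).1), hM.ms.val g (hL.rep g hg).1]
  have hstr : ∀ g, g ≠ r → Gt v (v (L r * M r)) (L g * M g) := by
    intro g hg h1
    have hg0 : L g ≠ 0 := left_ne_zero_of_mul h1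
    refine lt_of_le_of_ne (hmin g (Finsupp.mem_support_iff.2 hg0)) fun h2 => hg ?_
    rw [hval g hg0, hval r hr0] at h2
    have h3 : g - r ∈ G ⊓ VG v A₀ := by
      refine ⟨G.sub_mem (hL.rep g hg0).1 (hL.rep r hr0).1, ?_⟩
      have h4 : g - r = v (L r) - v (L g) := by linarith
      change g - r ∈ VG v A₀
      rw [h4, ← VG.imm hB]
      exact (VG v B).sub_mem (VG.self (hL.mem r) hr0) (VG.self (hL.mem g) hg0)
    rw [← (hL.rep g hg0).2, ← (hL.rep r hr0).2]
    exact rep_congr h3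
  have hsum : Gt v (v (L r * M r)) (evM M L - L r * M r) := by
    have h1 : evM M L - L r * M r = ∑ g ∈ L.support.erase r, L g * M g := by
      rw [evM, Finsupp.sum, ← Finset.sum_erase_add _ _ hr, add_sub_cancel_right]
    rw [h1]
    exact Gt.sum _ _ fun g hg => hstr g (Finset.ne_of_mem_erase hg)
  have hrM : L r * M r ≠ 0 := mul_ne_zero hr0 (hM.ms.ne r (hL.rep r hr0).1)
  obtain ⟨h1, h2⟩ := Gt.val_eq hrM hsum.sub_comm'
  exact ⟨r, hr0, hstr, hsum, h1, h2⟩

/-- **Orthogonality.** -/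
theorem orth (hM : MonG v A₀ G M) (hB : Imm v A₀ B) {L : ℝ →₀ Ω} (hL : NF v A₀ B G L) {b : ℝ}
    (h : v.Ge b (evM M L)) (g : ℝ) : v.Ge b (L g * M g) := by
  by_cases h0 : L = 0
  · rw [h0, Finsupp.zero_apply, zero_mul]
    exact RVal.Ge.zero
  obtain ⟨r, hr0, h1, _, h3, h4⟩ := lead hM hB hL h0
  have h5 : b ≤ v (L r * M r) := by
    rw [← h4]
    exact h h3
  by_cases hg : g = r
  · rw [hg]
    exact (RVal.ge_self _).mono h5
  · exact (h1 g hg).ge.mono h5

/-- Approximate inverses. -/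
theorem AM.inv (hM : MonG v A₀ G M) (hi : Imm v A₀ A) : ∀ y ∈ AM A hM.ms, y ≠ 0 →
    LimS v (AM A hM.ms : Set Ω) y⁻¹ := by
  intro y hy hy0 b
  obtain ⟨L, hL, rfl⟩ := exists_nf hM hi.le hy
  have h0 : L ≠ 0 := by
    rintro rfl
    exact hy0 evM_zero
  obtain ⟨r, hr0, -, h2, -, h4⟩ := lead hM hi hL h0
  have hrG := (hL.rep r hr0).1
  have hM0 := hM.ms.ne r hrG
  set t := L r * M r with ht
  have ht0 : t ≠ 0 := mul_ne_zero hr0 hM0
  have htm : t⁻¹ ∈ AM A hM.ms := by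
    rw [ht, mul_inv, ← hM.ms.neg hrG]
    exact (AM A hM.ms).mul_mem (AM.le _ (inv_mem (hL.mem r))) (AM.mon _ (G.neg_mem hrG))
  set e := (t - evM M L) * t⁻¹ with he
  have htm' : t ∈ AM A hM.ms := (AM A hM.ms).mul_mem (AM.le _ (hL.mem r)) (AM.mon _ hrG)
  have hem : e ∈ AM A hM.ms := (AM A hM.ms).mul_mem ((AM A hM.ms).sub_mem htm' hy) htm
  have hev : evM M L = t * (1 - e) := by
    rw [he]
    field_simp
    ring
  have heg : Gt v 0 e := by
    have h5 := h2.sub_comm'.mul_ge (RVal.ge_self (v := v) t⁻¹)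
    rwa [v.map_inv ht0, add_neg_cancel] at h5
  obtain ⟨δ, hδ, h6⟩ : ∃ δ : ℝ, 0 < δ ∧ v.Ge δ e := by
    by_cases he0 : e = 0
    · exact ⟨1, one_pos, by rw [he0]; exact RVal.Ge.zero⟩
    · exact ⟨v e, heg he0, RVal.ge_self e⟩
  obtain ⟨n, hn⟩ := exists_nat_ge ((b + v (evM M L)) / δ)
  refine ⟨t⁻¹ * ∑ i ∈ Finset.range n, e ^ i,
    (AM A hM.ms).mul_mem htm ((AM A hM.ms).sum_mem fun i _ => (AM A hM.ms).pow_mem hem i), ?_⟩
  have h7 : (evM M L)⁻¹ - t⁻¹ * ∑ i ∈ Finset.range n, e ^ i = (evM M L)⁻¹ * e ^ n := by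
    have h8 : (1 - e) ≠ 0 := by
      intro h9
      rw [h9, mul_zero] at hev
      exact hy0 hev
    have h9 : (∑ i ∈ Finset.range n, e ^ i) * (1 - e) = 1 - e ^ n := by
      have := geom_sum_mul e n
      linear_combination -this
    have h10 : ∑ i ∈ Finset.range n, e ^ i = (1 - e ^ n) / (1 - e) := by
      rw [eq_div_iff h8, h9]
    rw [h10, hev]
    field_simp
    ring
  rw [h7]
  have h8 : v.Ge (-v (evM M L)) (evM M L)⁻¹ := by
    intro _
    rw [v.map_inv hy0]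
  refine (h8.mul (ge_pow h6 n)).mono ?_
  have h9 : b + v (evM M L) ≤ n * δ := by
    rwa [div_le_iff₀ hδ] at hn
  linarith

/-- The sums are dense. -/
theorem dense_AM (hM : MonG v A₀ G M) (hi : Imm v A₀ A) {x : Ω} (hx : x ∈ PM v A G M) :
    LimS v (AM A hM.ms : Set Ω) x := by
  have h1 : PM v A G M ≤ limF v (AM A hM.ms) (AM.inv hM hi) :=
    PM.le_of (limF_cld _) (fun a ha => LimS.of_mem (AM.le hM.ms ha))
      fun g hg => LimS.of_mem (AM.mon hM.ms hg)
  exact h1 hx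

theorem dense_PM (hM : MonG v A₀ G M) (hi : Imm v A₀ A) {x : Ω} (hx : x ∈ PM v A G M) (b : ℝ) :
    ∃ L : ℝ →₀ Ω, NF v A₀ A G L ∧ v.Ge b (x - evM M L) := by
  obtain ⟨y, hy, h1⟩ := dense_AM hM hi hx b
  obtain ⟨L, hL, rfl⟩ := exists_nf hM hi.le hy
  exact ⟨L, hL, h1⟩

theorem evM_mem_PM {L : ℝ →₀ Ω} (hL : NF v A₀ A G L) : evM M L ∈ PM v A G M :=
  sum_mem fun g hg => mul_mem (PM.le (hL.mem g))
    (PM.mon (hL.rep g (Finsupp.mem_support_iff.1 hg)).1)

/-- The field with the monomials is immediate over the small one. -/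
theorem Imm.pm (hM : MonG v A₀ G M) (hi : Imm v A₀ A) : Imm v (PM v A₀ G M) (PM v A G M) where
  le := PM.mono hi.le
  imm := by
    intro x hx hx0
    obtain ⟨L, hL, h1⟩ := dense_PM hM hi hx (v x + 1)
    have h1' : Gt v (v x) (x - evM M L) := Gt.of_ge h1 (by linarith)
    obtain ⟨h2, h3⟩ := Gt.val_eq hx0 h1'
    have h0 : L ≠ 0 := by
      rintro rfl
      exact h2 evM_zero
    obtain ⟨r, hr0, -, h4, -, h5⟩ := lead hM hi hL h0
    have hrG := (hL.rep r hr0).1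
    obtain ⟨a, ha, h6⟩ := hi.imm _ (hL.mem r) hr0
    refine ⟨a * M r, mul_mem (PM.le ha) (PM.mon hrG), ?_⟩
    have e : x - a * M r = (x - evM M L) + (evM M L - L r * M r) + (L r - a) * M r := by ring
    rw [e]
    rw [← h5, h3] at h4
    refine (h1'.add h4).add ?_
    have h7 := h6.mul_ge (RVal.ge_self (v := v) (M r))
    rwa [← v.map_mul hr0 (hM.ms.ne r hrG), ← h5, h3] at h7

/-- The distances are the same. -/
theorem dist_PM (hM : MonG v A₀ G M) (hi : Imm v A₀ A) (hB : Imm v A₀ B) (hAB : A ≤ B) {z x : Ω}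
    (hz : z ∈ B) (hx : x ∈ PM v A G M) {b : ℝ} (h : v.Ge b (z - x)) :
    ∃ a ∈ A, v.Ge b (z - a) := by
  classical
  obtain ⟨L, hL, h1⟩ := dense_PM hM hi hx b
  have h2 : v.Ge b (z - evM M L) := by
    have := h.add h1
    rwa [sub_add_sub_cancel] at this
  set r := rep v A₀ G 0 with hr
  have hr1 : r ∈ G ⊓ VG v A₀ := by
    have := rep_sub (v := v) (A₀ := A₀) (G := G) 0
    rwa [sub_zero] at this
  have hrM := hM.mem r hr1.1 hr1.2
  have hr0 := hM.ms.ne r hr1.1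
  have hN : NF v A₀ B G (Finsupp.single r (z * (M r)⁻¹) + (-1 : Ω) • L) := by
    refine NF.add ⟨fun g => ?_, fun g hg => ?_⟩ ((hL.mono hAB).smul (neg_mem (one_mem _)))
    · rw [Finsupp.single_apply]
      split_ifs
      · exact mul_mem hz (inv_mem (hB.le hrM))
      · exact zero_mem _
    · rw [Finsupp.single_apply] at hg
      split_ifs at hg with h3
      · rw [← h3]
        exact ⟨hr1.1, rep_rep 0⟩
      · exact absurd rfl hg
  have h3 : evM M (Finsupp.single r (z * (M r)⁻¹) + (-1 : Ω) • L) = z - evM M L := by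
    rw [evM_add, evM_single, evM_smul, inv_mul_cancel_right₀ hr0]
    ring
  have h4 := orth hM hB hN (by rw [h3]; exact h2) r
  rw [Finsupp.add_apply, Finsupp.single_eq_same, Finsupp.smul_apply, smul_eq_mul] at h4
  refine ⟨L r * M r, mul_mem (hL.mem r) (hi.le hrM), ?_⟩
  have e : z - L r * M r = (z * (M r)⁻¹ + -1 * L r) * M r := by
    rw [add_mul, inv_mul_cancel_right₀ hr0]
    ring
  rwa [e]

end Pool.Agent.TWS
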