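import Pool.Agent.Lib.TWS.MonJ
import Pool.Agent.Lib.TWC.TowRpi

/-!
# TANK W, row R6, part K: the descent over a perfect field, radius zero

* `isD_pres`, `opT_pres`: the operators of the field with the monomials preserve the small field;
* `base_w'`, `lift_w0`: the operators of `P<w>`, radius zero, with the monomials;
* `last_descent`: a tower over the roots of `w` comes down to a tower over `P<w>`.
-/

set_option autoImplicit false

open Polynomial

namespace Pool.Agent.TWS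

open Pool.Agent.H15JM (RVal)
open Pool.Agent.LU1 (VPos adj)
open Pool.Agent.D2 (Ctx0)
open Pool.Agent.D2P (hen clI mem_clI)
open Pool.Agent.TWM
open Pool.Agent.TWC (Opr Tow EW Oper OpGen NSD Desc Nilp DnsS AU IsD opT fn fn_zero fn_add fn_near
  fn_opZero fn_opAdd fn_opSmul ev_mem)
open Pool.Agent.TWC.Key (hd ev lf)

universe u

variable {k Ω : Type u} [Field k] [Field Ω] [Algebra k Ω] {v : RVal Ω}

section Pres

variable {p : ℕ} [hp : Fact p.Prime] [CharP Ω p] [hcx : Fact (Ctx0 k v)]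
  {B B' E E' : IntermediateField k Ω} {m : ℕ} {u : ℕ → Fin m → Ω}

omit hp [CharP Ω p] in
/-- The operators preserve the small field. -/
theorem isD_pres (hr : ∀ n l, u (n + 1) l ^ p = u n l) (hBE : B ≤ E) (hBB : B ≤ B')
    (hu : ∀ n l, u n l ∈ E) (hd : DnsS v (AU B u) E) (hE : Cld v E) (hEE : E ≤ E')
    {φ : Opr v E'} {n : ℕ} {F : Fin m → ℕ} (h : IsD p B' u φ n F) : ∀ e ∈ E, fn φ e ∈ E := by
  have key : ∀ (N : ℕ) (f : (Fin m → ℕ) →₀ B), fn φ (ev (u N) f) ∈ E := by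
    intro N f
    induction f using Finsupp.induction_linear with
    | zero => rw [map_zero, fn_zero]; exact zero_mem E
    | add f g hf hg =>
      rw [map_add, fn_add φ (hEE (ev_mem hBE (hu N) f)) (hEE (ev_mem hBE (hu N) g))]
      exact add_mem hf hg
    | single I c =>
      have e1 : ev (u N) (Finsupp.single I c) =
          ev (u N) (Finsupp.single I (⟨c, hBB c.2⟩ : B')) := by
        rw [TWC.Key.ev_single, TWC.Key.ev_single]
        rfl
      rw [e1, h.apply hr, TWC.Key.lf_single, TWC.Key.ev_hd_single]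
      exact mul_mem (hBE c.2) (prod_mem fun l _ => mul_mem (natCast_mem E _)
        (pow_mem (hu _ _) _))
  intro e he
  refine hE (mem_clI.2 fun b => ?_)
  obtain ⟨_, ⟨N, f, rfl⟩, hfE, h1⟩ := hd e he b
  exact ⟨_, key N f, fn_near φ (hEE he) (hEE hfE) h1⟩

omit hp [CharP Ω p] in
theorem opT_pres (hr : ∀ n l, u (n + 1) l ^ p = u n l) (hBE : B ≤ E) (hBB : B ≤ B')
    (hu : ∀ n l, u n l ∈ E) (hd : DnsS v (AU B u) E) (hE : Cld v E) (hEE : E ≤ E') :
    ∀ φ ∈ opT p v B' E' u, ∀ e ∈ E, fn φ e ∈ E := by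
  intro φ hφ e he
  induction hφ using Submodule.span_induction with
  | mem φ hφ =>
    obtain ⟨n, F, -, -, h⟩ := hφ
    exact isD_pres hr hBE hBB hu hd hE hEE h e he
  | zero => rw [fn_opZero]; exact zero_mem E
  | add φ ψ _ _ h1 h2 => rw [fn_opAdd]; exact add_mem h1 h2
  | smul a φ _ h1 => rw [fn_opSmul]; exact E.smul_mem h1

end Pres

section Last

variable {P L : IntermediateField k Ω} {M : ℝ → Ω}
variable (p : ℕ) [hp : Fact p.Prime] [CharP k p] [CharP Ω p] [PerfectRing k p] [IsAlgClosed Ω]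
  [hcx : Fact (Ctx0 k v)]

/-- `base_w`, the operators are explicit. -/
theorem base_w' (hc : CompleteV v) (hP : Cld v P) (hP' : ∀ a ∈ P, ∃ b ∈ P, b ^ p = a) {w : Ω}
    (hw : TL v P w 0) {u : ℕ → Ω} (hu0 : u 0 = w) (hu : ∀ n, u (n + 1) ^ p = u n) :
    ∃ (h : Oper p v (TWM.cadj v P w) (EW v P u)
        (opT p v P (EW v P u) fun n (_ : Fin 1) => u n)),
      OpGen v (opT p v P (EW v P u) fun n (_ : Fin 1) => u n)
        {φ : Opr v (EW v P u) | ∃ (n : ℕ) (F : Fin 1 → ℕ), (∃ l, F l ≠ 0) ∧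
      (∀ l, F l < p ^ n) ∧ IsD p P (fun n (_ : Fin 1) => u n) φ n F} ∧ NSD p h ∧
      ∀ L : IntermediateField k Ω, Cld v L → P ≤ L → w ∈ L → ¬ TWM.Nr' v L 0 (u 1) →
        Desc v (TWM.cadj v P w) (EW v P u) (opT p v P (EW v P u) fun n (_ : Fin 1) => u n) L
          (clI v (L ⊔ EW v P u)) := by
  have hr : ∀ n (l : Fin 1), (fun n (_ : Fin 1) => u n) (n + 1) l ^ p =
      (fun n (_ : Fin 1) => u n) n l := fun n _ => hu n
  have hUE : ∀ n (l : Fin 1), (fun n (_ : Fin 1) => u n) n l ∈ EW v P u := fun n _ =>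
    TWC.EW.mem n
  have hlim := TWC.root_lim p hP' hw hu0 hu
  have hdE := TWC.dns_EW p hw hu0 hu
  have hE : Cld v (EW v P u) := TWC.EW.cld
  have hE' : ∀ a ∈ EW v P u, ∃ b ∈ EW v P u, b ^ p = a := TWC.EW.perf p hc hP hP' hu
  have hPC : P ≤ TWM.cadj v P w := le_cadj v P w
  have hwC : w ∈ TWM.cadj v P w := self_mem_cadj v P w
  have hisoC : TWC.Iso p v (TWM.cadj v P w) (fun n (_ : Fin 1) => u n) := by
    refine TWC.iso_one p hu (cld_cadj v P w) (by rw [hu0]; exact hwC)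
      (fun n ε hε => ?_) ?_
    · obtain ⟨h, hh, h1⟩ := hlim n ε hε
      exact ⟨h, hPC hh, h1⟩
    · rintro ⟨l, hl, h3⟩
      refine TWC.Tow.not_root p hcx.out hP hP' hw (Tow.zero (cld_cadj v P w)) hl ?_
      have h4 : l ^ p - w = -((u 1 - l) ^ p) := by
        rw [sub_pow_p, show (1 : ℕ) = 0 + 1 from rfl, hu 0, hu0]
        ring
      rw [h4]
      have h5 := ge_pow h3.ge p
      rw [mul_zero] at h5
      exact h5.neg
  have hn : TWC.NBd p v P (fun n (_ : Fin 1) => u n) := (hisoC.nbd hcx.out hc).of_le hPC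
  have hC : TWM.cadj v P w ≤ clI v (P ⊔ IntermediateField.adjoin k
      (Set.range ((fun n (_ : Fin 1) => u n) 0))) := by
    refine clI_mono (sup_le_sup_left ?_ P)
    rw [IntermediateField.adjoin_le_iff]
    rintro _ rfl
    exact IntermediateField.subset_adjoin _ _ ⟨0, hu0⟩
  have hop : Oper p v (TWM.cadj v P w) (EW v P u)
      (opT p v P (EW v P u) fun n (_ : Fin 1) => u n) :=
    TWC.opT_oper hc hr hn hE hE' TWC.EW.le hUE hdE (cld_cadj v P w) hC
  refine ⟨hop, TWC.op_gen hr TWC.EW.le hUE hdE, TWC.nsd_opT hop hr hP' TWC.EW.le hUE hdE, ?_⟩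
  intro L hL hPL hwL hfar
  have hisoL : TWC.Iso p v L (fun n (_ : Fin 1) => u n) :=
    TWC.iso_one p hu hL (by rw [hu0]; exact hwL) (fun n ε hε => by
      obtain ⟨h, hh, h1⟩ := hlim n ε hε
      exact ⟨h, hPL hh, h1⟩) hfar
  exact hisoL.desc hc hE TWC.EW.le hUE hdE hPC (fun _ => by simp only [hu0]; exact hwC)
    (TWM.cadj_le hL hPL hwL) (fun n _ ε hε => hlim n ε hε)

/-- **The operators of `P<w>`**, radius zero, with the monomials: they preserve the field of the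
roots of `w`. -/
theorem lift_w0 (hc : CompleteV v) (hM : MonG v P ⊤ M)
    (hP' : ∀ a ∈ P, ∃ b ∈ P, b ^ p = a) {u : ℕ → Ω} (hu : ∀ n, u (n + 1) ^ p = u n)
    (hw : TL v P (u 0) 0) (hPL : P ≤ L) (hwL : u 0 ∈ L)
    (hi : Imm v P (clI v (L ⊔ EW v P u))) (hfar : ∀ l ∈ L, ¬ v.Ge 0 (l ^ p - u 0)) :
    ∃ (T : Submodule k (Opr v (PM v (EW v P u) ⊤ M)))
      (D : Set (Opr v (PM v (EW v P u) ⊤ M)))
      (h : Oper p v (PM v (TWM.cadj v P (u 0)) ⊤ M) (PM v (EW v P u) ⊤ M) T),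
      OpGen v T D ∧ NSD p h ∧ (∀ φ ∈ T, ∀ e ∈ EW v P u, fn φ e ∈ EW v P u) ∧
      Desc v (PM v (TWM.cadj v P (u 0)) ⊤ M) (PM v (EW v P u) ⊤ M) T
        (PM v L ⊤ M) (PM v (clI v (L ⊔ EW v P u)) ⊤ M) := by
  have hms := hM.ms
  have hC : TWM.cadj v (PM v P ⊤ M) (u 0) = PM v (TWM.cadj v P (u 0)) ⊤ M := by rw [PM.cadj]
  have hE : EW v (PM v P ⊤ M) u = PM v (EW v P u) ⊤ M := by rw [PM.EW]
  have hTL : TL v (PM v P ⊤ M) (u 0) 0 := TL.pm hM (Imm.refl _) hw
  have hkey : ∃ (T : Submodule k (Opr v (EW v (PM v P ⊤ M) u)))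
      (D : Set (Opr v (EW v (PM v P ⊤ M) u)))
      (h : Oper p v (TWM.cadj v (PM v P ⊤ M) (u 0)) (EW v (PM v P ⊤ M) u) T),
      OpGen v T D ∧ NSD p h ∧ (∀ φ ∈ T, ∀ e ∈ EW v P u, fn φ e ∈ EW v P u) ∧
      ∀ L : IntermediateField k Ω, Cld v L → PM v P ⊤ M ≤ L → u 0 ∈ L →
        ¬ TWM.Nr' v L 0 (u 1) →
        Desc v (TWM.cadj v (PM v P ⊤ M) (u 0)) (EW v (PM v P ⊤ M) u) T L
          (clI v (L ⊔ EW v (PM v P ⊤ M) u)) := by
    obtain ⟨h, hG, hV, hdesc⟩ := base_w' p hc (P := PM v P ⊤ M) PM.cld (pm_perf p hms hP') hTL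
      (u := u) rfl hu
    refine ⟨_, _, h, hG, hV, ?_, hdesc⟩
    refine opT_pres (B := P) (fun n _ => hu n) TWC.EW.le PM.le (fun n _ => TWC.EW.mem n)
      (TWC.dns_EW p hw rfl hu) TWC.EW.cld ?_
    rw [hE]
    exact PM.le
  rw [hC, hE] at hkey
  obtain ⟨T, D, h, hG, hV, hpres, hdesc⟩ := hkey
  refine ⟨T, D, h, hG, hV, hpres, ?_⟩
  have h2 := hdesc (PM v L ⊤ M) PM.cld (PM.mono hPL) (PM.le hwL) ?_
  · rwa [← PM.sup] at h2
  · -- far
    intro h3
    have hLE : L ≤ clI v (L ⊔ EW v P u) := le_sup_left.trans (TWC.self_le_clI v _)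
    have hEE : EW v P u ≤ clI v (L ⊔ EW v P u) := le_sup_right.trans (TWC.self_le_clI v _)
    rw [nr'_pm (B := clI v (L ⊔ EW v P u)) hM ⟨hPL, fun b hb => hi.imm b (hLE hb)⟩ hi hLE
      (hEE (TWC.EW.mem 1))] at h3
    obtain ⟨l', hl', h5⟩ := h3
    refine hfar l' hl' ?_
    have h6 : l' ^ p - u 0 = -((u 1 - l') ^ p) := by
      rw [sub_pow_char, show (1 : ℕ) = 0 + 1 from rfl, hu 0]
      ring
    rw [h6]
    have h7 := TWM.ge_pow h5.ge p
    rw [mul_zero] at h7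
    exact h7.neg

/-- **THE LAST DESCENT.** `w` of radius zero over the perfect field `P`, far from `L ^ p`: a tower
of length at most two over the roots of `w`, of any radii, comes down to `L` over `P<w>`. -/
theorem last_descent (hc : CompleteV v) (hP : Cld v P) (hM : MonG v P ⊤ M)
    (hP' : ∀ a ∈ P, ∃ b ∈ P, b ^ p = a) {u : ℕ → Ω} (hu : ∀ n, u (n + 1) ^ p = u n)
    (hw : TL v P (u 0) 0) (hL : Cld v L) (hPL : P ≤ L) (hwL : u 0 ∈ L)
    (hfar : ∀ l ∈ L, ¬ v.Ge 0 (l ^ p - u 0)) {n : ℕ} (hn : n ≤ 2)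
    (hT : TowR v n (EW v P u) (clI v (L ⊔ EW v P u))) :
    TowR v n (TWM.cadj v P (u 0)) L := by
  have hiE : Imm v P (EW v P u) := imm_EW p hP' hu hw
  have hi := hiE.trans hT.imm
  obtain ⟨T, D, h, hG, hV, hpres, hD⟩ := lift_w0 p hc hM hP' hu hw hPL hwL hi hfar
  have hDM : DescM p v (TWM.cadj v P (u 0)) (EW v P u) L (clI v (L ⊔ EW v P u)) ⊤ M T :=
    { cpl := hc
      mc := hM.imm hw.imm
      vc := fun g _ hg => by
        rw [VG.imm hw.imm]
        rwa [VG.imm hiE] at hg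
      cldC := cld_cadj v _ _
      cldP := TWC.EW.cld
      perf := TWC.EW.perf p hc hP hP' hu
      CP := TWC.EW.cadj_le 0
      cldL := hL
      CL := TWM.cadj_le hL hPL hwL
      eq := rfl
      imm := hT.imm
      desc := hD }
  exact descend_pm hDM h (TWC.nilp_of_gen p h hG hD) hV hpres
    (fun s => ⟨1, one_mem _, one_ne_zero, s, trivial, by rw [v.map_one, zero_add]⟩) hn hT

end Last

end Pool.Agent.TWS
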