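import Pool.Agent.Lib.TWS.MonI
import Pool.Agent.Lib.TWC.TowR1

/-!
# TANK W, row R6, part J: descent of towers from the fields with the monomials, end

* `homog_flag`: the first vector of a flag of rank two on which the operators are not trivial is
  homogeneous;
* `descend_pm`: **a tower of length `≤ 2` over `P`, with any radii, gives a tower over `C`**.
-/

set_option autoImplicit false

open Polynomial

namespace Pool.Agent.TWS

open Pool.Agent.H15JM (RVal)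
open Pool.Agent.LU1 (VPos adj)
open Pool.Agent.LUC (Cl clF)
open Pool.Agent.D2 (Ctx0)
open Pool.Agent.D2P (hen clI mem_clI)
open Pool.Agent.TWM
open Pool.Agent.TWC (Opr Tow clI_mono' clI_le' pcl mem_pcl Spn Desc Oper Nilp NSD IsExt fn_ge fn_mem
  fn_add fn_sub fn_sum MM cls)

universe u

variable {k Ω : Type u} [Field k] [Field Ω] [Algebra k Ω] {v : RVal Ω}
  {A₀ A B C P L LP N : IntermediateField k Ω} {G : AddSubgroup ℝ} {M : ℝ → Ω}
  {p : ℕ} [hp : Fact p.Prime] [CharP Ω p]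

omit hp [CharP Ω p] in
theorem PiH.congr (hM : MonG v A₀ G M) (hi : Imm v A₀ C) {h h' : ℝ} (hhh : h - h' ∈ VG v A₀)
    {Q Q' : PM v C G M →ₗ[k] Ω} (hQ : PiH v A₀ C G M h Q) (hQ' : PiH v A₀ C G M h' Q')
    (x : PM v C G M) : Q x = Q' x := by
  classical
  rw [← sub_eq_zero]
  refine TWC.eq_zero_of_ge (v := v) fun b => ?_
  obtain ⟨L, hL, h1⟩ := dense_PM hM hi x.2 b
  have hLC : evM M L ∈ PM v C G M := evM_mem_PM hL
  have e : Q ⟨evM M L, hLC⟩ = Q' ⟨evM M L, hLC⟩ := by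
    rw [hQ.sumM hL, hQ'.sumM hL]
    refine Finset.sum_congr rfl fun g _ => ?_
    have h2 : g - h ∈ VG v A₀ ↔ g - h' ∈ VG v A₀ := by
      constructor
      · intro h3
        have := (VG v A₀).add_mem h3 hhh
        rwa [sub_add_sub_cancel] at this
      · intro h3
        have := (VG v A₀).sub_mem h3 hhh
        rwa [sub_sub_sub_cancel_right] at this
    simp only [h2]
  have e2 : Q x - Q' x = Q (x - ⟨evM M L, hLC⟩) - Q' (x - ⟨evM M L, hLC⟩) := by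
    rw [map_sub, map_sub, e]
    ring
  rw [e2]
  exact (hQ.norm _ _ h1).sub (hQ'.norm _ _ h1)

omit hp [CharP Ω p] in
/-- The decomposition in components. -/
theorem decomp (hM : MonG v A₀ G M) (hi : Imm v A₀ C) {Q : ℝ → PM v C G M →ₗ[k] Ω}
    (hQ : ∀ h ∈ G, PiH v A₀ C G M h (Q h)) (x : PM v C G M) :
    ∃ S : Finset ℝ, (∀ g ∈ S, g ∈ G) ∧ (∀ g ∈ S, ∀ g' ∈ S, g - g' ∈ VG v A₀ → g = g') ∧
      v.Ge 0 ((x : Ω) - ∑ g ∈ S, Q g x) ∧
      ∀ t ∈ G, (∀ g ∈ S, g - t ∉ VG v A₀) → v.Ge 0 (Q t x) := by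
  classical
  obtain ⟨N, hN, h1⟩ := dense_PM hM hi x.2 0
  have hTG : ∀ g ∈ N.support, g ∈ G := fun g hg => hN.mem_G hg
  have hT : ∀ g ∈ N.support, ∀ g' ∈ N.support, g - g' ∈ VG v A₀ → g = g' := by
    intro g hg g' hg' h2
    have h3 : rep v A₀ G g = rep v A₀ G g' := rep_congr ⟨G.sub_mem (hTG g hg) (hTG g' hg'), h2⟩
    rwa [(hN.rep g (Finsupp.mem_support_iff.1 hg)).2,
      (hN.rep g' (Finsupp.mem_support_iff.1 hg')).2] at h3
  have hNC : evM M N ∈ PM v C G M := evM_mem_PM hN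
  have hQN : ∀ g ∈ N.support, Q g ⟨evM M N, hNC⟩ = N g * M g := by
    intro g hg
    rw [(hQ g (hTG g hg)).sumM hN, Finset.sum_eq_single g]
    · rw [if_pos (by rw [sub_self]; exact zero_mem _)]
    · intro g' hg' hgg
      rw [if_neg fun h2 => hgg (hT g' hg' g hg h2)]
    · exact fun h2 => absurd hg h2
  refine ⟨N.support, hTG, hT, ?_, fun t ht hS => ?_⟩
  · have e : (x : Ω) - ∑ g ∈ N.support, Q g x = ((x : Ω) - evM M N) -
        ∑ g ∈ N.support, (Q g x - N g * M g) := by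
      rw [Finset.sum_sub_distrib]
      change _ = ((x : Ω) - evM M N) - (_ - evM M N)
      ring
    rw [e]
    refine h1.sub (RVal.Ge.sum _ _ fun g hg => ?_)
    rw [← hQN g hg, ← map_sub]
    exact (hQ g (hTG g hg)).norm _ _ h1
  · have h2 : Q t ⟨evM M N, hNC⟩ = 0 := by
      rw [(hQ t ht).sumM hN]
      exact Finset.sum_eq_zero fun g hg => if_neg (hS g hg)
    have h3 : Q t x = Q t (x - ⟨evM M N, hNC⟩) := by rw [map_sub, h2, sub_zero]
    rw [h3]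
    exact (hQ t ht).norm _ _ h1

section Flag

variable [hk : Fact (Ctx0 k v)] [CharP k p] [PerfectRing k p] [IsAlgClosed Ω]
  {T : Submodule k (Opr v (PM v P G M))}

omit [PerfectRing k p] [IsAlgClosed Ω] [CharP k p] [CharP Ω p] hp hk in
theorem spn_trim {E : IntermediateField k Ω} {x y : Ω} (h : Spn p v E y x)
    (hx : ¬ Nr v E 0 x) : ∃ (n : ℕ) (c : ℕ → k), c n ≠ 0 ∧
      Nr v E 0 (x - ∑ i ∈ Finset.range (n + 1), algebraMap k Ω (c i) * y ^ p ^ i) := by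
  obtain ⟨n, c, h1⟩ := h
  induction n with
  | zero =>
    rw [Finset.sum_range_zero, sub_zero] at h1
    exact absurd h1 hx
  | succ n ih =>
    by_cases hc : c n = 0
    · rw [Finset.sum_range_succ, hc, map_zero, zero_mul, add_zero] at h1
      exact ih h1
    · exact ⟨n, c, hc, h1⟩

/-- **The first vector of the flag is homogeneous.** -/
theorem homog_flag (D : DescM p v C P L LP G M T) (h : Oper p v (PM v C G M) (PM v P G M) T)
    (hpres : ∀ φ ∈ T, ∀ e ∈ P, TWC.fn φ e ∈ P) {g₁ g₂ : Ω}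
    (hF : Fib v (PM v P G M) (PM v LP G M) g₁ g₂ 0 0) (hg : Lim v (PM v P G M) 0 g₂)
    (h1 : ∀ φ ∈ T, ∀ Φ : Opr v (PM v LP G M), IsExt (PM v L G M) φ Φ →
      Nr v (PM v P G M) 0 (TWC.fn Φ g₁))
    (h2 : ∀ φ ∈ T, ∀ Φ : Opr v (PM v LP G M), IsExt (PM v L G M) φ Φ →
      Spn p v (PM v P G M) g₁ (TWC.fn Φ g₂))
    {φ : Opr v (PM v P G M)} (hφ : φ ∈ T) {Φ : Opr v (PM v LP G M)}
    (hΦ : IsExt (PM v L G M) φ Φ) (hne : ¬ Nr v (PM v P G M) 0 (TWC.fn Φ g₂)) :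
    ∃ f ∈ LP, ∃ g ∈ G, Nr' v (PM v P G M) 0 (g₁ - f * M g) := by
  classical
  have h0 : Ctx0 k v := hk.out
  have hg₁ : g₁ ∈ PM v LP G M := by
    rw [hF.eq]
    exact le_cadj _ _ _ (self_mem_cadj v _ _)
  have hg₂ : g₂ ∈ PM v LP G M := by
    rw [hF.eq]
    exact self_mem_cadj v _ _
  have hV : ∀ g ∈ G, (p : ℝ) * g ∈ VG v P → g ∈ VG v P := fun g _ h => rt_div D.perf h
  choose! Q hQ using fun (h : ℝ) (hh : h ∈ G) => exists_piH D.cpl D.mP D.imm D.cld hh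
  have hPLP : PM v P G M ≤ PM v LP G M := PM.mono D.PLP
  -- the components of the elements of the base
  have hQP : ∀ t ∈ G, ∀ a (ha : a ∈ PM v P G M), Q t ⟨a, hPLP ha⟩ ∈ PM v P G M := by
    intro t ht a ha
    obtain ⟨f, hf, h3⟩ := (hQ t ht).sub P (Imm.refl _) D.PLP D.cldP ⟨a, hPLP ha⟩ ha
    rw [h3]
    exact mul_mem (PM.le hf) (PM.mon ht)
  have hQLP : ∀ t ∈ G, ∀ x : PM v LP G M, ∃ f ∈ LP, Q t x = f * M t := fun t ht x =>
    (hQ t ht).sub LP D.imm le_rfl D.cld x x.2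
  have hQm : ∀ t ∈ G, ∀ x : PM v LP G M, Q t x ∈ PM v LP G M := fun t ht x => by
    obtain ⟨f, hf, h3⟩ := hQLP t ht x
    rw [h3]
    exact mul_mem (PM.le hf) (PM.mon ht)
  have hQN0 : ∀ t ∈ G, ∀ x : PM v LP G M, Nr v (PM v P G M) 0 (x : Ω) →
      Nr v (PM v P G M) 0 (Q t x) := by
    rintro t ht x ⟨a, ha, h3⟩
    refine ⟨_, hQP t ht a ha, ?_⟩
    rw [← map_sub]
    exact (hQ t ht).norm _ _ h3
  have hQlim : ∀ t ∈ G, ∀ x : PM v LP G M, Lim v (PM v P G M) 0 (x : Ω) →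
      Lim v (PM v P G M) 0 (Q t x) := by
    intro t ht x hx ε hε
    obtain ⟨a, ha, h3⟩ := hx ε hε
    refine ⟨_, hQP t ht a ha, ?_⟩
    rw [← map_sub]
    exact (hQ t ht).norm _ _ h3
  -- a homogeneous element in the image
  obtain ⟨e, he, hm0⟩ : ∃ e ∈ G, ¬ Nr v (PM v P G M) 0 (TWC.fn Φ (Q e ⟨g₂, hg₂⟩)) := by
    by_contra hno
    push Not at hno
    obtain ⟨S, hSG, -, h3, -⟩ := decomp D.mP D.imm hQ ⟨g₂, hg₂⟩
    refine hne ?_
    have h4 : ∑ g ∈ S, Q g ⟨g₂, hg₂⟩ ∈ PM v LP G M := sum_mem fun g hg => hQm g (hSG g hg) _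
    have h5 := TWC.fn_near Φ hg₂ h4 h3
    rw [fn_sum Φ _ _ fun g hg => hQm g (hSG g hg) _] at h5
    have h6 : ∑ g ∈ S, TWC.fn Φ (Q g ⟨g₂, hg₂⟩) ∈ N0 h0 (PM v P G M) :=
      sum_mem fun g hg => mem_N0.2 (hno g (hSG g hg))
    have h7 : TWC.fn Φ g₂ - ∑ g ∈ S, TWC.fn Φ (Q g ⟨g₂, hg₂⟩) ∈ N0 h0 (PM v P G M) :=
      mem_N0.2 ⟨0, zero_mem _, by rwa [sub_zero]⟩
    have h8 := add_mem h7 h6
    rw [sub_add_cancel] at h8
    exact mem_N0.1 h8
  set m₀ := TWC.fn Φ (Q e ⟨g₂, hg₂⟩) with hm₀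
  have hcomm : m₀ = Q e ⟨TWC.fn Φ g₂, fn_mem Φ _⟩ :=
    D.comm (fun ψ hψ c hc x hx => TWC.fn_lin p h hψ hc hx) hpres he (hQ e he) hφ hΦ ⟨g₂, hg₂⟩
  obtain ⟨f₀, hf₀, hf₀'⟩ := hQLP e he ⟨TWC.fn Φ g₂, fn_mem Φ _⟩
  have hm₀f : m₀ = f₀ * M e := by rw [hcomm, hf₀']
  have hspn : Spn p v (PM v P G M) g₁ m₀ :=
    spn_act h D.desc hF hg h1 h2 (hQm e he _) (hQlim e he _ hg) φ hφ Φ hΦ
  obtain ⟨n, q, hq, hrel⟩ := spn_trim hspn hm0
  -- the components of the sum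
  set s : PM v LP G M := ∑ i ∈ Finset.range (n + 1), q i • (⟨g₁, hg₁⟩ : PM v LP G M) ^ p ^ i
    with hs
  have hsv : (s : Ω) = ∑ i ∈ Finset.range (n + 1), algebraMap k Ω (q i) * g₁ ^ p ^ i := by
    change (PM v LP G M).val s = _
    rw [hs, map_sum]
    refine Finset.sum_congr rfl fun i _ => ?_
    rw [map_smul, map_pow, Algebra.smul_def]
    rfl
  have hm₀L : m₀ ∈ PM v LP G M := fn_mem Φ _
  have hcomp : ∀ t ∈ G, Q t ⟨m₀, hm₀L⟩ = m₀ ∨ Q t ⟨m₀, hm₀L⟩ = 0 := by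
    intro t ht
    have e1 : (⟨m₀, hm₀L⟩ : PM v LP G M) = ⟨f₀ * M e, mul_mem (PM.le hf₀) (PM.mon he)⟩ :=
      Subtype.ext hm₀f
    by_cases h3 : e - t ∈ VG v P
    · left
      rw [e1, (hQ t ht).mon _ hf₀ _ he h3, ← hm₀f]
    · right
      rw [e1, (hQ t ht).mon0 _ hf₀ _ he h3]
  -- the filtration by the degree in `g₂`
  set A₁ := cadj v (PM v P G M) g₁ with hA₁
  have hPA : N0 h0 (PM v P G M) ≤ N0 h0 A₁ := by
    rintro x ⟨a, ha, h3⟩
    exact ⟨a, le_cadj v _ _ ha, h3⟩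
  have hsA : (s : Ω) ∈ A₁ := by
    rw [hsv]
    exact sum_mem fun i _ => mul_mem (A₁.algebraMap_mem _) (pow_mem (self_mem_cadj v _ _) _)
  have hm₀A : m₀ ∈ N0 h0 A₁ := by
    have h3 : m₀ - s ∈ N0 h0 A₁ := by
      rw [hsv]
      exact hPA (mem_N0.2 hrel)
    have h4 : (s : Ω) ∈ N0 h0 A₁ := mem_N0.2 ⟨s, hsA, by rw [sub_self]; exact RVal.Ge.zero⟩
    have := add_mem h3 h4
    rwa [sub_add_cancel] at this
  have hQs : ∀ t ∈ G, Q t s ∈ N0 h0 A₁ := by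
    intro t ht
    have h3 : Q t ⟨m₀, hm₀L⟩ - Q t s ∈ N0 h0 A₁ := by
      rw [← map_sub]
      refine hPA (mem_N0.2 (hQN0 t ht _ ?_))
      change Nr v (PM v P G M) 0 (m₀ - s)
      rw [hsv]
      exact hrel
    have h4 : Q t ⟨m₀, hm₀L⟩ ∈ N0 h0 A₁ := by
      rcases hcomp t ht with h5 | h5
      · rw [h5]
        exact hm₀A
      · rw [h5]
        exact zero_mem _
    have := sub_mem h4 h3
    rwa [sub_sub_cancel] at this
  obtain ⟨S, hSG, hST, hS1, hS2⟩ := decomp D.mP D.imm hQ ⟨g₁, hg₁⟩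
  have hfil : ∀ t ∈ G, ∃ m, Q t ⟨g₁, hg₁⟩ ∈ Fil p h0 A₁ g₂ m := by
    intro t ht
    obtain ⟨m, c, h3⟩ := TWC.spn_two p h.cld hF hg (hQm t ht ⟨g₁, hg₁⟩) (hQlim t ht _ hF.ty.lim)
    refine ⟨m, ?_⟩
    have h4 : Q t ⟨g₁, hg₁⟩ - ∑ i ∈ Finset.range m, algebraMap k Ω (c i) * g₂ ^ p ^ i ∈
        Fil p h0 A₁ g₂ m := Fil.mono p (Nat.zero_le _) (mem_N0.2 h3.nr)
    have h5 : ∑ i ∈ Finset.range m, algebraMap k Ω (c i) * g₂ ^ p ^ i ∈ Fil p h0 A₁ g₂ m := by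
      refine sum_mem fun i hi => ?_
      rw [← Algebra.smul_def]
      exact Submodule.smul_mem _ _ (Fil.mono p (Finset.mem_range.1 hi) (Fil.self p i))
    have := add_mem h4 h5
    rwa [sub_add_cancel] at this
  have hbd : ∃ a, ∀ t ∈ G, Q t ⟨g₁, hg₁⟩ ∈ Fil p h0 A₁ g₂ a := by
    choose! m hm using hfil
    refine ⟨S.sup m, fun t ht => ?_⟩
    by_cases h3 : ∃ g ∈ S, g - t ∈ VG v P
    · obtain ⟨g, hg', h4⟩ := h3
      rw [← PiH.congr D.mP D.imm h4 (hQ g (hSG g hg')) (hQ t ht)]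
      exact Fil.mono p (Finset.le_sup hg') (hm g (hSG g hg'))
    · push Not at h3
      refine Fil.mono p (Nat.zero_le _) (mem_N0.2 ⟨0, zero_mem _, ?_⟩)
      rw [sub_zero]
      exact hS2 t ht h3
  have hall : ∀ t ∈ G, Q t ⟨g₁, hg₁⟩ ∈ N0 h0 A₁ := by
    have h3 := Nat.find_spec hbd
    by_cases h4 : Nat.find hbd = 0
    · rw [h4] at h3
      exact h3
    · exfalso
      obtain ⟨a, ha⟩ := Nat.exists_eq_succ_of_ne_zero h4
      rw [ha] at h3
      have h5 : ¬ ∀ t ∈ G, Q t ⟨g₁, hg₁⟩ ∈ Fil p h0 A₁ g₂ a := fun h6 => by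
        have := Nat.find_min' hbd h6
        omega
      push Not at h5
      obtain ⟨t, ht, h6⟩ := h5
      have hG : (p : ℝ) ^ n * t ∈ G := by
        have := G.nsmul_mem ht (p ^ n)
        rwa [nsmul_eq_mul, Nat.cast_pow] at this
      exact top_deg D.mP D.imm hV hF.tz hQ ⟨g₁, hg₁⟩ h3 ht h6 hq
        (Fil.mono p (Nat.zero_le _) (hQs _ hG))
  -- the span of `g₁`
  have hsp : ∀ t ∈ G, Spn p v (PM v P G M) g₁ (Q t ⟨g₁, hg₁⟩) := by
    intro t ht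
    obtain ⟨a, ha, h3⟩ := mem_N0.1 (hall t ht)
    have h4 : Lim v (PM v P G M) 0 a := TWC.Lim.of_gt' (hQlim t ht _ hF.ty.lim) h3
    exact TWC.Spn.congr p (TWC.spn_of_mem p hF.ty ha h4) h3
  choose! f hfLP hfQ using fun (t : ℝ) (ht : t ∈ G) => hQLP t ht ⟨g₁, hg₁⟩
  obtain ⟨g, hgS, h3⟩ := homog_of_sum p (h0 := h0) D.mP D.cpl D.imm D.cld (Imm.refl _) D.PLP
    D.cldP hV hF.ty (T := S) f hSG hST (fun g hg => hfLP g (hSG g hg)) (fun g hg => by
      rw [← hfQ g (hSG g hg)]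
      exact spn_fil p (hsp g (hSG g hg))) (by
    refine mem_N0.2 ⟨0, zero_mem _, ?_⟩
    rw [sub_zero, Finset.sum_congr rfl fun g hg => (hfQ g (hSG g hg)).symm]
    exact hS1)
  obtain ⟨a, ha, h4⟩ := mem_N0.1 h3
  obtain ⟨c, hc⟩ := h0.residue h4
  refine ⟨f g, hfLP g (hSG g hgS), g, hSG g hgS, a + algebraMap k Ω c,
    add_mem ha (IntermediateField.algebraMap_mem _ c), ?_⟩
  rw [← sub_sub]
  exact hc

omit hk [CharP k p] [PerfectRing k p] hp [CharP Ω p] in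
/-- The first generator of a tower with any radii, scaled. -/
theorem towR_gen (hM : MonG v P G M)
    (hs : ∀ s : ℝ, ∃ e ∈ P, e ≠ 0 ∧ ∃ g ∈ G, v e + g = s) {n : ℕ} (h : TowR v (n + 1) P LP) :
    ∃ f ∈ LP, ∃ g ∈ G, TL v (PM v P G M) (f * M g) 0 ∧
      Tow v n (cadj v (PM v P G M) (f * M g)) (PM v LP G M) := by
  have hs' : ∀ s : ℝ, ∃ c ∈ PM v P G M, c ≠ 0 ∧ v c = s := by
    intro s
    obtain ⟨e, he, he0, g, hg, h1⟩ := hs s
    refine ⟨e * M g, mul_mem (PM.le he) (PM.mon hg), mul_ne_zero he0 (hM.ms.ne g hg), ?_⟩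
    rw [v.map_mul he0 (hM.ms.ne g hg), hM.ms.val g hg, h1]
  have hPLP := h.le
  cases h with
  | @succ _ _ _ z s hz hT =>
    obtain ⟨e, he, he0, g, hg, h1⟩ := hs s
    have hMg := hM.ms.ne g hg
    have hc : e * M g ∈ PM v P G M := mul_mem (PM.le he) (PM.mon hg)
    have hc0 : e * M g ≠ 0 := mul_ne_zero he0 hMg
    obtain ⟨h2, h3⟩ := TL.pm_scale hM (Imm.refl _) hz hc hc0 (by
      rw [v.map_mul he0 hMg, hM.ms.val g hg, h1])
    have e1 : z / (e * M g) = z / e * M (-g) := by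
      rw [hM.ms.neg hg]
      field_simp
    have hzLP : z ∈ LP := hT.le (self_mem_cadj v P z)
    rw [e1] at h2 h3
    refine ⟨z / e, div_mem hzLP (hPLP he), -g, G.neg_mem hg, h2, ?_⟩
    rw [h3]
    exact TowR.pm hM hs' hz.imm hT

/-- **DESCENT OF TOWERS FROM THE FIELDS WITH THE MONOMIALS.** -/
theorem descend_pm (D : DescM p v C P L LP G M T) (h : Oper p v (PM v C G M) (PM v P G M) T)
    (hN : Nilp v T (PM v L G M) (PM v LP G M)) (hV : NSD p h)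
    (hpres : ∀ φ ∈ T, ∀ e ∈ P, TWC.fn φ e ∈ P)
    (hs : ∀ s : ℝ, ∃ e ∈ P, e ≠ 0 ∧ ∃ g ∈ G, v e + g = s) {n : ℕ} (hn : n ≤ 2)
    (hT : TowR v n P LP) : TowR v n C L := by
  classical
  have hL : PM v L G M ≤ PM v LP G M := D.desc.le_LE
  interval_cases n
  · -- length zero
    have hPL : P = LP := by
      cases hT with
      | zero _ => rfl
    have hLC : L ≤ C := by
      intro l hl
      refine D.memN D.cldC (Imm.refl _) D.CL hl ?_
      refine D.desc.inf PM.cld le_rfl (PM.mono D.CL) (PM.le hl) ?_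
      have h1 : l ∈ PM v P G M := PM.le (by rw [hPL]; exact D.LLP hl)
      exact TWC.self_le_clI v _ ((le_sup_right : PM v P G M ≤ _) h1)
    rw [le_antisymm hLC D.CL]
    exact TowR.zero D.cldC
  · -- length one
    obtain ⟨f, hf, g, hg, hy, h1⟩ := towR_gen D.mP hs hT
    obtain ⟨_, h2⟩ := TWC.tow_zero.1 h1
    obtain ⟨f', -, s, h3, h4⟩ := descM_one D h hN hV hy h2.symm
    refine TowR.succ h3 ?_
    rw [← h4]
    exact TowR.zero D.cldL
  · -- length two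
    obtain ⟨f, hf, g, hg, hy, h1⟩ := towR_gen D.mP hs hT
    obtain ⟨z, hz, hLP⟩ := TWC.tow_one.1 h1
    set y := f * M g with hyd
    have hF : Fib v (PM v P G M) (PM v LP G M) y z 0 0 := ⟨hy, hz, hLP⟩
    have hyh : ∃ f ∈ LP, ∃ g ∈ G, y = f * M g := ⟨f, hf, g, hg, rfl⟩
    have hyL : y ∈ PM v LP G M := mul_mem (PM.le hf) (PM.mon hg)
    by_cases hX : ∀ x ∈ PM v LP G M, Lim v (PM v P G M) 0 x → Spn p v (PM v P G M) y x
    · -- rank one
      refine towR_two_of D hF (Or.inl hyh)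
        (fun φ hφ Φ hΦ => TWC.triv_one p h hN hV D.desc hF.ty hyL hX hφ hΦ) fun u hu hn hu' => ?_
      obtain ⟨z', hF'⟩ := TWC.fib_move hF (hL hu) hn
      exact ⟨z', hF', fun φ hφ Φ hΦ => TWC.triv_two p h hN hV D.desc hu hu'.lim hF'
        (fun x hx hl => (hX x hx hl).move hn) hφ hΦ⟩
    · -- rank two
      push Not at hX
      obtain ⟨x, hx, hl, hn⟩ := hX
      obtain ⟨b, hb, hb'⟩ := TWC.dich p h.cld h.perf hF hx hl hn
      have hF₁ : Fib v (PM v P G M) (PM v LP G M) y (z - b) 0 0 := by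
        refine ⟨hF.ty, hF.tz.sub_mem hb, ?_⟩
        rw [cadj_sub_mem hb]
        exact hF.eq
      obtain ⟨g₁, g₂, hF₂, hg₂, h2, h3⟩ := TWC.flag_two p h hN hV D.desc hF₁ hb'
      by_cases hTr : ∀ φ ∈ T, ∀ Φ : Opr v (PM v LP G M), IsExt (PM v L G M) φ Φ →
          Nr v (PM v P G M) 0 (TWC.fn Φ g₂)
      · -- the operators kill all the classes
        have hzL : z - b ∈ PM v LP G M := by
          rw [hF₁.eq]
          exact self_mem_cadj v _ _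
        refine towR_two_of D hF₁ (Or.inl hyh)
          (nr_act h D.desc hF₂ hg₂ h2 hTr hyL hF.ty.lim) fun u hu hn _ => ?_
        refine ⟨z - b, TWC.fib_move_lim hF₁ hb' (hL hu) hn, fun φ hφ Φ hΦ => ?_⟩
        obtain ⟨a, ha, h4⟩ := nr_act h D.desc hF₂ hg₂ h2 hTr hzL hb' φ hφ Φ hΦ
        exact ⟨a, le_cadj v _ _ ha, h4⟩
      · -- the first vector of the flag is homogeneous
        push Not at hTr
        obtain ⟨φ, hφ, Φ, hΦ, hne⟩ := hTr
        obtain ⟨f', hf', g', hg', h4⟩ := homog_flag D h hpres hF₂ hg₂ h2 h3 hφ hΦ hne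
        have hy' : f' * M g' ∈ PM v LP G M := mul_mem (PM.le hf') (PM.mon hg')
        have hF₃ : Fib v (PM v P G M) (PM v LP G M) (f' * M g') g₂ 0 0 :=
          TWC.fib_move_lim hF₂ hg₂ hy' h4
        have hg₁ : g₁ ∈ PM v LP G M := by
          rw [hF₂.eq]
          exact le_cadj _ _ _ (self_mem_cadj v _ _)
        refine towR_two_of D hF₃ (Or.inl ⟨f', hf', g', hg', rfl⟩) (fun φ hφ Φ hΦ => ?_)
          fun u hu hn _ => ?_
        · -- the operators kill it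
          obtain ⟨a, ha, h5⟩ := h4
          have haL : a ∈ PM v LP G M := D.desc.E_le ha
          have h6 : Nr v (PM v P G M) 0 (TWC.fn Φ (g₁ - f' * M g')) := by
            refine ⟨TWC.fn Φ a, ?_, TWC.fn_near Φ (sub_mem hg₁ hy') haL h5.ge⟩
            rw [hΦ.eq a ha]
            exact fn_mem φ a
          have h7 : TWC.fn Φ (f' * M g') = TWC.fn Φ g₁ - TWC.fn Φ (g₁ - f' * M g') := by
            rw [fn_sub Φ hg₁ hy']
            ring
          rw [h7]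
          exact mem_N0.1 (sub_mem (mem_N0 (h0 := hk.out).2 (h2 φ hφ Φ hΦ)) (mem_N0.2 h6))
        · exact ⟨g₂, TWC.fib_move_lim hF₃ hg₂ (hL hu) hn,
            fun φ hφ Φ hΦ => (((h3 φ hφ Φ hΦ).move h4).move hn).nr⟩

end Flag

end Pool.Agent.TWS
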