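import Pool.Agent.Lib.TWC.HSx

/-!
# TANK W: isometric Hasse-Schmidt derivations on a dense subalgebra

`hsi_of_dense`: extension to the closure.
-/

set_option autoImplicit false

open Polynomial

namespace Pool.Agent.TWS

open Pool.Agent.H15JM (RVal)
open Pool.Agent.D2 (Ctx0)
open Pool.Agent.D2P (clI mem_clI)
open Pool.Agent.TWM
open Pool.Agent.TWC (DnsS HSI exists_extΩ eq_of_dnsL)

universe u

variable {k Ω : Type u} [Field k] [Field Ω] [Algebra k Ω] {v : RVal Ω}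
  {L : IntermediateField k Ω}

/-- **Extension of `h` from a dense subalgebra.** -/
theorem hsi_of_dense [Fact (Ctx0 k v)] (hΩ : CompleteV v) (S : Subalgebra k Ω)
    (hd : DnsS v (S : Set Ω) L) (h : S →ₐ[k] PowerSeries Ω)
    (h0 : ∀ x : S, PowerSeries.coeff 0 (h x) = (x : Ω))
    (hn : ∀ (n : ℕ) (x : S) (b : ℝ), v.Ge b (x : Ω) → v.Ge b (PowerSeries.coeff n (h x))) :
    ∃ h' : L →ₐ[k] PowerSeries Ω, HSI v L h' ∧
      ∀ (x : Ω) (hS : x ∈ S) (hL : x ∈ L), h' ⟨x, hL⟩ = h ⟨x, hS⟩ := by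
  classical
  let f : ℕ → (Subalgebra.toSubmodule S →ₗ[k] Ω) := fun n =>
    { toFun := fun x => PowerSeries.coeff n (h ⟨x, x.2⟩)
      map_add' := fun x y => by
        rw [← map_add, ← map_add]
        rfl
      map_smul' := fun c x => by
        have e : h ⟨((c • x : Subalgebra.toSubmodule S) : Ω), (c • x).2⟩ = c • h ⟨x, x.2⟩ := by
          rw [← map_smul]
          rfl
        rw [e]
        rfl }
  choose ψ hψ1 hψ2 using fun n => exists_extΩ (E := L) hΩ (Subalgebra.toSubmodule S) hd (f n)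
    (fun a b hb => hn n ⟨a, a.2⟩ b hb)
  have hval : ∀ (n : ℕ) (y : Ω) (hS : y ∈ S) (hL : y ∈ L),
      ψ n ⟨y, hL⟩ = PowerSeries.coeff n (h ⟨y, hS⟩) := fun n y hS hL => hψ2 n y hS hL
  -- products
  let Φ : ℕ → L → (L →ₗ[k] Ω) := fun n y =>
    ∑ i ∈ Finset.HasAntidiagonal.antidiagonal n, (ψ i.2 y) • (ψ i.1)
  have hΦ : ∀ n y x, Φ n y x =
      ∑ i ∈ Finset.HasAntidiagonal.antidiagonal n, ψ i.1 x * ψ i.2 y := by
    intro n y x
    simp only [Φ, LinearMap.sum_apply, LinearMap.smul_apply, smul_eq_mul]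
    exact Finset.sum_congr rfl fun i _ => mul_comm _ _
  have hΦn : ∀ n (y : L) (x : L) (b : ℝ), v.Ge b (x : Ω) → v.Ge (b + v (y : Ω)) (Φ n y x) := by
    intro n y x b hb
    rw [hΦ]
    exact RVal.Ge.sum _ _ fun i _ => (hψ1 i.1 x b hb).mul (hψ1 i.2 y _ (RVal.ge_self (y : Ω)))
  have hΦn' : ∀ n (y : L) (x : L) (b : ℝ), v.Ge b (x : Ω) →
      v.Ge (b + v (y : Ω)) (((ψ n).comp (LinearMap.mulRight k y)) x) := fun n y x b hb =>
    hψ1 n (x * y) _ (hb.mul (RVal.ge_self (y : Ω)))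
  have hSS : ∀ n (y : Ω) (_ : y ∈ S) (hL : y ∈ L) (x : Ω) (_ : x ∈ S) (hxL : x ∈ L),
      ψ n (⟨x, hxL⟩ * ⟨y, hL⟩) = Φ n ⟨y, hL⟩ ⟨x, hxL⟩ := by
    intro n y hy hyL x hx hxL
    rw [hΦ]
    have e1 : ((⟨x, hxL⟩ : L) * ⟨y, hyL⟩) = ⟨x * y, mul_mem hxL hyL⟩ := rfl
    rw [e1, hval n (x * y) (mul_mem hx hy) _]
    have e2 : h ⟨x * y, mul_mem hx hy⟩ = h ⟨x, hx⟩ * h ⟨y, hy⟩ := by
      rw [← map_mul]
      rfl
    rw [e2, PowerSeries.coeff_mul]
    exact Finset.sum_congr rfl fun i _ => by rw [hval i.1 x hx, hval i.2 y hy]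
  have hSL : ∀ n (y : Ω) (_ : y ∈ S) (hL : y ∈ L) (x : L),
      ψ n (x * ⟨y, hL⟩) = Φ n ⟨y, hL⟩ x := by
    intro n y hy hyL x
    exact eq_of_dnsL hd ((ψ n).comp (LinearMap.mulRight k ⟨y, hyL⟩)) (Φ n ⟨y, hyL⟩) (v y)
      (hΦn' n _) (hΦn n _) (fun z hz hzL => hSS n y hy hyL z hz hzL) x
  have hLL : ∀ n (x y : L), ψ n (x * y) = Φ n y x := by
    intro n x y
    let Θ : L →ₗ[k] Ω := ∑ i ∈ Finset.HasAntidiagonal.antidiagonal n, (ψ i.1 x) • (ψ i.2)
    have hΘ : ∀ y : L, Θ y = Φ n y x := by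
      intro y
      rw [hΦ]
      simp only [Θ, LinearMap.sum_apply, LinearMap.smul_apply, smul_eq_mul]
    rw [← hΘ y]
    refine eq_of_dnsL hd ((ψ n).comp (LinearMap.mulLeft k x)) Θ (v (x : Ω)) ?_ ?_ ?_ y
    · intro z b hb
      rw [add_comm]
      exact hψ1 n (x * z) _ ((RVal.ge_self (x : Ω)).mul hb)
    · intro z b hb
      rw [hΘ, hΦ]
      refine RVal.Ge.sum _ _ fun i _ => ?_
      rw [add_comm]
      exact (hψ1 i.1 x _ (RVal.ge_self (x : Ω))).mul (hψ1 i.2 z b hb)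
    · intro z hz hzL
      rw [hΘ]
      exact hSL n z hz hzL x
  have h1L : (1 : Ω) ∈ L := one_mem L
  let h' : L →ₐ[k] PowerSeries Ω :=
    { toFun := fun x => PowerSeries.mk fun n => ψ n x
      map_one' := by
        ext n
        rw [PowerSeries.coeff_mk, show (1 : L) = ⟨1, h1L⟩ from rfl, hval n 1 (one_mem S)]
        rw [show (⟨1, one_mem S⟩ : S) = 1 from rfl, map_one]
      map_mul' := fun x y => by
        ext n
        rw [PowerSeries.coeff_mk, PowerSeries.coeff_mul, hLL, hΦ]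
        exact Finset.sum_congr rfl fun i _ => by
          rw [PowerSeries.coeff_mk, PowerSeries.coeff_mk]
      map_zero' := by
        ext n
        rw [PowerSeries.coeff_mk, map_zero, map_zero]
      map_add' := fun x y => by
        ext n
        rw [PowerSeries.coeff_mk, map_add, map_add, PowerSeries.coeff_mk, PowerSeries.coeff_mk]
      commutes' := fun c => by
        ext n
        rw [PowerSeries.coeff_mk]
        have e : (algebraMap k L c) = ⟨algebraMap k Ω c, L.algebraMap_mem c⟩ := rfl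
        rw [e, hval n _ (S.algebraMap_mem c)]
        have e2 : (⟨algebraMap k Ω c, S.algebraMap_mem c⟩ : S) = algebraMap k S c := rfl
        rw [e2, AlgHom.commutes] }
  refine ⟨h', ⟨fun x => ?_, fun n x b hb => ?_⟩, fun x hS hL => ?_⟩
  · change PowerSeries.coeff 0 (PowerSeries.mk fun n => ψ n x) = x
    rw [PowerSeries.coeff_mk]
    refine eq_of_dnsL hd (ψ 0) L.val.toLinearMap 0 (fun x b hb => by
      rw [add_zero]; exact hψ1 0 x b hb) (fun x b hb => by rw [add_zero]; exact hb) ?_ x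
    intro y hy hyL
    rw [hval 0 y hy hyL, h0]
    rfl
  · change v.Ge b (PowerSeries.coeff n (PowerSeries.mk fun n => ψ n x))
    rw [PowerSeries.coeff_mk]
    exact hψ1 n x b hb
  · ext n
    change PowerSeries.coeff n (PowerSeries.mk fun n => ψ n ⟨x, hL⟩) = _
    rw [PowerSeries.coeff_mk, hval n x hS hL]

end Pool.Agent.TWS
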