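import Pool.Agent.Lib.TWS.MonC
import Pool.Agent.Lib.TWS.HsiD
import Mathlib.NumberTheory.Padics.MahlerBasis
import Mathlib.RingTheory.PowerSeries.Binomial
import Mathlib.NumberTheory.Padics.RingHoms

/-!
# TANK W, row R6, part D: the arc of the base

`G` a group of real numbers, `M g` the monomials, `α : G → ℤ_p` additive, `y` integral:
`h (M g) = M g (1 + y T)^(α g)` defines an isometric Hasse-Schmidt derivation of the closure of
`k(M g : g ∈ G)`.
-/

set_option autoImplicit false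

open Polynomial

namespace Pool.Agent.TWS

open Pool.Agent.H15JM (RVal)
open Pool.Agent.LU1 (VPos adj)
open Pool.Agent.LUC (Cl clF)
open Pool.Agent.D2 (Ctx0)
open Pool.Agent.D2P (hen clI mem_clI)
open Pool.Agent.TWM
open Pool.Agent.TWC (Tow clI_mono' clI_le' pcl mem_pcl HSI DnsS)

universe u

variable {k Ω : Type u} [Field k] [Field Ω] [Algebra k Ω] {v : RVal Ω}
  {G : AddSubgroup ℝ} {M : ℝ → Ω}

/-! ### The binomial series -/

section Bin

variable (p : ℕ) [hp : Fact p.Prime] [CharP Ω p]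

/-- `ℤ_p → Ω` -/
noncomputable def zpΩ (Ω : Type u) [Field Ω] [CharP Ω p] : ℤ_[p] →+* Ω :=
  (ZMod.castHom (dvd_refl p) Ω).comp (PadicInt.toZMod (p := p))

omit [Field k] [Algebra k Ω] in
theorem zpΩ_ge (a : ℤ_[p]) : v.Ge 0 (zpΩ p Ω a) := by
  have h1 : zpΩ p Ω a = (((PadicInt.toZMod a : ZMod p).val : ℕ) : Ω) := by
    change ZMod.castHom (dvd_refl p) Ω (PadicInt.toZMod a) = _
    rw [ZMod.castHom_apply, ZMod.cast_eq_val]
  rw [h1]
  exact ge_natCast v _

/-- `(1 + y T) ^ α` -/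
noncomputable def binS (y : Ω) (α : ℤ_[p]) : PowerSeries Ω :=
  PowerSeries.rescale y (PowerSeries.map (zpΩ p Ω) (PowerSeries.binomialSeries ℤ_[p] α))

theorem binS_add (y : Ω) (α β : ℤ_[p]) : binS p y (α + β) = binS p y α * binS p y β := by
  rw [binS, PowerSeries.binomialSeries_add, map_mul, map_mul]
  rfl

theorem binS_zero (y : Ω) : binS p y 0 = 1 := by
  rw [binS, PowerSeries.binomialSeries_zero, map_one, map_one]

theorem binS_one (y : Ω) : binS p y 1 = 1 + PowerSeries.C y * PowerSeries.X := by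
  have h1 : (1 : ℤ_[p]) = ((1 : ℕ) : ℤ_[p]) := by norm_num
  rw [binS, h1, PowerSeries.binomialSeries_nat, pow_one, map_add, map_add, map_one, map_one,
    PowerSeries.map_X, PowerSeries.rescale_X]

theorem binS_coeff (y : Ω) (α : ℤ_[p]) (n : ℕ) :
    PowerSeries.coeff n (binS p y α) = y ^ n * zpΩ p Ω (Ring.choose α n) := by
  rw [binS, PowerSeries.coeff_rescale, PowerSeries.coeff_map, PowerSeries.binomialSeries_coeff,
    smul_eq_mul, mul_one]

theorem binS_coeff_zero (y : Ω) (α : ℤ_[p]) : PowerSeries.coeff 0 (binS p y α) = 1 := by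
  rw [binS_coeff, pow_zero, Ring.choose_zero_right, map_one, one_mul]

theorem binS_ge {y : Ω} (hy : v.Ge 0 y) (α : ℤ_[p]) (n : ℕ) :
    v.Ge 0 (PowerSeries.coeff n (binS p y α)) := by
  rw [binS_coeff]
  have h1 := (ge_pow hy n).mul (zpΩ_ge (v := v) p (Ring.choose α n))
  rwa [mul_zero, add_zero] at h1

end Bin

/-! ### The arc -/

section Arc

variable (p : ℕ) [hp : Fact p.Prime] [CharP Ω p]

/-- The monomials as a homomorphism. -/
noncomputable def homM (hM : MS v G M) : Multiplicative G →* Ω where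
  toFun g := M (g.toAdd : ℝ)
  map_one' := hM.zero
  map_mul' g g' := hM.mul _ g.toAdd.2 _ g'.toAdd.2

/-- The monomials with the binomial series. -/
noncomputable def homT (hM : MS v G M) (y : Ω) (α : G →+ ℤ_[p]) :
    Multiplicative G →* PowerSeries Ω where
  toFun g := PowerSeries.C (M (g.toAdd : ℝ)) * binS p y (α g.toAdd)
  map_one' := by
    change PowerSeries.C (M 0) * binS p y (α 0) = 1
    rw [hM.zero, map_one, map_zero, binS_zero, one_mul]
  map_mul' g g' := by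
    change PowerSeries.C (M ((g.toAdd : ℝ) + (g'.toAdd : ℝ))) * binS p y (α (g.toAdd + g'.toAdd)) = _
    rw [hM.mul _ g.toAdd.2 _ g'.toAdd.2, map_mul, map_add, binS_add]
    ring

/-- The algebra of the sums of monomials, as an image. -/
noncomputable def evG (k : Type u) [Field k] [Algebra k Ω] (hM : MS v G M) :
    MonoidAlgebra k (Multiplicative G) →ₐ[k] Ω := MonoidAlgebra.lift k Ω _ (homM hM)

noncomputable def evT (k : Type u) [Field k] [Algebra k Ω] (hM : MS v G M) (y : Ω)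
    (α : G →+ ℤ_[p]) : MonoidAlgebra k (Multiplicative G) →ₐ[k] PowerSeries Ω :=
  MonoidAlgebra.lift k (PowerSeries Ω) _ (homT p hM y α)

/-- The coefficients as a function on `ℝ`. -/
noncomputable def cfR (f : MonoidAlgebra k (Multiplicative G)) : ℝ →₀ k :=
  f.coeff.mapDomain fun g : Multiplicative G => (g.toAdd : ℝ)

theorem inj_toR : Function.Injective fun g : Multiplicative G => (g.toAdd : ℝ) := fun _ _ h =>
  Subtype.ext h

theorem evG_eq (hM : MS v G M) (f : MonoidAlgebra k (Multiplicative G)) :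
    evG k hM f = evL M (cfR f) := by
  rw [evG, MonoidAlgebra.lift_apply', evL, cfR,
    Finsupp.sum_mapDomain_index_inj (inj_toR (G := G))]
  rfl

theorem cfR_inG (f : MonoidAlgebra k (Multiplicative G)) : InG G (cfR f) := by
  intro g hg
  by_contra hgG
  refine hg (Finsupp.mapDomain_of_notMem_range _ _ ?_)
  rintro ⟨g', rfl⟩
  exact hgG g'.toAdd.2

theorem ge_of_evG (h0 : Ctx0 k v) (hM : MS v G M) {f : MonoidAlgebra k (Multiplicative G)} {b : ℝ}
    (h : v.Ge b (evG k hM f)) (g : Multiplicative G) (hg : f.coeff g ≠ 0) :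
    b ≤ (g.toAdd : ℝ) := by
  have h1 : cfR f (g.toAdd : ℝ) = f.coeff g :=
    Finsupp.mapDomain_apply (inj_toR (G := G)) f.coeff g
  have h2 : cfR f ≠ 0 := by
    intro h3
    rw [h3, Finsupp.zero_apply] at h1
    exact hg h1.symm
  obtain ⟨m, hm, hmin, hne, hval⟩ := evL_lead h0 hM (cfR_inG f) h2
  rw [evG_eq] at h
  have h3 := h hne
  rw [hval] at h3
  exact h3.trans (hmin _ (by rwa [h1]))

theorem evG_inj (h0 : Ctx0 k v) (hM : MS v G M) : Function.Injective (evG k hM) := by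
  rw [injective_iff_map_eq_zero]
  intro f hf
  by_contra hne
  have h1 : f.coeff ≠ 0 := fun h => hne (by
    apply MonoidAlgebra.ext
    rw [h]
    rfl)
  obtain ⟨g, hg⟩ := Finsupp.ne_iff.1 h1
  have h2 := ge_of_evG h0 hM (f := f) (b := (g.toAdd : ℝ) + 1) (by
    rw [hf]
    exact RVal.Ge.zero) g hg
  linarith

theorem evT_norm (h0 : Ctx0 k v) (hM : MS v G M) {y : Ω} (hy : v.Ge 0 y) (α : G →+ ℤ_[p])
    {f : MonoidAlgebra k (Multiplicative G)} {b : ℝ} (h : v.Ge b (evG k hM f)) (n : ℕ) :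
    v.Ge b (PowerSeries.coeff n (evT p k hM y α f)) := by
  rw [evT, MonoidAlgebra.lift_apply, Finsupp.sum, map_sum]
  refine RVal.Ge.sum _ _ fun g hg => ?_
  have h1 := ge_of_evG h0 hM h g (Finsupp.mem_support_iff.1 hg)
  have h2 : PowerSeries.coeff n (f.coeff g • homT p hM y α g) =
      algebraMap k Ω (f.coeff g) * (M (g.toAdd : ℝ) *
        PowerSeries.coeff n (binS p y (α g.toAdd))) := by
    change PowerSeries.coeff n (f.coeff g •
      (PowerSeries.C (M (g.toAdd : ℝ)) * binS p y (α g.toAdd))) = _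
    rw [PowerSeries.coeff_smul, PowerSeries.coeff_C_mul, Algebra.smul_def]
  rw [h2]
  have h3 : v.Ge b (M (g.toAdd : ℝ)) := fun _ => by
    rw [hM.val _ g.toAdd.2]
    exact h1
  have h4 := (h0.ge (f.coeff g)).mul (h3.mul (binS_ge (v := v) p hy (α g.toAdd) n))
  rwa [add_zero, zero_add] at h4

theorem evT_zero (hM : MS v G M) (y : Ω) (α : G →+ ℤ_[p])
    (f : MonoidAlgebra k (Multiplicative G)) :
    PowerSeries.coeff 0 (evT p k hM y α f) = evG k hM f := by
  rw [evT, evG, MonoidAlgebra.lift_apply, MonoidAlgebra.lift_apply, Finsupp.sum, Finsupp.sum,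
    map_sum]
  refine Finset.sum_congr rfl fun g _ => ?_
  rw [PowerSeries.coeff_smul]
  congr 1
  change PowerSeries.coeff 0 (PowerSeries.C (M (g.toAdd : ℝ)) * binS p y (α g.toAdd)) = _
  rw [PowerSeries.coeff_C_mul, binS_coeff_zero, mul_one]
  rfl

theorem evG_mon (hM : MS v G M) {g : ℝ} (hg : g ∈ G) :
    evG k hM (MonoidAlgebra.of k _ (Multiplicative.ofAdd ⟨g, hg⟩)) = M g := by
  rw [evG, MonoidAlgebra.lift_of]
  rfl

theorem evT_mon (hM : MS v G M) (y : Ω) (α : G →+ ℤ_[p]) {g : ℝ} (hg : g ∈ G) :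
    evT p k hM y α (MonoidAlgebra.of k _ (Multiplicative.ofAdd ⟨g, hg⟩)) =
      PowerSeries.C (M g) * binS p y (α ⟨g, hg⟩) := by
  rw [evT, MonoidAlgebra.lift_of]
  rfl

/-- **The arc of the base.** -/
theorem exists_arc [hc : Fact (Ctx0 k v)] (hΩ : CompleteV v) (hM : MS v G M) {y : Ω}
    (hy : v.Ge 0 y) (α : G →+ ℤ_[p]) :
    ∃ h : PM v (⊥ : IntermediateField k Ω) G M →ₐ[k] PowerSeries Ω,
      HSI v (PM v (⊥ : IntermediateField k Ω) G M) h ∧
      ∀ (g : ℝ) (hg : g ∈ G), h ⟨M g, PM.mon hg⟩ = PowerSeries.C (M g) * binS p y (α ⟨g, hg⟩) := by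
  classical
  have h0 : Ctx0 k v := hc.out
  have hG : MonG v (⊥ : IntermediateField k Ω) G M := by
    refine ⟨hM, fun g hg hgV => ?_⟩
    obtain ⟨a, ha, ha0, hav⟩ := hgV
    obtain ⟨c, rfl⟩ := IntermediateField.mem_bot.1 ha
    have hc0 : c ≠ 0 := by
      rintro rfl
      exact ha0 (map_zero _)
    rw [h0.triv c hc0] at hav
    rw [← hav, hM.zero]
    exact one_mem _
  set S : Subalgebra k Ω := (evG k hM).range with hS
  have hAS : ∀ x ∈ AM (⊥ : IntermediateField k Ω) hM, x ∈ S := by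
    intro x hx
    rw [mem_AM] at hx
    induction hx using Submodule.span_induction with
    | mem x hx =>
      obtain ⟨g, hg, rfl⟩ := hx
      exact ⟨_, evG_mon hM hg⟩
    | zero => exact S.zero_mem
    | add x y _ _ hx hy => exact S.add_mem hx hy
    | smul a x _ hx =>
      obtain ⟨c, hc⟩ := IntermediateField.mem_bot.1 a.2
      have e : a • x = c • x := by
        rw [Algebra.smul_def, Algebra.smul_def, hc]
        rfl
      rw [e]
      exact S.smul_mem hx c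
  have hd : DnsS v (S : Set Ω) (PM v (⊥ : IntermediateField k Ω) G M) := by
    intro x hx b
    obtain ⟨z, hz, h1⟩ := dense_AM hG (Imm.refl _) hx b
    have hzP : z ∈ PM v (⊥ : IntermediateField k Ω) G M := by
      obtain ⟨L, hL, rfl⟩ := exists_nf hG le_rfl hz
      exact evM_mem_PM hL
    exact ⟨z, hAS z hz, hzP, h1⟩
  let e := AlgEquiv.ofInjective (evG k hM) (evG_inj h0 hM)
  let h : S →ₐ[k] PowerSeries Ω := (evT p k hM y α).comp e.symm.toAlgHom
  have he : ∀ x : S, evG k hM (e.symm x) = (x : Ω) := fun x => by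
    have := congrArg Subtype.val (e.apply_symm_apply x)
    exact this
  obtain ⟨h', hh', hext⟩ := hsi_of_dense hΩ S hd h (fun x => by
    change PowerSeries.coeff 0 (evT p k hM y α (e.symm x)) = _
    rw [evT_zero, he]) (fun n x b hb => by
    change v.Ge b (PowerSeries.coeff n (evT p k hM y α (e.symm x)))
    exact evT_norm p h0 hM hy α (by rw [he]; exact hb) n)
  refine ⟨h', hh', fun g hg => ?_⟩
  have hgS : M g ∈ S := ⟨_, evG_mon hM hg⟩
  rw [hext (M g) hgS (PM.mon hg)]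
  change evT p k hM y α (e.symm ⟨M g, hgS⟩) = _
  have e1 : e.symm ⟨M g, hgS⟩ = MonoidAlgebra.of k _ (Multiplicative.ofAdd ⟨g, hg⟩) := by
    rw [AlgEquiv.symm_apply_eq]
    refine Subtype.ext ?_
    exact (evG_mon hM hg).symm
  rw [e1, evT_mon]

/-! ### The exponents -/

/-- The projection on `ℚ γ`. -/
theorem exists_proj {γ : ℝ} (hγ : γ ≠ 0) {Λ : Submodule ℚ ℝ}
    (hΛ : IsCompl (Submodule.span ℚ {γ}) Λ) :
    ∃ π : ℝ →ₗ[ℚ] ℚ, π γ = 1 ∧ ∀ l ∈ Λ, π l = 0 := by
  let e := LinearEquiv.toSpanNonzeroSingleton ℚ ℝ γ hγ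
  let P : ℝ →ₗ[ℚ] Submodule.span ℚ {γ} := Submodule.projectionOnto _ _ hΛ
  refine ⟨e.symm.toLinearMap.comp P, ?_, fun l hl => ?_⟩
  · change e.symm (P γ) = 1
    have h1 : P γ = e 1 := by
      have h2 : P ((⟨γ, Submodule.mem_span_singleton_self γ⟩ : Submodule.span ℚ {γ}) : ℝ) =
          ⟨γ, Submodule.mem_span_singleton_self γ⟩ := Submodule.projectionOnto_apply_left hΛ _
      change P γ = _ at h2
      rw [h2]
      refine Subtype.ext ?_
      change γ = ((1 : ℚ) • γ)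
      rw [one_smul]
    rw [h1, LinearEquiv.symm_apply_apply]
  · change e.symm (P l) = 0
    have h1 : P l = 0 := Submodule.projectionOnto_apply_right hΛ ⟨l, hl⟩
    rw [h1, map_zero]

omit [CharP Ω p] in
/-- The exponent of `x`. -/
theorem exists_exp {γ : ℝ} (hγ : γ ≠ 0) {Λ : Submodule ℚ ℝ}
    (hΛ : IsCompl (Submodule.span ℚ {γ}) Λ) :
    ∃ α : GK p γ Λ →+ ℤ_[p], α ⟨γ, self_mem_GK p γ Λ⟩ = 1 ∧
      (∀ (l : ℝ) (_ : l ∈ Λ) (hl : l ∈ GK p γ Λ), α ⟨l, hl⟩ = 0) ∧
      ∀ (g : GK p γ Λ) (n : ℕ) (m : ℤ) (l : ℝ), l ∈ Λ → (n : ℝ) * g = m * γ + l →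
        (n : ℤ_[p]) * α g = m := by
  obtain ⟨π, h1, h2⟩ := exists_proj hγ hΛ
  have hrel : ∀ (g : ℝ) (n : ℕ) (m : ℤ) (l : ℝ), l ∈ Λ → (n : ℝ) * g = m * γ + l →
      (n : ℚ) * π g = m := by
    intro g n m l hl h
    have h4 : (n : ℚ) • g = (m : ℚ) • γ + l := by
      rw [Rat.smul_def, Rat.smul_def]
      exact_mod_cast h
    have h3 : π ((n : ℚ) • g) = π ((m : ℚ) • γ + l) := by rw [h4]
    rw [map_add, map_smul, map_smul, h1, h2 l hl, smul_eq_mul, smul_eq_mul, mul_one,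
      add_zero] at h3
    exact h3
  have hnorm : ∀ g : GK p γ Λ, ‖((π g : ℚ) : ℚ_[p])‖ ≤ 1 := by
    rintro ⟨g, n, hn, m, l, hl, h⟩
    have h3 := hrel g n m l hl h
    have h4 : ((n : ℚ_[p])) * ((π g : ℚ) : ℚ_[p]) = (m : ℚ_[p]) := by exact_mod_cast congrArg (fun q : ℚ => (q : ℚ_[p])) h3
    have h5 : ‖(n : ℚ_[p])‖ = 1 := by
      rw [Padic.norm_natCast_eq_one_iff]
      exact (Nat.Prime.coprime_iff_not_dvd hp.out).2 hn
    have h6 : ‖((π g : ℚ) : ℚ_[p])‖ = ‖(m : ℚ_[p])‖ := by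
      rw [← h4, norm_mul, h5, one_mul]
    change ‖((π g : ℚ) : ℚ_[p])‖ ≤ 1
    rw [h6]
    exact Padic.norm_int_le_one m
  let α : GK p γ Λ →+ ℤ_[p] :=
    { toFun := fun g => ⟨((π g : ℚ) : ℚ_[p]), hnorm g⟩
      map_zero' := by
        refine Subtype.ext ?_
        change (((π ((0 : GK p γ Λ) : ℝ)) : ℚ) : ℚ_[p]) = 0
        rw [show ((0 : GK p γ Λ) : ℝ) = 0 from rfl, map_zero]
        norm_num
      map_add' := fun g g' => by
        refine Subtype.ext ?_
        change (((π ((g + g' : GK p γ Λ) : ℝ)) : ℚ) : ℚ_[p]) =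
          ((π g : ℚ) : ℚ_[p]) + ((π g' : ℚ) : ℚ_[p])
        rw [show ((g + g' : GK p γ Λ) : ℝ) = (g : ℝ) + (g' : ℝ) from rfl, map_add]
        push_cast
        rfl }
  refine ⟨α, ?_, fun l hl hlG => ?_, fun g n m l hl h => ?_⟩
  · refine Subtype.ext ?_
    change ((π γ : ℚ) : ℚ_[p]) = 1
    rw [h1]
    norm_num
  · refine Subtype.ext ?_
    change ((π l : ℚ) : ℚ_[p]) = 0
    rw [h2 l hl]
    norm_num
  · refine Subtype.ext ?_
    have h3 := hrel g n m l hl h
    have h4 : ((n : ℚ_[p])) * ((π g : ℚ) : ℚ_[p]) = (m : ℚ_[p]) := by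
      exact_mod_cast congrArg (fun q : ℚ => (q : ℚ_[p])) h3
    push_cast
    exact h4

omit [CharP Ω p] [Fact p.Prime] in
theorem mem_GK_of_mem [Fact p.Prime] {γ : ℝ} {Λ : Submodule ℚ ℝ} {l : ℝ} (hl : l ∈ Λ) :
    l ∈ GK p γ Λ :=
  ⟨1, fun h => (Fact.out : p.Prime).one_lt.ne' (Nat.dvd_one.1 h), 0, l, hl, by
    push_cast
    ring⟩

/-- **The arc `x ↦ x + χ T`** of the base `PM v ⊥ (GK p (v x) Λ) M`; the monomials with values in
`Λ` are constant. -/
theorem exists_arc_x [hc : Fact (Ctx0 k v)] (hΩ : CompleteV v) {x : Ω} (hM : MS v ⊤ M)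
    (hx : M (v x) = x) (hx0 : x ≠ 0) (hγ : v x ≠ 0) {Λ : Submodule ℚ ℝ}
    (hΛ : IsCompl (Submodule.span ℚ {v x}) Λ) {χ : Ω} (hχ : v.Ge (v x) χ) :
    ∃ (hxP : x ∈ PM v (⊥ : IntermediateField k Ω) (GK p (v x) Λ) M)
      (h : PM v (⊥ : IntermediateField k Ω) (GK p (v x) Λ) M →ₐ[k] PowerSeries Ω),
      HSI v (PM v (⊥ : IntermediateField k Ω) (GK p (v x) Λ) M) h ∧
      h ⟨x, hxP⟩ = PowerSeries.C x + PowerSeries.C χ * PowerSeries.X ∧
      ∀ (l : ℝ) (hl : l ∈ Λ), h ⟨M l, PM.mon (mem_GK_of_mem p hl)⟩ = PowerSeries.C (M l) := by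
  have hMG : MS v (GK p (v x) Λ) M := MS.mono hM le_top
  obtain ⟨α, h1, h2, -⟩ := exists_exp p hγ hΛ
  have hy : v.Ge 0 (χ / x) := by
    rw [div_eq_mul_inv]
    have := hχ.mul (RVal.ge_self (v := v) x⁻¹)
    rwa [v.map_inv hx0, add_neg_cancel] at this
  obtain ⟨h, hh, hval⟩ := exists_arc p hΩ hMG hy α (k := k)
  have hxP : x ∈ PM v (⊥ : IntermediateField k Ω) (GK p (v x) Λ) M := by
    have := PM.mon (v := v) (A := (⊥ : IntermediateField k Ω)) (M := M) (self_mem_GK p (v x) Λ)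
    rwa [hx] at this
  refine ⟨hxP, h, hh, ?_, fun l hl => ?_⟩
  · have h3 := hval (v x) (self_mem_GK p (v x) Λ)
    have e : (⟨M (v x), PM.mon (self_mem_GK p (v x) Λ)⟩ :
        PM v (⊥ : IntermediateField k Ω) (GK p (v x) Λ) M) = ⟨x, hxP⟩ := Subtype.ext hx
    rw [e, hx, h1, binS_one] at h3
    rw [h3, mul_add, mul_one, ← mul_assoc, ← map_mul, mul_div_cancel₀ _ hx0]
  · rw [hval l (mem_GK_of_mem p hl), h2 l hl (mem_GK_of_mem p hl), binS_zero, mul_one]

end Arc

end Pool.Agent.TWS
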