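import Pool.Agent.Lib.TWS.MonJ
import Pool.Agent.Lib.TWC.NilC

/-!
# TANK W, row R6, part L: descent from the fields with the monomials, homogeneous operators

* `DescM.commD`: an operator which is homogeneous of degree `δ` shifts the components;
* `homog_flagD`: the first vector of the flag is homogeneous;
* `descend_pmC`: `descend_pm` for operators which are spanned by homogeneous ones and which are
  nilpotent on the classes (`NilpC`).
-/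

set_option autoImplicit false

open Polynomial

namespace Pool.Agent.TWS

open Pool.Agent.H15JM (RVal)
open Pool.Agent.LU1 (VPos adj)
open Pool.Agent.LUC (Cl clF)
open Pool.Agent.D2 (Ctx0)
open Pool.Agent.D2P (hen clI mem_clI)
open Pool.Agent.TWM
open Pool.Agent.TWC (Opr Tow clI_mono' clI_le' pcl mem_pcl Spn Desc Oper Nilp NilpC NSD IsExt fn_ge
  fn_mem fn_add fn_sub fn_sum MM cls)

universe u

variable {k Ω : Type u} [Field k] [Field Ω] [Algebra k Ω] {v : RVal Ω}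
  {A₀ A B C P L LP N : IntermediateField k Ω} {G : AddSubgroup ℝ} {M : ℝ → Ω}
  {p : ℕ} [hp : Fact p.Prime] [CharP Ω p]

section Comm

variable [hk : Fact (Ctx0 k v)] [CharP k p] {T : Submodule k (Opr v (PM v P G M))}

omit hp [CharP Ω p] [CharP k p] in
/-- **A homogeneous operator shifts the components.** -/
theorem DescM.commD (D : DescM p v C P L LP G M T) {φ : Opr v (PM v P G M)}
    (hlin : ∀ c ∈ PM v C G M, ∀ x ∈ PM v P G M, TWC.fn φ (c * x) = c * TWC.fn φ x) {δ : ℝ}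
    (hδ : δ ∈ G) (hpres : ∀ e ∈ P, ∃ e' ∈ P, TWC.fn φ e = e' * M δ) {d : ℝ} (hd : d ∈ G)
    {Q Q' : PM v LP G M →ₗ[k] Ω} (hQ : PiH v P LP G M d Q) (hQ' : PiH v P LP G M (d + δ) Q')
    {Φ : Opr v (PM v LP G M)} (hΦ : IsExt (PM v L G M) φ Φ) (x : PM v LP G M) :
    TWC.fn Φ (Q x) = Q' ⟨TWC.fn Φ x, fn_mem Φ x⟩ := by
  classical
  have hQm : ∀ x : PM v LP G M, Q x ∈ PM v LP G M := fun x => by
    obtain ⟨f, hf, h1⟩ := hQ.sub LP D.imm le_rfl D.cld x x.2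
    rw [h1]
    exact mul_mem (PM.le hf) (PM.mon hd)
  -- the property
  let R : Ω → Prop := fun x => ∀ hx : x ∈ PM v LP G M,
    TWC.fn Φ (Q ⟨x, hx⟩) = Q' ⟨TWC.fn Φ x, fn_mem Φ x⟩
  have hadd : ∀ x y, x ∈ PM v LP G M → y ∈ PM v LP G M → R x → R y → R (x + y) := by
    intro x y hx hy h1 h2 hxy
    have e1 : (⟨x + y, hxy⟩ : PM v LP G M) = ⟨x, hx⟩ + ⟨y, hy⟩ := rfl
    have e2 : (⟨TWC.fn Φ (x + y), fn_mem Φ _⟩ : PM v LP G M) =
        ⟨TWC.fn Φ x, fn_mem Φ x⟩ + ⟨TWC.fn Φ y, fn_mem Φ y⟩ := Subtype.ext (fn_add Φ hx hy)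
    rw [e1, e2, map_add, map_add, fn_add Φ (hQm _) (hQm _), h1 hx, h2 hy]
  have hzero : R 0 := by
    intro hx
    have e1 : (⟨0, hx⟩ : PM v LP G M) = 0 := rfl
    have e2 : (⟨TWC.fn Φ 0, fn_mem Φ _⟩ : PM v LP G M) = 0 := Subtype.ext (TWC.fn_zero Φ)
    rw [e1, e2, map_zero, TWC.fn_zero, map_zero]
  have hlim : ∀ x, (∀ b : ℝ, ∃ y ∈ PM v LP G M, R y ∧ v.Ge b (x - y)) → R x := by
    intro x h hx
    rw [← sub_eq_zero]
    refine TWC.eq_zero_of_ge (v := v) fun b => ?_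
    obtain ⟨y, hy, h1, h2⟩ := h b
    have h3 : v.Ge b (TWC.fn Φ (Q ⟨x, hx⟩) - TWC.fn Φ (Q ⟨y, hy⟩)) := by
      refine TWC.fn_near Φ (hQm _) (hQm _) ?_
      rw [← map_sub]
      exact hQ.norm _ _ h2
    have h4 : v.Ge b (Q' ⟨TWC.fn Φ x, fn_mem Φ x⟩ - Q' ⟨TWC.fn Φ y, fn_mem Φ y⟩) := by
      rw [← map_sub]
      exact hQ'.norm _ _ (TWC.fn_near Φ hx hy h2)
    have e : TWC.fn Φ (Q ⟨x, hx⟩) - Q' ⟨TWC.fn Φ x, fn_mem Φ x⟩ =
        (TWC.fn Φ (Q ⟨x, hx⟩) - TWC.fn Φ (Q ⟨y, hy⟩)) -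
          (Q' ⟨TWC.fn Φ x, fn_mem Φ x⟩ - Q' ⟨TWC.fn Φ y, fn_mem Φ y⟩) := by
      rw [h1 hy]
      ring
    rw [e]
    exact h3.sub h4
  have hsum : ∀ {ι : Type} (S : Finset ι) (f : ι → Ω), (∀ i ∈ S, f i ∈ PM v LP G M) →
      (∀ i ∈ S, R (f i)) → R (∑ i ∈ S, f i) := by
    intro ι S f hf h
    induction S using Finset.induction_on with
    | empty =>
      rw [Finset.sum_empty]
      exact hzero
    | insert i S hi ih =>
      rw [Finset.sum_insert hi]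
      exact hadd _ _ (hf i (Finset.mem_insert_self _ _))
        (sum_mem fun j hj => hf j (Finset.mem_insert_of_mem hj))
        (h i (Finset.mem_insert_self _ _))
        (ih (fun j hj => hf j (Finset.mem_insert_of_mem hj))
          fun j hj => h j (Finset.mem_insert_of_mem hj))
  -- the products of homogeneous elements
  have hbase : ∀ l ∈ L, ∀ e ∈ P, ∀ g ∈ G, ∀ g' ∈ G, R ((l * M g) * (e * M g')) := by
    intro l hl e he g hg g' hg' hx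
    have hgg : g + g' ∈ G := G.add_mem hg hg'
    have hggd : g + g' + δ ∈ G := G.add_mem hgg hδ
    obtain ⟨e', he', hee⟩ := hpres e he
    have hle : l * e ∈ LP := mul_mem (D.LLP hl) (D.PLP he)
    have hlφ : l * e' ∈ LP := mul_mem (D.LLP hl) (D.PLP he')
    have e1 : (l * M g) * (e * M g') = (l * e) * M (g + g') := by
      rw [D.mc.ms.mul _ hg _ hg']
      ring
    have e2 : TWC.fn Φ ((l * M g) * (e * M g')) = (l * e') * M (g + g' + δ) := by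
      rw [hΦ.lin _ (mul_mem (PM.le hl) (PM.mon hg)) _
        (mul_mem (PM.le (D.PLP he)) (PM.mon hg')), hΦ.eq _ (mul_mem (PM.le he) (PM.mon hg')),
        mul_comm e, hlin _ (PM.mon hg') _ (PM.le he), hee, D.mc.ms.mul _ hgg _ hδ,
        D.mc.ms.mul _ hg _ hg']
      ring
    have e3 : (⟨(l * M g) * (e * M g'), hx⟩ : PM v LP G M) =
        ⟨(l * e) * M (g + g'), mul_mem (PM.le hle) (PM.mon hgg)⟩ := Subtype.ext e1
    have e4 : (⟨TWC.fn Φ ((l * M g) * (e * M g')), fn_mem Φ _⟩ : PM v LP G M) =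
        ⟨(l * e') * M (g + g' + δ), mul_mem (PM.le hlφ) (PM.mon hggd)⟩ := Subtype.ext e2
    have e5 : g + g' + δ - (d + δ) = g + g' - d := by ring
    rw [e3, e4]
    by_cases h1 : g + g' - d ∈ VG v P
    · rw [hQ.mon _ hle _ hgg h1, hQ'.mon _ hlφ _ hggd (by rwa [e5]), ← e1, e2]
    · rw [hQ.mon0 _ hle _ hgg h1, hQ'.mon0 _ hlφ _ hggd (by rwa [e5]), TWC.fn_zero]
  have hev : ∀ {A : IntermediateField k Ω} {F : ℝ →₀ Ω}, NF v A A G F → A ≤ LP →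
      evM M F ∈ PM v LP G M := fun hF hA => sum_mem fun g hg =>
    mul_mem (PM.le (hA (hF.mem g))) (PM.mon (hF.mem_G hg))
  have happ : ∀ {a a' : Ω} (b : ℝ), (∀ b' : ℝ, ∃ c ∈ PM v LP G M, R (c * a') ∧ v.Ge b' (a - c)) →
      a' ∈ PM v LP G M → ∃ y ∈ PM v LP G M, R y ∧ v.Ge b (a * a' - y) := by
    intro a a' b h ha'
    obtain ⟨c, hc, h1, h2⟩ := h (b - v a')
    refine ⟨c * a', mul_mem hc ha', h1, ?_⟩
    rw [← sub_mul]
    have := h2.mul (RVal.ge_self (v := v) a')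
    rwa [sub_add_cancel] at this
  have hmid : ∀ l ∈ PM v L G M, ∀ e ∈ P, ∀ g' ∈ G, R (l * (e * M g')) := by
    intro l hl e he g' hg'
    refine hlim _ fun b => happ b (fun b' => ?_) (mul_mem (PM.le (D.PLP he)) (PM.mon hg'))
    obtain ⟨F, hF, h1⟩ := dense_PM D.mL (Imm.refl _) hl b'
    refine ⟨evM M F, hev hF D.LLP, ?_, h1⟩
    rw [evM, Finsupp.sum, Finset.sum_mul]
    exact hsum _ _ (fun g hg => mul_mem (mul_mem (PM.le (D.LLP (hF.mem g))) (PM.mon (hF.mem_G hg)))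
      (mul_mem (PM.le (D.PLP he)) (PM.mon hg'))) fun g hg => hbase _ (hF.mem g) _ he _
      (hF.mem_G hg) _ hg'
  have htop : ∀ l ∈ PM v L G M, ∀ e ∈ PM v P G M, R (l * e) := by
    intro l hl e he
    have hlLP : l ∈ PM v LP G M := PM.mono D.LLP hl
    refine hlim _ fun b => ?_
    obtain ⟨y, hy, h1, h2⟩ := happ (a := e) (a' := l) b (fun b' => by
      obtain ⟨F, hF, h1⟩ := dense_PM D.mP (Imm.refl _) he b'
      refine ⟨evM M F, hev hF D.PLP, ?_, h1⟩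
      rw [evM, Finsupp.sum, Finset.sum_mul]
      refine hsum _ _ (fun g hg => mul_mem (mul_mem (PM.le (D.PLP (hF.mem g)))
        (PM.mon (hF.mem_G hg))) hlLP) fun g hg => ?_
      rw [mul_comm]
      exact hmid _ hl _ (hF.mem g) _ (hF.mem_G hg)) hlLP
    exact ⟨y, hy, h1, by rwa [mul_comm l e]⟩
  refine hlim (x : Ω) (fun b => ?_) x.2
  obtain ⟨n, l, e, hl, he, h1⟩ := D.desc.dense x x.2 b
  have hle : ∀ i ∈ Finset.univ, l i * e i ∈ PM v LP G M := fun i _ =>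
    mul_mem (PM.mono D.LLP (hl i)) (PM.mono D.PLP (he i))
  exact ⟨_, sum_mem hle, hsum _ _ hle fun i _ => htop _ (hl i) _ (he i), h1⟩

end Comm

section Flag

variable [hk : Fact (Ctx0 k v)] [CharP k p] [PerfectRing k p] [IsAlgClosed Ω]
  {T : Submodule k (Opr v (PM v P G M))}

omit hp [CharP Ω p] [CharP k p] [PerfectRing k p] [IsAlgClosed Ω] in
/-- If `T` acts on a class, one of the generators of `T` does. -/
theorem exists_gen {E LE L₀ C₀ : IntermediateField k Ω} {T : Submodule k (Opr v E)}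
    (hD : Desc v C₀ E T L₀ LE) {S : Set (Opr v E)} (hTS : T ≤ Submodule.span k S)
    (hST : S ⊆ T) {x : Ω} (hx : x ∈ LE) (hl : Lim v E 0 x) {φ : Opr v E} (hφ : φ ∈ T)
    {Φ : Opr v LE} (hΦ : IsExt L₀ φ Φ) (hne : ¬ Nr v E 0 (TWC.fn Φ x)) :
    ∃ ψ ∈ S, ∃ Ψ : Opr v LE, IsExt L₀ ψ Ψ ∧ ¬ Nr v E 0 (TWC.fn Ψ x) := by
  by_contra hno
  push Not at hno
  have key : ∀ ψ ∈ Submodule.span k S, MM.act ψ (cls v E x) = 0 := by
    intro ψ hψ
    induction hψ using Submodule.span_induction with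
    | mem ψ hψ =>
      obtain ⟨Ψ, hΨ⟩ := hD.ext ψ (hST hψ)
      obtain ⟨h3, h4⟩ := TWC.cls_opr hD.E_le hΨ.eq hx hl
      rw [← h4, (TWC.cls_eq_zero h3).2 (hno ψ hψ Ψ hΨ)]
    | zero =>
      have := MM.act_smul (0 : k) (0 : Opr v E) (cls v E x)
      rwa [zero_smul, zero_smul] at this
    | add φ ψ _ _ h1 h2 => rw [MM.act_add, h1, h2, add_zero]
    | smul a φ _ h1 => rw [MM.act_smul, h1, smul_zero]
  obtain ⟨h1, h2⟩ := TWC.cls_opr hD.E_le hΦ.eq hx hl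
  refine hne ((TWC.cls_eq_zero h1).1 ?_)
  rw [h2]
  exact key φ (hTS hφ)

/-- Length one, nilpotent on the classes. -/
theorem descM_oneC (D : DescM p v C P L LP G M T) (h : Oper p v (PM v C G M) (PM v P G M) T)
    (hN : NilpC v T (PM v L G M) (PM v LP G M)) (hV : NSD p h) {y : Ω}
    (hy : TL v (PM v P G M) y 0) (hLP : PM v LP G M = cadj v (PM v P G M) y) :
    ∃ f ∈ L, ∃ s : ℝ, TL v C f s ∧ L = cadj v C f := by
  have hyL : y ∈ PM v LP G M := by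
    rw [hLP]
    exact self_mem_cadj v _ y
  have hX : ∀ x ∈ PM v LP G M, Lim v (PM v P G M) 0 x → Spn p v (PM v P G M) y x :=
    fun x hx hl => TWC.spn_of_mem p hy (hLP ▸ hx) hl
  have hB : clI v (C ⊔ P) = P := by
    rw [sup_eq_right.2 D.CP]
    exact le_antisymm D.cldP (TWC.self_le_clI v P)
  obtain ⟨f, hf, g, hg, -, -, h1, h2⟩ := D.step (N := C) (x := y) D.cldC (Imm.refl _) D.CL hyL
    (by rw [hB]; exact hy)
    (by rw [hB]; exact fun φ hφ Φ hΦ => TWC.triv_oneC p h hN hV D.desc hy hyL hX hφ hΦ)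
    (Or.inr (by rw [hB]; exact fun w hw hl => hX w (D.desc.le_LE hw) hl))
  exact ⟨f, hf, -g, h1, (h2 (by rw [hB]; exact hLP)).2⟩

/-- **The first vector of the flag is homogeneous**, homogeneous operators. -/
theorem homog_flagD (D : DescM p v C P L LP G M T) (h : Oper p v (PM v C G M) (PM v P G M) T)
    {g₁ g₂ : Ω}
    (hF : Fib v (PM v P G M) (PM v LP G M) g₁ g₂ 0 0) (hg : Lim v (PM v P G M) 0 g₂)
    (h1 : ∀ φ ∈ T, ∀ Φ : Opr v (PM v LP G M), IsExt (PM v L G M) φ Φ →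
      Nr v (PM v P G M) 0 (TWC.fn Φ g₁))
    (h2 : ∀ φ ∈ T, ∀ Φ : Opr v (PM v LP G M), IsExt (PM v L G M) φ Φ →
      Spn p v (PM v P G M) g₁ (TWC.fn Φ g₂))
    {φ : Opr v (PM v P G M)} (hφ : φ ∈ T) {δ : ℝ} (hδ : δ ∈ G)
    (hpres : ∀ e ∈ P, ∃ e' ∈ P, TWC.fn φ e = e' * M δ) {Φ : Opr v (PM v LP G M)}
    (hΦ : IsExt (PM v L G M) φ Φ) (hne : ¬ Nr v (PM v P G M) 0 (TWC.fn Φ g₂)) :
    ∃ f ∈ LP, ∃ g ∈ G, Nr' v (PM v P G M) 0 (g₁ - f * M g) := by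
  classical
  have h0 : Ctx0 k v := hk.out
  have hg₁ : g₁ ∈ PM v LP G M := by
    rw [hF.eq]
    exact le_cadj _ _ _ (self_mem_cadj v _ _)
  have hg₂ : g₂ ∈ PM v LP G M := by
    rw [hF.eq]
    exact self_mem_cadj v _ _
  have hV : ∀ g ∈ G, (p : ℝ) * g ∈ VG v P → g ∈ VG v P := fun g _ h => rt_div D.perf h
  choose! Q hQ using fun (h : ℝ) (hh : h ∈ G) => exists_piH D.cpl D.mP D.imm D.cld hh
  have hPLP : PM v P G M ≤ PM v LP G M := PM.mono D.PLP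
  -- the components of the elements of the base
  have hQP : ∀ t ∈ G, ∀ a (ha : a ∈ PM v P G M), Q t ⟨a, hPLP ha⟩ ∈ PM v P G M := by
    intro t ht a ha
    obtain ⟨f, hf, h3⟩ := (hQ t ht).sub P (Imm.refl _) D.PLP D.cldP ⟨a, hPLP ha⟩ ha
    rw [h3]
    exact mul_mem (PM.le hf) (PM.mon ht)
  have hQLP : ∀ t ∈ G, ∀ x : PM v LP G M, ∃ f ∈ LP, Q t x = f * M t := fun t ht x =>
    (hQ t ht).sub LP D.imm le_rfl D.cld x x.2
  have hQm : ∀ t ∈ G, ∀ x : PM v LP G M, Q t x ∈ PM v LP G M := fun t ht x => by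
    obtain ⟨f, hf, h3⟩ := hQLP t ht x
    rw [h3]
    exact mul_mem (PM.le hf) (PM.mon ht)
  have hQN0 : ∀ t ∈ G, ∀ x : PM v LP G M, Nr v (PM v P G M) 0 (x : Ω) →
      Nr v (PM v P G M) 0 (Q t x) := by
    rintro t ht x ⟨a, ha, h3⟩
    refine ⟨_, hQP t ht a ha, ?_⟩
    rw [← map_sub]
    exact (hQ t ht).norm _ _ h3
  have hQlim : ∀ t ∈ G, ∀ x : PM v LP G M, Lim v (PM v P G M) 0 (x : Ω) →
      Lim v (PM v P G M) 0 (Q t x) := by
    intro t ht x hx ε hε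
    obtain ⟨a, ha, h3⟩ := hx ε hε
    refine ⟨_, hQP t ht a ha, ?_⟩
    rw [← map_sub]
    exact (hQ t ht).norm _ _ h3
  -- a homogeneous element in the image
  obtain ⟨e, he, hm0⟩ : ∃ e ∈ G, ¬ Nr v (PM v P G M) 0 (TWC.fn Φ (Q e ⟨g₂, hg₂⟩)) := by
    by_contra hno
    push Not at hno
    obtain ⟨S, hSG, -, h3, -⟩ := decomp D.mP D.imm hQ ⟨g₂, hg₂⟩
    refine hne ?_
    have h4 : ∑ g ∈ S, Q g ⟨g₂, hg₂⟩ ∈ PM v LP G M := sum_mem fun g hg => hQm g (hSG g hg) _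
    have h5 := TWC.fn_near Φ hg₂ h4 h3
    rw [fn_sum Φ _ _ fun g hg => hQm g (hSG g hg) _] at h5
    have h6 : ∑ g ∈ S, TWC.fn Φ (Q g ⟨g₂, hg₂⟩) ∈ N0 h0 (PM v P G M) :=
      sum_mem fun g hg => mem_N0.2 (hno g (hSG g hg))
    have h7 : TWC.fn Φ g₂ - ∑ g ∈ S, TWC.fn Φ (Q g ⟨g₂, hg₂⟩) ∈ N0 h0 (PM v P G M) :=
      mem_N0.2 ⟨0, zero_mem _, by rwa [sub_zero]⟩
    have h8 := add_mem h7 h6
    rw [sub_add_cancel] at h8
    exact mem_N0.1 h8
  set m₀ := TWC.fn Φ (Q e ⟨g₂, hg₂⟩) with hm₀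
  have heδ : e + δ ∈ G := G.add_mem he hδ
  have hcomm : m₀ = Q (e + δ) ⟨TWC.fn Φ g₂, fn_mem Φ _⟩ :=
    D.commD (fun c hc x hx => TWC.fn_lin p h hφ hc hx) hδ hpres he (hQ e he) (hQ _ heδ) hΦ
      ⟨g₂, hg₂⟩
  obtain ⟨f₀, hf₀, hf₀'⟩ := hQLP (e + δ) heδ ⟨TWC.fn Φ g₂, fn_mem Φ _⟩
  have hm₀f : m₀ = f₀ * M (e + δ) := by rw [hcomm, hf₀']
  have hspn : Spn p v (PM v P G M) g₁ m₀ :=
    spn_act h D.desc hF hg h1 h2 (hQm e he _) (hQlim e he _ hg) φ hφ Φ hΦ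
  obtain ⟨n, q, hq, hrel⟩ := spn_trim hspn hm0
  -- the components of the sum
  set s : PM v LP G M := ∑ i ∈ Finset.range (n + 1), q i • (⟨g₁, hg₁⟩ : PM v LP G M) ^ p ^ i
    with hs
  have hsv : (s : Ω) = ∑ i ∈ Finset.range (n + 1), algebraMap k Ω (q i) * g₁ ^ p ^ i := by
    change (PM v LP G M).val s = _
    rw [hs, map_sum]
    refine Finset.sum_congr rfl fun i _ => ?_
    rw [map_smul, map_pow, Algebra.smul_def]
    rfl
  have hm₀L : m₀ ∈ PM v LP G M := fn_mem Φ _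
  have hcomp : ∀ t ∈ G, Q t ⟨m₀, hm₀L⟩ = m₀ ∨ Q t ⟨m₀, hm₀L⟩ = 0 := by
    intro t ht
    have e1 : (⟨m₀, hm₀L⟩ : PM v LP G M) =
        ⟨f₀ * M (e + δ), mul_mem (PM.le hf₀) (PM.mon heδ)⟩ := Subtype.ext hm₀f
    by_cases h3 : e + δ - t ∈ VG v P
    · left
      rw [e1, (hQ t ht).mon _ hf₀ _ heδ h3, ← hm₀f]
    · right
      rw [e1, (hQ t ht).mon0 _ hf₀ _ heδ h3]
  -- the filtration by the degree in `g₂`
  set A₁ := cadj v (PM v P G M) g₁ with hA₁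
  have hPA : N0 h0 (PM v P G M) ≤ N0 h0 A₁ := by
    rintro x ⟨a, ha, h3⟩
    exact ⟨a, le_cadj v _ _ ha, h3⟩
  have hsA : (s : Ω) ∈ A₁ := by
    rw [hsv]
    exact sum_mem fun i _ => mul_mem (A₁.algebraMap_mem _) (pow_mem (self_mem_cadj v _ _) _)
  have hm₀A : m₀ ∈ N0 h0 A₁ := by
    have h3 : m₀ - s ∈ N0 h0 A₁ := by
      rw [hsv]
      exact hPA (mem_N0.2 hrel)
    have h4 : (s : Ω) ∈ N0 h0 A₁ := mem_N0.2 ⟨s, hsA, by rw [sub_self]; exact RVal.Ge.zero⟩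
    have := add_mem h3 h4
    rwa [sub_add_cancel] at this
  have hQs : ∀ t ∈ G, Q t s ∈ N0 h0 A₁ := by
    intro t ht
    have h3 : Q t ⟨m₀, hm₀L⟩ - Q t s ∈ N0 h0 A₁ := by
      rw [← map_sub]
      refine hPA (mem_N0.2 (hQN0 t ht _ ?_))
      change Nr v (PM v P G M) 0 (m₀ - s)
      rw [hsv]
      exact hrel
    have h4 : Q t ⟨m₀, hm₀L⟩ ∈ N0 h0 A₁ := by
      rcases hcomp t ht with h5 | h5
      · rw [h5]
        exact hm₀A
      · rw [h5]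
        exact zero_mem _
    have := sub_mem h4 h3
    rwa [sub_sub_cancel] at this
  obtain ⟨S, hSG, hST, hS1, hS2⟩ := decomp D.mP D.imm hQ ⟨g₁, hg₁⟩
  have hfil : ∀ t ∈ G, ∃ m, Q t ⟨g₁, hg₁⟩ ∈ Fil p h0 A₁ g₂ m := by
    intro t ht
    obtain ⟨m, c, h3⟩ := TWC.spn_two p h.cld hF hg (hQm t ht ⟨g₁, hg₁⟩) (hQlim t ht _ hF.ty.lim)
    refine ⟨m, ?_⟩
    have h4 : Q t ⟨g₁, hg₁⟩ - ∑ i ∈ Finset.range m, algebraMap k Ω (c i) * g₂ ^ p ^ i ∈
        Fil p h0 A₁ g₂ m := Fil.mono p (Nat.zero_le _) (mem_N0.2 h3.nr)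
    have h5 : ∑ i ∈ Finset.range m, algebraMap k Ω (c i) * g₂ ^ p ^ i ∈ Fil p h0 A₁ g₂ m := by
      refine sum_mem fun i hi => ?_
      rw [← Algebra.smul_def]
      exact Submodule.smul_mem _ _ (Fil.mono p (Finset.mem_range.1 hi) (Fil.self p i))
    have := add_mem h4 h5
    rwa [sub_add_cancel] at this
  have hbd : ∃ a, ∀ t ∈ G, Q t ⟨g₁, hg₁⟩ ∈ Fil p h0 A₁ g₂ a := by
    choose! m hm using hfil
    refine ⟨S.sup m, fun t ht => ?_⟩
    by_cases h3 : ∃ g ∈ S, g - t ∈ VG v P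
    · obtain ⟨g, hg', h4⟩ := h3
      rw [← PiH.congr D.mP D.imm h4 (hQ g (hSG g hg')) (hQ t ht)]
      exact Fil.mono p (Finset.le_sup hg') (hm g (hSG g hg'))
    · push Not at h3
      refine Fil.mono p (Nat.zero_le _) (mem_N0.2 ⟨0, zero_mem _, ?_⟩)
      rw [sub_zero]
      exact hS2 t ht h3
  have hall : ∀ t ∈ G, Q t ⟨g₁, hg₁⟩ ∈ N0 h0 A₁ := by
    have h3 := Nat.find_spec hbd
    by_cases h4 : Nat.find hbd = 0
    · rw [h4] at h3
      exact h3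
    · exfalso
      obtain ⟨a, ha⟩ := Nat.exists_eq_succ_of_ne_zero h4
      rw [ha] at h3
      have h5 : ¬ ∀ t ∈ G, Q t ⟨g₁, hg₁⟩ ∈ Fil p h0 A₁ g₂ a := fun h6 => by
        have := Nat.find_min' hbd h6
        omega
      push Not at h5
      obtain ⟨t, ht, h6⟩ := h5
      have hG : (p : ℝ) ^ n * t ∈ G := by
        have := G.nsmul_mem ht (p ^ n)
        rwa [nsmul_eq_mul, Nat.cast_pow] at this
      exact top_deg D.mP D.imm hV hF.tz hQ ⟨g₁, hg₁⟩ h3 ht h6 hq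
        (Fil.mono p (Nat.zero_le _) (hQs _ hG))
  -- the span of `g₁`
  have hsp : ∀ t ∈ G, Spn p v (PM v P G M) g₁ (Q t ⟨g₁, hg₁⟩) := by
    intro t ht
    obtain ⟨a, ha, h3⟩ := mem_N0.1 (hall t ht)
    have h4 : Lim v (PM v P G M) 0 a := TWC.Lim.of_gt' (hQlim t ht _ hF.ty.lim) h3
    exact TWC.Spn.congr p (TWC.spn_of_mem p hF.ty ha h4) h3
  choose! f hfLP hfQ using fun (t : ℝ) (ht : t ∈ G) => hQLP t ht ⟨g₁, hg₁⟩
  obtain ⟨g, hgS, h3⟩ := homog_of_sum p (h0 := h0) D.mP D.cpl D.imm D.cld (Imm.refl _) D.PLP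
    D.cldP hV hF.ty (T := S) f hSG hST (fun g hg => hfLP g (hSG g hg)) (fun g hg => by
      rw [← hfQ g (hSG g hg)]
      exact spn_fil p (hsp g (hSG g hg))) (by
    refine mem_N0.2 ⟨0, zero_mem _, ?_⟩
    rw [sub_zero, Finset.sum_congr rfl fun g hg => (hfQ g (hSG g hg)).symm]
    exact hS1)
  obtain ⟨a, ha, h4⟩ := mem_N0.1 h3
  obtain ⟨c, hc⟩ := h0.residue h4
  refine ⟨f g, hfLP g (hSG g hgS), g, hSG g hgS, a + algebraMap k Ω c,
    add_mem ha (IntermediateField.algebraMap_mem _ c), ?_⟩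
  rw [← sub_sub]
  exact hc

/-- **DESCENT OF TOWERS FROM THE FIELDS WITH THE MONOMIALS**: homogeneous operators, nilpotent on
the classes. -/
theorem descend_pmC (D : DescM p v C P L LP G M T) (h : Oper p v (PM v C G M) (PM v P G M) T)
    (hN : NilpC v T (PM v L G M) (PM v LP G M)) (hV : NSD p h)
    {S : Set (Opr v (PM v P G M))} (hST : S ⊆ T) (hTS : T ≤ Submodule.span k S)
    (hpres : ∀ φ ∈ S, ∃ δ ∈ G, ∀ e ∈ P, ∃ e' ∈ P, TWC.fn φ e = e' * M δ)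
    (hs : ∀ s : ℝ, ∃ e ∈ P, e ≠ 0 ∧ ∃ g ∈ G, v e + g = s) {n : ℕ} (hn : n ≤ 2)
    (hT : TowR v n P LP) : TowR v n C L := by
  classical
  have hL : PM v L G M ≤ PM v LP G M := D.desc.le_LE
  interval_cases n
  · -- length zero
    have hPL : P = LP := by
      cases hT with
      | zero _ => rfl
    have hLC : L ≤ C := by
      intro l hl
      refine D.memN D.cldC (Imm.refl _) D.CL hl ?_
      refine D.desc.inf PM.cld le_rfl (PM.mono D.CL) (PM.le hl) ?_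
      have h1 : l ∈ PM v P G M := PM.le (by rw [hPL]; exact D.LLP hl)
      exact TWC.self_le_clI v _ ((le_sup_right : PM v P G M ≤ _) h1)
    rw [le_antisymm hLC D.CL]
    exact TowR.zero D.cldC
  · -- length one
    obtain ⟨f, hf, g, hg, hy, h1⟩ := towR_gen D.mP hs hT
    obtain ⟨_, h2⟩ := TWC.tow_zero.1 h1
    obtain ⟨f', -, s, h3, h4⟩ := descM_oneC D h hN hV hy h2.symm
    refine TowR.succ h3 ?_
    rw [← h4]
    exact TowR.zero D.cldL
  · -- length two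
    obtain ⟨f, hf, g, hg, hy, h1⟩ := towR_gen D.mP hs hT
    obtain ⟨z, hz, hLP⟩ := TWC.tow_one.1 h1
    set y := f * M g with hyd
    have hF : Fib v (PM v P G M) (PM v LP G M) y z 0 0 := ⟨hy, hz, hLP⟩
    have hyh : ∃ f ∈ LP, ∃ g ∈ G, y = f * M g := ⟨f, hf, g, hg, rfl⟩
    have hyL : y ∈ PM v LP G M := mul_mem (PM.le hf) (PM.mon hg)
    by_cases hX : ∀ x ∈ PM v LP G M, Lim v (PM v P G M) 0 x → Spn p v (PM v P G M) y x
    · -- rank one
      refine towR_two_of D hF (Or.inl hyh)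
        (fun φ hφ Φ hΦ => TWC.triv_oneC p h hN hV D.desc hF.ty hyL hX hφ hΦ) fun u hu hn hu' => ?_
      obtain ⟨z', hF'⟩ := TWC.fib_move hF (hL hu) hn
      exact ⟨z', hF', fun φ hφ Φ hΦ => TWC.triv_twoC p h hN hV D.desc hu hu'.lim hF'
        (fun x hx hl => (hX x hx hl).move hn) hφ hΦ⟩
    · -- rank two
      push Not at hX
      obtain ⟨x, hx, hl, hn⟩ := hX
      obtain ⟨b, hb, hb'⟩ := TWC.dich p h.cld h.perf hF hx hl hn
      have hF₁ : Fib v (PM v P G M) (PM v LP G M) y (z - b) 0 0 := by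
        refine ⟨hF.ty, hF.tz.sub_mem hb, ?_⟩
        rw [cadj_sub_mem hb]
        exact hF.eq
      obtain ⟨g₁, g₂, hF₂, hg₂, h2, h3⟩ := TWC.flag_twoC p h hN hV D.desc hF₁ hb'
      by_cases hTr : ∀ φ ∈ T, ∀ Φ : Opr v (PM v LP G M), IsExt (PM v L G M) φ Φ →
          Nr v (PM v P G M) 0 (TWC.fn Φ g₂)
      · -- the operators kill all the classes
        have hzL : z - b ∈ PM v LP G M := by
          rw [hF₁.eq]
          exact self_mem_cadj v _ _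
        refine towR_two_of D hF₁ (Or.inl hyh)
          (nr_act h D.desc hF₂ hg₂ h2 hTr hyL hF.ty.lim) fun u hu hn _ => ?_
        refine ⟨z - b, TWC.fib_move_lim hF₁ hb' (hL hu) hn, fun φ hφ Φ hΦ => ?_⟩
        obtain ⟨a, ha, h4⟩ := nr_act h D.desc hF₂ hg₂ h2 hTr hzL hb' φ hφ Φ hΦ
        exact ⟨a, le_cadj v _ _ ha, h4⟩
      · -- the first vector of the flag is homogeneous
        push Not at hTr
        obtain ⟨φ, hφ, Φ, hΦ, hne⟩ := hTr
        have hg₂L : g₂ ∈ PM v LP G M := by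
          rw [hF₂.eq]
          exact self_mem_cadj v _ _
        obtain ⟨ψ, hψ, Ψ, hΨ, hne'⟩ := exists_gen D.desc hTS hST hg₂L hg₂ hφ hΦ hne
        obtain ⟨δ, hδ, hpr⟩ := hpres ψ hψ
        obtain ⟨f', hf', g', hg', h4⟩ := homog_flagD D h hF₂ hg₂ h2 h3 (hST hψ) hδ hpr hΨ hne'
        have hy' : f' * M g' ∈ PM v LP G M := mul_mem (PM.le hf') (PM.mon hg')
        have hF₃ : Fib v (PM v P G M) (PM v LP G M) (f' * M g') g₂ 0 0 :=
          TWC.fib_move_lim hF₂ hg₂ hy' h4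
        have hg₁ : g₁ ∈ PM v LP G M := by
          rw [hF₂.eq]
          exact le_cadj _ _ _ (self_mem_cadj v _ _)
        refine towR_two_of D hF₃ (Or.inl ⟨f', hf', g', hg', rfl⟩) (fun φ hφ Φ hΦ => ?_)
          fun u hu hn _ => ?_
        · -- the operators kill it
          obtain ⟨a, ha, h5⟩ := h4
          have haL : a ∈ PM v LP G M := D.desc.E_le ha
          have h6 : Nr v (PM v P G M) 0 (TWC.fn Φ (g₁ - f' * M g')) := by
            refine ⟨TWC.fn Φ a, ?_, TWC.fn_near Φ (sub_mem hg₁ hy') haL h5.ge⟩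
            rw [hΦ.eq a ha]
            exact fn_mem φ a
          have h7 : TWC.fn Φ (f' * M g') = TWC.fn Φ g₁ - TWC.fn Φ (g₁ - f' * M g') := by
            rw [fn_sub Φ hg₁ hy']
            ring
          rw [h7]
          exact mem_N0.1 (sub_mem (mem_N0 (h0 := hk.out).2 (h2 φ hφ Φ hΦ)) (mem_N0.2 h6))
        · exact ⟨g₂, TWC.fib_move_lim hF₃ hg₂ (hL hu) hn,
            fun φ hφ Φ hΦ => (((h3 φ hφ Φ hΦ).move h4).move hn).nr⟩

end Flag

end Pool.Agent.TWS
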