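import Pool.Agent.Lib.TWS.MonB
import Pool.Agent.Lib.TWC.Base

/-!
# TANK W, row R6, part E: the projection on the component of degree `0`

`A₀ ≤ C`, immediate, `C` closed, `M g ∈ A₀` if the value of `M g` is a value of `A₀`.
* `Pi0 v A₀ C G M π`: `π : PM v C G M → Ω` has values in `C`, is `C`-linear, the identity on `C`, of
  norm `≤ 0`, maps `PM v A G M` into `A` for all the closed fields `A₀ ≤ A ≤ C`, kills `M g`, if
  `g` is not a value of `A₀`;
* `exists_pi0`: the existence;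
* `Pi0.pow`: `π (x ^ p) = π x ^ p`, if the values of `A₀` are divisible by `p`;
* `down_sum`, `down_sum_mon`: coming down of sums.
-/

set_option autoImplicit false

open Polynomial

namespace Pool.Agent.TWS

open Pool.Agent.H15JM (RVal)
open Pool.Agent.LU1 (VPos adj)
open Pool.Agent.LUC (Cl clF)
open Pool.Agent.D2 (Ctx0)
open Pool.Agent.D2P (hen clI mem_clI)
open Pool.Agent.TWM
open Pool.Agent.TWC (Tow clI_mono' clI_le' pcl mem_pcl)

universe u

variable {k Ω : Type u} [Field k] [Field Ω] [Algebra k Ω] {v : RVal Ω}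
  {A₀ A B C : IntermediateField k Ω} {G : AddSubgroup ℝ} {M : ℝ → Ω}

/-- `a` is the component of degree `0` of `x`. -/
def IsP0 (v : RVal Ω) (A₀ C : IntermediateField k Ω) (G : AddSubgroup ℝ) (M : ℝ → Ω)
    (x a : Ω) : Prop :=
  ∀ (L : ℝ →₀ Ω) (b : ℝ), NF v A₀ C G L → v.Ge b (x - evM M L) →
    v.Ge b (a - L (rep v A₀ G 0) * M (rep v A₀ G 0))

theorem rep0_mem : rep v A₀ G 0 ∈ G ⊓ VG v A₀ := by
  have := rep_sub (v := v) (A₀ := A₀) (G := G) 0
  rwa [sub_zero] at this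

theorem exists_P0 (hΩ : CompleteV v) (hM : MonG v A₀ G M) (hi : Imm v A₀ C) (hC : Cld v C)
    {x : Ω} (hx : x ∈ PM v C G M) : ∃ a ∈ C, IsP0 v A₀ C G M x a := by
  set r := rep v A₀ G 0 with hr
  have hr1 : r ∈ G ⊓ VG v A₀ := rep0_mem
  have hrM : M r ∈ C := hi.le (hM.mem r hr1.1 hr1.2)
  have hdif : ∀ (L L' : ℝ →₀ Ω) (b : ℝ), NF v A₀ C G L → NF v A₀ C G L' →
      v.Ge b (evM M L - evM M L') → v.Ge b (L r * M r - L' r * M r) := by
    intro L L' b hL hL' h
    have h1 : NF v A₀ C G (L + (-1 : Ω) • L') := hL.add (hL'.smul (neg_mem (one_mem _)))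
    have h2 : evM M (L + (-1 : Ω) • L') = evM M L - evM M L' := by
      rw [evM_add, evM_smul]
      ring
    have h3 := orth hM hi h1 (by rw [h2]; exact h) r
    rw [Finsupp.add_apply, Finsupp.smul_apply, smul_eq_mul] at h3
    have e : L r * M r - L' r * M r = (L r + -1 * L' r) * M r := by ring
    rwa [e]
  choose L hL hxL using fun n : ℕ => dense_PM hM hi hx (n : ℝ)
  obtain ⟨a, ha⟩ := hΩ (fun n => L n r * M r) fun c => by
    obtain ⟨N, hN⟩ := exists_nat_ge c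
    refine ⟨N, fun m n hm hn' => hdif _ _ _ (hL m) (hL n) ?_⟩
    have e : evM M (L m) - evM M (L n) = (x - evM M (L n)) - (x - evM M (L m)) := by ring
    rw [e]
    refine RVal.Ge.sub ?_ ?_
    · exact (hxL n).mono (hN.trans (by exact_mod_cast hn'))
    · exact (hxL m).mono (hN.trans (by exact_mod_cast hm))
  refine ⟨a, hC (mem_clI.2 fun b => ?_), fun L' b hL' hb => ?_⟩
  · obtain ⟨N, hN⟩ := ha b
    exact ⟨L N r * M r, mul_mem ((hL N).mem r) hrM, hN N le_rfl⟩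
  · obtain ⟨N, hN⟩ := ha b
    obtain ⟨N', hN'⟩ := exists_nat_ge b
    set n := max N N' with hn'
    have e : a - L' r * M r = (a - L n r * M r) + (L n r * M r - L' r * M r) := by ring
    rw [e]
    refine (hN n (le_max_left _ _)).add (hdif _ _ _ (hL n) hL' ?_)
    have e2 : evM M (L n) - evM M L' = (x - evM M L') - (x - evM M (L n)) := by ring
    rw [e2]
    refine hb.sub ((hxL n).mono (hN'.trans ?_))
    exact_mod_cast le_max_right N N'

theorem IsP0.uniq (hM : MonG v A₀ G M) (hi : Imm v A₀ C) {x a a' : Ω} (hx : x ∈ PM v C G M)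
    (h : IsP0 v A₀ C G M x a) (h' : IsP0 v A₀ C G M x a') : a = a' := by
  rw [← sub_eq_zero]
  refine TWC.eq_zero_of_ge (v := v) fun b => ?_
  obtain ⟨L, hL, hb⟩ := dense_PM hM hi hx b
  have := (h L b hL hb).sub (h' L b hL hb)
  rwa [sub_sub_sub_cancel_right] at this

theorem IsP0.add (hM : MonG v A₀ G M) (hi : Imm v A₀ C) {x y a a' : Ω} (hx : x ∈ PM v C G M)
    (h : IsP0 v A₀ C G M x a) (h' : IsP0 v A₀ C G M y a') :
    IsP0 v A₀ C G M (x + y) (a + a') := by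
  intro L b hL hb
  obtain ⟨L₁, hL₁, h1⟩ := dense_PM hM hi hx b
  have h2 := h L₁ b hL₁ h1
  have hN : NF v A₀ C G (L + (-1 : Ω) • L₁) := hL.add (hL₁.smul (neg_mem (one_mem _)))
  have h3 := h' (L + (-1 : Ω) • L₁) b hN (by
    have e : y - evM M (L + (-1 : Ω) • L₁) = (x + y - evM M L) - (x - evM M L₁) := by
      rw [evM_add, evM_smul]
      ring
    rw [e]
    exact hb.sub h1)
  rw [Finsupp.add_apply, Finsupp.smul_apply, smul_eq_mul] at h3
  have e : a + a' - L (rep v A₀ G 0) * M (rep v A₀ G 0) =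
      (a - L₁ (rep v A₀ G 0) * M (rep v A₀ G 0)) +
        (a' - (L (rep v A₀ G 0) + -1 * L₁ (rep v A₀ G 0)) * M (rep v A₀ G 0)) := by ring
  rw [e]
  exact h2.add h3

theorem IsP0.cmul (hM : MonG v A₀ G M) (hi : Imm v A₀ C) {c x a : Ω} (hc : c ∈ C)
    (h : IsP0 v A₀ C G M x a) : IsP0 v A₀ C G M (c * x) (c * a) := by
  intro L b hL hb
  by_cases hc0 : c = 0
  · rw [hc0, zero_mul, zero_sub] at hb ⊢
    have h1 := orth hM hi (hL.smul (neg_mem (one_mem C))) (b := b) (by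
      rw [evM_smul, neg_one_mul]
      exact hb) (rep v A₀ G 0)
    rw [Finsupp.smul_apply, smul_eq_mul, neg_one_mul, neg_mul] at h1
    exact h1
  have h1 := h (c⁻¹ • L) (b - v c) (hL.smul (inv_mem hc)) (by
    have e : x - evM M (c⁻¹ • L) = c⁻¹ * (c * x - evM M L) := by
      rw [evM_smul]
      field_simp
    rw [e]
    have h2 := (RVal.ge_self (v := v) c⁻¹).mul hb
    rw [v.map_inv hc0] at h2
    refine h2.mono ?_
    linarith)
  rw [Finsupp.smul_apply, smul_eq_mul] at h1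
  have h3 := (RVal.ge_self (v := v) c).mul h1
  have e : c * (a - c⁻¹ * L (rep v A₀ G 0) * M (rep v A₀ G 0)) =
      c * a - L (rep v A₀ G 0) * M (rep v A₀ G 0) := by
    field_simp
  rw [e] at h3
  refine h3.mono ?_
  linarith

theorem IsP0.ge {x a : Ω} {b : ℝ} (h : IsP0 v A₀ C G M x a) (hb : v.Ge b x) : v.Ge b a := by
  have h1 := h 0 b NF.zero (by rwa [evM_zero, sub_zero])
  rwa [Finsupp.zero_apply, zero_mul, sub_zero] at h1

/-- The component of a sum. -/
theorem IsP0.of_nf (hM : MonG v A₀ G M) (hi : Imm v A₀ C) {L : ℝ →₀ Ω} (hL : NF v A₀ C G L) :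
    IsP0 v A₀ C G M (evM M L) (L (rep v A₀ G 0) * M (rep v A₀ G 0)) := by
  intro L' b hL' hb
  have h1 : NF v A₀ C G (L + (-1 : Ω) • L') := hL.add (hL'.smul (neg_mem (one_mem _)))
  have h2 : evM M (L + (-1 : Ω) • L') = evM M L - evM M L' := by
    rw [evM_add, evM_smul]
    ring
  have h3 := orth hM hi h1 (by rw [h2]; exact hb) (rep v A₀ G 0)
  rw [Finsupp.add_apply, Finsupp.smul_apply, smul_eq_mul] at h3
  have e : L (rep v A₀ G 0) * M (rep v A₀ G 0) - L' (rep v A₀ G 0) * M (rep v A₀ G 0) =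
      (L (rep v A₀ G 0) + -1 * L' (rep v A₀ G 0)) * M (rep v A₀ G 0) := by ring
  rwa [e]

theorem IsP0.self (hM : MonG v A₀ G M) (hi : Imm v A₀ C) {c : Ω} (hc : c ∈ C) :
    IsP0 v A₀ C G M c c := by
  have hr1 : rep v A₀ G 0 ∈ G ⊓ VG v A₀ := rep0_mem
  have hrM : M (rep v A₀ G 0) ∈ C := hi.le (hM.mem _ hr1.1 hr1.2)
  have hr0 := hM.ms.ne _ hr1.1
  have hN : NF v A₀ C G (Finsupp.single (rep v A₀ G 0) (c * (M (rep v A₀ G 0))⁻¹)) := by
    refine ⟨fun g => ?_, fun g hg => ?_⟩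
    · rw [Finsupp.single_apply]
      split_ifs
      · exact mul_mem hc (inv_mem hrM)
      · exact zero_mem _
    · rw [Finsupp.single_apply] at hg
      split_ifs at hg with h3
      · rw [← h3]
        exact ⟨hr1.1, rep_rep 0⟩
      · exact absurd rfl hg
  have h1 := IsP0.of_nf hM hi hN
  rwa [evM_single, Finsupp.single_eq_same, inv_mul_cancel_right₀ hr0] at h1

theorem IsP0.mon (hM : MonG v A₀ G M) (hi : Imm v A₀ C) {g : ℝ} (hg : g ∈ G)
    (hgV : g ∉ VG v A₀) : IsP0 v A₀ C G M (M g) 0 := by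
  have h1 := rep_sub (v := v) (A₀ := A₀) (G := G) g
  have h2 : g - rep v A₀ G g ∈ G ⊓ VG v A₀ := by
    have := (G ⊓ VG v A₀).neg_mem h1
    rwa [neg_sub] at this
  have hr := rep_mem (v := v) (A₀ := A₀) hg
  have hN : NF v A₀ C G (Finsupp.single (rep v A₀ G g) (M (g - rep v A₀ G g))) := by
    refine ⟨fun i => ?_, fun i hi => ?_⟩
    · rw [Finsupp.single_apply]
      split_ifs
      · exact hi.le (hM.mem _ h2.1 h2.2)
      · exact zero_mem _
    · rw [Finsupp.single_apply] at hi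
      split_ifs at hi with h3
      · rw [← h3]
        exact ⟨hr, rep_rep g⟩
      · exact absurd rfl hi
  have h3 := IsP0.of_nf hM hi hN
  rw [evM_single, ← hM.ms.mul _ h2.1 _ hr, sub_add_cancel] at h3
  have hne : rep v A₀ G g ≠ rep v A₀ G 0 := by
    intro h4
    refine hgV ?_
    have h5 : rep v A₀ G 0 ∈ G ⊓ VG v A₀ := rep0_mem
    have h6 := (G ⊓ VG v A₀).add_mem h2 (h4 ▸ h5)
    rw [sub_add_cancel] at h6
    exact h6.2
  rwa [Finsupp.single_apply, if_neg hne, zero_mul] at h3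

theorem IsP0.mem (hM : MonG v A₀ G M) (hA : Imm v A₀ A) (hAC : A ≤ C) (hcl : Cld v A)
    {x a : Ω} (hx : x ∈ PM v A G M) (h : IsP0 v A₀ C G M x a) : a ∈ A := by
  refine hcl (mem_clI.2 fun b => ?_)
  obtain ⟨L, hL, hb⟩ := dense_PM hM hA hx b
  have hr1 : rep v A₀ G 0 ∈ G ⊓ VG v A₀ := rep0_mem
  exact ⟨_, mul_mem (hL.mem _) (hA.le (hM.mem _ hr1.1 hr1.2)), h L b (hL.mono hAC) hb⟩

theorem IsP0.sum (hM : MonG v A₀ G M) (hi : Imm v A₀ C) {ι : Type*} (T : Finset ι)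
    (x a : ι → Ω) (hx : ∀ i ∈ T, x i ∈ PM v C G M) (h : ∀ i ∈ T, IsP0 v A₀ C G M (x i) (a i)) :
    IsP0 v A₀ C G M (∑ i ∈ T, x i) (∑ i ∈ T, a i) := by
  classical
  induction T using Finset.induction_on with
  | empty =>
    rw [Finset.sum_empty, Finset.sum_empty]
    exact IsP0.self hM hi (zero_mem _)
  | insert i T hiT ih =>
    rw [Finset.sum_insert hiT, Finset.sum_insert hiT]
    exact IsP0.add hM hi (hx i (Finset.mem_insert_self _ _))
      (h i (Finset.mem_insert_self _ _))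
      (ih (fun j hj => hx j (Finset.mem_insert_of_mem hj))
        fun j hj => h j (Finset.mem_insert_of_mem hj))

/-- The component of the `p`-th power. -/
theorem IsP0.pow (p : ℕ) [hp : Fact p.Prime] [CharP Ω p] (hM : MonG v A₀ G M)
    (hi : Imm v A₀ C) (hV : ∀ g ∈ VG v A₀, g / p ∈ VG v A₀) {x a : Ω} (hx : x ∈ PM v C G M)
    (h : IsP0 v A₀ C G M x a) : IsP0 v A₀ C G M (x ^ p) (a ^ p) := by
  classical
  have hp0 : (p : ℝ) ≠ 0 := by exact_mod_cast hp.out.ne_zero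
  have hp1 : (0 : ℝ) < p := by exact_mod_cast hp.out.pos
  set r := rep v A₀ G 0 with hr
  have hr1 : r ∈ G ⊓ VG v A₀ := rep0_mem
  have hrM : M r ∈ C := hi.le (hM.mem _ hr1.1 hr1.2)
  have key : ∀ L : ℝ →₀ Ω, NF v A₀ C G L → IsP0 v A₀ C G M ((evM M L) ^ p) ((L r * M r) ^ p) := by
    intro L hL
    have h1 : (evM M L) ^ p = ∑ g ∈ insert r L.support, (L g * M g) ^ p := by
      rw [evM, Finsupp.sum, sum_pow_char]
      refine Finset.sum_subset (Finset.subset_insert _ _) fun g _ hg => ?_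
      rw [Finsupp.notMem_support_iff.1 hg, zero_mul, zero_pow hp.out.ne_zero]
    have h2 : (L r * M r) ^ p = ∑ g ∈ insert r L.support, if g = r then (L r * M r) ^ p else 0 := by
      rw [Finset.sum_ite_eq', if_pos (Finset.mem_insert_self _ _)]
    rw [h1, h2]
    have hmemG : ∀ g ∈ insert r L.support, g ∈ G := by
      intro g hg
      rcases Finset.mem_insert.1 hg with rfl | hg
      · exact hr1.1
      · exact (hL.rep g (Finsupp.mem_support_iff.1 hg)).1
    refine IsP0.sum hM hi _ _ _ (fun g hg => ?_) fun g hg => ?_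
    · exact pow_mem (mul_mem (PM.le (hL.mem g)) (PM.mon (hmemG g hg))) p
    · by_cases hgr : g = r
      · rw [if_pos hgr, hgr]
        exact IsP0.self hM hi (pow_mem (mul_mem (hL.mem r) hrM) p)
      · rw [if_neg hgr]
        by_cases hg0 : L g = 0
        · rw [hg0, zero_mul, zero_pow hp.out.ne_zero]
          exact IsP0.self hM hi (zero_mem _)
        have hgG := hmemG g hg
        have hpg : (p : ℝ) * g ∈ G := by
          rw [← nsmul_eq_mul]
          exact G.nsmul_mem hgG p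
        rw [mul_pow, ← hM.ms.pow hgG p]
        have h3 := IsP0.cmul hM hi (pow_mem (hL.mem g) p) (IsP0.mon hM hi hpg fun h4 => hgr (by
          have h5 := hV _ h4
          rw [mul_div_cancel_left₀ _ hp0] at h5
          have h6 : rep v A₀ G g = r := rep_congr (by rw [sub_zero]; exact ⟨hgG, h5⟩)
          rwa [(hL.rep g hg0).2] at h6))
        rwa [mul_zero] at h3
  intro L' b hL' hb
  obtain ⟨L, hL, h1⟩ := dense_PM hM hi hx (b / p)
  have h2 : v.Ge b (x ^ p - evM M L ^ p) := by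
    rw [← sub_pow_char]
    have := ge_pow h1 p
    rwa [mul_div_cancel₀ _ hp0] at this
  have h3 := key L hL L' b hL' (by
    have e : evM M L ^ p - evM M L' = (x ^ p - evM M L') - (x ^ p - evM M L ^ p) := by ring
    rw [e]
    exact hb.sub h2)
  have h4 : v.Ge b (a ^ p - (L r * M r) ^ p) := by
    rw [← sub_pow_char]
    have := ge_pow (h L (b / p) hL h1) p
    rwa [mul_div_cancel₀ _ hp0] at this
  have e : a ^ p - L' r * M r = (a ^ p - (L r * M r) ^ p) + ((L r * M r) ^ p - L' r * M r) := by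
    ring
  rw [e]
  exact h4.add h3

/-- The projection on the component of degree `0`. -/
structure Pi0 (v : RVal Ω) (A₀ C : IntermediateField k Ω) (G : AddSubgroup ℝ) (M : ℝ → Ω)
    (π : PM v C G M →ₗ[k] Ω) : Prop where
  mem : ∀ x, π x ∈ C
  self : ∀ (c : Ω) (hc : c ∈ C), π ⟨c, PM.le hc⟩ = c
  lin : ∀ (c : Ω) (hc : c ∈ C) (x : PM v C G M), π (⟨c, PM.le hc⟩ * x) = c * π x
  norm : ∀ (x : PM v C G M) (b : ℝ), v.Ge b (x : Ω) → v.Ge b (π x)
  sub : ∀ A : IntermediateField k Ω, Imm v A₀ A → A ≤ C → Cld v A → ∀ x : PM v C G M,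
    (x : Ω) ∈ PM v A G M → π x ∈ A
  mon : ∀ (g : ℝ) (hg : g ∈ G), g ∉ VG v A₀ → π ⟨M g, PM.mon hg⟩ = 0
  nf : ∀ (L : ℝ →₀ Ω), NF v A₀ C G L → ∀ (x : PM v C G M), (x : Ω) = evM M L →
    π x = L (rep v A₀ G 0) * M (rep v A₀ G 0)
  pow : ∀ (p : ℕ) [Fact p.Prime] [CharP Ω p], (∀ g ∈ VG v A₀, g / p ∈ VG v A₀) →
    ∀ x, π (x ^ p) = π x ^ p

theorem exists_pi0 (hΩ : CompleteV v) (hM : MonG v A₀ G M) (hi : Imm v A₀ C) (hC : Cld v C) :
    ∃ π : PM v C G M →ₗ[k] Ω, Pi0 v A₀ C G M π := by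
  choose f hfC hf using fun x : PM v C G M => exists_P0 hΩ hM hi hC x.2
  have huq : ∀ (x : PM v C G M) (a : Ω), IsP0 v A₀ C G M x a → f x = a := fun x a ha =>
    (hf x).uniq hM hi x.2 ha
  let π : PM v C G M →ₗ[k] Ω :=
    { toFun := f
      map_add' := fun x y => huq _ _ ((hf x).add hM hi x.2 (hf y))
      map_smul' := fun c x => by
        refine huq _ _ ?_
        have h1 := (hf x).cmul hM hi (C.algebraMap_mem c)
        have e : ((c • x : PM v C G M) : Ω) = algebraMap k Ω c * x := by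
          rw [← Algebra.smul_def]
          rfl
        have e2 : (RingHom.id k) c • f x = algebraMap k Ω c * f x := by
          rw [RingHom.id_apply, Algebra.smul_def]
        rw [e, e2]
        exact h1 }
  refine ⟨π, ⟨hfC, fun c hc => huq _ _ (IsP0.self hM hi hc), fun c hc x =>
    huq _ _ ((hf x).cmul hM hi hc), fun x b hb => (hf x).ge hb, fun A hA hAC hcl x hx =>
    (hf x).mem hM hA hAC hcl hx, fun g hg hgV => huq _ _ (IsP0.mon hM hi hg hgV),
    fun L hL x hx => huq _ _ (by rw [hx]; exact IsP0.of_nf hM hi hL), fun p hp hc hV x => ?_⟩⟩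
  exact huq _ _ ((hf x).pow p hM hi hV x.2)

/-- **Coming down of sums.** -/
theorem down_sum (hΩ : CompleteV v) (hM : MonG v A₀ G M) (hi : Imm v A₀ C) (hC : Cld v C)
    (hA : Imm v A₀ A) (hAC : A ≤ C) (hAc : Cld v A) (hB : Imm v A₀ B) (hBC : B ≤ C)
    (hBc : Cld v B) {z x y : Ω} {b : ℝ} (hz : z ∈ C) (hx : x ∈ PM v A G M)
    (hy : y ∈ PM v B G M) (h : v.Ge b (z - x - y)) : ∃ a ∈ A, ∃ b' ∈ B, v.Ge b (z - a - b') := by
  obtain ⟨π, hπ⟩ := exists_pi0 hΩ hM hi hC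
  have hxC : x ∈ PM v C G M := PM.mono hAC hx
  have hyC : y ∈ PM v C G M := PM.mono hBC hy
  refine ⟨π ⟨x, hxC⟩, hπ.sub A hA hAC hAc _ hx, π ⟨y, hyC⟩, hπ.sub B hB hBC hBc _ hy, ?_⟩
  have h1 := hπ.norm (⟨z, PM.le hz⟩ - ⟨x, hxC⟩ - ⟨y, hyC⟩) b h
  rwa [map_sub, map_sub, hπ.self z hz] at h1

/-- The same, with a monomial. -/
theorem down_sum_mon (hΩ : CompleteV v) (hM : MonG v A₀ G M) (hi : Imm v A₀ C) (hC : Cld v C)
    (hA : Imm v A₀ A) (hAC : A ≤ C) (hAc : Cld v A) (hB : Imm v A₀ B) (hBC : B ≤ C)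
    (hBc : Cld v B) {z x y : Ω} {b g : ℝ} (hg : g ∈ G) (hz : z ∈ C) (hx : x ∈ PM v A G M)
    (hy : y ∈ PM v B G M) (h : v.Ge b (z * M g - x - y)) :
    ∃ a ∈ A, ∃ b' ∈ B, v.Ge (b - g) (z - a - b') := by
  have hg' := G.neg_mem hg
  have h0 := hM.ms.ne g hg
  refine down_sum hΩ hM hi hC hA hAC hAc hB hBC hBc hz (mul_mem hx (PM.mon hg'))
    (mul_mem hy (PM.mon hg')) ?_
  have e : z - x * M (-g) - y * M (-g) = (z * M g - x - y) * M (-g) := by
    rw [hM.ms.neg hg]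
    field_simp
  rw [e]
  have := h.mul (RVal.ge_self (v := v) (M (-g)))
  rwa [hM.ms.val _ hg', ← sub_eq_add_neg] at this

end Pool.Agent.TWS
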