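import Pool.Agent.Lib.TWS.MonF
import Pool.Agent.Lib.TWC.DescDefs
import Pool.Agent.Lib.TWC.Exch

/-!
# TANK W, row R6, part G: homogeneous generators

* `PiH`: the component of degree `h`;
* `Fil`: the filtration by the degree in `Fr` of the classes spanned by the `z ^ p ^ i`;
* `homog_step`: `z` of type `TL` and of radius `0` over `PM v A G M`, all its components spanned by
  the `z ^ p ^ i`: then `z` is homogeneous modulo `PM v A G M + O(≥ 0)`.
-/

set_option autoImplicit false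

open Polynomial

namespace Pool.Agent.TWS

open Pool.Agent.H15JM (RVal)
open Pool.Agent.LU1 (VPos adj)
open Pool.Agent.LUC (Cl clF)
open Pool.Agent.D2 (Ctx0)
open Pool.Agent.D2P (hen clI mem_clI)
open Pool.Agent.TWM
open Pool.Agent.TWC (Tow clI_mono' clI_le' pcl mem_pcl Spn)

universe u

variable {k Ω : Type u} [Field k] [Field Ω] [Algebra k Ω] {v : RVal Ω}
  {A₀ A B C L : IntermediateField k Ω} {G : AddSubgroup ℝ} {M : ℝ → Ω}

/-! ### The components -/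

/-- The component of degree `h`. -/
structure PiH (v : RVal Ω) (A₀ C : IntermediateField k Ω) (G : AddSubgroup ℝ) (M : ℝ → Ω) (h : ℝ)
    (P : PM v C G M →ₗ[k] Ω) : Prop where
  norm : ∀ (x : PM v C G M) (b : ℝ), v.Ge b (x : Ω) → v.Ge b (P x)
  mon : ∀ (f : Ω) (hf : f ∈ C) (g : ℝ) (hg : g ∈ G), g - h ∈ VG v A₀ →
    P ⟨f * M g, mul_mem (PM.le hf) (PM.mon hg)⟩ = f * M g
  mon0 : ∀ (f : Ω) (hf : f ∈ C) (g : ℝ) (hg : g ∈ G), g - h ∉ VG v A₀ →
    P ⟨f * M g, mul_mem (PM.le hf) (PM.mon hg)⟩ = 0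
  sub : ∀ A : IntermediateField k Ω, Imm v A₀ A → A ≤ C → Cld v A → ∀ x : PM v C G M,
    (x : Ω) ∈ PM v A G M → ∃ f ∈ A, P x = f * M h
  sub' : ∀ (A : IntermediateField k Ω) (G' : AddSubgroup ℝ), G' ≤ G → MonG v A G' M → A ≤ C →
    Cld v A → (∀ g ∈ G', g ∈ VG v A₀ → g ∈ VG v A) → h ∈ G' → ∀ x : PM v C G M,
      (x : Ω) ∈ PM v A G' M → ∃ f ∈ A, P x = f * M h

theorem exists_piH (hΩ : CompleteV v) (hM : MonG v A₀ G M) (hi : Imm v A₀ C) (hC : Cld v C)
    {h : ℝ} (hh : h ∈ G) : ∃ P : PM v C G M →ₗ[k] Ω, PiH v A₀ C G M h P := by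
  obtain ⟨π, hπ⟩ := exists_pi0 hΩ hM hi hC
  have hh' := G.neg_mem hh
  have hMh := hM.ms.ne h hh
  have hvh := hM.ms.val h hh
  let P : PM v C G M →ₗ[k] Ω := (LinearMap.mulLeft k (M h)).comp
    (π.comp (LinearMap.mulRight k (⟨M (-h), PM.mon hh'⟩ : PM v C G M)))
  have hP : ∀ x : PM v C G M, P x = M h * π (x * ⟨M (-h), PM.mon hh'⟩) := fun x => rfl
  refine ⟨P, ⟨fun x b hb => ?_, fun f hf g hg hgh => ?_, fun f hf g hg hgh => ?_,
    fun A hA hAC hcl x hx => ?_, fun A G' hG hA hAC hcl hV hhG x hx => ?_⟩⟩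
  · rw [hP]
    have h1 : v.Ge (b - h) ((x * ⟨M (-h), PM.mon hh'⟩ : PM v C G M) : Ω) := by
      have h2 := hb.mul (RVal.ge_self (v := v) (M (-h)))
      rwa [hM.ms.val _ hh', ← sub_eq_add_neg] at h2
    have h3 := (RVal.ge_self (v := v) (M h)).mul (hπ.norm _ _ h1)
    rwa [hvh, add_sub_cancel] at h3
  · rw [hP]
    have hgG : g - h ∈ G := G.sub_mem hg hh
    have hMC : M (g - h) ∈ C := hi.le (hM.mem _ hgG hgh)
    have e : (⟨f * M g, mul_mem (PM.le hf) (PM.mon hg)⟩ * ⟨M (-h), PM.mon hh'⟩ : PM v C G M) =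
        ⟨f * M (g - h), PM.le (mul_mem hf hMC)⟩ := by
      refine Subtype.ext ?_
      change f * M g * M (-h) = f * M (g - h)
      rw [sub_eq_add_neg, hM.ms.mul _ hg _ hh', mul_assoc]
    rw [e, hπ.self _ (mul_mem hf hMC)]
    have e2 : M (g - h) * M h = M g := by
      rw [← hM.ms.mul _ hgG _ hh, sub_add_cancel]
    rw [mul_comm, mul_assoc, e2]
  · rw [hP]
    have hgG : g - h ∈ G := G.sub_mem hg hh
    have e : (⟨f * M g, mul_mem (PM.le hf) (PM.mon hg)⟩ * ⟨M (-h), PM.mon hh'⟩ : PM v C G M) =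
        ⟨f, PM.le hf⟩ * ⟨M (g - h), PM.mon hgG⟩ := by
      refine Subtype.ext ?_
      change f * M g * M (-h) = f * M (g - h)
      rw [sub_eq_add_neg, hM.ms.mul _ hg _ hh', mul_assoc]
    rw [e, hπ.lin _ hf, hπ.mon _ hgG hgh, mul_zero, mul_zero]
  · refine ⟨π (x * ⟨M (-h), PM.mon hh'⟩), hπ.sub A hA hAC hcl _ (mul_mem hx (PM.mon hh')), ?_⟩
    rw [hP, mul_comm]
  · refine ⟨π (x * ⟨M (-h), PM.mon hh'⟩),
      hπ.sub' hG hA hAC hcl hV _ (mul_mem hx (PM.mon (G'.neg_mem hhG))), ?_⟩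
    rw [hP, mul_comm]

/-! ### The filtration -/

/-- `A + O(≥ 0)` -/
def N0 (h0 : Ctx0 k v) (A : IntermediateField k Ω) : Submodule k Ω where
  carrier := {x | Nr v A 0 x}
  add_mem' := by
    rintro x y ⟨a, ha, h1⟩ ⟨b, hb, h2⟩
    exact ⟨a + b, add_mem ha hb, by rw [add_sub_add_comm]; exact h1.add h2⟩
  zero_mem' := ⟨0, zero_mem _, by rw [sub_zero]; exact RVal.Ge.zero⟩
  smul_mem' := by
    rintro c x ⟨a, ha, h1⟩
    refine ⟨algebraMap k Ω c * a, mul_mem (A.algebraMap_mem c) ha, ?_⟩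
    rw [Algebra.smul_def, ← mul_sub]
    have := (h0.ge c).mul h1
    rwa [zero_add] at this

theorem mem_N0 {h0 : Ctx0 k v} {x : Ω} : x ∈ N0 h0 A ↔ Nr v A 0 x := Iff.rfl

variable (p : ℕ) [hp : Fact p.Prime] [CharP Ω p]

/-- The classes spanned by `z, z ^ p, .., z ^ p ^ (m - 1)`. -/
noncomputable def Fil (h0 : Ctx0 k v) (A : IntermediateField k Ω) (z : Ω) : ℕ → Submodule k Ω
  | 0 => N0 h0 A
  | m + 1 => Fil h0 A z m ⊔ Submodule.span k {z ^ p ^ m}

variable {h0 : Ctx0 k v} {z : Ω}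

omit hp [CharP Ω p] in
theorem Fil.succ (m : ℕ) : Fil p h0 A z (m + 1) =
    Fil p h0 A z m ⊔ Submodule.span k {z ^ p ^ m} := rfl

omit hp [CharP Ω p] in
theorem Fil.le_succ (m : ℕ) : Fil p h0 A z m ≤ Fil p h0 A z (m + 1) := le_sup_left

omit hp [CharP Ω p] in
theorem Fil.mono : Monotone (Fil p h0 A z) := monotone_nat_of_le_succ (Fil.le_succ p)

omit hp [CharP Ω p] in
theorem Fil.self (m : ℕ) : z ^ p ^ m ∈ Fil p h0 A z (m + 1) :=
  (le_sup_right : Submodule.span k {z ^ p ^ m} ≤ _) (Submodule.mem_span_singleton_self _)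

omit hp [CharP Ω p] in
theorem Fil.exists {m : ℕ} {x : Ω} (hx : x ∈ Fil p h0 A z (m + 1)) :
    ∃ (c : k) (y : Ω), y ∈ Fil p h0 A z m ∧ x = y + c • z ^ p ^ m := by
  obtain ⟨y, hy, w, hw, rfl⟩ := Submodule.mem_sup.1 hx
  obtain ⟨c, rfl⟩ := Submodule.mem_span_singleton.1 hw
  exact ⟨c, y, hy, rfl⟩

theorem N0.pow {x : Ω} (hx : x ∈ N0 h0 A) : x ^ p ∈ N0 h0 A := by
  obtain ⟨a, ha, h1⟩ := hx
  refine ⟨a ^ p, pow_mem ha p, ?_⟩
  rw [← sub_pow_char]
  have := ge_pow h1 p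
  rwa [mul_zero] at this

theorem Fil.pow {m : ℕ} {x : Ω} (hx : x ∈ Fil p h0 A z m) : x ^ p ∈ Fil p h0 A z (m + 1) := by
  induction m generalizing x with
  | zero => exact Fil.le_succ p 0 (N0.pow p hx)
  | succ m ih =>
    obtain ⟨c, y, hy, rfl⟩ := Fil.exists p hx
    have e : (y + c • z ^ p ^ m) ^ p = y ^ p + c ^ p • z ^ p ^ (m + 1) := by
      rw [add_pow_char, _root_.smul_pow, ← pow_mul, ← pow_succ]
    rw [e]
    exact add_mem (Fil.le_succ p _ (ih hy)) (Submodule.smul_mem _ _ (Fil.self p (m + 1)))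

theorem Fil.pow_pow {m : ℕ} {x : Ω} (hx : x ∈ Fil p h0 A z m) (i : ℕ) :
    x ^ p ^ i ∈ Fil p h0 A z (m + i) := by
  induction i with
  | zero => rwa [pow_zero, pow_one, add_zero]
  | succ i ih =>
    rw [pow_succ, pow_mul, ← add_assoc]
    exact Fil.pow p ih

omit [CharP Ω p] in
/-- The polynomial. -/
theorem Fil.exists_poly (m : ℕ) {x : Ω} (hx : x ∈ Fil p h0 A z m) :
    ∃ f ∈ PI A, f.natDegree < p ^ m ∧ v.Ge 0 (x - f.eval z) := by
  have hp1 := hp.out.one_lt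
  induction m generalizing x with
  | zero =>
    obtain ⟨a, ha, h1⟩ := hx
    exact ⟨C a, C_mem_PI ha, by rw [natDegree_C, pow_zero]; exact one_pos, by rwa [eval_C]⟩
  | succ m ih =>
    obtain ⟨c, y, hy, rfl⟩ := Fil.exists p hx
    obtain ⟨f, hf, hd, h1⟩ := ih hy
    have hlt : p ^ m < p ^ (m + 1) := Nat.pow_lt_pow_right hp1 (Nat.lt_succ_self m)
    refine ⟨f + C (algebraMap k Ω c) * X ^ p ^ m, add_mem hf (mul_mem (C_mem_PI
      (A.algebraMap_mem c)) (pow_mem X_mem_PI _)), ?_, ?_⟩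
    · refine (natDegree_add_le _ _).trans_lt (max_lt (hd.trans hlt) ?_)
      exact (natDegree_C_mul_X_pow_le _ _).trans_lt hlt
    · rw [eval_add, eval_mul, eval_C, eval_pow, eval_X, Algebra.smul_def]
      rwa [add_sub_add_right_eq_sub]

variable [IsAlgClosed Ω]

omit [CharP Ω p] in
/-- Freeness. -/
theorem Fil.not_mem (hz : TL v A z 0) (m : ℕ) : z ^ p ^ m ∉ Fil p h0 A z m := by
  intro h
  obtain ⟨f, hf, hd, h1⟩ := Fil.exists_poly p m h
  set F : Polynomial Ω := X ^ p ^ m - f with hF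
  have hFP : F ∈ PI A := sub_mem (pow_mem X_mem_PI _) hf
  have hmo : F.Monic := by
    refine monic_X_pow_sub ?_
    rw [degree_lt_iff_coeff_zero]
    intro n hn
    exact coeff_eq_zero_of_natDegree_lt (hd.trans_le hn)
  have hdeg : F.natDegree = p ^ m := by
    rw [hF, natDegree_sub_eq_left_of_natDegree_lt (by rwa [natDegree_X_pow]), natDegree_X_pow]
  have h2 := hz.strict (PI_le (le_algc A) hFP) hmo.ne_zero (l := p ^ m)
    (Nat.one_le_pow _ _ hp.out.pos)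
  have h3 : (taylor z F).coeff (p ^ m) = 1 := by
    have h4 : (taylor z F).coeff F.natDegree = F.coeff F.natDegree := coeff_taylor_natDegree z F
    rw [hdeg] at h4
    rw [h4, ← hdeg]
    exact hmo
  rw [h3, mul_zero, sub_zero] at h2
  have h5 := h2 one_ne_zero
  rw [v.map_one] at h5
  have h6 : F.eval z ≠ 0 := hz.eval_ne (PI_le (le_algc A) hFP) hmo.ne_zero
  have h7 : F.eval z = z ^ p ^ m - f.eval z := by
    rw [hF, eval_sub, eval_pow, eval_X]
  rw [← h7] at h1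
  have := h1 h6
  linarith

theorem Fil.pow_not_mem (hz : TL v A z 0) {m : ℕ} {x : Ω} (hx : x ∈ Fil p h0 A z (m + 1))
    (hx' : x ∉ Fil p h0 A z m) : x ^ p ∉ Fil p h0 A z (m + 1) := by
  intro h
  obtain ⟨c, y, hy, rfl⟩ := Fil.exists p hx
  have hc : c ≠ 0 := by
    rintro rfl
    rw [zero_smul, add_zero] at hx'
    exact hx' hy
  have e : (y + c • z ^ p ^ m) ^ p = y ^ p + c ^ p • z ^ p ^ (m + 1) := by
    rw [add_pow_char, _root_.smul_pow, ← pow_mul, ← pow_succ]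
  rw [e] at h
  have h1 : c ^ p • z ^ p ^ (m + 1) ∈ Fil p h0 A z (m + 1) := by
    have := sub_mem h (Fil.pow p hy)
    rwa [add_sub_cancel_left] at this
  refine Fil.not_mem p (h0 := h0) hz (m + 1) ?_
  have := Submodule.smul_mem _ (c ^ p)⁻¹ h1
  rwa [smul_smul, inv_mul_cancel₀ (pow_ne_zero _ hc), one_smul] at this

theorem Fil.pow_pow_not_mem (hz : TL v A z 0) {m : ℕ} {x : Ω} (hx : x ∈ Fil p h0 A z (m + 1))
    (hx' : x ∉ Fil p h0 A z m) (i : ℕ) : x ^ p ^ i ∉ Fil p h0 A z (m + i) := by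
  induction i with
  | zero => rwa [pow_zero, pow_one, add_zero]
  | succ i ih =>
    rw [pow_succ, pow_mul, ← add_assoc]
    refine Fil.pow_not_mem p hz ?_ ih
    have := Fil.pow_pow p hx i
    rwa [add_right_comm] at this

omit hp [CharP Ω p] [IsAlgClosed Ω] in
/-- The dimension. -/
theorem Fil.finrank (m : ℕ) : FiniteDimensional k ((Fil p h0 A z m).map (N0 h0 A).mkQ) ∧
    Module.finrank k ((Fil p h0 A z m).map (N0 h0 A).mkQ) ≤ m := by
  induction m with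
  | zero =>
    have h1 : (Fil p h0 A z 0).map (N0 h0 A).mkQ = ⊥ := by
      change (N0 h0 A).map (N0 h0 A).mkQ = ⊥
      rw [eq_bot_iff, Submodule.map_le_iff_le_comap]
      intro x hx
      rw [Submodule.mem_comap, Submodule.mkQ_apply, Submodule.mem_bot,
        Submodule.Quotient.mk_eq_zero]
      exact hx
    rw [h1]
    exact ⟨inferInstance, by rw [finrank_bot]⟩
  | succ m ih =>
    obtain ⟨h1, h2⟩ := ih
    rw [Fil.succ, Submodule.map_sup, Submodule.map_span, Set.image_singleton]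
    have h3 : FiniteDimensional k (Submodule.span k {(N0 h0 A).mkQ (z ^ p ^ m)}) :=
      inferInstance
    refine ⟨inferInstance, ?_⟩
    refine (Submodule.finrank_add_le_finrank_add_finrank _ _).trans (Nat.add_le_add h2 ?_)
    refine finrank_le_one (⟨(N0 h0 A).mkQ (z ^ p ^ m), Submodule.mem_span_singleton_self _⟩ :
      Submodule.span k {(N0 h0 A).mkQ (z ^ p ^ m)}) ?_
    rintro ⟨w, hw⟩
    obtain ⟨c, hc⟩ := Submodule.mem_span_singleton.1 hw
    exact ⟨c, Subtype.ext hc⟩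

omit [IsAlgClosed Ω] in
/-- The relation. -/
theorem Fil.rel {n : ℕ} {x w : Ω} (hx : x ∈ Fil p h0 A z (n + 1)) (hw : w ∈ Fil p h0 A z (n + 1)) :
    ∃ a b : Fin (n + 1) → k, (a, b) ≠ 0 ∧
      ∑ i, a i • x ^ p ^ (i : ℕ) - ∑ i, b i • w ^ p ^ (i : ℕ) ∈ N0 h0 A := by
  obtain ⟨h1, h2⟩ := Fil.finrank p (h0 := h0) (A := A) (z := z) (2 * n + 1)
  let f : ((Fin (n + 1) → k) × (Fin (n + 1) → k)) →ₗ[k] Ω :=
    { toFun := fun q => ∑ i, q.1 i • x ^ p ^ (i : ℕ) - ∑ i, q.2 i • w ^ p ^ (i : ℕ)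
      map_add' := fun q q' => by
        simp only [Prod.fst_add, Prod.snd_add, Pi.add_apply, add_smul, Finset.sum_add_distrib]
        abel
      map_smul' := fun c q => by
        simp only [Prod.smul_fst, Prod.smul_snd, Pi.smul_apply, smul_eq_mul, mul_smul,
          ← Finset.smul_sum, RingHom.id_apply, smul_sub] }
  have hmem : ∀ {y : Ω}, y ∈ Fil p h0 A z (n + 1) → ∀ i : Fin (n + 1),
      y ^ p ^ (i : ℕ) ∈ Fil p h0 A z (2 * n + 1) := fun hy i =>
    Fil.mono p (by have := i.2; omega) (Fil.pow_pow p hy i)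
  have hf : ∀ q, f q ∈ Fil p h0 A z (2 * n + 1) := fun q =>
    sub_mem (sum_mem fun i _ => Submodule.smul_mem _ _ (hmem hx i))
      (sum_mem fun i _ => Submodule.smul_mem _ _ (hmem hw i))
  let f' : ((Fin (n + 1) → k) × (Fin (n + 1) → k)) →ₗ[k]
      ((Fil p h0 A z (2 * n + 1)).map (N0 h0 A).mkQ) :=
    ((N0 h0 A).mkQ.comp f).codRestrict _ fun q => ⟨f q, hf q, rfl⟩
  have h3 : LinearMap.ker f' ≠ ⊥ := by
    refine LinearMap.ker_ne_bot_of_finrank_lt ?_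
    refine h2.trans_lt ?_
    rw [Module.finrank_prod, Module.finrank_fin_fun]
    omega
  obtain ⟨q, hq, hq0⟩ := Submodule.exists_mem_ne_zero_of_ne_bot h3
  refine ⟨q.1, q.2, hq0, ?_⟩
  have h4 : (N0 h0 A).mkQ (f q) = 0 := congrArg Subtype.val (LinearMap.mem_ker.1 hq)
  rwa [Submodule.mkQ_apply, Submodule.Quotient.mk_eq_zero] at h4

/-- **Components of different degrees have different degrees in `Fr`.** -/
theorem deg_inj (hM : MonG v A₀ G M) (hΩ : CompleteV v) (hi : Imm v A₀ C) (hC : Cld v C)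
    (hA : Imm v A₀ A) (hAC : A ≤ C) (hAc : Cld v A)
    (hV : ∀ g ∈ G, (p : ℝ) * g ∈ VG v A₀ → g ∈ VG v A₀) (hz : TL v (PM v A G M) z 0) {n : ℕ}
    {f f' g g' : _} (hf : f ∈ C) (hf' : f' ∈ C) (hg : g ∈ G) (hg' : g' ∈ G)
    (hx : f * M g ∈ Fil p h0 (PM v A G M) z (n + 1)) (hx' : f * M g ∉ Fil p h0 (PM v A G M) z n)
    (hw : f' * M g' ∈ Fil p h0 (PM v A G M) z (n + 1))
    (hw' : f' * M g' ∉ Fil p h0 (PM v A G M) z n) : g - g' ∈ VG v A₀ := by
  classical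
  by_contra hno
  obtain ⟨a, b, hab, hrel⟩ := Fil.rel p hx hw
  set x := f * M g with hxd
  set w := f' * M g' with hwd
  -- the last index
  set S : Finset (Fin (n + 1)) := Finset.univ.filter fun i => a i ≠ 0 ∨ b i ≠ 0 with hS
  have hSne : S.Nonempty := by
    by_contra h1
    rw [Finset.not_nonempty_iff_eq_empty] at h1
    refine hab (Prod.ext (funext fun i => ?_) (funext fun i => ?_))
    · by_contra h2
      have : i ∈ S := Finset.mem_filter.2 ⟨Finset.mem_univ _, Or.inl h2⟩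
      rw [h1] at this
      exact absurd this (Finset.notMem_empty _)
    · by_contra h2
      have : i ∈ S := Finset.mem_filter.2 ⟨Finset.mem_univ _, Or.inr h2⟩
      rw [h1] at this
      exact absurd this (Finset.notMem_empty _)
  set N := S.max' hSne with hN
  have hNS : N ∈ S := Finset.max'_mem _ _
  have hgt : ∀ i : Fin (n + 1), N < i → a i = 0 ∧ b i = 0 := by
    intro i hi
    by_contra h1
    rw [not_and_or] at h1
    have : i ∈ S := Finset.mem_filter.2 ⟨Finset.mem_univ _, h1⟩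
    exact absurd (Finset.le_max' _ _ this) (not_le.2 hi)
  have hsm : ∀ i : Fin (n + 1), i ≠ N → a i • x ^ p ^ (i : ℕ) ∈
      Fil p h0 (PM v A G M) z (n + N) ∧ b i • w ^ p ^ (i : ℕ) ∈
      Fil p h0 (PM v A G M) z (n + N) := by
    intro i hi
    rcases lt_or_gt_of_ne hi with h1 | h1
    · have h2 : n + 1 + (i : ℕ) ≤ n + N := by
        have : (i : ℕ) < N := h1
        omega
      exact ⟨Submodule.smul_mem _ _ (Fil.mono p h2 (Fil.pow_pow p hx i)),
        Submodule.smul_mem _ _ (Fil.mono p h2 (Fil.pow_pow p hw i))⟩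
    · obtain ⟨h2, h3⟩ := hgt i h1
      rw [h2, h3, zero_smul, zero_smul]
      exact ⟨zero_mem _, zero_mem _⟩
  have hxN := Fil.pow_pow_not_mem p hz hx hx' N
  have hwN := Fil.pow_pow_not_mem p hz hw hw' N
  have hcancel : ∀ {c : k} {y : Ω}, c ≠ 0 → c • y ∈ Fil p h0 (PM v A G M) z (n + N) →
      y ∈ Fil p h0 (PM v A G M) z (n + N) := by
    intro c y hc hy
    have := Submodule.smul_mem _ c⁻¹ hy
    rwa [smul_smul, inv_mul_cancel₀ hc, one_smul] at this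
  have hsplit : ∑ i, a i • x ^ p ^ (i : ℕ) - ∑ i, b i • w ^ p ^ (i : ℕ) =
      (a N • x ^ p ^ (N : ℕ) - b N • w ^ p ^ (N : ℕ)) +
        (∑ i ∈ Finset.univ.erase N, a i • x ^ p ^ (i : ℕ) -
          ∑ i ∈ Finset.univ.erase N, b i • w ^ p ^ (i : ℕ)) := by
    rw [← Finset.add_sum_erase _ _ (Finset.mem_univ N), ← Finset.add_sum_erase (Finset.univ)
      (fun i => b i • w ^ p ^ (i : ℕ)) (Finset.mem_univ N)]
    ring
  have hrest : ∑ i ∈ Finset.univ.erase N, a i • x ^ p ^ (i : ℕ) -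
      ∑ i ∈ Finset.univ.erase N, b i • w ^ p ^ (i : ℕ) ∈ Fil p h0 (PM v A G M) z (n + N) :=
    sub_mem (sum_mem fun i hi => (hsm i (Finset.ne_of_mem_erase hi)).1)
      (sum_mem fun i hi => (hsm i (Finset.ne_of_mem_erase hi)).2)
  have htop : a N • x ^ p ^ (N : ℕ) - b N • w ^ p ^ (N : ℕ) ∈
      Fil p h0 (PM v A G M) z (n + N) := by
    have h1 : ∑ i, a i • x ^ p ^ (i : ℕ) - ∑ i, b i • w ^ p ^ (i : ℕ) ∈
        Fil p h0 (PM v A G M) z (n + N) := Fil.mono p (Nat.zero_le _) hrel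
    rw [hsplit] at h1
    have := sub_mem h1 hrest
    rwa [add_sub_cancel_right] at this
  have haN : a N ≠ 0 := by
    intro h1
    have hbN : b N ≠ 0 := ((Finset.mem_filter.1 hNS).2.resolve_left fun h => h h1)
    rw [h1, zero_smul, zero_sub] at htop
    exact hwN (hcancel hbN (by simpa using neg_mem htop))
  -- the component
  have hpg : ∀ (i : ℕ) {t : ℝ}, t ∈ G → (p : ℝ) ^ i * t ∈ G := by
    intro i t ht
    have := G.nsmul_mem ht (p ^ i)
    rwa [nsmul_eq_mul, Nat.cast_pow] at this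
  have hVi : ∀ (i : ℕ) {t : ℝ}, t ∈ G → (p : ℝ) ^ i * t ∈ VG v A₀ → t ∈ VG v A₀ := by
    intro i
    induction i with
    | zero =>
      intro t _ h1
      rwa [pow_zero, one_mul] at h1
    | succ i ih =>
      intro t ht h1
      rw [pow_succ', mul_assoc] at h1
      exact ih ht (hV _ (hpg i ht) h1)
  have hxi : ∀ i : ℕ, x ^ p ^ i = f ^ p ^ i * M ((p : ℝ) ^ i * g) := by
    intro i
    rw [hxd, mul_pow, ← hM.ms.pow hg (p ^ i)]
    push_cast
    rfl
  have hwi : ∀ i : ℕ, w ^ p ^ i = f' ^ p ^ i * M ((p : ℝ) ^ i * g') := by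
    intro i
    rw [hwd, mul_pow, ← hM.ms.pow hg' (p ^ i)]
    push_cast
    rfl
  obtain ⟨P, hP⟩ := exists_piH hΩ hM hi hC (hpg N hg)
  have hxC : ∀ i : ℕ, x ^ p ^ i ∈ PM v C G M := fun i => pow_mem
    (mul_mem (PM.le hf) (PM.mon hg)) _
  have hwC : ∀ i : ℕ, w ^ p ^ i ∈ PM v C G M := fun i => pow_mem
    (mul_mem (PM.le hf') (PM.mon hg')) _
  have hPx : ∀ i : ℕ, P ⟨x ^ p ^ i, hxC i⟩ = x ^ p ^ i ∨ P ⟨x ^ p ^ i, hxC i⟩ = 0 := by
    intro i
    have e : (⟨x ^ p ^ i, hxC i⟩ : PM v C G M) = ⟨f ^ p ^ i * M ((p : ℝ) ^ i * g),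
        mul_mem (PM.le (pow_mem hf _)) (PM.mon (hpg i hg))⟩ := Subtype.ext (hxi i)
    by_cases h1 : (p : ℝ) ^ i * g - (p : ℝ) ^ (N : ℕ) * g ∈ VG v A₀
    · left
      rw [e, hP.mon _ (pow_mem hf _) _ (hpg i hg) h1, hxi]
    · right
      rw [e, hP.mon0 _ (pow_mem hf _) _ (hpg i hg) h1]
  have hPw : ∀ i : ℕ, P ⟨w ^ p ^ i, hwC i⟩ = w ^ p ^ i ∨ P ⟨w ^ p ^ i, hwC i⟩ = 0 := by
    intro i
    have e : (⟨w ^ p ^ i, hwC i⟩ : PM v C G M) = ⟨f' ^ p ^ i * M ((p : ℝ) ^ i * g'),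
        mul_mem (PM.le (pow_mem hf' _)) (PM.mon (hpg i hg'))⟩ := Subtype.ext (hwi i)
    by_cases h1 : (p : ℝ) ^ i * g' - (p : ℝ) ^ (N : ℕ) * g ∈ VG v A₀
    · left
      rw [e, hP.mon _ (pow_mem hf' _) _ (hpg i hg') h1, hwi]
    · right
      rw [e, hP.mon0 _ (pow_mem hf' _) _ (hpg i hg') h1]
  have hPxN : P ⟨x ^ p ^ (N : ℕ), hxC N⟩ = x ^ p ^ (N : ℕ) := by
    have e : (⟨x ^ p ^ (N : ℕ), hxC N⟩ : PM v C G M) = ⟨f ^ p ^ (N : ℕ) * M ((p : ℝ) ^ (N : ℕ) * g),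
        mul_mem (PM.le (pow_mem hf _)) (PM.mon (hpg N hg))⟩ := Subtype.ext (hxi N)
    rw [e, hP.mon _ (pow_mem hf _) _ (hpg N hg) (by rw [sub_self]; exact zero_mem _), hxi]
  have hPwN : P ⟨w ^ p ^ (N : ℕ), hwC N⟩ = 0 := by
    have e : (⟨w ^ p ^ (N : ℕ), hwC N⟩ : PM v C G M) =
        ⟨f' ^ p ^ (N : ℕ) * M ((p : ℝ) ^ (N : ℕ) * g'),
        mul_mem (PM.le (pow_mem hf' _)) (PM.mon (hpg N hg'))⟩ := Subtype.ext (hwi N)
    rw [e, hP.mon0 _ (pow_mem hf' _) _ (hpg N hg')]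
    intro h1
    rw [← mul_sub] at h1
    have h2 := hVi N (G.sub_mem hg' hg) h1
    have h3 := (VG v A₀).neg_mem h2
    rw [neg_sub] at h3
    exact hno h3
  -- the components of the elements of `N0`
  have hPN0 : ∀ y : PM v C G M, (y : Ω) ∈ N0 h0 (PM v A G M) → P y ∈ N0 h0 (PM v A G M) := by
    rintro y ⟨c, hc, h1⟩
    have hcC : c ∈ PM v C G M := PM.mono hAC hc
    obtain ⟨f₁, hf₁, h2⟩ := hP.sub A hA hAC hAc ⟨c, hcC⟩ hc
    refine ⟨P ⟨c, hcC⟩, ?_, ?_⟩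
    · rw [h2]
      exact mul_mem (PM.le hf₁) (PM.mon (hpg N hg))
    · rw [← map_sub]
      exact hP.norm _ _ h1
  set Y : PM v C G M := ∑ i, a i • (⟨x ^ p ^ (i : ℕ), hxC i⟩ : PM v C G M) -
    ∑ i, b i • (⟨w ^ p ^ (i : ℕ), hwC i⟩ : PM v C G M) with hY
  have hYv : (Y : Ω) = ∑ i, a i • x ^ p ^ (i : ℕ) - ∑ i, b i • w ^ p ^ (i : ℕ) := by
    change (PM v C G M).val Y = _
    rw [hY, map_sub, map_sum, map_sum]
    rfl
  have hPY := hPN0 Y (by rw [hYv]; exact hrel)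
  rw [hY, map_sub, map_sum, map_sum] at hPY
  simp only [map_smul] at hPY
  rw [← Finset.add_sum_erase _ _ (Finset.mem_univ N), ← Finset.add_sum_erase (Finset.univ)
      (fun i : Fin (n + 1) => b i • P ⟨w ^ p ^ (i : ℕ), hwC i⟩) (Finset.mem_univ N), hPxN, hPwN,
      smul_zero, zero_add] at hPY
  have h5 : ∑ i ∈ Finset.univ.erase N, a i • P ⟨x ^ p ^ (i : ℕ), hxC i⟩ ∈
      Fil p h0 (PM v A G M) z (n + N) := by
    refine sum_mem fun i hi => ?_
    rcases hPx i with h1 | h1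
    · rw [h1]
      exact (hsm i (Finset.ne_of_mem_erase hi)).1
    · rw [h1, smul_zero]
      exact zero_mem _
  have h6 : ∑ i ∈ Finset.univ.erase N, b i • P ⟨w ^ p ^ (i : ℕ), hwC i⟩ ∈
      Fil p h0 (PM v A G M) z (n + N) := by
    refine sum_mem fun i hi => ?_
    rcases hPw i with h1 | h1
    · rw [h1]
      exact (hsm i (Finset.ne_of_mem_erase hi)).2
    · rw [h1, smul_zero]
      exact zero_mem _
  have h7 : a N • x ^ p ^ (N : ℕ) ∈ Fil p h0 (PM v A G M) z (n + N) := by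
    have h8 : _ ∈ Fil p h0 (PM v A G M) z (n + N) := Fil.mono p (Nat.zero_le _) hPY
    have h9 := sub_mem (add_mem h8 h6) h5
    have e : ∀ s t r : Ω, s + t - r + r - t = s := fun s t r => by ring
    rwa [e] at h9
  exact hxN (hcancel haN h7)

/-- **A sum of homogeneous elements in the span of `z`.** -/
theorem homog_of_sum (hM : MonG v A₀ G M) (hΩ : CompleteV v) (hi : Imm v A₀ C) (hC : Cld v C)
    (hA : Imm v A₀ A) (hAC : A ≤ C) (hAc : Cld v A)
    (hV : ∀ g ∈ G, (p : ℝ) * g ∈ VG v A₀ → g ∈ VG v A₀) (hz : TL v (PM v A G M) z 0)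
    {T : Finset ℝ} (f : ℝ → Ω) (hTG : ∀ g ∈ T, g ∈ G)
    (hT : ∀ g ∈ T, ∀ g' ∈ T, g - g' ∈ VG v A₀ → g = g') (hf : ∀ g ∈ T, f g ∈ C)
    (hfF : ∀ g ∈ T, ∃ m, f g * M g ∈ Fil p h0 (PM v A G M) z m)
    (hsum : z - ∑ g ∈ T, f g * M g ∈ N0 h0 (PM v A G M)) :
    ∃ g ∈ T, z - f g * M g ∈ N0 h0 (PM v A G M) := by
  classical
  set F := Fil p h0 (PM v A G M) z with hF
  set T' := T.filter fun g => f g * M g ∉ F 0 with hT'
  have hTT : ∀ g ∈ T', g ∈ T := fun g hg => (Finset.mem_filter.1 hg).1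
  have hn : ∀ g ∈ T', ∃ n, f g * M g ∈ F (n + 1) ∧ f g * M g ∉ F n := by
    intro g hg
    have h1 := hfF g (hTT g hg)
    have h2 := Nat.find_spec h1
    have h3 : Nat.find h1 ≠ 0 := by
      intro h4
      rw [h4] at h2
      exact (Finset.mem_filter.1 hg).2 h2
    obtain ⟨n, hn⟩ := Nat.exists_eq_succ_of_ne_zero h3
    refine ⟨n, by rw [hn] at h2; exact h2, fun h4 => ?_⟩
    have := Nat.find_min' h1 h4
    omega
  choose! n hn1 hn2 using hn
  have hz0 : z ∉ F 0 := by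
    have := Fil.not_mem p (h0 := h0) hz 0
    rwa [pow_zero, pow_one] at this
  have hz1 : z ∈ F 1 := by
    have := Fil.self p (h0 := h0) (A := PM v A G M) (z := z) 0
    rwa [pow_zero, pow_one] at this
  -- the rest
  have hrest : z - ∑ g ∈ T', f g * M g ∈ F 0 := by
    have h1 : ∑ g ∈ T, f g * M g = ∑ g ∈ T', f g * M g + ∑ g ∈ T.filter (fun g => f g * M g ∈ F 0),
        f g * M g := by
      rw [add_comm, hT', Finset.sum_filter_add_sum_filter_not]
    have h2 : ∑ g ∈ T.filter (fun g => f g * M g ∈ F 0), f g * M g ∈ F 0 :=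
      sum_mem fun g hg => (Finset.mem_filter.1 hg).2
    have h3 : z - ∑ g ∈ T, f g * M g ∈ F 0 := hsum
    rw [h1] at h3
    have := add_mem h3 h2
    rwa [sub_add_eq_sub_sub, sub_add_cancel] at this
  have hne : T'.Nonempty := by
    by_contra h1
    rw [Finset.not_nonempty_iff_eq_empty] at h1
    rw [h1, Finset.sum_empty, sub_zero] at hrest
    exact hz0 hrest
  obtain ⟨g₀, hg₀, hmax⟩ := Finset.exists_max_image T' n hne
  have hlt : ∀ g ∈ T', g ≠ g₀ → n g < n g₀ := by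
    intro g hg hgg
    refine lt_of_le_of_ne (hmax g hg) fun h1 => hgg ?_
    refine hT g (hTT g hg) g₀ (hTT g₀ hg₀) ?_
    have h2 := hn1 g hg
    have h3 := hn2 g hg
    rw [h1] at h2 h3
    exact deg_inj p hM hΩ hi hC hA hAC hAc hV hz (hf g (hTT g hg)) (hf g₀ (hTT g₀ hg₀))
      (hTG g (hTT g hg)) (hTG g₀ (hTT g₀ hg₀)) h2 h3 (hn1 g₀ hg₀) (hn2 g₀ hg₀)
  have hsplit : ∑ g ∈ T', f g * M g = f g₀ * M g₀ + ∑ g ∈ T'.erase g₀, f g * M g :=
    (Finset.add_sum_erase _ _ hg₀).symm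
  have hn0 : n g₀ = 0 := by
    by_contra h1
    have h2 : ∑ g ∈ T'.erase g₀, f g * M g ∈ F (n g₀) := sum_mem fun g hg =>
      Fil.mono p (hlt g (Finset.mem_of_mem_erase hg) (Finset.ne_of_mem_erase hg))
        (hn1 g (Finset.mem_of_mem_erase hg))
    have h3 : z ∈ F (n g₀) := Fil.mono p (Nat.one_le_iff_ne_zero.2 h1) hz1
    have h4 : z - ∑ g ∈ T', f g * M g ∈ F (n g₀) := Fil.mono p (Nat.zero_le _) hrest
    rw [hsplit] at h4
    refine hn2 g₀ hg₀ ?_
    have h5 := sub_mem (sub_mem h3 h4) h2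
    have e : ∀ a b c : Ω, a - (a - (b + c)) - c = b := fun a b c => by ring
    rwa [e] at h5
  have hT1 : T'.erase g₀ = ∅ := by
    rw [Finset.eq_empty_iff_forall_notMem]
    intro g hg
    have := hlt g (Finset.mem_of_mem_erase hg) (Finset.ne_of_mem_erase hg)
    omega
  rw [hsplit, hT1, Finset.sum_empty, add_zero] at hrest
  exact ⟨g₀, hTT g₀ hg₀, hrest⟩

omit [IsAlgClosed Ω] hp [CharP Ω p] in
theorem spn_fil {y x : Ω} (h : Spn p v A y x) : ∃ m, x ∈ Fil p h0 A y m := by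
  obtain ⟨n, c, h1⟩ := h
  refine ⟨n, ?_⟩
  have h2 : ∑ i ∈ Finset.range n, algebraMap k Ω (c i) * y ^ p ^ i ∈ Fil p h0 A y n := by
    refine sum_mem fun i hi => ?_
    rw [← Algebra.smul_def]
    exact Submodule.smul_mem _ _ (Fil.mono p (Finset.mem_range.1 hi) (Fil.self p i))
  have h3 : x - ∑ i ∈ Finset.range n, algebraMap k Ω (c i) * y ^ p ^ i ∈ Fil p h0 A y n :=
    Fil.mono p (Nat.zero_le _) (mem_N0.2 h1)
  have := add_mem h3 h2
  rwa [sub_add_cancel] at this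

/-- **HOMOGENEOUS GENERATORS.** `u` in the field of `L` with the monomials, `TL` of radius `0` over
the field of `A` with the monomials; the elements of `L⁺` which are limits of `A⁺` are in the span
of `u`. Then `u` is homogeneous modulo `A⁺ + O(> 0)`. -/
theorem homog_step (h0 : Ctx0 k v) (hM : MonG v A₀ G M) (hΩ : CompleteV v) (hi : Imm v A₀ C)
    (hC : Cld v C) (hA : Imm v A₀ A) (hAC : A ≤ C) (hAc : Cld v A)
    (hV : ∀ g ∈ G, (p : ℝ) * g ∈ VG v A₀ → g ∈ VG v A₀)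
    (hL : MonG v L G M) (hLC : L ≤ C) (hLc : Cld v L)
    (hVL : ∀ g ∈ G, g ∈ VG v A₀ → g ∈ VG v L) {u : Ω} (hu : u ∈ PM v L G M)
    (ht : TL v (PM v A G M) u 0)
    (hS : ∀ x ∈ PM v L G M, Lim v (PM v A G M) 0 x → Spn p v (PM v A G M) u x) :
    ∃ f ∈ L, ∃ g ∈ G, Nr' v (PM v A G M) 0 (u - f * M g) ∧ TL v (PM v A G M) (f * M g) 0 ∧
      TL v A f (-g) := by
  classical
  have huC : u ∈ PM v C G M := PM.mono hLC hu
  obtain ⟨N, hN, h1⟩ := dense_PM hM hi huC 0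
  have hTG : ∀ g ∈ N.support, g ∈ G := fun g hg => hN.mem_G hg
  choose! P hP using fun g hg => exists_piH hΩ hM hi hC (hTG g hg)
  have hPL : ∀ g ∈ N.support, ∃ f ∈ L, P g ⟨u, huC⟩ = f * M g := fun g hg =>
    (hP g hg).sub' L G le_rfl hL hLC hLc hVL (hTG g hg) _ hu
  choose! f hfL hfP using hPL
  -- the components of the sum
  have hT : ∀ g ∈ N.support, ∀ g' ∈ N.support, g - g' ∈ VG v A₀ → g = g' := by
    intro g hg g' hg' h2
    have h3 : rep v A₀ G g = rep v A₀ G g' := rep_congr ⟨G.sub_mem (hTG g hg) (hTG g' hg'), h2⟩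
    rwa [(hN.rep g (Finsupp.mem_support_iff.1 hg)).2,
      (hN.rep g' (Finsupp.mem_support_iff.1 hg')).2] at h3
  have hNC : evM M N ∈ PM v C G M := evM_mem_PM hN
  have hPN : ∀ g ∈ N.support, P g ⟨evM M N, hNC⟩ = N g * M g := by
    intro g hg
    have e : (⟨evM M N, hNC⟩ : PM v C G M) = ∑ g' ∈ N.support.attach,
        (⟨N g' * M g', mul_mem (PM.le (hN.mem g')) (PM.mon (hTG g' g'.2))⟩ : PM v C G M) := by
      refine Subtype.ext ?_
      change evM M N = (PM v C G M).val (∑ g' ∈ N.support.attach, _)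
      rw [map_sum]
      change evM M N = ∑ g' ∈ N.support.attach, N g' * M g'
      rw [Finset.sum_attach N.support fun g => N g * M g]
      rfl
    rw [e, map_sum, Finset.sum_eq_single (⟨g, hg⟩ : N.support)]
    · exact (hP g hg).mon _ (hN.mem g) _ (hTG g hg) (by rw [sub_self]; exact zero_mem _)
    · intro g' _ hgg
      refine (hP g hg).mon0 _ (hN.mem g') _ (hTG g' g'.2) fun h2 => hgg ?_
      exact Subtype.ext (hT g' g'.2 g hg h2)
    · exact fun h2 => absurd (Finset.mem_attach _ _) h2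
  have hcomp : ∀ g ∈ N.support, v.Ge 0 (f g * M g - N g * M g) := by
    intro g hg
    rw [← hfP g hg, ← hPN g hg, ← map_sub]
    exact (hP g hg).norm _ _ h1
  -- the limits
  have hlim : ∀ g ∈ N.support, Lim v (PM v A G M) 0 (f g * M g) := by
    intro g hg ε hε
    obtain ⟨a, ha, h2⟩ := ht.lim ε hε
    obtain ⟨f₁, hf₁, h3⟩ := (hP g hg).sub A hA hAC hAc ⟨a, PM.mono hAC ha⟩ ha
    refine ⟨f₁ * M g, mul_mem (PM.le hf₁) (PM.mon (hTG g hg)), ?_⟩
    rw [← hfP g hg, ← h3, ← map_sub]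
    exact (hP g hg).norm _ _ h2
  obtain ⟨g, hg, h2⟩ := homog_of_sum p (h0 := h0) hM hΩ hi hC hA hAC hAc hV ht (T := N.support) f
    hTG hT (fun g hg => hLC (hfL g hg)) (fun g hg => spn_fil p (hS _ (mul_mem (PM.le (hfL g hg))
      (PM.mon (hTG g hg))) (hlim g hg))) (by
    refine mem_N0.2 ⟨0, zero_mem _, ?_⟩
    rw [sub_zero]
    have e : u - ∑ g ∈ N.support, f g * M g = (u - evM M N) -
        ∑ g ∈ N.support, (f g * M g - N g * M g) := by
      rw [Finset.sum_sub_distrib]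
      change _ = (u - evM M N) - (_ - evM M N)
      ring
    rw [e]
    exact h1.sub (RVal.Ge.sum _ _ fun g hg => hcomp g hg))
  obtain ⟨a, ha, h3⟩ := h2
  -- the residue
  obtain ⟨c, hc⟩ := h0.residue h3
  have h4 : Gt v 0 (u - f g * M g - (a + algebraMap k Ω c)) := by
    rw [← sub_sub]
    exact hc
  have hgG := hTG g hg
  have haA : a + algebraMap k Ω c ∈ PM v A G M := add_mem ha (IntermediateField.algebraMap_mem _ c)
  have h5 : TL v (PM v A G M) (f g * M g) 0 := by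
    have h6 : TL v (PM v A G M) (u - (a + algebraMap k Ω c)) 0 := by
      have h7 := TL.affine ht (one_mem _) one_ne_zero (neg_mem haA)
      rw [one_mul, v.map_one, zero_add, ← sub_eq_add_neg] at h7
      exact h7
    refine h6.congr ?_
    have e : f g * M g - (u - (a + algebraMap k Ω c)) =
        -(u - f g * M g - (a + algebraMap k Ω c)) := by ring
    rw [e]
    exact h4.neg
  refine ⟨f g, hfL g hg, g, hgG, ⟨_, haA, h4⟩, h5, ?_, ?_⟩
  · have h6 := (lim_mon hM hA hi hAC (hLC (hfL g hg)) (s := 0) hgG).1 h5.lim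
    rwa [zero_sub] at h6
  · intro θ hθ
    have hMg := hM.ms.ne g hgG
    have h6 : IsAlgebraic (PM v A G M) (θ * M g) := by
      have h7 : IsAlgebraic (PM v A G M) θ := D2P.isAlgebraic_mono PM.le hθ
      exact h7.mul (isAlgebraic_algebraMap (⟨M g, PM.mon hgG⟩ : PM v A G M))
    obtain ⟨h8, h9⟩ := h5.far _ h6
    have h10 : f g - θ ≠ 0 := by
      intro h11
      rw [sub_eq_zero] at h11
      exact h8 (by rw [h11])
    refine ⟨fun h11 => h10 (sub_eq_zero.2 h11), ?_⟩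
    rw [← sub_mul, v.map_mul h10 hMg, hM.ms.val g hgG] at h9
    linarith

/-- The same with a tower on top. -/
theorem homog_tow (h0 : Ctx0 k v) (hM : MonG v A₀ G M) (hΩ : CompleteV v) (hi : Imm v A₀ C)
    (hC : Cld v C) (hA : Imm v A₀ A) (hAC : A ≤ C) (hAc : Cld v A)
    (hV : ∀ g ∈ G, (p : ℝ) * g ∈ VG v A₀ → g ∈ VG v A₀)
    (hL : MonG v L G M) (hLC : L ≤ C) (hLc : Cld v L)
    (hVL : ∀ g ∈ G, g ∈ VG v A₀ → g ∈ VG v L) {u : Ω} (hu : u ∈ PM v L G M)
    (ht : TL v (PM v A G M) u 0)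
    (hS : ∀ x ∈ PM v L G M, Lim v (PM v A G M) 0 x → Spn p v (PM v A G M) u x)
    {n : ℕ} {D : IntermediateField k Ω} (hLD : PM v L G M ≤ D)
    (hT : Tow v n (TWM.cadj v (PM v A G M) u) D) :
    ∃ f ∈ L, ∃ s : ℝ, TL v A f s ∧ Tow v n (PM v (TWM.cadj v A f) G M) D := by
  obtain ⟨f, hf, g, hg, ⟨a, ha, h1⟩, h2, h3⟩ := homog_step p h0 hM hΩ hi hC hA hAC hAc hV hL hLC
    hLc hVL hu ht hS
  refine ⟨f, hf, -g, h3, ?_⟩
  have hMg := hM.ms.ne g hg
  have e1 : PM v (TWM.cadj v A f) G M = TWM.cadj v (PM v A G M) (f * M g) := by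
    rw [PM.cadj]
    have := cadj_affine (v := v) (A := PM v A G M) (z := f) (PM.mon hg) hMg (zero_mem _)
    rw [add_zero, mul_comm] at this
    exact this.symm
  have e2 : TWM.cadj v (PM v A G M) (u - a) = TWM.cadj v (PM v A G M) u := by
    have := cadj_affine (v := v) (A := PM v A G M) (z := u) (one_mem _) one_ne_zero (neg_mem ha)
    rwa [one_mul, ← sub_eq_add_neg] at this
  have h4 : TL v (PM v A G M) (u - a) 0 := by
    have h7 := TL.affine ht (one_mem _) one_ne_zero (neg_mem ha)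
    rwa [one_mul, v.map_one, zero_add, ← sub_eq_add_neg] at h7
  rw [e1]
  refine TWC.Tow.exch PM.cld h4 (by rwa [e2]) (hLD (mul_mem (PM.le hf) (PM.mon hg))) ?_
  have e3 : f * M g - (u - a) = -(u - f * M g - a) := by ring
  rw [e3]
  exact h1.neg

omit [IsAlgClosed Ω] in
/-- Equality of the fields with the monomials. -/
theorem PM.inj (hΩ : CompleteV v) (hM : MonG v A₀ G M) (hi : Imm v A₀ C) (hC : Cld v C)
    (hA : Imm v A₀ A) (hAC : A ≤ C) (hAc : Cld v A) (h : PM v C G M ≤ PM v A G M) : C ≤ A := by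
  intro x hx
  obtain ⟨π, hπ⟩ := exists_pi0 hΩ hM hi hC
  have h1 := hπ.sub A hA hAC hAc ⟨x, PM.le hx⟩ (h (PM.le hx))
  rwa [hπ.self x hx] at h1

end Pool.Agent.TWS
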