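import Pool.Agent.Lib.TWS.MonG
import Pool.Agent.Lib.TWC.Tower

/-!
# TANK W, row R6, part H: descent of a floor from the fields with the monomials

* `DescM`: the data: `Desc` for the fields with the monomials;
* `DescM.step`: one step of the descent, the generator is homogeneous: it comes from an element
  of `L`;
* `towR_two_of`: length two, from the actions on the two generators.
-/

set_option autoImplicit false

open Polynomial

namespace Pool.Agent.TWS

open Pool.Agent.H15JM (RVal)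
open Pool.Agent.LU1 (VPos adj)
open Pool.Agent.LUC (Cl clF)
open Pool.Agent.D2 (Ctx0)
open Pool.Agent.D2P (hen clI mem_clI)
open Pool.Agent.TWM
open Pool.Agent.TWC (Opr Tow clI_mono' clI_le' pcl mem_pcl Spn Desc Oper Nilp NSD IsExt fn_ge fn_mem)

universe u

variable {k Ω : Type u} [Field k] [Field Ω] [Algebra k Ω] {v : RVal Ω} [hk : Fact (Ctx0 k v)]
  {C P L LP N : IntermediateField k Ω} {G : AddSubgroup ℝ} {M : ℝ → Ω}
  {T : Submodule k (Opr v (PM v P G M))} {p : ℕ} [hp : Fact p.Prime] [CharP Ω p]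

/-- The data for the descent with monomials. -/
structure DescM (p : ℕ) (v : RVal Ω) [Fact (Ctx0 k v)] (C P L LP : IntermediateField k Ω)
    (G : AddSubgroup ℝ) (M : ℝ → Ω) (T : Submodule k (Opr v (PM v P G M))) : Prop where
  cpl : CompleteV v
  mc : MonG v C G M
  vc : ∀ g ∈ G, g ∈ VG v P → g ∈ VG v C
  cldC : Cld v C
  cldP : Cld v P
  perf : ∀ a ∈ P, ∃ b ∈ P, b ^ p = a
  CP : C ≤ P
  cldL : Cld v L
  CL : C ≤ L
  eq : LP = clI v (L ⊔ P)
  imm : Imm v P LP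
  desc : Desc v (PM v C G M) (PM v P G M) T (PM v L G M) (PM v LP G M)

omit hk [CharP Ω p] in
theorem rt_div (hP : ∀ a ∈ P, ∃ b ∈ P, b ^ p = a) {g : ℝ} (hg : (p : ℝ) * g ∈ VG v P) :
    g ∈ VG v P := by
  have hp0 : (p : ℝ) ≠ 0 := by exact_mod_cast hp.out.ne_zero
  obtain ⟨a, ha, h0, h1⟩ := hg
  obtain ⟨b, hb, rfl⟩ := hP a ha
  have hb0 : b ≠ 0 := by
    rintro rfl
    exact h0 (zero_pow hp.out.ne_zero)
  refine ⟨b, hb, hb0, ?_⟩
  rw [v.map_pow hb0] at h1
  exact mul_left_cancel₀ hp0 h1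

namespace DescM

variable (D : DescM p v C P L LP G M T)

omit hp [CharP Ω p]
include D

theorem LLP : L ≤ LP := by
  rw [D.eq]
  exact le_sup_left.trans (TWC.self_le_clI v _)

theorem PLP : P ≤ LP := D.imm.le

theorem cld : Cld v LP := by
  rw [D.eq]
  exact cld_clI v _

theorem mP : MonG v P G M := ⟨D.mc.ms, fun g hg h => D.CP (D.mc.mem g hg (D.vc g hg h))⟩

theorem mL : MonG v L G M := ⟨D.mc.ms, fun g hg h => D.CL (D.mc.mem g hg (D.vc g hg (by
  rw [← VG.imm D.imm]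
  exact VG.mono D.LLP h)))⟩

theorem vL : ∀ g ∈ G, g ∈ VG v P → g ∈ VG v L := fun g hg h => VG.mono D.CL (D.vc g hg h)

theorem immB (hNL : N ≤ L) : Imm v P (clI v (N ⊔ P)) := by
  refine ⟨le_sup_right.trans (TWC.self_le_clI v _), fun x hx h0 => D.imm.imm x ?_ h0⟩
  have h1 : clI v (N ⊔ P) ≤ LP := by
    rw [D.eq]
    exact clI_mono' (sup_le_sup_right hNL P)
  exact h1 hx

theorem BLP (hNL : N ≤ L) : clI v (N ⊔ P) ≤ LP := by
  rw [D.eq]
  exact clI_mono' (sup_le_sup_right hNL P)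

/-- The projection maps `N⁺` into `N`. -/
theorem limN (hN : Cld v N) (hiN : Imm v C N) (hNL : N ≤ L) {f : Ω} (hf : f ∈ LP) {g s : ℝ}
    (hg : g ∈ G) (h : Lim v (PM v N G M) s (f * M g)) : Lim v N (s - g) f := by
  obtain ⟨π, hπ⟩ := exists_pi0 D.cpl D.mP D.imm D.cld
  intro ε hε
  obtain ⟨c, hc, h1⟩ := h ε hε
  have hg' := G.neg_mem hg
  have hc' : c * M (-g) ∈ PM v N G M := mul_mem hc (PM.mon hg')
  have hc'' : c * M (-g) ∈ PM v LP G M := PM.mono (hNL.trans D.LLP) hc'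
  refine ⟨π ⟨_, hc''⟩, hπ.sub' le_rfl (D.mc.imm hiN) (hNL.trans D.LLP) hN
    (fun g hg h => VG.mono hiN.le (D.vc g hg h)) _ hc', ?_⟩
  have h2 := h1.mul (RVal.ge_self (v := v) (M (-g)))
  rw [D.mc.ms.val _ hg'] at h2
  have e : (f * M g - c) * M (-g) = f - c * M (-g) := by
    rw [D.mc.ms.neg hg, sub_mul, mul_assoc, mul_inv_cancel₀ (D.mc.ms.ne g hg), mul_one]
  rw [e] at h2
  have h3 := hπ.norm (⟨f, PM.le hf⟩ - ⟨_, hc''⟩) (s - g - ε) (h2.mono (by linarith))
  rwa [map_sub, hπ.self f hf] at h3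

/-- The elements of `N⁺` in `L` are in `N`. -/
theorem memN (hN : Cld v N) (hiN : Imm v C N) (hNL : N ≤ L) {l : Ω} (hl : l ∈ L)
    (h : l ∈ PM v N G M) : l ∈ N := by
  obtain ⟨π, hπ⟩ := exists_pi0 D.cpl D.mP D.imm D.cld
  have h1 := hπ.sub' le_rfl (D.mc.imm hiN) (hNL.trans D.LLP) hN
    (fun g hg h => VG.mono hiN.le (D.vc g hg h)) ⟨l, PM.le (D.LLP hl)⟩ h
  rwa [hπ.self l (D.LLP hl)] at h1

end DescM

variable [IsAlgClosed Ω]

omit hk hp [CharP Ω p] [IsAlgClosed Ω] in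
/-- `TL` without the monomial. -/
theorem tl_mon (hM : MonG v C G M) {N : IntermediateField k Ω} {f : Ω} {g : ℝ} (hg : g ∈ G)
    (h : TL v (PM v N G M) (f * M g) 0) (hl : Lim v N (-g) f) : TL v N f (-g) := by
  refine ⟨hl, fun θ hθ => ?_⟩
  have hMg := hM.ms.ne g hg
  have h6 : IsAlgebraic (PM v N G M) (θ * M g) :=
    (D2P.isAlgebraic_mono PM.le hθ).mul (isAlgebraic_algebraMap (⟨M g, PM.mon hg⟩ : PM v N G M))
  obtain ⟨h8, h9⟩ := h.far _ h6
  have h10 : f - θ ≠ 0 := by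
    intro h11
    rw [sub_eq_zero] at h11
    exact h8 (by rw [h11])
  refine ⟨fun h11 => h10 (sub_eq_zero.2 h11), ?_⟩
  rw [← sub_mul, v.map_mul h10 hMg, hM.ms.val g hg] at h9
  linarith

/-- **One step of the descent, homogeneous.** -/
theorem DescM.step (D : DescM p v C P L LP G M T) (hN : Cld v N) (hiN : Imm v C N) (hNL : N ≤ L)
    {x : Ω} (hx : x ∈ PM v LP G M) (hT : TL v (PM v (clI v (N ⊔ P)) G M) x 0)
    (hop : ∀ φ ∈ T, ∀ Φ : Opr v (PM v LP G M), IsExt (PM v L G M) φ Φ →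
      Nr v (PM v (clI v (N ⊔ P)) G M) 0 (TWC.fn Φ x))
    (hh : (∃ f ∈ LP, ∃ g ∈ G, x = f * M g) ∨
      ∀ w ∈ PM v L G M, Lim v (PM v (clI v (N ⊔ P)) G M) 0 w →
        Spn p v (PM v (clI v (N ⊔ P)) G M) x w) :
    ∃ f ∈ L, ∃ g ∈ G, Nr' v (PM v (clI v (N ⊔ P)) G M) 0 (x - f * M g) ∧
      TL v (PM v (clI v (N ⊔ P)) G M) (f * M g) 0 ∧ TL v N f (-g) ∧
      (PM v LP G M = cadj v (PM v (clI v (N ⊔ P)) G M) x →
        PM v LP G M = cadj v (PM v (clI v (N ⊔ P)) G M) (f * M g) ∧ L = cadj v N f) := by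
  set B := clI v (N ⊔ P) with hB
  have hBc : Cld v B := cld_clI v _
  have hiB : Imm v P B := D.immB hNL
  have hBLP : B ≤ LP := D.BLP hNL
  have hsup : clI v (PM v N G M ⊔ PM v P G M) = PM v B G M := PM.sup.symm
  have hCN' : PM v C G M ≤ PM v N G M := PM.mono hiN.le
  have hNL' : PM v N G M ≤ PM v L G M := PM.mono hNL
  obtain ⟨u, hu, h1, h2, -, -⟩ := D.desc.step (N := PM v N G M) PM.cld hCN' hNL' hx
    (by rw [hsup]; exact hT) (by rw [hsup]; exact hop)
  rw [hsup] at h1 h2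
  -- the homogeneous generator
  obtain ⟨f, hf, g, hg, h3⟩ : ∃ f ∈ L, ∃ g ∈ G, Nr' v (PM v B G M) 0 (x - f * M g) := by
    rcases hh with ⟨f, hf, g, hg, rfl⟩ | hS
    · obtain ⟨b, hb, h4⟩ := h1
      obtain ⟨a, ha, b', hb', h5⟩ := down_gt D.cpl D.mP D.imm D.cld le_rfl D.mL D.LLP D.cldL D.vL
        hiB hBLP hBc hg hf hu hb h4
      refine ⟨a, ha, g, hg, b' * M g, mul_mem (PM.le hb') (PM.mon hg), ?_⟩
      have h6 := h5.mul_ge (RVal.ge_self (v := v) (M g))
      rw [D.mc.ms.val g hg] at h6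
      have e : f * M g - a * M g - b' * M g = (f - a - b') * M g := by ring
      rw [e]
      refine h6.mono ?_
      linarith
    · obtain ⟨f, hf, g, hg, ⟨b, hb, h4⟩, -, -⟩ := homog_step p hk.out D.mP D.cpl D.imm D.cld hiB
        hBLP hBc (fun g _ h => rt_div D.perf h) D.mL D.LLP D.cldL D.vL hu h2
        (fun w hw hl => (hS w hw hl).move h1)
      obtain ⟨b', hb', h5⟩ := h1
      refine ⟨f, hf, g, hg, b' + b, add_mem hb' hb, ?_⟩
      have e : x - f * M g - (b' + b) = (x - u - b') + (u - f * M g - b) := by ring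
      rw [e]
      exact h5.add h4
  obtain ⟨b, hb, h4⟩ := h3
  have h5 : Gt v 0 (f * M g - (x - b)) := by
    have := h4.neg
    rwa [show -(x - f * M g - b) = f * M g - (x - b) by ring] at this
  have h6 : TL v (PM v B G M) (f * M g) 0 := (hT.sub_mem hb).congr h5
  have hfL' : f * M g ∈ PM v L G M := mul_mem (PM.le hf) (PM.mon hg)
  have h7 : Lim v (PM v N G M) 0 (f * M g) :=
    D.desc.lim PM.cld hCN' hNL' hfL' (by rw [hsup]; exact h6.lim)
  have hNB : PM v N G M ≤ PM v B G M := PM.mono (le_sup_left.trans (TWC.self_le_clI v _))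
  have h8 : TL v N f (-g) := by
    have h9 := D.limN hN hiN hNL (D.LLP hf) hg h7
    rw [zero_sub] at h9
    exact tl_mon D.mc hg (h6.of_le hNB h7) h9
  refine ⟨f, hf, g, hg, ⟨b, hb, h4⟩, h6, h8, fun h9 => ?_⟩
  have h10 : cadj v (PM v B G M) (x - b) = PM v LP G M := by rw [cadj_sub_mem hb, h9]
  have h11 : PM v LP G M = cadj v (PM v B G M) (f * M g) := by
    rw [← h10]
    exact ((hT.sub_mem hb).cadj_congr (by rw [h10]; exact D.desc.le_LE hfL') h5).symm
  refine ⟨h11, ?_⟩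
  have h12 : PM v L G M = cadj v (PM v N G M) (f * M g) :=
    D.desc.eq_cadj hCN' hNL' hfL' (by rw [hsup]; exact h11)
  have h13 : cadj v (PM v N G M) (f * M g) = PM v (cadj v N f) G M := by
    rw [PM.cadj]
    have := cadj_affine (v := v) (A := PM v N G M) (z := f) (PM.mon hg) (D.mc.ms.ne g hg)
      (zero_mem _)
    rwa [add_zero, mul_comm] at this
  have hNf : cadj v N f ≤ L := cadj_le D.cldL hNL hf
  refine le_antisymm (fun l hl => ?_) hNf
  refine D.memN (cld_cadj v N f) (hiN.trans h8.imm) hNf hl ?_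
  rw [← h13, ← h12]
  exact PM.le hl

variable [CharP k p] [PerfectRing k p]

/-- Length one. -/
theorem descM_one (D : DescM p v C P L LP G M T) (h : Oper p v (PM v C G M) (PM v P G M) T)
    (hN : Nilp v T (PM v L G M) (PM v LP G M)) (hV : NSD p h) {y : Ω}
    (hy : TL v (PM v P G M) y 0) (hLP : PM v LP G M = cadj v (PM v P G M) y) :
    ∃ f ∈ L, ∃ s : ℝ, TL v C f s ∧ L = cadj v C f := by
  have hyL : y ∈ PM v LP G M := by
    rw [hLP]
    exact self_mem_cadj v _ y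
  have hX : ∀ x ∈ PM v LP G M, Lim v (PM v P G M) 0 x → Spn p v (PM v P G M) y x :=
    fun x hx hl => TWC.spn_of_mem p hy (hLP ▸ hx) hl
  have hB : clI v (C ⊔ P) = P := by
    rw [sup_eq_right.2 D.CP]
    exact le_antisymm D.cldP (TWC.self_le_clI v P)
  obtain ⟨f, hf, g, hg, -, -, h1, h2⟩ := D.step (N := C) (x := y) D.cldC (Imm.refl _) D.CL hyL
    (by rw [hB]; exact hy)
    (by rw [hB]; exact fun φ hφ Φ hΦ => TWC.triv_one p h hN hV D.desc hy hyL hX hφ hΦ)
    (Or.inr (by rw [hB]; exact fun w hw hl => hX w (D.desc.le_LE hw) hl))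
  exact ⟨f, hf, -g, h1, (h2 (by rw [hB]; exact hLP)).2⟩

omit [CharP k p] [PerfectRing k p] in
/-- Length two, from the actions on the two generators; the first is homogeneous. -/
theorem towR_two_of (D : DescM p v C P L LP G M T) {y z : Ω}
    (hF : Fib v (PM v P G M) (PM v LP G M) y z 0 0)
    (hh : (∃ f ∈ LP, ∃ g ∈ G, y = f * M g) ∨
      ∀ w ∈ PM v L G M, Lim v (PM v P G M) 0 w → Spn p v (PM v P G M) y w)
    (hop₁ : ∀ φ ∈ T, ∀ Φ : Opr v (PM v LP G M), IsExt (PM v L G M) φ Φ →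
      Nr v (PM v P G M) 0 (TWC.fn Φ y))
    (hop₂ : ∀ u ∈ PM v L G M, Nr' v (PM v P G M) 0 (y - u) → TL v (PM v C G M) u 0 →
      ∃ z', Fib v (PM v P G M) (PM v LP G M) u z' 0 0 ∧
        ∀ φ ∈ T, ∀ Φ : Opr v (PM v LP G M), IsExt (PM v L G M) φ Φ →
          Nr v (cadj v (PM v P G M) u) 0 (TWC.fn Φ z')) :
    TowR v 2 C L := by
  have hB : clI v (C ⊔ P) = P := by
    rw [sup_eq_right.2 D.CP]
    exact le_antisymm D.cldP (TWC.self_le_clI v P)
  have hyL : y ∈ PM v LP G M := by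
    rw [hF.eq]
    exact le_cadj _ _ _ (self_mem_cadj v _ y)
  obtain ⟨f, hf, g, hg, h1, h2, h3, -⟩ := D.step (N := C) (x := y) D.cldC (Imm.refl _) D.CL hyL
    (by rw [hB]; exact hF.ty) (by rw [hB]; exact hop₁) (by rw [hB]; exact hh)
  rw [hB] at h1 h2
  have hu : f * M g ∈ PM v L G M := mul_mem (PM.le hf) (PM.mon hg)
  have hMg := D.mc.ms.ne g hg
  have hlC : Lim v (PM v C G M) 0 (f * M g) := by
    refine D.desc.lim PM.cld le_rfl (PM.mono D.CL) hu ?_
    rw [← PM.sup, hB]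
    exact h2.lim
  obtain ⟨z', hF', hop⟩ := hop₂ _ hu h1 (h2.of_le (PM.mono D.CP) hlC)
  set N := cadj v C f with hN
  have hNL : N ≤ L := cadj_le D.cldL D.CL hf
  have hiN : Imm v C N := h3.imm
  have hB1 : clI v (N ⊔ P) = cadj v P f := by
    rw [hN]
    exact TWC.clI_cadj D.CP D.cldP f
  have hB2 : PM v (clI v (N ⊔ P)) G M = cadj v (PM v P G M) (f * M g) := by
    rw [hB1, PM.cadj]
    have := cadj_affine (v := v) (A := PM v P G M) (z := f) (PM.mon hg) hMg (zero_mem _)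
    rwa [add_zero, mul_comm, eq_comm] at this
  have hz'L : z' ∈ PM v LP G M := by
    rw [hF'.eq]
    exact self_mem_cadj v _ z'
  obtain ⟨f', hf', g', hg', -, -, h5, h6⟩ := D.step (N := N) (x := z') (cld_cadj v C f) hiN hNL
    hz'L (by rw [hB2]; exact hF'.tz) (by rw [hB2]; exact hop)
    (Or.inr (by
      rw [hB2]
      intro w hw hl
      refine TWC.spn_of_mem p hF'.tz ?_ hl
      rw [← hF'.eq]
      exact D.desc.le_LE hw))
  have h7 := (h6 (by rw [hB2]; exact hF'.eq)).2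
  refine TowR.succ h3 (TowR.succ h5 ?_)
  rw [← hN, ← h7]
  exact TowR.zero D.cldL

end Pool.Agent.TWS
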