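import Pool.Agent.Lib.TWS.MonH

/-!
# TANK W, row R6, part I: descent of towers from the fields with the monomials

* `PiH.pow`: the components of the `p`-th power;
* `DescM.comm`: the operators commute with the components;
* `act_mem_two`, `spn_act`: the image of the operators;
* `top_deg`: the argument of the top degree;
* `descend_pm`: **a tower of length `≤ 2`, with any radii, over `P` gives a tower over `C`**.
-/

set_option autoImplicit false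

open Polynomial

namespace Pool.Agent.TWS

open Pool.Agent.H15JM (RVal)
open Pool.Agent.LU1 (VPos adj)
open Pool.Agent.LUC (Cl clF)
open Pool.Agent.D2 (Ctx0)
open Pool.Agent.D2P (hen clI mem_clI)
open Pool.Agent.TWM
open Pool.Agent.TWC (Opr Tow clI_mono' clI_le' pcl mem_pcl Spn Desc Oper Nilp NSD IsExt fn_ge fn_mem
  fn_add fn_sub fn_sum MM cls)

universe u

variable {k Ω : Type u} [Field k] [Field Ω] [Algebra k Ω] {v : RVal Ω}
  {A₀ A B C P L LP N : IntermediateField k Ω} {G : AddSubgroup ℝ} {M : ℝ → Ω}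
  {p : ℕ} [hp : Fact p.Prime] [CharP Ω p]

/-! ### The components -/

omit hp [CharP Ω p] in
/-- The component of a sum. -/
theorem PiH.sumM {h : ℝ} {Q : PM v C G M →ₗ[k] Ω} (hQ : PiH v A₀ C G M h Q)
    {L : ℝ →₀ Ω} (hL : NF v A₀ C G L) (hx : evM M L ∈ PM v C G M) :
    Q ⟨evM M L, hx⟩ = ∑ g ∈ L.support, (open Classical in if g - h ∈ VG v A₀ then L g * M g
      else 0) := by
  classical
  have e : (⟨evM M L, hx⟩ : PM v C G M) = ∑ g ∈ L.support.attach,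
      (⟨L g * M g, mul_mem (PM.le (hL.mem g)) (PM.mon (hL.mem_G g.2))⟩ : PM v C G M) := by
    refine Subtype.ext ?_
    change evM M L = (PM v C G M).val (∑ g ∈ L.support.attach, _)
    rw [map_sum]
    change evM M L = ∑ g ∈ L.support.attach, L g * M g
    rw [Finset.sum_attach L.support fun g => L g * M g]
    rfl
  rw [e, map_sum, ← Finset.sum_attach L.support]
  refine Finset.sum_congr rfl fun g _ => ?_
  split_ifs with h1
  · exact hQ.mon _ (hL.mem g) _ (hL.mem_G g.2) h1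
  · exact hQ.mon0 _ (hL.mem g) _ (hL.mem_G g.2) h1

/-- The components of the `p`-th power. -/
theorem PiH.pow (hM : MonG v A₀ G M) (hi : Imm v A₀ C)
    (hV : ∀ g ∈ G, (p : ℝ) * g ∈ VG v A₀ → g ∈ VG v A₀) {h : ℝ} (hh : h ∈ G)
    {Q Q' : PM v C G M →ₗ[k] Ω} (hQ : PiH v A₀ C G M h Q) (hQ' : PiH v A₀ C G M (p * h) Q')
    (x : PM v C G M) : Q' (x ^ p) = Q x ^ p := by
  classical
  have hp0 : (p : ℝ) ≠ 0 := by exact_mod_cast hp.out.ne_zero
  rw [← sub_eq_zero]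
  refine TWC.eq_zero_of_ge (v := v) fun b => ?_
  obtain ⟨L, hL, h1⟩ := dense_PM hM hi x.2 (b / p)
  have hLC : evM M L ∈ PM v C G M := evM_mem_PM hL
  have hG : ∀ g ∈ L.support, g ∈ G := fun g hg => hL.mem_G hg
  have key : Q' (⟨evM M L, hLC⟩ ^ p) = Q ⟨evM M L, hLC⟩ ^ p := by
    rw [hQ.sumM hL, sum_pow_char]
    have e : ((⟨evM M L, hLC⟩ : PM v C G M) ^ p) = ∑ g ∈ L.support.attach,
        (⟨L g ^ p * M (p * g), mul_mem (PM.le (pow_mem (hL.mem g) p))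
          (PM.mon (by rw [← nsmul_eq_mul]; exact G.nsmul_mem (hG g g.2) p))⟩ : PM v C G M) := by
      refine Subtype.ext ?_
      change (evM M L) ^ p = (PM v C G M).val (∑ g ∈ L.support.attach, _)
      rw [map_sum]
      change (evM M L) ^ p = ∑ g ∈ L.support.attach, L g ^ p * M (p * g)
      rw [Finset.sum_attach L.support fun g => L g ^ p * M (p * g), evM, Finsupp.sum, sum_pow_char]
      refine Finset.sum_congr rfl fun g hg => ?_
      rw [mul_pow, hM.ms.pow (hG g hg) p]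
    rw [e, map_sum, ← Finset.sum_attach L.support]
    refine Finset.sum_congr rfl fun g _ => ?_
    have hgG := hG g g.2
    have hpg : (p : ℝ) * g ∈ G := by
      rw [← nsmul_eq_mul]
      exact G.nsmul_mem hgG p
    by_cases h2 : (g : ℝ) - h ∈ VG v A₀
    · rw [if_pos h2, hQ'.mon _ (pow_mem (hL.mem g) p) _ hpg (by
        rw [← mul_sub, ← nsmul_eq_mul]
        exact (VG v A₀).nsmul_mem h2 p), mul_pow, hM.ms.pow hgG p]
    · rw [if_neg h2, zero_pow hp.out.ne_zero, hQ'.mon0 _ (pow_mem (hL.mem g) p) _ hpg]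
      intro h3
      rw [← mul_sub] at h3
      exact h2 (hV _ (G.sub_mem hgG hh) h3)
  have h2 : v.Ge b (Q' (x ^ p) - Q' (⟨evM M L, hLC⟩ ^ p)) := by
    rw [← map_sub]
    refine hQ'.norm _ _ ?_
    change v.Ge b ((x : Ω) ^ p - evM M L ^ p)
    rw [← sub_pow_char]
    have := ge_pow h1 p
    rwa [mul_div_cancel₀ _ hp0] at this
  have h3 : v.Ge b (Q x ^ p - Q ⟨evM M L, hLC⟩ ^ p) := by
    rw [← sub_pow_char, ← map_sub]
    have := ge_pow (hQ.norm (x - ⟨evM M L, hLC⟩) (b / p) h1) p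
    rwa [mul_div_cancel₀ _ hp0] at this
  have e : Q' (x ^ p) - Q x ^ p = (Q' (x ^ p) - Q' (⟨evM M L, hLC⟩ ^ p)) -
      (Q x ^ p - Q ⟨evM M L, hLC⟩ ^ p) := by
    rw [key]
    ring
  rw [e]
  exact h2.sub h3

theorem PiH.pow_pow (hM : MonG v A₀ G M) (hi : Imm v A₀ C)
    (hV : ∀ g ∈ G, (p : ℝ) * g ∈ VG v A₀ → g ∈ VG v A₀)
    {Q : ℝ → PM v C G M →ₗ[k] Ω} (hQ : ∀ h ∈ G, PiH v A₀ C G M h (Q h)) {h : ℝ} (hh : h ∈ G)
    (x : PM v C G M) (i : ℕ) : Q ((p : ℝ) ^ i * h) (x ^ p ^ i) = Q h x ^ p ^ i := by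
  induction i with
  | zero => rw [pow_zero, pow_zero, pow_one, pow_one, one_mul]
  | succ i ih =>
    have hG : ∀ j : ℕ, (p : ℝ) ^ j * h ∈ G := fun j => by
      have := G.nsmul_mem hh (p ^ j)
      rwa [nsmul_eq_mul, Nat.cast_pow] at this
    have h1 := PiH.pow (p := p) hM hi hV (hG i) (hQ _ (hG i)) (Q' := Q ((p : ℝ) ^ (i + 1) * h)) (by
      rw [pow_succ', mul_assoc]
      have := hQ _ (hG (i + 1))
      rwa [pow_succ', mul_assoc] at this) (x ^ p ^ i)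
    rw [pow_succ p i, pow_mul, h1, ih, ← pow_mul]

section Deg

variable [IsAlgClosed Ω] {h0 : Ctx0 k v} {z : Ω}

/-- **The argument of the top degree.** -/
theorem top_deg (hM : MonG v A₀ G M) (hi : Imm v A₀ C)
    (hV : ∀ g ∈ G, (p : ℝ) * g ∈ VG v A₀ → g ∈ VG v A₀) (hz : TL v A z 0)
    {Q : ℝ → PM v C G M →ₗ[k] Ω} (hQ : ∀ h ∈ G, PiH v A₀ C G M h (Q h)) (g : PM v C G M) {a : ℕ}
    (ha : ∀ t ∈ G, Q t g ∈ Fil p h0 A z (a + 1)) {t : ℝ} (ht : t ∈ G)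
    (hta : Q t g ∉ Fil p h0 A z a) {n : ℕ} {q : ℕ → k} (hq : q n ≠ 0) :
    Q ((p : ℝ) ^ n * t) (∑ i ∈ Finset.range (n + 1), q i • g ^ p ^ i) ∉ Fil p h0 A z (n + a) := by
  intro h1
  rw [map_sum] at h1
  have hG : ∀ j : ℕ, (p : ℝ) ^ j * t ∈ G := fun j => by
    have := G.nsmul_mem ht (p ^ j)
    rwa [nsmul_eq_mul, Nat.cast_pow] at this
  have h2 : ∀ i ∈ Finset.range (n + 1), Q ((p : ℝ) ^ n * t) (q i • g ^ p ^ i) =
      q i • (Q ((p : ℝ) ^ (n - i) * t) g) ^ p ^ i := by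
    intro i hin
    have h3 : (p : ℝ) ^ n * t = (p : ℝ) ^ i * ((p : ℝ) ^ (n - i) * t) := by
      rw [← mul_assoc, ← pow_add, Nat.add_sub_cancel' (Nat.lt_succ_iff.1 (Finset.mem_range.1 hin))]
    rw [map_smul, h3, PiH.pow_pow hM hi hV hQ (hG (n - i))]
  rw [Finset.sum_congr rfl h2, Finset.sum_range_succ, Nat.sub_self, pow_zero, one_mul] at h1
  have h4 : ∑ i ∈ Finset.range n, q i • (Q ((p : ℝ) ^ (n - i) * t) g) ^ p ^ i ∈
      Fil p h0 A z (n + a) := by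
    refine sum_mem fun i hi => Submodule.smul_mem _ _ ?_
    refine Fil.mono p ?_ (Fil.pow_pow p (ha _ (hG (n - i))) i)
    have := Finset.mem_range.1 hi
    omega
  have h5 := sub_mem h1 h4
  rw [add_sub_cancel_left] at h5
  have h6 := Submodule.smul_mem _ (q n)⁻¹ h5
  rw [smul_smul, inv_mul_cancel₀ hq, one_smul] at h6
  refine Fil.pow_pow_not_mem p hz (ha t ht) hta n ?_
  rwa [add_comm a n]

end Deg

/-! ### The image of the operators -/

section Act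

variable [hk : Fact (Ctx0 k v)] [CharP k p] [PerfectRing k p] [IsAlgClosed Ω]
  {E LE : IntermediateField k Ω} {T : Submodule k (Opr v E)} {y z x : Ω}

omit [PerfectRing k p] in
/-- If the operators send the classes of `y` and `z` in `S` they send all the classes in `S`. -/
theorem act_mem_two (h : Oper p v C E T) (hF : Fib v E LE y z 0 0) (hz : Lim v E 0 z)
    {S : Submodule k (MM v E)} (hS : ∀ m ∈ S, MM.fr p v E m ∈ S)
    (hy1 : ∀ φ ∈ T, MM.act φ (cls v E y) ∈ S) (hz1 : ∀ φ ∈ T, MM.act φ (cls v E z) ∈ S)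
    (hx : x ∈ LE) (hl : Lim v E 0 x) : ∀ φ ∈ T, MM.act φ (cls v E x) ∈ S := by
  have key : ∀ m : MM v E, (∀ φ ∈ T, MM.act φ m ∈ S) → ∀ i : ℕ, ∀ φ ∈ T,
      MM.act φ ((MM.fr p v E)^[i] m) ∈ S := by
    intro m hm i
    induction i with
    | zero => exact fun φ hφ => hm φ hφ
    | succ i ih =>
      intro φ hφ
      obtain ⟨φ', hφ', h1⟩ := h.tw φ hφ
      rw [Function.iterate_succ_apply', MM.act_fr p h1]
      exact hS _ (ih φ' hφ')
  obtain ⟨n, c, m, c', h1⟩ := TWC.spn_two p h.cld hF hz hx hl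
  obtain ⟨hl1, hc1⟩ := TWC.cls_poly p hz n c
  obtain ⟨hl2, hc2⟩ := TWC.cls_poly p hF.ty.lim m c'
  have h2 : cls v E x = ∑ i ∈ Finset.range n, c i • (MM.fr p v E)^[i] (cls v E z) +
      ∑ i ∈ Finset.range m, c' i • (MM.fr p v E)^[i] (cls v E y) := by
    rw [← hc1, ← hc2, ← TWC.cls_add hl1 hl2]
    refine TWC.cls_congr hl (TWC.Lim.add hl1 hl2) ?_
    rwa [← sub_sub]
  intro φ hφ
  rw [h2, map_add, map_sum, map_sum]
  refine add_mem (sum_mem fun i _ => ?_) (sum_mem fun i _ => ?_)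
  · rw [map_smul]
    exact Submodule.smul_mem _ _ (key _ hz1 i φ hφ)
  · rw [map_smul]
    exact Submodule.smul_mem _ _ (key _ hy1 i φ hφ)

/-- The submodule of the classes spanned by `y`. -/
noncomputable def SpG (p : ℕ) [Fact p.Prime] [CharP k p] [CharP Ω p] (v : RVal Ω)
    [Fact (Ctx0 k v)] (E : IntermediateField k Ω) (y : Ω) : Submodule k (MM v E) :=
  Submodule.span k (Set.range fun i : ℕ => (MM.fr p v E)^[i] (cls v E y))

omit [PerfectRing k p] [IsAlgClosed Ω] in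
theorem SpG.fr {y : Ω} {m : MM v E} (hm : m ∈ SpG p v E y) : MM.fr p v E m ∈ SpG p v E y := by
  induction hm using Submodule.span_induction with
  | mem m hm =>
    obtain ⟨i, rfl⟩ := hm
    refine Submodule.subset_span ⟨i + 1, ?_⟩
    exact Function.iterate_succ_apply' _ _ _
  | zero =>
    rw [map_zero]
    exact zero_mem _
  | add a b _ _ ha hb =>
    rw [map_add]
    exact add_mem ha hb
  | smul c a _ ha =>
    rw [LinearMap.map_smulₛₗ]
    exact Submodule.smul_mem _ _ ha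

omit [PerfectRing k p] [IsAlgClosed Ω] in
theorem SpG.sum {y : Ω} {m : MM v E} (hm : m ∈ SpG p v E y) :
    ∃ (n : ℕ) (c : ℕ → k), m = ∑ i ∈ Finset.range n, c i • (MM.fr p v E)^[i] (cls v E y) := by
  obtain ⟨c, hc⟩ := Finsupp.mem_span_range_iff_exists_finsupp.1 hm
  refine ⟨c.support.sup id + 1, c, ?_⟩
  rw [← hc, Finsupp.sum]
  refine Finset.sum_subset (fun i hi => ?_) fun i _ hi => ?_
  · exact Finset.mem_range.2 (Nat.lt_succ_of_le (Finset.le_sup (f := id) hi))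
  · rw [Finsupp.notMem_support_iff.1 hi, zero_smul]

omit [PerfectRing k p] [IsAlgClosed Ω] in
theorem SpG.spn {y x : Ω} (hy : Lim v E 0 y) (hx : Lim v E 0 x) (hm : cls v E x ∈ SpG p v E y) :
    Spn p v E y x := by
  obtain ⟨n, c, hc⟩ := SpG.sum hm
  obtain ⟨hl1, hc1⟩ := TWC.cls_poly p hy n c
  exact ⟨n, c, TWC.nr_of_cls_eq hx hl1 (by rw [hc, hc1])⟩

omit [PerfectRing k p] [IsAlgClosed Ω] in
theorem SpG.of_spn {y x : Ω} (hy : Lim v E 0 y) (hx : Lim v E 0 x) (h : Spn p v E y x) :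
    cls v E x ∈ SpG p v E y := by
  obtain ⟨n, c, h1⟩ := h
  obtain ⟨hl1, hc1⟩ := TWC.cls_poly p hy n c
  rw [TWC.cls_congr hx hl1 h1, hc1]
  exact sum_mem fun i _ => Submodule.smul_mem _ _ (Submodule.subset_span ⟨i, rfl⟩)

omit [PerfectRing k p] in
/-- The image of the operators is in the span of `y`. -/
theorem spn_act (h : Oper p v C E T) (hD : Desc v C E T L LE) (hF : Fib v E LE y z 0 0)
    (hz : Lim v E 0 z)
    (hy1 : ∀ φ ∈ T, ∀ Φ : Opr v LE, IsExt L φ Φ → Nr v E 0 (TWC.fn Φ y))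
    (hz1 : ∀ φ ∈ T, ∀ Φ : Opr v LE, IsExt L φ Φ → Spn p v E y (TWC.fn Φ z))
    (hx : x ∈ LE) (hl : Lim v E 0 x) :
    ∀ φ ∈ T, ∀ Φ : Opr v LE, IsExt L φ Φ → Spn p v E y (TWC.fn Φ x) := by
  have hyL : y ∈ LE := by
    rw [hF.eq]
    exact le_cadj _ _ _ (self_mem_cadj v _ y)
  have hzL : z ∈ LE := by
    rw [hF.eq]
    exact self_mem_cadj v _ z
  intro φ hφ Φ hΦ
  obtain ⟨h1, h2⟩ := TWC.cls_opr hD.E_le hΦ.eq hx hl
  refine SpG.spn hF.ty.lim h1 ?_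
  rw [h2]
  refine act_mem_two h hF hz (fun m hm => SpG.fr hm) (fun ψ hψ => ?_) (fun ψ hψ => ?_) hx hl φ hφ
  · obtain ⟨Ψ, hΨ⟩ := hD.ext ψ hψ
    obtain ⟨h3, h4⟩ := TWC.cls_opr hD.E_le hΨ.eq hyL hF.ty.lim
    rw [← h4, (TWC.cls_eq_zero h3).2 (hy1 ψ hψ Ψ hΨ)]
    exact zero_mem _
  · obtain ⟨Ψ, hΨ⟩ := hD.ext ψ hψ
    obtain ⟨h3, h4⟩ := TWC.cls_opr hD.E_le hΨ.eq hzL hz
    rw [← h4]
    exact SpG.of_spn hF.ty.lim h3 (hz1 ψ hψ Ψ hΨ)

omit [PerfectRing k p] in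
/-- If the operators kill `y` and `z` they kill all the classes. -/
theorem nr_act (h : Oper p v C E T) (hD : Desc v C E T L LE) (hF : Fib v E LE y z 0 0)
    (hz : Lim v E 0 z)
    (hy1 : ∀ φ ∈ T, ∀ Φ : Opr v LE, IsExt L φ Φ → Nr v E 0 (TWC.fn Φ y))
    (hz1 : ∀ φ ∈ T, ∀ Φ : Opr v LE, IsExt L φ Φ → Nr v E 0 (TWC.fn Φ z))
    (hx : x ∈ LE) (hl : Lim v E 0 x) :
    ∀ φ ∈ T, ∀ Φ : Opr v LE, IsExt L φ Φ → Nr v E 0 (TWC.fn Φ x) := by
  have hyL : y ∈ LE := by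
    rw [hF.eq]
    exact le_cadj _ _ _ (self_mem_cadj v _ y)
  have hzL : z ∈ LE := by
    rw [hF.eq]
    exact self_mem_cadj v _ z
  intro φ hφ Φ hΦ
  obtain ⟨h1, h2⟩ := TWC.cls_opr hD.E_le hΦ.eq hx hl
  rw [← TWC.cls_eq_zero h1, h2]
  have h5 := act_mem_two h hF hz (S := ⊥) (fun m hm => by
    rw [Submodule.mem_bot] at hm ⊢
    rw [hm, map_zero]) (fun ψ hψ => ?_) (fun ψ hψ => ?_) hx hl φ hφ
  · exact (Submodule.mem_bot k).1 h5
  · obtain ⟨Ψ, hΨ⟩ := hD.ext ψ hψ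
    obtain ⟨h3, h4⟩ := TWC.cls_opr hD.E_le hΨ.eq hyL hF.ty.lim
    rw [← h4, (TWC.cls_eq_zero h3).2 (hy1 ψ hψ Ψ hΨ)]
    exact zero_mem _
  · obtain ⟨Ψ, hΨ⟩ := hD.ext ψ hψ
    obtain ⟨h3, h4⟩ := TWC.cls_opr hD.E_le hΨ.eq hzL hz
    rw [← h4, (TWC.cls_eq_zero h3).2 (hz1 ψ hψ Ψ hΨ)]
    exact zero_mem _

end Act

/-! ### The operators commute with the components -/

section Comm

variable [hk : Fact (Ctx0 k v)] [CharP k p] {T : Submodule k (Opr v (PM v P G M))}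

omit hp [CharP Ω p] [CharP k p] in
/-- **The operators commute with the components.** -/
theorem DescM.comm (D : DescM p v C P L LP G M T)
    (hlin : ∀ φ ∈ T, ∀ c ∈ PM v C G M, ∀ x ∈ PM v P G M, TWC.fn φ (c * x) = c * TWC.fn φ x)
    (hpres : ∀ φ ∈ T, ∀ e ∈ P, TWC.fn φ e ∈ P) {d : ℝ} (hd : d ∈ G)
    {Q : PM v LP G M →ₗ[k] Ω} (hQ : PiH v P LP G M d Q) {φ : Opr v (PM v P G M)} (hφ : φ ∈ T)
    {Φ : Opr v (PM v LP G M)} (hΦ : IsExt (PM v L G M) φ Φ) (x : PM v LP G M) :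
    TWC.fn Φ (Q x) = Q ⟨TWC.fn Φ x, fn_mem Φ x⟩ := by
  classical
  have hQm : ∀ x : PM v LP G M, Q x ∈ PM v LP G M := fun x => by
    obtain ⟨f, hf, h1⟩ := hQ.sub LP D.imm le_rfl D.cld x x.2
    rw [h1]
    exact mul_mem (PM.le hf) (PM.mon hd)
  -- the property
  let R : Ω → Prop := fun x => ∀ hx : x ∈ PM v LP G M,
    TWC.fn Φ (Q ⟨x, hx⟩) = Q ⟨TWC.fn Φ x, fn_mem Φ x⟩
  have hadd : ∀ x y, x ∈ PM v LP G M → y ∈ PM v LP G M → R x → R y → R (x + y) := by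
    intro x y hx hy h1 h2 hxy
    have e1 : (⟨x + y, hxy⟩ : PM v LP G M) = ⟨x, hx⟩ + ⟨y, hy⟩ := rfl
    have e2 : (⟨TWC.fn Φ (x + y), fn_mem Φ _⟩ : PM v LP G M) =
        ⟨TWC.fn Φ x, fn_mem Φ x⟩ + ⟨TWC.fn Φ y, fn_mem Φ y⟩ := Subtype.ext (fn_add Φ hx hy)
    rw [e1, e2, map_add, map_add, fn_add Φ (hQm _) (hQm _), h1 hx, h2 hy]
  have hzero : R 0 := by
    intro hx
    have e1 : (⟨0, hx⟩ : PM v LP G M) = 0 := rfl
    have e2 : (⟨TWC.fn Φ 0, fn_mem Φ _⟩ : PM v LP G M) = 0 := Subtype.ext (TWC.fn_zero Φ)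
    rw [e1, e2, map_zero, TWC.fn_zero]
  have hlim : ∀ x, (∀ b : ℝ, ∃ y ∈ PM v LP G M, R y ∧ v.Ge b (x - y)) → R x := by
    intro x h hx
    rw [← sub_eq_zero]
    refine TWC.eq_zero_of_ge (v := v) fun b => ?_
    obtain ⟨y, hy, h1, h2⟩ := h b
    have h3 : v.Ge b (TWC.fn Φ (Q ⟨x, hx⟩) - TWC.fn Φ (Q ⟨y, hy⟩)) := by
      refine TWC.fn_near Φ (hQm _) (hQm _) ?_
      rw [← map_sub]
      exact hQ.norm _ _ h2
    have h4 : v.Ge b (Q ⟨TWC.fn Φ x, fn_mem Φ x⟩ - Q ⟨TWC.fn Φ y, fn_mem Φ y⟩) := by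
      rw [← map_sub]
      exact hQ.norm _ _ (TWC.fn_near Φ hx hy h2)
    have e : TWC.fn Φ (Q ⟨x, hx⟩) - Q ⟨TWC.fn Φ x, fn_mem Φ x⟩ =
        (TWC.fn Φ (Q ⟨x, hx⟩) - TWC.fn Φ (Q ⟨y, hy⟩)) -
          (Q ⟨TWC.fn Φ x, fn_mem Φ x⟩ - Q ⟨TWC.fn Φ y, fn_mem Φ y⟩) := by
      rw [h1 hy]
      ring
    rw [e]
    exact h3.sub h4
  have hsum : ∀ {ι : Type} (S : Finset ι) (f : ι → Ω), (∀ i ∈ S, f i ∈ PM v LP G M) →
      (∀ i ∈ S, R (f i)) → R (∑ i ∈ S, f i) := by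
    intro ι S f hf h
    induction S using Finset.induction_on with
    | empty =>
      rw [Finset.sum_empty]
      exact hzero
    | insert i S hi ih =>
      rw [Finset.sum_insert hi]
      exact hadd _ _ (hf i (Finset.mem_insert_self _ _))
        (sum_mem fun j hj => hf j (Finset.mem_insert_of_mem hj))
        (h i (Finset.mem_insert_self _ _))
        (ih (fun j hj => hf j (Finset.mem_insert_of_mem hj))
          fun j hj => h j (Finset.mem_insert_of_mem hj))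
  -- the products of homogeneous elements
  have hbase : ∀ l ∈ L, ∀ e ∈ P, ∀ g ∈ G, ∀ g' ∈ G, R ((l * M g) * (e * M g')) := by
    intro l hl e he g hg g' hg' hx
    have hgg : g + g' ∈ G := G.add_mem hg hg'
    have hle : l * e ∈ LP := mul_mem (D.LLP hl) (D.PLP he)
    have hlφ : l * TWC.fn φ e ∈ LP := mul_mem (D.LLP hl) (D.PLP (hpres φ hφ e he))
    have e1 : (l * M g) * (e * M g') = (l * e) * M (g + g') := by
      rw [D.mc.ms.mul _ hg _ hg']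
      ring
    have e2 : TWC.fn Φ ((l * M g) * (e * M g')) = (l * TWC.fn φ e) * M (g + g') := by
      rw [hΦ.lin _ (mul_mem (PM.le hl) (PM.mon hg)) _
        (mul_mem (PM.le (D.PLP he)) (PM.mon hg')), hΦ.eq _ (mul_mem (PM.le he) (PM.mon hg')),
        mul_comm e, hlin φ hφ _ (PM.mon hg') _ (PM.le he), D.mc.ms.mul _ hg _ hg']
      ring
    have e3 : (⟨(l * M g) * (e * M g'), hx⟩ : PM v LP G M) =
        ⟨(l * e) * M (g + g'), mul_mem (PM.le hle) (PM.mon hgg)⟩ := Subtype.ext e1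
    have e4 : (⟨TWC.fn Φ ((l * M g) * (e * M g')), fn_mem Φ _⟩ : PM v LP G M) =
        ⟨(l * TWC.fn φ e) * M (g + g'), mul_mem (PM.le hlφ) (PM.mon hgg)⟩ := Subtype.ext e2
    rw [e3, e4]
    by_cases h1 : g + g' - d ∈ VG v P
    · rw [hQ.mon _ hle _ hgg h1, hQ.mon _ hlφ _ hgg h1, ← e1, e2]
    · rw [hQ.mon0 _ hle _ hgg h1, hQ.mon0 _ hlφ _ hgg h1, TWC.fn_zero]
  have hev : ∀ {A : IntermediateField k Ω} {F : ℝ →₀ Ω}, NF v A A G F → A ≤ LP →
      evM M F ∈ PM v LP G M := fun hF hA => sum_mem fun g hg =>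
    mul_mem (PM.le (hA (hF.mem g))) (PM.mon (hF.mem_G hg))
  have happ : ∀ {a a' : Ω} (b : ℝ), (∀ b' : ℝ, ∃ c ∈ PM v LP G M, R (c * a') ∧ v.Ge b' (a - c)) →
      a' ∈ PM v LP G M → ∃ y ∈ PM v LP G M, R y ∧ v.Ge b (a * a' - y) := by
    intro a a' b h ha'
    obtain ⟨c, hc, h1, h2⟩ := h (b - v a')
    refine ⟨c * a', mul_mem hc ha', h1, ?_⟩
    rw [← sub_mul]
    have := h2.mul (RVal.ge_self (v := v) a')
    rwa [sub_add_cancel] at this
  have hmid : ∀ l ∈ PM v L G M, ∀ e ∈ P, ∀ g' ∈ G, R (l * (e * M g')) := by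
    intro l hl e he g' hg'
    refine hlim _ fun b => happ b (fun b' => ?_) (mul_mem (PM.le (D.PLP he)) (PM.mon hg'))
    obtain ⟨F, hF, h1⟩ := dense_PM D.mL (Imm.refl _) hl b'
    refine ⟨evM M F, hev hF D.LLP, ?_, h1⟩
    rw [evM, Finsupp.sum, Finset.sum_mul]
    exact hsum _ _ (fun g hg => mul_mem (mul_mem (PM.le (D.LLP (hF.mem g))) (PM.mon (hF.mem_G hg)))
      (mul_mem (PM.le (D.PLP he)) (PM.mon hg'))) fun g hg => hbase _ (hF.mem g) _ he _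
      (hF.mem_G hg) _ hg'
  have htop : ∀ l ∈ PM v L G M, ∀ e ∈ PM v P G M, R (l * e) := by
    intro l hl e he
    have hlLP : l ∈ PM v LP G M := PM.mono D.LLP hl
    refine hlim _ fun b => ?_
    obtain ⟨y, hy, h1, h2⟩ := happ (a := e) (a' := l) b (fun b' => by
      obtain ⟨F, hF, h1⟩ := dense_PM D.mP (Imm.refl _) he b'
      refine ⟨evM M F, hev hF D.PLP, ?_, h1⟩
      rw [evM, Finsupp.sum, Finset.sum_mul]
      refine hsum _ _ (fun g hg => mul_mem (mul_mem (PM.le (D.PLP (hF.mem g)))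
        (PM.mon (hF.mem_G hg))) hlLP) fun g hg => ?_
      rw [mul_comm]
      exact hmid _ hl _ (hF.mem g) _ (hF.mem_G hg)) hlLP
    exact ⟨y, hy, h1, by rwa [mul_comm l e]⟩
  refine hlim (x : Ω) (fun b => ?_) x.2
  obtain ⟨n, l, e, hl, he, h1⟩ := D.desc.dense x x.2 b
  have hle : ∀ i ∈ Finset.univ, l i * e i ∈ PM v LP G M := fun i _ =>
    mul_mem (PM.mono D.LLP (hl i)) (PM.mono D.PLP (he i))
  exact ⟨_, sum_mem hle, hsum _ _ hle fun i _ => htop _ (hl i) _ (he i), h1⟩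

end Comm

end Pool.Agent.TWS
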