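import Pool.Agent.Lib.TWS.Ac
import Mathlib.FieldTheory.Extension
import Mathlib.FieldTheory.RatFunc.AsPolynomial

/-!
# TANK W: embeddings in a spherically complete field, the transcendental step

`A ≤ Ω` algebraically closed in `Ω`, `φ : A → H` isometric, `H` spherically complete with all
values; `z ∉ A`. Then `φ` extends to an isometric embedding of `A(z)`.
-/

set_option autoImplicit false

open Polynomial IntermediateField

namespace Pool.Agent.TWS

open Pool.Agent.H15JM (RVal)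
open Pool.Agent.LU1 (VPos)
open Pool.Agent.D2 (Ctx0)
open Pool.Agent.TWM

universe u

variable {k Ω H : Type u} [Field k] [Field Ω] [Algebra k Ω] [Field H] [Algebra k H]
  {v : RVal Ω} {w : RVal H}

/-- The lift is isometric. -/
def IsoL (v : RVal Ω) (w : RVal H) (σ : Lifts k Ω H) : Prop :=
  ∀ a : σ.carrier, a ≠ 0 → w (σ.emb a) = v (a : Ω)

theorem IsoL.ge {σ : Lifts k Ω H} (h : IsoL v w σ) {a : σ.carrier} {c : ℝ} :
    w.Ge c (σ.emb a) ↔ v.Ge c (a : Ω) := by
  by_cases h0 : a = 0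
  · subst h0
    simp only [map_zero, ZeroMemClass.coe_zero]
    exact ⟨fun _ => RVal.Ge.zero, fun _ => RVal.Ge.zero⟩
  · have h1 : σ.emb a ≠ 0 := (_root_.map_ne_zero _).2 h0
    have h2 : (a : Ω) ≠ 0 := fun h => h0 (Subtype.ext h)
    constructor
    · intro h3 _
      rw [← h a h0]
      exact h3 h1
    · intro h3 _
      rw [h a h0]
      exact h3 h2

omit [Algebra k Ω] [Field k] in
/-- the value of a sum -/
theorem val_add_lt {x y : Ω} (hx : x ≠ 0) (h : y ≠ 0 → v x < v y) :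
    x + y ≠ 0 ∧ v (x + y) = v x := by
  refine Gt.val_eq hx ?_
  have e : x - (x + y) = -y := by ring
  rw [e]
  exact Gt.neg h

/-- The image of `z`. -/
theorem IsoL.exists_zeta (hk : Ctx0 k v) (hw : SphC w) (hval : ∀ ρ : ℝ, ∃ x : H, x ≠ 0 ∧ w x = ρ)
    {σ : Lifts k Ω H} (h : IsoL v w σ) {z : Ω} (hz : z ∉ σ.carrier) :
    ∃ ζ : H, ∀ a : σ.carrier, ζ - σ.emb a ≠ 0 ∧ w (ζ - σ.emb a) = v (z - a) := by
  have hza : ∀ a : σ.carrier, z - (a : Ω) ≠ 0 := fun a h0 => by
    rw [sub_eq_zero] at h0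
    exact hz (h0 ▸ a.2)
  by_cases hbest : ∃ a : σ.carrier, ∀ b : σ.carrier, v (z - b) ≤ v (z - a)
  · obtain ⟨a, ha⟩ := hbest
    obtain ⟨c, hc, hcv⟩ := hval (v (z - a))
    have hne : ∀ b : σ.carrier, b ≠ 0 → v (b : Ω) ≠ v (z - a) := by
      intro b hb h1
      have hb' : (b : Ω) ≠ 0 := fun h => hb (Subtype.ext h)
      obtain ⟨κ, -, hκ⟩ := hk.res ((z - a) / b) (div_ne_zero (hza a) hb') (by
        rw [v.map_div (hza a) hb', h1, sub_self])
      have h2 := ha (a + b * algebraMap k σ.carrier κ)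
      have h3 := hza (a + b * algebraMap k σ.carrier κ)
      have e : z - ((a + b * algebraMap k σ.carrier κ : σ.carrier) : Ω) =
          b * ((z - a) / b - algebraMap k Ω κ) := by
        push_cast
        field_simp
        ring
      have h4 : (z - a) / b - algebraMap k Ω κ ≠ 0 := by
        intro h5
        rw [e, h5, mul_zero] at h3
        exact h3 rfl
      rw [e, v.map_mul hb' h4, h1] at h2
      have := hκ h4
      linarith
    refine ⟨σ.emb a + c, fun b => ?_⟩
    by_cases hab : a = b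
    · subst hab
      rw [add_sub_cancel_left]
      exact ⟨hc, hcv⟩
    · have h1 : a - b ≠ 0 := sub_ne_zero.2 hab
      have h1' : (a : Ω) - b ≠ 0 := fun h => h1 (Subtype.ext h)
      have h2 := hne _ h1
      have e : σ.emb a + c - σ.emb b = σ.emb (a - b) + c := by rw [map_sub]; ring
      have e' : z - (b : Ω) = ((a : Ω) - b) + (z - a) := by ring
      have h3 : w (σ.emb (a - b)) = v ((a : Ω) - b) := h _ h1
      have h4 : σ.emb (a - b) ≠ 0 := (_root_.map_ne_zero _).2 h1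
      rw [e, e']
      rcases lt_or_gt_of_ne h2 with h5 | h5
      · have h6 := val_add_lt (v := w) h4 (y := c) fun _ => by rw [h3, hcv]; exact h5
        have h7 := val_add_lt (v := v) h1' (y := z - a) fun _ => h5
        exact ⟨h6.1, by rw [h6.2, h7.2, h3]⟩
      · have h6 := val_add_lt (v := w) hc (y := σ.emb (a - b)) fun _ => by rw [h3, hcv]; exact h5
        have h7 := val_add_lt (v := v) (hza a) (y := (a : Ω) - b) fun _ => h5
        rw [add_comm (σ.emb (a - b)), add_comm ((a : Ω) - b)]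
        exact ⟨h6.1, by rw [h6.2, h7.2, hcv]⟩
  · push Not at hbest
    obtain ⟨b, hb, hcof⟩ := exists_cofinal (fun a : σ.carrier => v (z - a)) hbest
    obtain ⟨ζ, hζ⟩ := hw (fun n => σ.emb (b n)) (fun n => v (z - b n)) fun n m hnm => by
      rw [← map_sub, h.ge]
      have e : ((b m - b n : σ.carrier) : Ω) = (z - b n) - (z - b m) := by
        push_cast
        ring
      rw [e]
      exact (RVal.ge_self _).sub ((RVal.ge_self _).mono (hb.monotone hnm))
    refine ⟨ζ, fun a => ?_⟩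
    obtain ⟨n, hn⟩ := hcof a
    have h1 : v ((b n : Ω) - a) = v (z - a) := by
      have e : (b n : Ω) - a = (z - a) + -(z - b n) := by ring
      rw [e]
      exact (val_add_lt (hza a) fun h0 => by
        rw [v.map_neg _ (hza _)]
        exact hn).2
    have h2 : b n - a ≠ 0 := by
      intro h3
      have h4 : (b n : Ω) = a := congrArg Subtype.val (sub_eq_zero.1 h3)
      rw [h4] at hn
      exact lt_irrefl _ hn
    have h3 : w (σ.emb (b n - a)) = v (z - a) := by
      rw [h _ h2]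
      exact h1
    have h4 : σ.emb (b n - a) ≠ 0 := (_root_.map_ne_zero _).2 h2
    have e : ζ - σ.emb a = σ.emb (b n - a) + (ζ - σ.emb (b n)) := by rw [map_sub]; ring
    have h5 := val_add_lt (v := w) h4 (y := ζ - σ.emb (b n)) fun h0 => by
      rw [h3]
      exact lt_of_lt_of_le hn (hζ n h0)
    rw [e]
    exact ⟨h5.1, by rw [h5.2, h3]⟩

/-- The intermediate field is algebraically closed. -/
theorem isAlgClosed_of_closed [IsAlgClosed Ω] {A : IntermediateField k Ω}
    (hA : ∀ θ : Ω, IsAlgebraic A θ → θ ∈ A) : IsAlgClosed A := by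
  refine IsAlgClosed.of_exists_root A fun P _ hirr => ?_
  have hdeg : P.degree ≠ 0 := (Polynomial.degree_pos_of_irreducible hirr).ne'
  obtain ⟨θ, hθ⟩ := IsAlgClosed.exists_aeval_eq_zero Ω P hdeg
  refine ⟨⟨θ, hA θ ⟨P, hirr.ne_zero, hθ⟩⟩, ?_⟩
  refine (algebraMap A Ω).injective ?_
  rw [map_zero, ← coe_aeval_eq_eval]
  have := aeval_algebraMap_apply Ω (⟨θ, hA θ ⟨P, hirr.ne_zero, hθ⟩⟩ : A) P
  rw [← this]
  exact hθ

/-- The values of the polynomials at `z`. -/
theorem val_poly [IsAlgClosed Ω] {σ : Lifts k Ω H} (h : IsoL v w σ)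
    (hA : ∀ θ : Ω, IsAlgebraic σ.carrier θ → θ ∈ σ.carrier) {z : Ω} {ζ : H}
    (hz : z ∉ σ.carrier)
    (hζ : ∀ a : σ.carrier, ζ - σ.emb a ≠ 0 ∧ w (ζ - σ.emb a) = v (z - a))
    (f : Polynomial σ.carrier) (hf : f ≠ 0) :
    eval₂ (σ.emb : σ.carrier →+* H) ζ f ≠ 0 ∧ aeval z f ≠ 0 ∧
      w (eval₂ (σ.emb : σ.carrier →+* H) ζ f) = v (aeval z f) := by
  have _ := isAlgClosed_of_closed hA
  have hza : ∀ a : σ.carrier, z - (a : Ω) ≠ 0 := fun a h0 => by
    rw [sub_eq_zero] at h0
    exact hz (h0 ▸ a.2)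
  have key : ∀ s : Multiset σ.carrier,
      (s.map fun a => ζ - σ.emb a).prod ≠ 0 ∧ (s.map fun a : σ.carrier => z - (a : Ω)).prod ≠ 0 ∧
        w (s.map fun a => ζ - σ.emb a).prod = v (s.map fun a : σ.carrier => z - (a : Ω)).prod := by
    intro s
    induction s using Multiset.induction_on with
    | empty => simp [w.map_one, v.map_one]
    | cons a s ih =>
      obtain ⟨h1, h2, h3⟩ := ih
      simp only [Multiset.map_cons, Multiset.prod_cons]
      refine ⟨mul_ne_zero (hζ a).1 h1, mul_ne_zero (hza a) h2, ?_⟩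
      rw [w.map_mul (hζ a).1 h1, v.map_mul (hza a) h2, (hζ a).2, h3]
  obtain ⟨h1, h2, h3⟩ := key f.roots
  have hlc : f.leadingCoeff ≠ 0 := leadingCoeff_ne_zero.2 hf
  have e1 : eval₂ (σ.emb : σ.carrier →+* H) ζ f = σ.emb f.leadingCoeff *
      (f.roots.map fun a => ζ - σ.emb a).prod := by
    conv_lhs => rw [(IsAlgClosed.splits f).eq_prod_roots]
    rw [eval₂_mul, eval₂_C, eval₂_multiset_prod, Multiset.map_map]
    simp
  have e2 : aeval z f = (f.leadingCoeff : Ω) * (f.roots.map fun a : σ.carrier => z - (a : Ω)).prod := by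
    conv_lhs => rw [(IsAlgClosed.splits f).eq_prod_roots]
    rw [map_mul, aeval_C, map_multiset_prod, Multiset.map_map]
    simp
  have h4 : σ.emb f.leadingCoeff ≠ 0 := (_root_.map_ne_zero _).2 hlc
  have h5 : (f.leadingCoeff : Ω) ≠ 0 := fun h => hlc (Subtype.ext h)
  rw [e1, e2]
  refine ⟨mul_ne_zero h4 h1, mul_ne_zero h5 h2, ?_⟩
  rw [w.map_mul h4 h1, v.map_mul h5 h2, h _ hlc, h3]

/-- **The transcendental step.** -/
theorem IsoL.trans_step [IsAlgClosed Ω] (hk : Ctx0 k v) (hw : SphC w)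
    (hval : ∀ ρ : ℝ, ∃ x : H, x ≠ 0 ∧ w x = ρ) {σ : Lifts k Ω H} (h : IsoL v w σ)
    (hA : ∀ θ : Ω, IsAlgebraic σ.carrier θ → θ ∈ σ.carrier) {z : Ω} (hz : z ∉ σ.carrier) :
    ∃ τ : Lifts k Ω H, σ ≤ τ ∧ IsoL v w τ ∧ z ∈ τ.carrier := by
  obtain ⟨ζ, hζ⟩ := h.exists_zeta hk hw hval hz
  have hpoly := val_poly h hA hz hζ
  have htr : Transcendental σ.carrier z := fun h0 => hz (hA z h0)
  let _ : Algebra σ.carrier H := (σ.emb : σ.carrier →+* H).toAlgebra
  have _ : IsScalarTower k σ.carrier H := IsScalarTower.of_algebraMap_eq fun c =>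
    (σ.emb.commutes c).symm
  have hζtr : Transcendental σ.carrier ζ := by
    rintro ⟨f, hf, hf0⟩
    exact (hpoly f hf).1 hf0
  let e₁ := RatFunc.algEquivOfTranscendental z htr
  let e₂ := RatFunc.algEquivOfTranscendental ζ hζtr
  let ψ : (σ.carrier⟮z⟯ : IntermediateField σ.carrier Ω) →ₐ[σ.carrier] H :=
    (IntermediateField.val _).comp (e₂.toAlgHom.comp e₁.symm.toAlgHom)
  have hgen : ψ (AdjoinSimple.gen σ.carrier z) = ζ := by
    have h1 := RatFunc.algEquivOfTranscendental_symm_aeval z htr X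
    rw [aeval_X] at h1
    change ((e₂ (e₁.symm (AdjoinSimple.gen σ.carrier z)) : _) : H) = ζ
    rw [h1, RatFunc.algebraMap_X]
    exact RatFunc.algEquivOfTranscendental_X ζ hζtr
  have hψ : ∀ f : Polynomial σ.carrier, ψ (aeval (AdjoinSimple.gen σ.carrier z) f) =
      eval₂ (σ.emb : σ.carrier →+* H) ζ f := by
    intro f
    rw [← aeval_algHom_apply, hgen]
    rfl
  have hval : ∀ f : Polynomial σ.carrier,
      ((aeval (AdjoinSimple.gen σ.carrier z) f : σ.carrier⟮z⟯) : Ω) = aeval z f := by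
    intro f
    have := aeval_algHom_apply (IntermediateField.val (σ.carrier⟮z⟯)) (AdjoinSimple.gen σ.carrier z) f
    exact this.symm
  have hiso : ∀ x : σ.carrier⟮z⟯, x ≠ 0 → w (ψ x) = v (x : Ω) := by
    intro x hx0
    obtain ⟨r, s, hrs⟩ := (IntermediateField.mem_adjoin_simple_iff σ.carrier (x : Ω)).1 x.2
    have hx0' : (x : Ω) ≠ 0 := fun h0 => hx0 (Subtype.ext h0)
    have hr : r ≠ 0 := by
      rintro rfl
      rw [map_zero, zero_div] at hrs
      exact hx0' hrs
    have hs : s ≠ 0 := by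
      rintro rfl
      rw [map_zero, div_zero] at hrs
      exact hx0' hrs
    have e1 : x = aeval (AdjoinSimple.gen σ.carrier z) r /
        aeval (AdjoinSimple.gen σ.carrier z) s := by
      refine Subtype.ext ?_
      rw [hrs, ← hval, ← hval]
      rfl
    have e2 : ψ x = eval₂ (σ.emb : σ.carrier →+* H) ζ r /
        eval₂ (σ.emb : σ.carrier →+* H) ζ s := by
      rw [e1, map_div₀, hψ, hψ]
    obtain ⟨h1, h2, h3⟩ := hpoly r hr
    obtain ⟨h4, h5, h6⟩ := hpoly s hs
    rw [e2, w.map_div h1 h4, h3, h6, hrs, v.map_div h2 h5]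
  refine ⟨⟨(σ.carrier⟮z⟯).restrictScalars k, ψ.restrictScalars k⟩, ⟨?_, ?_⟩, ?_, ?_⟩
  · intro a ha
    exact (σ.carrier⟮z⟯).algebraMap_mem ⟨a, ha⟩
  · intro a
    exact ψ.commutes a
  · exact hiso
  · exact IntermediateField.mem_adjoin_simple_self σ.carrier z

end Pool.Agent.TWS
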